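import Mathlib

open Filter Topology Set

namespace Run7.h251

/-- standard substochastic semigroup on a type `S` -/
structure IsStd {S : Type} [DecidableEq S] (p : ℝ → S → S → ℝ) : Prop where
  nonneg : ∀ t, 0 ≤ t → ∀ x y, 0 ≤ p t x y
  summable : ∀ t, 0 ≤ t → ∀ x, Summable (p t x)
  sum_le : ∀ t, 0 ≤ t → ∀ x, ∑' y, p t x y ≤ 1
  chapman : ∀ s t, 0 ≤ s → 0 ≤ t → ∀ x y, HasSum (fun z => p s x z * p t z y) (p (s + t) x y)
  standard : ∀ x y, Tendsto (fun t => p t x y) (𝓝[>] 0) (𝓝 (if x = y then 1 else 0))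

structure PreSemi {S : Type} [DecidableEq S] (Sn : ℕ → Finset S) (pn : ℕ → ℝ → S → S → ℝ) :
    Prop where
  nonneg : ∀ n t, 0 ≤ t → ∀ x y, 0 ≤ pn n t x y
  supp : ∀ n t x y, y ∉ Sn n → pn n t x y = 0
  row : ∀ n t, 0 ≤ t → ∀ x, ∑ y ∈ Sn n, pn n t x y ≤ 1
  chap : ∀ n s t, 0 ≤ s → 0 ≤ t → ∀ x y, pn n (s + t) x y = ∑ z ∈ Sn n, pn n s x z * pn n t z y
  u1 : ∀ z, ∀ ε > 0, ∃ δ > 0, ∀ᶠ n in atTop, ∀ t ∈ Icc (0:ℝ) δ, 1 - ε ≤ pn n t z z
  u2 : ∀ x t, 0 ≤ t → ∀ ε > 0, ∃ B : Finset S, ∀ᶠ n in atTop, ∑ y ∈ Sn n \ B, pn n t x y ≤ ε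

variable {S : Type} [DecidableEq S] {Sn : ℕ → Finset S} {pn : ℕ → ℝ → S → S → ℝ}

lemma PreSemi.sum_any (h : PreSemi Sn pn) (n : ℕ) {t : ℝ} (ht : 0 ≤ t) (x : S) (B : Finset S) :
    ∑ y ∈ B, pn n t x y ≤ 1 := by
  have h1 : ∑ y ∈ B, pn n t x y = ∑ y ∈ B ∩ Sn n, pn n t x y := by
    symm
    refine Finset.sum_subset Finset.inter_subset_left fun y hy hy' => h.supp n t x y ?_
    intro hc; exact hy' (Finset.mem_inter.2 ⟨hy, hc⟩)
  rw [h1]
  exact (Finset.sum_le_sum_of_subset_of_nonneg Finset.inter_subset_right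
    (fun y _ _ => h.nonneg n t ht x y)).trans (h.row n t ht x)

lemma PreSemi.le_one (h : PreSemi Sn pn) (n : ℕ) {t : ℝ} (ht : 0 ≤ t) (x y : S) :
    pn n t x y ≤ 1 := by
  simpa using h.sum_any n ht x {y}

theorem PreSemi.exists_limit (h : PreSemi Sn pn) :
    ∃ p : ℝ → S → S → ℝ, IsStd p ∧
      ∀ t, 0 ≤ t → ∀ x y, Tendsto (fun n => pn n t x y) (hyperfilter ℕ : Filter ℕ) (𝓝 (p t x y)) := by
  classical
  have hlim : ∀ t x y, ∃ l : ℝ, 0 ≤ t →
      Tendsto (fun n => pn n t x y) (hyperfilter ℕ : Filter ℕ) (𝓝 l) := by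
    intro t x y
    by_cases ht : 0 ≤ t
    · have hc : IsCompact (Icc (0:ℝ) 1) := isCompact_Icc
      have hmem : (Ultrafilter.map (fun n => pn n t x y) (hyperfilter ℕ) : Filter ℝ)
          ≤ 𝓟 (Icc (0:ℝ) 1) := by
        rw [le_principal_iff]
        simp only [Ultrafilter.coe_map, mem_map]
        exact univ_mem' fun n => ⟨h.nonneg n t ht x y, h.le_one n ht x y⟩
      obtain ⟨l, _, hl⟩ := hc.ultrafilter_le_nhds _ hmem
      exact ⟨l, fun _ => hl⟩
    · exact ⟨0, fun h => absurd h ht⟩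
  choose p hp using hlim
  have hev : ∀ {P : ℕ → Prop}, (∀ᶠ n in atTop, P n) → ∀ᶠ n in (hyperfilter ℕ : Filter ℕ), P n := by
    intro P hP
    have : (hyperfilter ℕ : Filter ℕ) ≤ atTop := by
      rw [← Nat.cofinite_eq_atTop]; exact hyperfilter_le_cofinite
    exact this hP
  have hp' : ∀ t, 0 ≤ t → ∀ x y,
      Tendsto (fun n => pn n t x y) (hyperfilter ℕ : Filter ℕ) (𝓝 (p t x y)) :=
    fun t ht x y => hp t x y ht
  have h0 : ∀ t, 0 ≤ t → ∀ x y, 0 ≤ p t x y := fun t ht x y =>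
    ge_of_tendsto (hp' t ht x y) (Eventually.of_forall fun n => h.nonneg n t ht x y)
  have hfin : ∀ t, 0 ≤ t → ∀ x (B : Finset S), ∑ y ∈ B, p t x y ≤ 1 := by
    intro t ht x B
    exact le_of_tendsto (tendsto_finsetSum B fun y _ => hp' t ht x y)
      (Eventually.of_forall fun n => h.sum_any n ht x B)
  have hsum : ∀ t, 0 ≤ t → ∀ x, Summable (p t x) := fun t ht x =>
    summable_of_sum_le (h0 t ht x) (hfin t ht x)
  have hle1 : ∀ t, 0 ≤ t → ∀ x y, p t x y ≤ 1 := by
    intro t ht x y; simpa using hfin t ht x {y}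
  refine ⟨p, ⟨h0, hsum, ?_, ?_, ?_⟩, hp'⟩
  · intro t ht x
    exact (hsum t ht x).tsum_le_of_sum_le (hfin t ht x)
  · intro s t hs ht x y
    have hst : 0 ≤ s + t := add_nonneg hs ht
    have hnn : ∀ z, 0 ≤ p s x z * p t z y := fun z => mul_nonneg (h0 s hs x z) (h0 t ht z y)
    have hsm : Summable (fun z => p s x z * p t z y) := by
      refine Summable.of_nonneg_of_le hnn (fun z => ?_) (hsum s hs x)
      calc p s x z * p t z y ≤ p s x z * 1 :=
            mul_le_mul_of_nonneg_left (hle1 t ht z y) (h0 s hs x z)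
        _ = p s x z := mul_one _
    -- upper bound of partial sums
    have hup : ∀ B : Finset S, ∑ z ∈ B, p s x z * p t z y ≤ p (s + t) x y := by
      intro B
      refine le_of_tendsto_of_tendsto
        (tendsto_finsetSum B fun z _ => (hp' s hs x z).mul (hp' t ht z y)) (hp' _ hst x y)
        (Eventually.of_forall fun n => ?_)
      simp only
      rw [h.chap n s t hs ht x y]
      have h1 : ∑ z ∈ B, pn n s x z * pn n t z y = ∑ z ∈ B ∩ Sn n, pn n s x z * pn n t z y := by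
        symm
        refine Finset.sum_subset Finset.inter_subset_left fun z hz hz' => ?_
        rw [h.supp n s x z (fun hc => hz' (Finset.mem_inter.2 ⟨hz, hc⟩)), zero_mul]
      rw [h1]
      exact Finset.sum_le_sum_of_subset_of_nonneg Finset.inter_subset_right
        (fun z _ _ => mul_nonneg (h.nonneg n s hs x z) (h.nonneg n t ht z y))
    have hlow : ∀ ε > 0, p (s + t) x y ≤ ∑' z, p s x z * p t z y + ε := by
      intro ε hε
      obtain ⟨B, hB⟩ := h.u2 x s hs ε hε
      have h1 : p (s + t) x y ≤ ∑ z ∈ B, p s x z * p t z y + ε := by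
        refine le_of_tendsto_of_tendsto (hp' _ hst x y)
          ((tendsto_finsetSum B fun z _ => (hp' s hs x z).mul (hp' t ht z y)).add_const ε) ?_
        filter_upwards [hev hB] with n hn
        rw [h.chap n s t hs ht x y]
        have h2 : ∑ z ∈ Sn n, pn n s x z * pn n t z y
            = ∑ z ∈ Sn n ∩ B, pn n s x z * pn n t z y + ∑ z ∈ Sn n \ B, pn n s x z * pn n t z y := by
          rw [← Finset.sum_union (by
            rw [Finset.disjoint_left]; intro z hz hz'
            exact (Finset.mem_sdiff.1 hz').2 (Finset.mem_inter.1 hz).2)]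
          congr 1
          ext z; simp only [Finset.mem_union, Finset.mem_inter, Finset.mem_sdiff]; tauto
        rw [h2]
        have h3 : ∑ z ∈ Sn n ∩ B, pn n s x z * pn n t z y ≤ ∑ z ∈ B, pn n s x z * pn n t z y :=
          Finset.sum_le_sum_of_subset_of_nonneg Finset.inter_subset_right
            (fun z _ _ => mul_nonneg (h.nonneg n s hs x z) (h.nonneg n t ht z y))
        have h4 : ∑ z ∈ Sn n \ B, pn n s x z * pn n t z y ≤ ∑ z ∈ Sn n \ B, pn n s x z := by
          refine Finset.sum_le_sum fun z _ => ?_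
          calc pn n s x z * pn n t z y ≤ pn n s x z * 1 :=
                mul_le_mul_of_nonneg_left (h.le_one n ht z y) (h.nonneg n s hs x z)
            _ = pn n s x z := mul_one _
        linarith
      have h5 : ∑ z ∈ B, p s x z * p t z y ≤ ∑' z, p s x z * p t z y :=
        hsm.sum_le_tsum B (fun z _ => hnn z)
      linarith
    have heq : ∑' z, p s x z * p t z y = p (s + t) x y := by
      refine le_antisymm (hsm.tsum_le_of_sum_le hup) ?_
      refine le_of_forall_pos_le_add fun ε hε => hlow ε hε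
    rw [← heq]
    exact hsm.hasSum
  · -- standardness
    have hdiag : ∀ z, ∀ ε > 0, ∃ δ > 0, ∀ t ∈ Icc (0:ℝ) δ, 1 - ε ≤ p t z z := by
      intro z ε hε
      obtain ⟨δ, hδ, hn⟩ := h.u1 z ε hε
      refine ⟨δ, hδ, fun t ht => ge_of_tendsto (hp' t ht.1 z z) ?_⟩
      filter_upwards [hev hn] with n hn
      exact hn t ht
    intro x y
    rw [Metric.tendsto_nhdsWithin_nhds]
    intro ε hε
    obtain ⟨δ, hδ, hd⟩ := hdiag x (ε / 2) (by linarith)
    refine ⟨δ, hδ, fun {t} ht hdist => ?_⟩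
    have ht0 : 0 ≤ t := le_of_lt ht
    rw [Real.dist_eq, sub_zero, abs_of_nonneg ht0] at hdist
    have h1 := hd t ⟨ht0, hdist.le⟩
    by_cases hxy : x = y
    · subst hxy
      rw [if_pos rfl, Real.dist_eq, abs_sub_comm, abs_of_nonneg (by linarith [hle1 t ht0 x x])]
      linarith
    · rw [if_neg hxy, Real.dist_eq, sub_zero, abs_of_nonneg (h0 t ht0 x y)]
      have h2 := hfin t ht0 x {x, y}
      rw [Finset.sum_pair hxy] at h2
      linarith

end Run7.h251
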