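import Pool.Agent.Run7.h251.FinLyap2
import Pool.Agent.Run7.h251.Lim

set_option linter.unusedSectionVars false

open Filter Topology Set

namespace Run7.h251

/-- minimum of `1` and of the functions `1 - τ z` over `z` in a finite set -/
noncomputable def mB {S : Type} (τ : S → S → ℝ) (B : Finset S) (x : S) : ℝ :=
  B.fold min 1 (fun z => 1 - τ z x)

/-- data of approximating finite chains -/
structure Approx (S : Type) where
  Sn : ℕ → Finset S
  A : ℕ → S → S → ℝ
  τ : S → S → ℝ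
  q : S → S → ℝ
  stab : S → Prop
  qd : S → ℝ

structure Approx.Good {S : Type} [DecidableEq S] (D : Approx S) : Prop where
  exh : ∀ x, ∀ᶠ n in atTop, x ∈ D.Sn n
  off : ∀ n x y, x ∈ D.Sn n → y ∈ D.Sn n → x ≠ y → 0 ≤ D.A n x y
  row : ∀ n x, x ∈ D.Sn n → ∑ y ∈ D.Sn n, D.A n x y ≤ 0
  τ0 : ∀ z x, 0 ≤ D.τ z x
  τ1 : ∀ z x, D.τ z x ≤ 1
  τz : ∀ z, D.τ z z = 1
  τc : ∀ y, ∃ c > 0, ∀ z, z ≠ y → D.τ z y ≤ 1 - c
  sub : ∀ n z x, z ∈ D.Sn n → x ∈ D.Sn n → x ≠ z → D.τ z x ≤ ∑ y ∈ D.Sn n, D.A n x y * D.τ z y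
  ui : ∀ z, ∀ ε > 0, ∃ l0 ≥ 1, ∀ n, z ∈ D.Sn n → ∀ l ≥ l0,
    ∑ y ∈ (D.Sn n).erase z, D.A n z y * min 1 (l * (1 - D.τ z y)) - ∑ y ∈ D.Sn n, D.A n z y ≤ ε * l
  tight : ∀ x, ∀ ε > 0, ∃ B : Finset S, ∃ W : S → ℝ, (∀ y, 0 ≤ W y) ∧ W x ≤ ε ∧
    ∀ᶠ n in atTop, ∀ y ∈ D.Sn n, (if y ∈ B then 0 else 1) ≤ W y - ∑ z ∈ D.Sn n, D.A n y z * W z
  conv : ∀ x y, x ≠ y → Tendsto (fun n => D.A n x y) atTop (𝓝 (D.q x y))
  nojump : ∀ a y, (y ≠ a ∨ D.stab a) → ∀ ε > 0, ∃ B : Finset S, y ∉ B ∧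
    ∀ᶠ n in atTop, ∑ x ∈ ((D.Sn n).erase a).erase y, D.A n a x * mB D.τ B x ≤ ε
  inst : ∀ a, ¬ D.stab a → ∀ M : ℝ, ∃ y, y ≠ a ∧ D.τ y a = 0 ∧
    ∀ᶠ n in atTop, M ≤ ∑ x ∈ D.Sn n, D.A n a x * D.τ y x
  stabd : ∀ j, D.stab j → Tendsto (fun n => D.A n j j) atTop (𝓝 (- D.qd j))

variable {S : Type} [DecidableEq S] {D : Approx S}

/-- the matrix of the `n`-th chain -/
def Approx.M (D : Approx S) (n : ℕ) : Matrix (D.Sn n) (D.Sn n) ℝ := fun x y => D.A n x y

lemma act_M (n : ℕ) (f : S → ℝ) (x : D.Sn n) :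
    act (D.M n) (fun y => f y) x = ∑ y ∈ D.Sn n, D.A n x y * f y := by
  unfold act Approx.M
  exact Finset.sum_coe_sort (D.Sn n) (fun y => D.A n x y * f y)

lemma Approx.Good.isGen (h : D.Good) (n : ℕ) : IsGen (D.M n) where
  off := fun i j hij => h.off n i j i.2 j.2 (fun hc => hij (Subtype.ext hc))
  row := fun i => by
    have := h.row n i i.2
    rwa [← Finset.sum_coe_sort (D.Sn n) (fun y => D.A n i y)] at this

open Classical in
/-- transition functions of the `n`-th chain -/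
noncomputable def Approx.pn (D : Approx S) (n : ℕ) (t : ℝ) (x y : S) : ℝ :=
  if h : x ∈ D.Sn n ∧ y ∈ D.Sn n then PP (D.M n) t ⟨x, h.1⟩ ⟨y, h.2⟩ else 0

lemma pn_eq (n : ℕ) (t : ℝ) (x y : D.Sn n) : D.pn n t x y = PP (D.M n) t x y := by
  unfold Approx.pn
  rw [dif_pos ⟨x.2, y.2⟩]

lemma pn_eq' (n : ℕ) (t : ℝ) {x y : S} (hx : x ∈ D.Sn n) (hy : y ∈ D.Sn n) :
    D.pn n t x y = PP (D.M n) t ⟨x, hx⟩ ⟨y, hy⟩ := by
  unfold Approx.pn
  rw [dif_pos ⟨hx, hy⟩]

lemma erase_sum_coe {n : ℕ} (f : S → ℝ) (x : D.Sn n) :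
    ∑ y ∈ (Finset.univ : Finset (D.Sn n)).erase x, f y = ∑ y ∈ (D.Sn n).erase x, f y := by
  have h1 := Finset.add_sum_erase (Finset.univ : Finset (D.Sn n)) (fun y => f y)
    (Finset.mem_univ x)
  have h2 := Finset.add_sum_erase (D.Sn n) f x.2
  have h3 := Finset.sum_coe_sort (D.Sn n) f
  linarith

/-- the truncated functions are subsolutions -/
lemma Approx.Good.std_at (h : D.Good) (z : S) {ε : ℝ} (hε : 0 < ε) :
    ∃ δ > 0, ∀ n, z ∈ D.Sn n → ∀ t ∈ Icc (0:ℝ) δ, 1 - ε ≤ D.pn n t z z := by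
  obtain ⟨l0, hl0, hui⟩ := h.ui z (ε / (2 * Real.exp 1)) (by positivity)
  have hl0' : 0 < l0 := by linarith
  refine ⟨1 / l0, by positivity, fun n hz t ht => ?_⟩
  rw [pn_eq' n t hz hz]
  rcases ht.1.eq_or_lt with h0 | htpos
  · rw [← h0, PP_zero, Matrix.one_apply_eq]; linarith
  set l : ℝ := 1 / t with hl
  have hll0 : l0 ≤ l := by
    rw [hl, le_div_iff₀ htpos]
    have := mul_le_mul_of_nonneg_left ht.2 hl0'.le
    rwa [mul_one_div_cancel hl0'.ne'] at this
  have hl1 : 1 ≤ l := hl0.le.trans hll0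
  have hlpos : 0 < l := by linarith
  have hG := h.isGen n
  set zz : D.Sn n := ⟨z, hz⟩ with hzz
  set σ : S → ℝ := fun x => max 0 (1 - l * (1 - D.τ z x)) with hσ
  have hσz : σ z = 1 := by
    simp only [hσ, h.τz z]; norm_num
  have hσ1 : ∀ x, σ x ≤ 1 := by
    intro x
    simp only [hσ]
    refine max_le zero_le_one ?_
    have := h.τ1 z x
    nlinarith
  have hσ0 : ∀ x, 0 ≤ σ x := fun x => le_max_left _ _
  have hσge : ∀ x, 1 - l * (1 - D.τ z x) ≤ σ x := fun x => le_max_right _ _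
  have hmin : ∀ x, 1 - σ x = min 1 (l * (1 - D.τ z x)) := by
    intro x
    simp only [hσ]
    rcases le_total 0 (1 - l * (1 - D.τ z x)) with h1 | h1
    · rw [max_eq_right h1, min_eq_right (by linarith)]; ring
    · rw [max_eq_left h1, min_eq_left (by linarith)]; ring
  have hsub : ∀ x : D.Sn n, x ≠ zz → l * σ x ≤ act (D.M n) (fun y => σ y) x := by
    intro x hx
    have hxz : (x : S) ≠ z := fun hc => hx (Subtype.ext hc)
    rw [act_M]
    rcases le_total (1 - l * (1 - D.τ z x)) 0 with h1 | h1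
    · have : σ x = 0 := max_eq_left h1
      rw [this, mul_zero]
      refine Finset.sum_nonneg fun y hy => ?_
      by_cases hxy : (x : S) = y
      · rw [← hxy, this, mul_zero]
      · exact mul_nonneg (h.off n x y x.2 hy hxy) (hσ0 y)
    · have hσx : σ x = 1 - l * (1 - D.τ z x) := max_eq_right h1
      have h2 : ∑ y ∈ D.Sn n, D.A n x y * (1 - l * (1 - D.τ z y)) ≤ ∑ y ∈ D.Sn n, D.A n x y * σ y := by
        refine Finset.sum_le_sum fun y hy => ?_
        by_cases hxy : (x : S) = y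
        · rw [← hxy, hσx]
        · exact mul_le_mul_of_nonneg_left (hσge y) (h.off n x y x.2 hy hxy)
      have h3 : ∑ y ∈ D.Sn n, D.A n x y * (1 - l * (1 - D.τ z y))
          = (1 - l) * ∑ y ∈ D.Sn n, D.A n x y + l * ∑ y ∈ D.Sn n, D.A n x y * D.τ z y := by
        rw [Finset.mul_sum, Finset.mul_sum, ← Finset.sum_add_distrib]
        refine Finset.sum_congr rfl fun y _ => by ring
      have h4 : 0 ≤ (1 - l) * ∑ y ∈ D.Sn n, D.A n x y :=
        mul_nonneg_of_nonpos_of_nonpos (by linarith) (h.row n x x.2)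
      have h5 := mul_le_mul_of_nonneg_left (h.sub n z x hz x.2 hxz) hlpos.le
      have h6 : σ x ≤ D.τ z x := by
        rw [hσx]
        have := h.τ1 z x
        nlinarith
      have h7 := mul_le_mul_of_nonneg_left h6 hlpos.le
      linarith
  have hLa : - (ε / (2 * Real.exp 1) * l) ≤ act (D.M n) (fun y => σ y) zz := by
    rw [act_M]
    have h1 := hui n hz l hll0
    have h2 : ∑ y ∈ D.Sn n, D.A n z y * σ y
        = - (∑ y ∈ (D.Sn n).erase z, D.A n z y * min 1 (l * (1 - D.τ z y))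
            - ∑ y ∈ D.Sn n, D.A n z y) := by
      rw [← Finset.add_sum_erase _ _ hz, ← Finset.add_sum_erase _ _ hz, hσz]
      have : ∀ y, D.A n z y * min 1 (l * (1 - D.τ z y)) = D.A n z y - D.A n z y * σ y := by
        intro y; rw [← hmin]; ring
      simp only [this, Finset.sum_sub_distrib]
      ring
    show - (ε / (2 * Real.exp 1) * l) ≤ ∑ y ∈ D.Sn n, D.A n z y * σ y
    rw [h2]
    linarith
  have := hG.standard (a := zz) (τ := fun y => σ y) hlpos (by positivity)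
    (fun x => hσ1 x) hσz hsub hLa
  have ht' : 1 / l = t := by rw [hl]; field_simp
  rw [ht'] at this
  have h8 : 2 * Real.exp 1 * (ε / (2 * Real.exp 1) * l / l) = ε := by field_simp
  rw [h8] at this
  linarith

lemma Approx.Good.preSemi (h : D.Good) : PreSemi D.Sn D.pn where
  nonneg := by
    intro n t ht x y
    unfold Approx.pn
    split_ifs with hxy
    · exact (h.isGen n).nonneg ht _ _
    · exact le_rfl
  supp := by
    intro n t x y hy
    unfold Approx.pn
    rw [dif_neg (fun hc => hy hc.2)]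
  row := by
    intro n t ht x
    by_cases hx : x ∈ D.Sn n
    · have := (h.isGen n).row_le ht ⟨x, hx⟩
      rw [← Finset.sum_coe_sort (D.Sn n) (fun y => D.pn n t x y)]
      simpa [pn_eq' n t hx] using this
    · have : ∀ y, D.pn n t x y = 0 := by
        intro y; unfold Approx.pn; rw [dif_neg (fun hc => hx hc.1)]
      simp [this]
  chap := by
    intro n s t hs ht x y
    by_cases hx : x ∈ D.Sn n
    · by_cases hy : y ∈ D.Sn n
      · rw [pn_eq' n _ hx hy, PP_add_apply,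
          ← Finset.sum_coe_sort (D.Sn n) (fun z => D.pn n s x z * D.pn n t z y)]
        refine Finset.sum_congr rfl fun z _ => ?_
        rw [pn_eq' n s hx z.2, pn_eq' n t z.2 hy]
      · have : ∀ t z, D.pn n t z y = 0 := by
          intro t z; unfold Approx.pn; rw [dif_neg (fun hc => hy hc.2)]
        simp [this]
    · have : ∀ t y, D.pn n t x y = 0 := by
        intro t y; unfold Approx.pn; rw [dif_neg (fun hc => hx hc.1)]
      simp [this]
  u1 := by
    intro z ε hε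
    obtain ⟨δ, hδ, hd⟩ := h.std_at z hε
    refine ⟨δ, hδ, ?_⟩
    filter_upwards [h.exh z] with n hn
    exact hd n hn
  u2 := by
    intro x t ht ε hε
    obtain ⟨δ, hδ, hd⟩ := h.std_at x (ε := 1 / 2) (by norm_num)
    obtain ⟨B, W, hW0, hWx, hW⟩ := h.tight x (ε * δ / (2 * Real.exp (t + δ))) (by positivity)
    refine ⟨B, ?_⟩
    filter_upwards [hW, h.exh x] with n hn hx
    have key := (h.isGen n).tight (x := ⟨x, hx⟩) (W := fun y => W y)
      (f := fun y => if (y : S) ∈ B then 0 else 1) ht hδ (fun y => hW0 y)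
      (fun y => by split_ifs <;> norm_num)
      (fun y => by rw [act_M]; exact hn y y.2)
      (fun s hs => by
        have := hd n hx s hs
        rw [pn_eq' n s hx hx] at this
        linarith) hWx
    have h1 : act (PP (D.M n) t) (fun y : D.Sn n => if (y : S) ∈ B then (0:ℝ) else 1) ⟨x, hx⟩
        = ∑ y ∈ D.Sn n \ B, D.pn n t x y := by
      unfold act
      have h2 : ∀ y : D.Sn n, PP (D.M n) t ⟨x, hx⟩ y * (if (y : S) ∈ B then (0:ℝ) else 1)
          = (fun y : S => if y ∈ B then 0 else D.pn n t x y) y := by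
        intro y
        simp only
        split_ifs
        · rw [mul_zero]
        · rw [mul_one, pn_eq' n t hx y.2]
      rw [Finset.sum_congr rfl (fun y _ => h2 y),
        Finset.sum_coe_sort (D.Sn n) (fun y : S => if y ∈ B then 0 else D.pn n t x y),
        Finset.sum_ite, Finset.sum_const_zero, zero_add]
      refine Finset.sum_congr ?_ (fun _ _ => rfl)
      ext y; simp [Finset.mem_sdiff]
    rw [h1] at key
    refine key.trans (le_of_eq ?_)
    field_simp

end Run7.h251
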