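import Pool.Agent.Run7.h251.Approx

set_option linter.unusedSectionVars false
set_option linter.unusedVariables false

open Filter Topology Set

namespace Run7.h251

section gen
variable {ι : Type} [Fintype ι] [DecidableEq ι] {A : Matrix ι ι ℝ}

lemma act_le_of_touch (hA : IsGen A) {f g : ι → ℝ} {x : ι} (hx : f x = g x)
    (hfg : ∀ y, f y ≤ g y) : act A f x ≤ act A g x := by
  refine Finset.sum_le_sum fun y _ => ?_
  by_cases h : x = y
  · subst h; rw [hx]
  · exact mul_le_mul_of_nonneg_left (hfg y) (hA.off x y h)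

lemma super_min (hA : IsGen A) {f g : ι → ℝ} {l : ℝ} {x : ι} (hf : act A f x ≤ l * f x)
    (hg : act A g x ≤ l * g x) : act A (fun y => min (f y) (g y)) x ≤ l * min (f x) (g x) := by
  rcases le_total (f x) (g x) with h | h
  · rw [min_eq_left h]
    exact (act_le_of_touch hA (f := fun y => min (f y) (g y)) (g := f) (min_eq_left h)
      (fun y => min_le_left _ _)).trans hf
  · rw [min_eq_right h]
    exact (act_le_of_touch hA (f := fun y => min (f y) (g y)) (g := g) (min_eq_right h)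
      (fun y => min_le_right _ _)).trans hg

lemma super_fold {S : Type} [DecidableEq S] (hA : IsGen A) (B : Finset S) {f : ι → ℝ}
    {g : S → ι → ℝ} {l : ℝ} {x : ι}
    (hf : act A f x ≤ l * f x) (hg : ∀ z ∈ B, act A (g z) x ≤ l * g z x) :
    act A (fun y => B.fold min (f y) (fun z => g z y)) x
      ≤ l * B.fold min (f x) (fun z => g z x) := by
  induction B using Finset.induction_on with
  | empty => simpa using hf
  | insert z B hz ih =>
    have h1 := ih (fun z' hz' => hg z' (Finset.mem_insert_of_mem hz'))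
    have h2 := hg z (Finset.mem_insert_self z B)
    have := super_min hA h2 h1
    simpa [Finset.fold_insert hz] using this

end gen

variable {S : Type} [DecidableEq S] {D : Approx S}

lemma mB_nonneg (h : D.Good) (B : Finset S) (x : S) : 0 ≤ mB D.τ B x := by
  unfold mB
  rw [Finset.le_fold_min]
  exact ⟨zero_le_one, fun z _ => by have := h.τ1 z x; linarith⟩

lemma mB_le_one (B : Finset S) (x : S) (τ : S → S → ℝ) : mB τ B x ≤ 1 := by
  unfold mB
  rw [Finset.fold_min_le]
  left; exact le_rfl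

lemma mB_le (B : Finset S) (x z : S) (hz : z ∈ B) (τ : S → S → ℝ) : mB τ B x ≤ 1 - τ z x := by
  unfold mB
  rw [Finset.fold_min_le]
  right; exact ⟨z, hz, le_rfl⟩

/-- the second barrier -/
noncomputable def bar (τ : S → S → ℝ) (c s : ℝ) (B : Finset S) (x : S) : ℝ :=
  B.fold min 1 (fun z => ((1 - τ z x) + s) / c)

lemma bar_le {c s : ℝ} (hc : 0 < c) (hc1 : c ≤ 1) (hs : 0 ≤ s) (h : D.Good) (B : Finset S) (x : S) :
    bar D.τ c s B x ≤ (mB D.τ B x + s) / c := by
  have hm : mB D.τ B x ≤ mB D.τ B x := le_rfl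
  conv at hm => lhs; unfold mB
  rw [Finset.fold_min_le] at hm
  rcases hm with h1 | ⟨z, hz, h1⟩
  · unfold bar
    rw [Finset.fold_min_le]
    left
    rw [le_div_iff₀ hc]; linarith
  · unfold bar
    rw [Finset.fold_min_le]
    right
    exact ⟨z, hz, by gcongr⟩

lemma bar_nonneg {c s : ℝ} (hc : 0 < c) (hs : 0 ≤ s) (h : D.Good) (B : Finset S) (x : S) :
    0 ≤ bar D.τ c s B x := by
  unfold bar
  rw [Finset.le_fold_min]
  refine ⟨zero_le_one, fun z _ => ?_⟩
  have := h.τ1 z x
  exact div_nonneg (by linarith) hc.le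

lemma bar_le_one {c s : ℝ} (B : Finset S) (x : S) (τ : S → S → ℝ) : bar τ c s B x ≤ 1 := by
  unfold bar
  rw [Finset.fold_min_le]
  left; exact le_rfl

lemma bar_eq_one {c s : ℝ} (hc : 0 < c) (hs : 0 ≤ s) {B : Finset S} {y : S} (hy : y ∉ B)
    (hcy : ∀ z, z ≠ y → D.τ z y ≤ 1 - c) : bar D.τ c s B y = 1 := by
  refine le_antisymm (bar_le_one B y D.τ) ?_
  unfold bar
  rw [Finset.le_fold_min]
  refine ⟨le_rfl, fun z hz => ?_⟩
  rw [le_div_iff₀ hc]
  have := hcy z (fun hc => hy (hc ▸ hz))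
  linarith

/-- `ρ z = 1 - τ z` is superharmonic off `z` -/
lemma rho_super (h : D.Good) (n : ℕ) {z : S} (hz : z ∈ D.Sn n) (x : D.Sn n) (hx : (x : S) ≠ z) {s : ℝ}
    (hs : 0 ≤ s) : act (D.M n) (fun y => (1 - D.τ z y) + s) x ≤ 0 := by
  rw [act_M n (fun y => (1 - D.τ z y) + s) x]
  have h1 : ∑ y ∈ D.Sn n, D.A n x y * ((1 - D.τ z y) + s)
      = (1 + s) * ∑ y ∈ D.Sn n, D.A n x y - ∑ y ∈ D.Sn n, D.A n x y * D.τ z y := by
    rw [Finset.mul_sum, ← Finset.sum_sub_distrib]
    refine Finset.sum_congr rfl fun y _ => by ring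
  rw [h1]
  have h2 := h.row n x x.2
  have h3 := h.sub n z x hz x.2 hx
  have h4 := h.τ0 z x
  nlinarith

lemma rho_at (h : D.Good) (n : ℕ) {z : S} (hz : z ∈ D.Sn n) {s L : ℝ} (hs : 0 ≤ s)
    (hL : ∑ y ∈ (D.Sn n).erase z, D.A n z y * (1 - D.τ z y) ≤ L) :
    act (D.M n) (fun y => (1 - D.τ z y) + s) ⟨z, hz⟩ ≤ L := by
  rw [act_M n (fun y => (1 - D.τ z y) + s) ⟨z, hz⟩]
  have h1 : ∑ y ∈ D.Sn n, D.A n z y * ((1 - D.τ z y) + s)
      = s * ∑ y ∈ D.Sn n, D.A n z y + ∑ y ∈ (D.Sn n).erase z, D.A n z y * (1 - D.τ z y) := by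
    have : ∑ y ∈ D.Sn n, D.A n z y * (1 - D.τ z y)
        = ∑ y ∈ (D.Sn n).erase z, D.A n z y * (1 - D.τ z y) := by
      rw [← Finset.add_sum_erase _ _ hz, h.τz z]; ring
    rw [← this, Finset.mul_sum, ← Finset.sum_add_distrib]
    refine Finset.sum_congr rfl fun y _ => by ring
  show ∑ y ∈ D.Sn n, D.A n z y * ((1 - D.τ z y) + s) ≤ L
  rw [h1]
  have h2 := mul_nonpos_of_nonneg_of_nonpos hs (h.row n z hz)
  linarith

/-- bounds on the flux -/
lemma flux_bound (h : D.Good) (z : S) : ∃ L ≥ 0, ∀ n, z ∈ D.Sn n →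
    ∑ y ∈ (D.Sn n).erase z, D.A n z y * (1 - D.τ z y) ≤ L := by
  obtain ⟨l0, hl0, hui⟩ := h.ui z 1 one_pos
  refine ⟨l0, by linarith, fun n hz => ?_⟩
  have h1 := hui n hz l0 le_rfl
  have h2 := h.row n z hz
  have h3 : ∑ y ∈ (D.Sn n).erase z, D.A n z y * (1 - D.τ z y)
      ≤ ∑ y ∈ (D.Sn n).erase z, D.A n z y * min 1 (l0 * (1 - D.τ z y)) := by
    refine Finset.sum_le_sum fun y hy => mul_le_mul_of_nonneg_left ?_
      (h.off n z y hz (Finset.mem_of_mem_erase hy) (Finset.ne_of_mem_erase hy).symm)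
    have h4 := h.τ0 z y
    have h5 := h.τ1 z y
    refine le_min (by linarith) ?_
    nlinarith
  linarith

lemma flux_bound_fin (h : D.Good) (B : Finset S) : ∃ L ≥ 0, ∀ z ∈ B, ∀ n, z ∈ D.Sn n →
    ∑ y ∈ (D.Sn n).erase z, D.A n z y * (1 - D.τ z y) ≤ L := by
  choose L hL0 hL using flux_bound h
  refine ⟨∑ z ∈ B, L z, Finset.sum_nonneg fun z _ => hL0 z, fun z hz n hn => ?_⟩
  exact (hL z n hn).trans (Finset.single_le_sum (f := L) (fun z _ => hL0 z) hz)

/-- bar is a supersolution everywhere -/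
lemma bar_super (h : D.Good) (n : ℕ) {c s l L : ℝ} (hc : 0 < c) (hs : 0 ≤ s) (hl : 0 ≤ l)
    {B : Finset S} (hB : B ⊆ D.Sn n)
    (hL : ∀ z ∈ B, ∑ y ∈ (D.Sn n).erase z, D.A n z y * (1 - D.τ z y) ≤ L) (hLs : L ≤ l * s)
    (x : D.Sn n) : act (D.M n) (fun y => bar D.τ c s B y) x ≤ l * bar D.τ c s B x := by
  have hG := h.isGen n
  unfold bar
  refine super_fold hG B (f := fun _ => (1:ℝ)) (g := fun z y => ((1 - D.τ z y) + s) / c) ?_ ?_
  · have := h.row n x x.2
    rw [act_M n (fun _ => 1) x]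
    simp only [mul_one]
    linarith
  · intro z hz
    have hzn := hB hz
    have hdiv : act (D.M n) (fun y => ((1 - D.τ z y) + s) / c) x
        = act (D.M n) (fun y => (1 - D.τ z y) + s) x / c := by
      simp only [act, Finset.sum_div, mul_div_assoc]
    rw [hdiv]
    have hρ : 0 ≤ 1 - D.τ z x := by have := h.τ1 z x; linarith
    by_cases hx : (x : S) = z
    · have h1 := rho_at h n hzn hs (hL z hz)
      have h2 : x = ⟨z, hzn⟩ := Subtype.ext hx
      rw [h2]
      rw [div_le_iff₀ hc]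
      have h3 : l * ((1 - D.τ z z + s) / c) * c = l * (1 - D.τ z z + s) := by field_simp
      show _ ≤ l * ((1 - D.τ z z + s) / c) * c
      rw [h3, h.τz z]
      linarith
    · have h1 := rho_super h n hzn x hx hs
      have h2 : 0 ≤ l * (((1 - D.τ z x) + s) / c) := by positivity
      exact (div_nonpos_of_nonpos_of_nonneg h1 hc.le).trans h2

/-- the full barrier vanishing at `a` -/
noncomputable def barr (τ : S → S → ℝ) (c s : ℝ) (B : Finset S) (a x : S) : ℝ :=
  min ((1 - τ a x) / c) (bar τ c s B x)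

lemma min_add_le {p m s : ℝ} (hp : 0 ≤ p) (hm : 0 ≤ m) (hs : 0 ≤ s) :
    min p (m + s) ≤ m + min p s := by
  rcases le_total p s with h | h
  · rw [min_eq_left h]
    exact (min_le_left _ _).trans (by linarith)
  · rw [min_eq_right h]
    exact min_le_right _ _

/-- upper estimate of transition probabilities -/
lemma Approx.Good.upper_est (h : D.Good) {a y : S} (hay : y ≠ a) {ε : ℝ} (hε : 0 < ε) :
    ∃ δ > 0, ∀ᶠ n in atTop, ∀ t ∈ Icc (0:ℝ) δ, D.pn n t a y ≤ t * (D.q a y + ε) := by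
  obtain ⟨c0, hc0, hc0'⟩ := h.τc y
  set c := min c0 1 with hcdef
  have hc : 0 < c := lt_min hc0 one_pos
  have hc1 : c ≤ 1 := min_le_right _ _
  have hcy : ∀ z, z ≠ y → D.τ z y ≤ 1 - c := fun z hz =>
    (hc0' z hz).trans (by have := min_le_left c0 1; linarith)
  obtain ⟨B, hyB, hB⟩ := h.nojump a y (Or.inl hay) (c * (ε / 4)) (by positivity)
  obtain ⟨L, hL0, hL⟩ := flux_bound_fin h B
  obtain ⟨l0, hl0, hui⟩ := h.ui a (c * (ε / 4)) (by positivity)
  have hl0' : 0 < l0 := by linarith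
  set l : ℝ := (L + 1) * l0 with hl
  have hlpos : 0 < l := by positivity
  set s : ℝ := L / l with hs
  have hs0 : 0 ≤ s := by positivity
  have hLs : L ≤ l * s := by rw [hs]; field_simp; exact le_rfl
  have hsl : s ≤ 1 / l0 := by
    rw [hs, hl, div_le_div_iff₀ (by positivity) hl0']
    nlinarith
  -- choice of δ
  have hq0 : 0 ≤ D.q a y := by
    refine ge_of_tendsto (h.conv a y hay.symm) ?_
    filter_upwards [h.exh a, h.exh y] with n h1 h2
    exact h.off n a y h1 h2 hay.symm
  have hcont : Tendsto (fun t : ℝ => Real.exp (l * t) * (D.q a y + 3 * ε / 4)) (𝓝 0)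
      (𝓝 (D.q a y + 3 * ε / 4)) := by
    have : ContinuousAt (fun t : ℝ => Real.exp (l * t) * (D.q a y + 3 * ε / 4)) 0 := by fun_prop
    simpa [ContinuousAt] using this
  have hev := hcont.eventually (gt_mem_nhds (show D.q a y + 3 * ε / 4 < D.q a y + ε by linarith))
  obtain ⟨δ, hδ, hball⟩ := Metric.eventually_nhds_iff.1 hev
  refine ⟨δ / 2, by positivity, ?_⟩
  have hconv := (h.conv a y hay.symm).eventually
    (gt_mem_nhds (show D.q a y < D.q a y + ε / 4 by linarith))
  have hBn : ∀ᶠ n in atTop, B ⊆ D.Sn n := by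
    have : ∀ᶠ n in atTop, ∀ z ∈ B, z ∈ D.Sn n :=
      (Finset.eventually_all B).2 (fun z _ => h.exh z)
    filter_upwards [this] with n hn z hz
    exact hn z hz
  filter_upwards [hB, hconv, hBn, h.exh a, h.exh y] with n hn1 hn2 hn3 han hyn t ht
  have hG := h.isGen n
  rw [pn_eq' n t han hyn]
  set aa : D.Sn n := ⟨a, han⟩ with haa
  set yy : D.Sn n := ⟨y, hyn⟩ with hyy
  set w : S → ℝ := barr D.τ c s B a with hw
  have hw0 : ∀ x, 0 ≤ w x := fun x => le_min
    (div_nonneg (by have := h.τ1 a x; linarith) hc.le) (bar_nonneg hc hs0 h B x)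
  have hwa : w a = 0 := by
    refine le_antisymm ?_ (hw0 a)
    refine (min_le_left _ _).trans ?_
    rw [h.τz a]; simp
  have hwy : w y = 1 := by
    simp only [hw, barr]
    rw [bar_eq_one hc hs0 hyB hcy]
    refine min_eq_right ?_
    rw [le_div_iff₀ hc]
    have := hcy a hay.symm
    linarith
  have hsup : ∀ x : D.Sn n, x ≠ aa → act (D.M n) (fun z => w z) x ≤ l * w x := by
    intro x hx
    have hxa : (x : S) ≠ a := fun hc => hx (Subtype.ext hc)
    refine super_min hG (f := fun z : D.Sn n => (1 - D.τ a z) / c)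
      (g := fun z : D.Sn n => bar D.τ c s B z) ?_ ?_
    · have h1 := rho_super h n han x hxa (s := 0) le_rfl
      simp only [add_zero] at h1
      have hdiv : act (D.M n) (fun z => (1 - D.τ a z) / c) x
          = act (D.M n) (fun z => (1 - D.τ a z)) x / c := by
        simp only [act, Finset.sum_div, mul_div_assoc]
      rw [hdiv]
      have h2 : 0 ≤ l * ((1 - D.τ a x) / c) :=
        mul_nonneg hlpos.le (div_nonneg (by have := h.τ1 a x; linarith) hc.le)
      exact (div_nonpos_of_nonpos_of_nonneg h1 hc.le).trans h2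
    · exact bar_super h n hc hs0 hlpos.le hn3 (fun z hz => hL z hz n (hn3 hz)) hLs x
  have key := hG.upper (a := aa) (w := fun z => w z) (l := l) (t := t) hlpos.le ht.1
    (fun x => hw0 x) hwa hsup
  have h1 : PP (D.M n) t aa yy ≤ act (PP (D.M n) t) (fun z => w z) aa := by
    have := le_act (M := PP (D.M n) t) (x := aa) (fun z => hG.nonneg ht.1 _ _)
      (f := fun z => w z) (fun z => hw0 z) yy
    simp only [hyy, hwy, mul_one] at this
    exact this
  have h2 : act (D.M n) (fun z => w z) aa ≤ D.q a y + 3 * ε / 4 := by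
    rw [act_M]
    show ∑ x ∈ D.Sn n, D.A n a x * w x ≤ _
    rw [← Finset.add_sum_erase _ _ han, hwa, mul_zero, zero_add,
      ← Finset.add_sum_erase _ _ (Finset.mem_erase.2 ⟨hay, hyn⟩), hwy, mul_one]
    have h3 : ∀ x ∈ ((D.Sn n).erase a).erase y, D.A n a x * w x
        ≤ D.A n a x * mB D.τ B x / c + D.A n a x * min 1 (l0 * (1 - D.τ a x)) / (l0 * c) := by
      intro x hx
      have hxn := Finset.mem_of_mem_erase (Finset.mem_of_mem_erase hx)
      have hxa := Finset.ne_of_mem_erase (Finset.mem_of_mem_erase hx)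
      have hAx := h.off n a x han hxn hxa.symm
      have hρ : 0 ≤ 1 - D.τ a x := by have := h.τ1 a x; linarith
      have hm := mB_nonneg h B x
      have h4 : w x ≤ (mB D.τ B x + min (1 - D.τ a x) s) / c := by
        have h5 : w x ≤ min ((1 - D.τ a x) / c) ((mB D.τ B x + s) / c) :=
          min_le_min_left _ (bar_le hc hc1 hs0 h B x)
        refine h5.trans ?_
        rw [min_div_div_right hc.le]
        exact div_le_div_of_nonneg_right (min_add_le hρ hm hs0) hc.le
      have h6 : min (1 - D.τ a x) s ≤ min 1 (l0 * (1 - D.τ a x)) / l0 := by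
        rw [← min_div_div_right hl0'.le]
        rw [mul_div_cancel_left₀ _ hl0'.ne', min_comm]
        exact min_le_min_right _ hsl
      calc D.A n a x * w x
          ≤ D.A n a x * ((mB D.τ B x + min 1 (l0 * (1 - D.τ a x)) / l0) / c) := by
            refine mul_le_mul_of_nonneg_left (h4.trans ?_) hAx
            gcongr
        _ = _ := by field_simp
    have h7 := Finset.sum_le_sum h3
    rw [Finset.sum_add_distrib, ← Finset.sum_div, ← Finset.sum_div] at h7
    have h8 : (∑ x ∈ ((D.Sn n).erase a).erase y, D.A n a x * mB D.τ B x) / c ≤ ε / 4 := by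
      rw [div_le_iff₀ hc]; linarith
    have h9 : (∑ x ∈ ((D.Sn n).erase a).erase y, D.A n a x * min 1 (l0 * (1 - D.τ a x))) / (l0 * c)
        ≤ ε / 4 := by
      rw [div_le_iff₀ (by positivity)]
      have h10 : ∑ x ∈ ((D.Sn n).erase a).erase y, D.A n a x * min 1 (l0 * (1 - D.τ a x))
          ≤ ∑ x ∈ (D.Sn n).erase a, D.A n a x * min 1 (l0 * (1 - D.τ a x)) := by
        refine Finset.sum_le_sum_of_subset_of_nonneg (Finset.erase_subset _ _) fun x hx _ => ?_
        have hxn := Finset.mem_of_mem_erase hx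
        have hxa := Finset.ne_of_mem_erase hx
        refine mul_nonneg (h.off n a x han hxn hxa.symm) (le_min zero_le_one ?_)
        have := h.τ1 a x
        exact mul_nonneg hl0'.le (by linarith)
      have h11 := hui n han l0 le_rfl
      have h12 := h.row n a han
      have h13 : c * (ε / 4) * l0 = ε / 4 * (l0 * c) := by ring
      linarith
    linarith [hn2]
  have h14 : 0 ≤ act (D.M n) (fun z => w z) aa := by
    rw [act_M]
    show 0 ≤ ∑ x ∈ D.Sn n, D.A n a x * w x
    refine Finset.sum_nonneg fun x hx => ?_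
    by_cases hxa : a = x
    · rw [← hxa, hwa, mul_zero]
    · exact mul_nonneg (h.off n a x han hx hxa) (hw0 x)
  have h15 : Real.exp (l * t) * (D.q a y + 3 * ε / 4) ≤ D.q a y + ε := by
    refine (hball ?_).le
    rw [Real.dist_eq, sub_zero, abs_of_nonneg ht.1]
    linarith [ht.2]
  calc PP (D.M n) t aa yy ≤ t * Real.exp (l * t) * act (D.M n) (fun z => w z) aa := h1.trans key
    _ ≤ t * Real.exp (l * t) * (D.q a y + 3 * ε / 4) :=
      mul_le_mul_of_nonneg_left h2 (mul_nonneg ht.1 (Real.exp_nonneg _))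
    _ = t * (Real.exp (l * t) * (D.q a y + 3 * ε / 4)) := by ring
    _ ≤ t * (D.q a y + ε) := mul_le_mul_of_nonneg_left h15 ht.1

end Run7.h251
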