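import Pool.Agent.Run7.h251.Approx2

set_option linter.unusedSectionVars false
set_option linter.unusedVariables false

open Filter Topology Set

namespace Run7.h251

variable {S : Type} [DecidableEq S] {D : Approx S}

lemma Approx.Good.q_nonneg (h : D.Good) {x y : S} (hxy : x ≠ y) : 0 ≤ D.q x y := by
  refine ge_of_tendsto (h.conv x y hxy) ?_
  filter_upwards [h.exh x, h.exh y] with n h1 h2
  exact h.off n x y h1 h2 hxy

/-- lower estimate -/
lemma Approx.Good.lower_est (h : D.Good) {a y : S} (hay : y ≠ a) {ε : ℝ} (hε : 0 < ε) :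
    ∃ δ > 0, ∀ᶠ n in atTop, ∀ t ∈ Icc (0:ℝ) δ, t * (D.q a y - ε) ≤ D.pn n t a y := by
  have hq := h.q_nonneg hay.symm
  set η : ℝ := min 1 (ε / (2 * (3 * (D.q a y + ε)))) with hη
  have hη0 : 0 < η := lt_min one_pos (by positivity)
  have hη1 : η ≤ 1 := min_le_left _ _
  have hη2 : 3 * η * (D.q a y + ε) ≤ ε / 2 := by
    have : η ≤ ε / (2 * (3 * (D.q a y + ε))) := min_le_right _ _
    calc 3 * η * (D.q a y + ε) ≤ 3 * (ε / (2 * (3 * (D.q a y + ε)))) * (D.q a y + ε) := by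
          gcongr
      _ = ε / 2 := by field_simp
  obtain ⟨δ1, hδ1, hd1⟩ := h.std_at a hη0
  obtain ⟨δ2, hδ2, hd2⟩ := h.std_at y hη0
  refine ⟨min δ1 δ2, lt_min hδ1 hδ2, ?_⟩
  have hconv1 := (h.conv a y hay.symm).eventually
    (gt_mem_nhds (show D.q a y < D.q a y + ε by linarith))
  have hconv2 := (h.conv a y hay.symm).eventually
    (lt_mem_nhds (show D.q a y - ε / 2 < D.q a y by linarith))
  filter_upwards [h.exh a, h.exh y, hconv1, hconv2] with n han hyn hc1 hc2 t ht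
  have hG := h.isGen n
  rw [pn_eq' n t han hyn]
  have key := hG.chung (a := ⟨a, han⟩) (y := ⟨y, hyn⟩)
    (fun hc => hay (Subtype.ext_iff.1 hc).symm) hη0.le hη1 ht.1
    (fun s hs => by
      rw [← pn_eq' n s han han]
      exact hd1 n han s ⟨hs.1, hs.2.trans (ht.2.trans (min_le_left _ _))⟩)
    (fun s hs => by
      rw [← pn_eq' n s hyn hyn]
      exact hd2 n hyn s ⟨hs.1, hs.2.trans (ht.2.trans (min_le_right _ _))⟩)
  refine le_trans ?_ key
  have hM : D.M n ⟨a, han⟩ ⟨y, hyn⟩ = D.A n a y := rfl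
  rw [hM]
  have h1 : D.q a y - ε ≤ (1 - 3 * η) * D.A n a y := by
    have h2 : 3 * η * D.A n a y ≤ 3 * η * (D.q a y + ε) := by gcongr
    nlinarith
  calc t * (D.q a y - ε) ≤ t * ((1 - 3 * η) * D.A n a y) := mul_le_mul_of_nonneg_left h1 ht.1
    _ = (1 - 3 * η) * t * D.A n a y := by ring

/-- returns to a stable state -/
lemma Approx.Good.return_est (h : D.Good) {j : S} (hj : D.stab j) {ε : ℝ} (hε : 0 < ε) :
    ∃ δ > 0, ∀ᶠ n in atTop, ∀ hjn : j ∈ D.Sn n, ∀ u ∈ Icc (0:ℝ) δ,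
      ∑ k ∈ (Finset.univ : Finset (D.Sn n)).erase ⟨j, hjn⟩,
        D.M n ⟨j, hjn⟩ k * PP (D.M n) u k ⟨j, hjn⟩ ≤ ε := by
  obtain ⟨c0, hc0, hc0'⟩ := h.τc j
  set c := min c0 1 with hcdef
  have hc : 0 < c := lt_min hc0 one_pos
  have hc1 : c ≤ 1 := min_le_right _ _
  have hcy : ∀ z, z ≠ j → D.τ z j ≤ 1 - c := fun z hz =>
    (hc0' z hz).trans (by have := min_le_left c0 1; linarith)
  obtain ⟨B, hyB, hB⟩ := h.nojump j j (Or.inr hj) (c * (ε / 4)) (by positivity)
  obtain ⟨L, hL0, hL⟩ := flux_bound_fin h B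
  -- total rate bound
  set R : ℝ := |D.qd j| + 1 with hR
  have hRpos : 0 < R := by positivity
  set s : ℝ := c * (ε / 4) / R with hs
  have hs0 : 0 < s := by positivity
  set l : ℝ := (L + 1) / s with hl
  have hlpos : 0 < l := by positivity
  have hLs : L ≤ l * s := by rw [hl]; field_simp; linarith
  have hcont : Tendsto (fun t : ℝ => Real.exp (l * t) * (ε / 2)) (𝓝 0) (𝓝 (ε / 2)) := by
    have : ContinuousAt (fun t : ℝ => Real.exp (l * t) * (ε / 2)) 0 := by fun_prop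
    simpa [ContinuousAt] using this
  have hev := hcont.eventually (gt_mem_nhds (show ε / 2 < ε by linarith))
  obtain ⟨δ, hδ, hball⟩ := Metric.eventually_nhds_iff.1 hev
  refine ⟨δ / 2, by positivity, ?_⟩
  have hBn : ∀ᶠ n in atTop, B ⊆ D.Sn n := by
    have : ∀ᶠ n in atTop, ∀ z ∈ B, z ∈ D.Sn n :=
      (Finset.eventually_all B).2 (fun z _ => h.exh z)
    filter_upwards [this] with n hn z hz
    exact hn z hz
  have hdn := (h.stabd j hj).eventually (lt_mem_nhds (show - D.qd j - 1 < - D.qd j by linarith))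
  filter_upwards [hB, hBn, hdn] with n hn1 hn3 hn4 hjn u hu
  have hG := h.isGen n
  set jj : D.Sn n := ⟨j, hjn⟩ with hjj
  set w : S → ℝ := bar D.τ c s B with hw
  have hw0 : ∀ x, 0 ≤ w x := fun x => bar_nonneg hc hs0.le h B x
  have hwj : w j = 1 := bar_eq_one hc hs0.le hyB hcy
  have hsup : ∀ x : D.Sn n, act (D.M n) (fun z => w z) x ≤ l * w x := fun x =>
    bar_super h n hc hs0.le hlpos.le hn3 (fun z hz => hL z hz n (hn3 hz)) hLs x
  have h1 : ∀ k : D.Sn n, PP (D.M n) u k jj ≤ Real.exp (l * u) * w k := by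
    intro k
    have h2 := hG.excessive (w := fun z => w z) (l := l) hu.1 hsup k
    have h3 := le_act (M := PP (D.M n) u) (x := k) (fun z => hG.nonneg hu.1 _ _)
      (f := fun z => w z) (fun z => hw0 z) jj
    simp only [hjj, hwj, mul_one] at h3
    exact h3.trans h2
  have h4 : ∑ k ∈ (Finset.univ : Finset (D.Sn n)).erase jj, D.M n jj k * PP (D.M n) u k jj
      ≤ Real.exp (l * u) * ∑ k ∈ (D.Sn n).erase j, D.A n j k * w k := by
    rw [← erase_sum_coe (fun k => D.A n j k * w k) jj, Finset.mul_sum]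
    refine Finset.sum_le_sum fun k hk => ?_
    have hk' : jj ≠ k := (Finset.ne_of_mem_erase hk).symm
    calc D.M n jj k * PP (D.M n) u k jj ≤ D.M n jj k * (Real.exp (l * u) * w k) :=
          mul_le_mul_of_nonneg_left (h1 k) (hG.off jj k hk')
      _ = Real.exp (l * u) * (D.A n j k * w k) := by
          show D.A n j k * _ = _
          ring
  have h5 : ∑ k ∈ (D.Sn n).erase j, D.A n j k * w k ≤ ε / 2 := by
    have h6 : ∀ k ∈ (D.Sn n).erase j, D.A n j k * w k
        ≤ D.A n j k * mB D.τ B k / c + D.A n j k * s / c := by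
      intro k hk
      have hkn := Finset.mem_of_mem_erase hk
      have hkj := Finset.ne_of_mem_erase hk
      have hAk := h.off n j k hjn hkn hkj.symm
      calc D.A n j k * w k ≤ D.A n j k * ((mB D.τ B k + s) / c) :=
            mul_le_mul_of_nonneg_left (bar_le hc hc1 hs0.le h B k) hAk
        _ = _ := by ring
    have h7 := Finset.sum_le_sum h6
    rw [Finset.sum_add_distrib, ← Finset.sum_div, ← Finset.sum_div, ← Finset.sum_mul] at h7
    have h8 : (∑ k ∈ (D.Sn n).erase j, D.A n j k * mB D.τ B k) / c ≤ ε / 4 := by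
      rw [div_le_iff₀ hc]
      have : ((D.Sn n).erase j).erase j = (D.Sn n).erase j := by
        ext x; simp
      rw [this] at hn1
      linarith
    have h9 : (∑ k ∈ (D.Sn n).erase j, D.A n j k) * s / c ≤ ε / 4 := by
      have h10 : ∑ k ∈ (D.Sn n).erase j, D.A n j k ≤ R := by
        have := h.row n j hjn
        rw [← Finset.add_sum_erase _ _ hjn] at this
        have h11 := le_abs_self (D.qd j)
        linarith
      rw [div_le_iff₀ hc]
      calc (∑ k ∈ (D.Sn n).erase j, D.A n j k) * s ≤ R * s := by gcongr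
        _ = ε / 4 * c := by rw [hs]; field_simp
    linarith
  calc _ ≤ Real.exp (l * u) * ∑ k ∈ (D.Sn n).erase j, D.A n j k * w k := h4
    _ ≤ Real.exp (l * u) * (ε / 2) := mul_le_mul_of_nonneg_left h5 (Real.exp_nonneg _)
    _ ≤ ε := by
      refine (hball ?_).le
      rw [Real.dist_eq, sub_zero, abs_of_nonneg hu.1]
      linarith [hu.2]

/-- exit rate of stable states -/
lemma Approx.Good.stable_est (h : D.Good) {j : S} (hj : D.stab j) {ε : ℝ} (hε : 0 < ε) :
    ∃ δ > 0, ∀ᶠ n in atTop, ∀ t ∈ Icc (0:ℝ) δ,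
      t * (D.qd j - ε) ≤ 1 - D.pn n t j j ∧ 1 - D.pn n t j j ≤ t * (D.qd j + ε) := by
  obtain ⟨δ1, hδ1, hd1⟩ := h.return_est hj (ε := ε / 3) (by linarith)
  set R : ℝ := |D.qd j| + 1 with hR
  have hRpos : 0 < R := by positivity
  refine ⟨min δ1 (ε / (3 * R ^ 2)), lt_min hδ1 (by positivity), ?_⟩
  have hc1 := (h.stabd j hj).eventually
    (lt_mem_nhds (show - D.qd j - min 1 (ε / 3) < - D.qd j by
      have : 0 < min 1 (ε / 3) := lt_min one_pos (by linarith)
      linarith))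
  have hc2 := (h.stabd j hj).eventually
    (gt_mem_nhds (show - D.qd j < - D.qd j + min 1 (ε / 3) by
      have : 0 < min 1 (ε / 3) := lt_min one_pos (by linarith)
      linarith))
  filter_upwards [hd1, hc1, hc2, h.exh j] with n hn1 hn2 hn3 hjn t ht
  have hG := h.isGen n
  rw [pn_eq' n t hjn hjn]
  have m1 : min 1 (ε / 3) ≤ 1 := min_le_left _ _
  have m2 : min 1 (ε / 3) ≤ ε / 3 := min_le_right _ _
  have hMjj : D.M n ⟨j, hjn⟩ ⟨j, hjn⟩ = D.A n j j := rfl
  constructor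
  · have key := hG.stable_upp ⟨j, hjn⟩ (t := t) (η := ε / 3) ht.1 (fun u hu =>
      hn1 hjn u ⟨hu.1, hu.2.trans (ht.2.trans (min_le_left _ _))⟩)
    rw [hMjj] at key
    have hsq : (D.A n j j) ^ 2 * t ≤ ε / 3 := by
      have h1 : |D.A n j j| ≤ R := by
        rw [abs_le]
        have h2 := le_abs_self (D.qd j)
        have h3 := neg_abs_le (D.qd j)
        constructor <;> linarith
      have h4 : (D.A n j j) ^ 2 ≤ R ^ 2 := sq_le_sq' (abs_le.1 h1).1 (abs_le.1 h1).2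
      have h5 : t ≤ ε / (3 * R ^ 2) := ht.2.trans (min_le_right _ _)
      calc (D.A n j j) ^ 2 * t ≤ R ^ 2 * (ε / (3 * R ^ 2)) :=
            mul_le_mul h4 h5 ht.1 (by positivity)
        _ = ε / 3 := by field_simp
    have h6 : (D.A n j j + (D.A n j j) ^ 2 * t + ε / 3) * t ≤ (- D.qd j + ε) * t :=
      mul_le_mul_of_nonneg_right (by linarith) ht.1
    linarith
  · have key := hG.stable_low ⟨j, hjn⟩ ht.1
    rw [hMjj] at key
    have h6 : (- D.qd j - ε) * t ≤ D.A n j j * t :=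
      mul_le_mul_of_nonneg_right (by linarith) ht.1
    linarith

/-- exit rate of instantaneous states -/
lemma Approx.Good.inst_est (h : D.Good) {a : S} (ha : ¬ D.stab a) (M : ℝ) (hM : 0 ≤ M) :
    ∃ δ > 0, ∀ᶠ n in atTop, ∀ t ∈ Icc (0:ℝ) δ, t * M ≤ 1 - D.pn n t a a := by
  obtain ⟨y, hya, hτ, hy⟩ := h.inst a ha (M + 1)
  obtain ⟨l0, hl0, hui⟩ := h.ui y 1 one_pos
  have hl0' : 0 < l0 := by linarith
  set ω : ℝ := 1 / (M + 1 + l0) with hω
  have hωpos : 0 < ω := by positivity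
  obtain ⟨δ, hδ, hd⟩ := h.std_at a hωpos
  refine ⟨δ, hδ, ?_⟩
  filter_upwards [hy, h.exh a, h.exh y] with n hn han hyn t ht
  have hG := h.isGen n
  rw [pn_eq' n t han han]
  have hLy : - l0 ≤ act (D.M n) (fun z => D.τ y z) ⟨y, hyn⟩ := by
    rw [act_M n (fun z => D.τ y z) ⟨y, hyn⟩]
    have h1 := hui n hyn l0 le_rfl
    have h2 : ∑ z ∈ D.Sn n, D.A n y z * D.τ y z
        = ∑ z ∈ D.Sn n, D.A n y z - ∑ z ∈ (D.Sn n).erase y, D.A n y z * (1 - D.τ y z) := by
      have : ∑ z ∈ D.Sn n, D.A n y z * (1 - D.τ y z)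
          = ∑ z ∈ (D.Sn n).erase y, D.A n y z * (1 - D.τ y z) := by
        rw [← Finset.add_sum_erase _ _ hyn, h.τz y]; ring
      rw [← this, ← Finset.sum_sub_distrib]
      refine Finset.sum_congr rfl fun z _ => by ring
    have h3 : ∑ z ∈ (D.Sn n).erase y, D.A n y z * (1 - D.τ y z)
        ≤ ∑ z ∈ (D.Sn n).erase y, D.A n y z * min 1 (l0 * (1 - D.τ y z)) := by
      refine Finset.sum_le_sum fun z hz => mul_le_mul_of_nonneg_left ?_
        (h.off n y z hyn (Finset.mem_of_mem_erase hz) (Finset.ne_of_mem_erase hz).symm)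
      have h4 := h.τ0 y z
      have h5 := h.τ1 y z
      refine le_min (by linarith) ?_
      nlinarith
    show - l0 ≤ ∑ z ∈ D.Sn n, D.A n y z * D.τ y z
    rw [h2]
    linarith
  have key := hG.diag_low (a := ⟨a, han⟩) (y := ⟨y, hyn⟩) (τ := fun z => D.τ y z)
    (L := l0) (M := M + 1) (ω := ω) ht.1
    (fun hc => hya (Subtype.ext_iff.1 hc).symm) hl0'.le (by linarith)
    (fun x => h.τ0 y x) (fun x => h.τ1 y x) hτ
    (fun x hxy hxa => by
      rw [act_M n (fun z => D.τ y z) x]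
      exact (h.τ0 y x).trans (h.sub n y x hyn x.2 (fun hc => hxy (Subtype.ext hc))))
    hLy
    (by rw [act_M n (fun z => D.τ y z) ⟨a, han⟩]; exact hn)
    (fun s hs => by
      rw [← pn_eq' n s han han]
      exact hd n han s ⟨hs.1, hs.2.trans ht.2⟩)
  refine le_trans (mul_le_mul_of_nonneg_left ?_ ht.1) key
  have : (M + 1 + l0) * ω = 1 := by rw [hω]; field_simp
  nlinarith

/-- **Limit theorem.** -/
theorem Approx.Good.exists_semigroup (h : D.Good) :
    ∃ p : ℝ → S → S → ℝ, IsStd p ∧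
      (∀ x y, x ≠ y → Tendsto (fun t => p t x y / t) (𝓝[>] 0) (𝓝 (D.q x y))) ∧
      (∀ j, D.stab j → Tendsto (fun t => (1 - p t j j) / t) (𝓝[>] 0) (𝓝 (D.qd j))) ∧
      (∀ a, ¬ D.stab a → Tendsto (fun t => (1 - p t a a) / t) (𝓝[>] 0) atTop) := by
  obtain ⟨p, hp, hlim⟩ := h.preSemi.exists_limit
  have hev : ∀ {P : ℕ → Prop}, (∀ᶠ n in atTop, P n) → ∀ᶠ n in (hyperfilter ℕ : Filter ℕ), P n := by
    intro P hP
    have : (hyperfilter ℕ : Filter ℕ) ≤ atTop := by
      rw [← Nat.cofinite_eq_atTop]; exact hyperfilter_le_cofinite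
    exact this hP
  have hsq : ∀ (f : ℝ → ℝ) (v : ℝ), (∀ ε > 0, ∃ δ > 0, ∀ t ∈ Icc (0:ℝ) δ,
      t * (v - ε) ≤ f t ∧ f t ≤ t * (v + ε)) →
      Tendsto (fun t => f t / t) (𝓝[>] 0) (𝓝 v) := by
    intro f v hf
    rw [Metric.tendsto_nhdsWithin_nhds]
    intro ε hε
    obtain ⟨δ, hδ, hd⟩ := hf (ε / 2) (by linarith)
    refine ⟨δ, hδ, fun {t} ht hdist => ?_⟩
    have ht0 : 0 < t := ht
    rw [Real.dist_eq, sub_zero, abs_of_pos ht0] at hdist
    obtain ⟨h1, h2⟩ := hd t ⟨ht0.le, hdist.le⟩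
    have h3 : v - ε / 2 ≤ f t / t := by rw [le_div_iff₀ ht0]; linarith
    have h4 : f t / t ≤ v + ε / 2 := by rw [div_le_iff₀ ht0]; linarith
    rw [Real.dist_eq, abs_lt]
    constructor <;> linarith
  refine ⟨p, hp, ?_, ?_, ?_⟩
  · intro x y hxy
    refine hsq _ _ fun ε hε => ?_
    obtain ⟨δ1, hδ1, hd1⟩ := h.upper_est (a := x) (y := y) (fun hc => hxy hc.symm) hε
    obtain ⟨δ2, hδ2, hd2⟩ := h.lower_est (a := x) (y := y) (fun hc => hxy hc.symm) hε
    refine ⟨min δ1 δ2, lt_min hδ1 hδ2, fun t ht => ⟨?_, ?_⟩⟩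
    · refine ge_of_tendsto (hlim t ht.1 x y) ?_
      filter_upwards [hev hd2] with n hn
      exact hn t ⟨ht.1, ht.2.trans (min_le_right _ _)⟩
    · refine le_of_tendsto (hlim t ht.1 x y) ?_
      filter_upwards [hev hd1] with n hn
      exact hn t ⟨ht.1, ht.2.trans (min_le_left _ _)⟩
  · intro j hj
    refine hsq (fun t => 1 - p t j j) _ fun ε hε => ?_
    obtain ⟨δ, hδ, hd⟩ := h.stable_est hj hε
    refine ⟨δ, hδ, fun t ht => ⟨?_, ?_⟩⟩
    · refine ge_of_tendsto ((hlim t ht.1 j j).const_sub 1) ?_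
      filter_upwards [hev hd] with n hn
      exact (hn t ht).1
    · refine le_of_tendsto ((hlim t ht.1 j j).const_sub 1) ?_
      filter_upwards [hev hd] with n hn
      exact (hn t ht).2
  · intro a ha
    rw [tendsto_atTop]
    intro M
    obtain ⟨δ, hδ, hd⟩ := h.inst_est ha (max M 0) (le_max_right _ _)
    have h1 : ∀ t ∈ Icc (0:ℝ) δ, t * max M 0 ≤ 1 - p t a a := by
      intro t ht
      refine ge_of_tendsto ((hlim t ht.1 a a).const_sub 1) ?_
      filter_upwards [hev hd] with n hn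
      exact hn t ht
    have h2 : ∀ᶠ t in 𝓝[>] (0:ℝ), t ∈ Ioc (0:ℝ) δ := Ioc_mem_nhdsGT hδ
    filter_upwards [h2] with t ht
    rw [le_div_iff₀ ht.1]
    calc M * t ≤ max M 0 * t := mul_le_mul_of_nonneg_right (le_max_left _ _) ht.1.le
      _ = t * max M 0 := mul_comm _ _
      _ ≤ _ := h1 t ⟨ht.1.le, ht.2⟩

end Run7.h251
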