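import Pool.Agent.Run7.h251.Tree

set_option linter.unusedVariables false
set_option linter.unusedSectionVars false

open Filter Topology Set
open scoped ENNReal NNReal

namespace Run7.h251

lemma tail_small {S : Type} [DecidableEq S] {g : S → ℝ≥0∞} (hg : ∑' y, g y ≠ ⊤) {ε : ℝ≥0∞}
    (hε : ε ≠ 0) : ∃ B : Finset S, ∀ B', B ⊆ B' → ∑' y, (if y ∈ B' then 0 else g y) ≤ ε := by
  have h := ENNReal.tendsto_tsum_compl_atTop_zero hg
  have h2 := (ENNReal.tendsto_nhds_zero.1 h) ε (pos_iff_ne_zero.2 hε)
  rw [eventually_atTop] at h2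
  obtain ⟨B, hB⟩ := h2
  refine ⟨B, fun B' hB' => ?_⟩
  refine le_trans (le_of_eq ?_) (hB B' hB')
  rw [show (∑' b : {x // x ∉ B'}, g b) = ∑' y, Set.indicator {x | x ∉ B'} g y from
    tsum_subtype _ _]
  refine tsum_congr fun y => ?_
  by_cases hy : y ∈ B' <;> simp [hy]

lemma tail_small_nat {g : ℕ → ℝ≥0∞} (hg : ∑' y, g y ≠ ⊤) {ε : ℝ≥0∞}
    (hε : ε ≠ 0) : ∃ N : ℕ, ∑' n, (if N ≤ n then g n else 0) ≤ ε := by
  obtain ⟨B, hB⟩ := tail_small hg hε
  refine ⟨B.sup id + 1, ?_⟩
  refine le_trans (ENNReal.tsum_le_tsum fun n => ?_) (hB B (Finset.Subset.refl _))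
  by_cases h1 : B.sup id + 1 ≤ n
  · rw [if_pos h1]
    by_cases h2 : n ∈ B
    · have := Finset.le_sup (f := id) h2
      simp only [id] at this
      omega
    · rw [if_neg h2]
  · rw [if_neg h1]; exact zero_le

/-- disjointification of a countable family with pairwise summable minima -/
lemma exists_par (f : ℕ → ℕ → ℝ≥0∞) (hf : ∀ i n, n ≠ i → f i n ≠ ⊤)
    (hN : ∀ i i', i ≠ i' → ∑' n, (if n = i ∨ n = i' then 0 else min (f i n) (f i' n)) ≠ ⊤) :
    ∃ par : ℕ → ℕ, (∀ n, 0 < n → par n < n) ∧
      ∀ i, ∑' n, (if i < n ∧ par n ≠ i then f i n else 0) ≠ ⊤ := by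
  classical
  have hNN : ∀ i', ∃ N, i' < N ∧ ∀ i < i',
      ∑' n, (if N ≤ n then (if n = i ∨ n = i' then 0 else min (f i n) (f i' n)) else 0)
        ≤ (2⁻¹ : ℝ≥0∞) ^ i' := by
    intro i'
    have h1 : ∀ i, ∃ N, i < i' →
        ∑' n, (if N ≤ n then (if n = i ∨ n = i' then 0 else min (f i n) (f i' n)) else 0)
          ≤ (2⁻¹ : ℝ≥0∞) ^ i' := by
      intro i
      by_cases hi : i < i'
      · obtain ⟨N, hN'⟩ := tail_small_nat (hN i i' hi.ne) (ε := (2⁻¹ : ℝ≥0∞) ^ i') (by simp)
        exact ⟨N, fun _ => hN'⟩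
      · exact ⟨0, fun h => absurd h hi⟩
    choose N hN' using h1
    refine ⟨max (i' + 1) ((Finset.range i').sup N), by omega, fun i hi => ?_⟩
    refine le_trans (ENNReal.tsum_le_tsum fun n => ?_) (hN' i hi)
    have hle : N i ≤ max (i' + 1) ((Finset.range i').sup N) :=
      (Finset.le_sup (f := N) (Finset.mem_range.2 hi)).trans (le_max_right _ _)
    by_cases h2 : max (i' + 1) ((Finset.range i').sup N) ≤ n
    · rw [if_pos h2, if_pos (hle.trans h2)]
    · rw [if_neg h2]; exact zero_le
  choose N hN1 hN2 using hNN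
  let C : ℕ → ℕ → Prop := fun i' n => N i' ≤ n ∧ ∀ i < i', f i n ≤ f i' n
  let par : ℕ → ℕ := fun n => ((Finset.range n).filter (fun i => C i n)).sup id
  have hpar1 : ∀ n, 0 < n → par n < n := by
    intro n hn
    rw [Finset.sup_lt_iff (by simpa using hn)]
    intro b hb
    exact Finset.mem_range.1 (Finset.mem_filter.1 hb).1
  have hpar2 : ∀ n i, i < n → C i n → i ≤ par n := by
    intro n i hi hc
    exact Finset.le_sup (f := id) (Finset.mem_filter.2 ⟨Finset.mem_range.2 hi, hc⟩)
  have hpar3 : ∀ n, par n ≠ 0 → C (par n) n := by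
    intro n hn
    have hne : ((Finset.range n).filter (fun i => C i n)).Nonempty := by
      by_contra h
      rw [Finset.not_nonempty_iff_eq_empty] at h
      apply hn
      show ((Finset.range n).filter (fun i => C i n)).sup id = 0
      rw [h]; rfl
    obtain ⟨b, hb, hb'⟩ := Finset.exists_mem_eq_sup _ hne id
    have : par n = b := hb'
    rw [this]
    exact (Finset.mem_filter.1 hb).2
  refine ⟨par, hpar1, fun i => ?_⟩
  have hbound : ∀ n, (if i < n ∧ par n ≠ i then f i n else 0) ≤
      (if i < n ∧ n < N i then f i n else 0)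
      + (∑ i'' ∈ Finset.range i, (if n = i'' ∨ n = i then 0 else min (f i'' n) (f i n)))
      + ∑' i', (if i < i' then
          (if N i' ≤ n then (if n = i ∨ n = i' then 0 else min (f i n) (f i' n)) else 0) else 0) := by
    intro n
    by_cases h : i < n ∧ par n ≠ i
    · rw [if_pos h]
      obtain ⟨hin, hpn⟩ := h
      rcases lt_or_gt_of_ne hpn with hlt | hgt
      · -- C i n fails
        have hC : ¬ (N i ≤ n ∧ ∀ i'' < i, f i'' n ≤ f i n) := fun hc => by
          have := hpar2 n i hin hc; omega
        simp only [not_and_or, not_le, not_forall] at hC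
        rcases hC with h1 | ⟨i'', hi'', h1⟩
        · rw [if_pos ⟨hin, h1⟩]
          rw [add_assoc]
          exact le_self_add
        · have h2 : f i n ≤ ∑ i'' ∈ Finset.range i,
              (if n = i'' ∨ n = i then 0 else min (f i'' n) (f i n)) := by
            refine le_trans ?_ (Finset.single_le_sum (f := fun i'' =>
              (if n = i'' ∨ n = i then 0 else min (f i'' n) (f i n)))
              (fun _ _ => zero_le) (Finset.mem_range.2 hi''))
            rw [if_neg (by omega), min_eq_right h1.le]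
          refine h2.trans ?_
          rw [add_comm (if i < n ∧ n < N i then f i n else 0), add_assoc]
          exact le_self_add
      · have hC := hpar3 n (by omega)
        have h3 : f i n ≤ ∑' i', (if i < i' then
          (if N i' ≤ n then (if n = i ∨ n = i' then 0 else min (f i n) (f i' n)) else 0) else 0) := by
          refine le_trans ?_ (ENNReal.le_tsum (par n))
          rw [if_pos hgt, if_pos hC.1, if_neg, min_eq_left (hC.2 i hgt)]
          have := hpar1 n (by omega)
          omega
        refine h3.trans le_add_self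
    · rw [if_neg h]; exact zero_le
  refine ne_top_of_le_ne_top ?_ (ENNReal.tsum_le_tsum hbound)
  rw [ENNReal.tsum_add, ENNReal.tsum_add]
  refine ENNReal.add_ne_top.2 ⟨ENNReal.add_ne_top.2 ⟨?_, ?_⟩, ?_⟩
  · rw [tsum_eq_sum (s := Finset.range (N i))]
    · refine ENNReal.sum_ne_top.2 fun n _ => ?_
      split_ifs with h
      · exact hf i n (by omega)
      · exact ENNReal.zero_ne_top
    · intro n hn
      rw [if_neg]
      rintro ⟨_, h2⟩
      exact hn (Finset.mem_range.2 h2)
  · rw [Summable.tsum_finsetSum (fun _ _ => ENNReal.summable)]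
    refine ENNReal.sum_ne_top.2 fun i'' hi'' => hN i'' i (Finset.mem_range.1 hi'').ne
  · rw [ENNReal.tsum_comm]
    have h4 : ∀ i', ∑' n, (if i < i' then
        (if N i' ≤ n then (if n = i ∨ n = i' then 0 else min (f i n) (f i' n)) else 0) else 0)
        ≤ (2⁻¹ : ℝ≥0∞) ^ i' := by
      intro i'
      by_cases hi : i < i'
      · simp only [hi, if_true]
        exact hN2 i' i hi
      · simp [hi]
    refine ne_top_of_le_ne_top ?_ (ENNReal.tsum_le_tsum h4)
    rw [ENNReal.tsum_geometric]
    simp

/-- resource assignments exist -/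
lemma exists_assign {K : Set ℕ} (hK : K.Infinite) : ∃ e : ℕ → Option (ℕ × ℕ),
    (∀ k i m, e k = some (i, m) → i < k ∧ m ≤ k) ∧
    (∀ i m N, ∃ k, N ≤ k ∧ e k = some (i, m)) ∧ (∀ k im, e k = some im → k ∈ K) := by
  classical
  set P : ℕ → Prop := fun k => k ∈ K ∧ 0 < k with hP
  have hinf : ({k | P k} : Set ℕ).Infinite := by
    have : K \ {0} ⊆ {k | P k} := by
      intro k hk
      exact ⟨hk.1, Nat.pos_of_ne_zero (fun h => hk.2 (by simp [h]))⟩
    exact (hK.sdiff (finite_singleton 0)).mono this
  have hmono : StrictMono (Nat.nth P) := Nat.nth_strictMono hinf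
  have hnth : ∀ r, r < Nat.nth P r := by
    intro r
    induction r with
    | zero => exact (Nat.nth_mem_of_infinite hinf 0).2
    | succ r ih => have := hmono (Nat.lt_add_one r); omega
  set η : ℕ → ℕ × ℕ := fun r => Nat.unpair (Nat.unpair r).1 with hη
  have hη1 : ∀ r, (η r).1 ≤ r := fun r =>
    (Nat.unpair_left_le _).trans (Nat.unpair_left_le _)
  have hη2 : ∀ r, (η r).2 ≤ r := fun r =>
    (Nat.unpair_right_le _).trans (Nat.unpair_left_le _)
  refine ⟨fun k => if P k then some (η (Nat.count P k)) else none, ?_, ?_, ?_⟩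
  · intro k i m h
    dsimp only at h
    by_cases hk : P k
    · rw [if_pos hk] at h
      have h1 := Option.some.inj h
      have h2 : Nat.nth P (Nat.count P k) = k := Nat.nth_count hk
      have h3 := hnth (Nat.count P k)
      rw [h2] at h3
      have h4 := hη1 (Nat.count P k)
      have h5 := hη2 (Nat.count P k)
      rw [h1] at h4 h5
      simp only at h4 h5
      omega
    · rw [if_neg hk] at h; exact absurd h (by simp)
  · intro i m N
    refine ⟨Nat.nth P (Nat.pair (Nat.pair i m) N), ?_, ?_⟩
    · exact (Nat.right_le_pair _ _).trans (hnth _).le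
    · have hmem : P (Nat.nth P (Nat.pair (Nat.pair i m) N)) := Nat.nth_mem_of_infinite hinf _
      dsimp only
      rw [if_pos hmem, Nat.count_nth_of_infinite hinf]
      simp [hη, Nat.unpair_pair]
  · intro k im h
    dsimp only at h
    by_cases hk : P k
    · exact hk.1
    · rw [if_neg hk] at h; exact absurd h (by simp)

end Run7.h251
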