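import Mathlib

set_option linter.unusedVariables false
set_option linter.unusedSectionVars false

open Filter Topology Set
open scoped ENNReal NNReal

namespace Run7.h251

section Kern
variable {F : Type} [DecidableEq F] (q : F → F → ℝ≥0) (qd : F → ℝ≥0)

/-- terms of the minimal resolvent at `1` -/
noncomputable def uu : ℕ → F → F → ℝ≥0∞
  | 0 => fun j k => if j = k then (1 + (qd j : ℝ≥0∞))⁻¹ else 0
  | m + 1 => fun j k => (1 + (qd j : ℝ≥0∞))⁻¹ * ∑' l, (q j l : ℝ≥0∞) * uu m l k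

/-- the minimal resolvent at `1` -/
noncomputable def phi (j k : F) : ℝ≥0∞ := ∑' m, uu q qd m j k

variable {q qd}

lemma one_add_ne_zero (j : F) : (1 + (qd j : ℝ≥0∞)) ≠ 0 := by
  simp

lemma one_add_ne_top (j : F) : (1 + (qd j : ℝ≥0∞)) ≠ ⊤ := by
  simp

lemma mul_inv_one_add (j : F) (x : ℝ≥0∞) :
    (1 + (qd j : ℝ≥0∞)) * ((1 + (qd j : ℝ≥0∞))⁻¹ * x) = x := by
  rw [← mul_assoc, ENNReal.mul_inv_cancel (one_add_ne_zero j) (one_add_ne_top j), one_mul]

lemma uu_succ_sum (c : F → ℝ≥0∞) (m : ℕ) (j : F) :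
    (1 + (qd j : ℝ≥0∞)) * ∑' k, uu q qd (m + 1) j k * c k
      = ∑' l, (q j l : ℝ≥0∞) * ∑' k, uu q qd m l k * c k := by
  have h1 : ∀ k, uu q qd (m + 1) j k * c k
      = (1 + (qd j : ℝ≥0∞))⁻¹ * ((∑' l, (q j l : ℝ≥0∞) * uu q qd m l k) * c k) := by
    intro k
    simp only [uu]
    rw [mul_assoc]
  simp only [h1]
  rw [ENNReal.tsum_mul_left, mul_inv_one_add]
  simp only [← ENNReal.tsum_mul_right, ← ENNReal.tsum_mul_left]
  rw [ENNReal.tsum_comm]
  simp only [mul_assoc]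

lemma uu_zero_sum (c : F → ℝ≥0∞) (j : F) :
    (1 + (qd j : ℝ≥0∞)) * ∑' k, uu q qd 0 j k * c k = c j := by
  rw [tsum_eq_single j]
  · simp only [uu, if_true]
    rw [mul_inv_one_add]
  · intro k hk
    simp only [uu]
    rw [if_neg (Ne.symm hk), zero_mul]

/-- `phi` solves the equation -/
lemma phi_eq (c : F → ℝ≥0∞) (j : F) :
    (1 + (qd j : ℝ≥0∞)) * ∑' k, phi q qd j k * c k
      = c j + ∑' l, (q j l : ℝ≥0∞) * ∑' k, phi q qd l k * c k := by
  have h0 : ∀ j, ∑' k, phi q qd j k * c k = ∑' m, ∑' k, uu q qd m j k * c k := by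
    intro j
    simp only [phi, ← ENNReal.tsum_mul_right]
    rw [ENNReal.tsum_comm]
  simp only [h0]
  rw [tsum_eq_zero_add' ENNReal.summable, mul_add, uu_zero_sum]
  congr 1
  calc (1 + (qd j : ℝ≥0∞)) * ∑' m, ∑' k, uu q qd (m + 1) j k * c k
      = ∑' m, (1 + (qd j : ℝ≥0∞)) * ∑' k, uu q qd (m + 1) j k * c k := by
        rw [ENNReal.tsum_mul_left]
    _ = ∑' m, ∑' l, (q j l : ℝ≥0∞) * ∑' k, uu q qd m l k * c k := by
        refine tsum_congr fun m => uu_succ_sum c m j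
    _ = ∑' l, ∑' m, (q j l : ℝ≥0∞) * ∑' k, uu q qd m l k * c k := ENNReal.tsum_comm
    _ = _ := by
        refine tsum_congr fun l => ENNReal.tsum_mul_left

/-- minimality -/
lemma phi_min {c δ : F → ℝ≥0∞}
    (h : ∀ j, c j + ∑' l, (q j l : ℝ≥0∞) * δ l ≤ (1 + (qd j : ℝ≥0∞)) * δ j) (j : F) :
    ∑' k, phi q qd j k * c k ≤ δ j := by
  have h0 : ∀ j, ∑' k, phi q qd j k * c k = ∑' m, ∑' k, uu q qd m j k * c k := by
    intro j
    simp only [phi, ← ENNReal.tsum_mul_right]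
    rw [ENNReal.tsum_comm]
  rw [h0]
  have key : ∀ M j, ∑ m ∈ Finset.range M, ∑' k, uu q qd m j k * c k ≤ δ j := by
    intro M
    induction M with
    | zero => intro j; simp
    | succ M ih =>
      intro j
      have h1 : (1 + (qd j : ℝ≥0∞)) * ∑ m ∈ Finset.range (M + 1), ∑' k, uu q qd m j k * c k
          ≤ (1 + (qd j : ℝ≥0∞)) * δ j := by
        rw [Finset.sum_range_succ', mul_add, uu_zero_sum, Finset.mul_sum]
        simp only [uu_succ_sum]
        rw [add_comm]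
        refine le_trans ?_ (h j)
        gcongr
        rw [← Summable.tsum_finsetSum (fun _ _ => ENNReal.summable)]
        refine ENNReal.tsum_le_tsum fun l => ?_
        rw [← Finset.mul_sum]
        gcongr
        exact ih l
      exact (ENNReal.mul_le_mul_iff_right (one_add_ne_zero j) (one_add_ne_top j)).1 h1
  rw [ENNReal.tsum_eq_iSup_nat]
  exact iSup_le fun M => key M j

end Kern
end Run7.h251
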