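import Pool.Agent.Run7.h251.Assign
import Pool.Agent.Run7.h251.Kern
import Pool.Agent.Run7.h251.Approx3

set_option linter.unusedVariables false
set_option linter.unusedSectionVars false

open Filter Topology Set
open scoped ENNReal NNReal

namespace Run7.h251

/-- input data of the construction: stable states `F`, instantaneous states `ℕ` -/
structure XData (F : Type) where
  q : F ⊕ ℕ → F ⊕ ℕ → ℝ≥0
  qd : F → ℝ≥0
  α : ℕ → F → ℝ≥0
  R : Res
  enc : F → ℕ

namespace XData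
variable {F : Type} [DecidableEq F] (X : XData F)

/-- extension of `α` by the Kronecker symbol -/
def al (l : ℕ) : F ⊕ ℕ → ℝ≥0 := Sum.elim (X.α l) (fun m => if m = l then 1 else 0)

@[simp] lemma al_inl (l : ℕ) (j : F) : X.al l (Sum.inl j) = X.α l j := rfl
@[simp] lemma al_inr (l m : ℕ) : X.al l (Sum.inr m) = if m = l then 1 else 0 := rfl

/-- reduced rates -/
noncomputable def qh (i l : ℕ) : ℝ≥0∞ := ∑' y, (X.q (Sum.inr i) y : ℝ≥0∞) * X.al l y

/-- defect -/
noncomputable def dfc (y : F ⊕ ℕ) : ℝ≥0∞ := 1 - ∑' l, (X.al l y : ℝ≥0∞)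

structure Good : Prop where
  enc_inj : Function.Injective X.enc
  diag : ∀ x, X.q x x = 0
  row : ∀ j, ∑' y, (X.q (Sum.inl j) y : ℝ≥0∞) ≤ X.qd j
  sub : ∀ l j, (1 + (X.qd j : ℝ≥0∞)) * X.α l j ≤ ∑' y, (X.q (Sum.inl j) y : ℝ≥0∞) * X.al l y
  asum : ∀ j, ∑' l, (X.α l j : ℝ≥0∞) ≤ 1
  fin : ∀ i l, i ≠ l → X.qh i l ≠ ⊤
  defect : ∀ i, ∑' y, (X.q (Sum.inr i) y : ℝ≥0∞) * X.dfc y ≠ ⊤
  tree : ∀ i, ∑' l, (if i < l ∧ X.R.p l ≠ i then X.qh i l else 0) ≠ ⊤

/-- edge lengths -/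
noncomputable def ell : ℕ → ℝ
  | 0 => 1
  | n + 1 => ell n * ((1 / 2) ^ (n + 2) / (1 + (X.qh (X.R.p (n + 1)) (n + 1)).toReal))

lemma ell_pos : ∀ n, 0 < X.ell n := by
  intro n
  induction n with
  | zero => simp [ell]
  | succ n ih => simp only [ell]; positivity

lemma ell_succ_le (n : ℕ) : X.ell (n + 1) ≤ (1 / 2) ^ (n + 2) * X.ell n := by
  have h1 := X.ell_pos n
  have h2 : (1:ℝ) ≤ 1 + (X.qh (X.R.p (n + 1)) (n + 1)).toReal := by
    have := ENNReal.toReal_nonneg (a := X.qh (X.R.p (n + 1)) (n + 1)); linarith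
  simp only [ell]
  have h3 : (1 / 2 : ℝ) ^ (n + 2) / (1 + (X.qh (X.R.p (n + 1)) (n + 1)).toReal) ≤ (1 / 2) ^ (n + 2) :=
    div_le_self (by positivity) h2
  rw [mul_comm]
  exact mul_le_mul_of_nonneg_right h3 h1.le

lemma ell_anti : ∀ n i, i ≤ n → X.ell n ≤ X.ell i := by
  intro n i h
  induction n, h using Nat.le_induction with
  | base => exact le_rfl
  | succ n hn ih =>
    refine le_trans ?_ ih
    have h1 := X.ell_succ_le n
    have h2 : ((1:ℝ) / 2) ^ (n + 2) ≤ 1 := pow_le_one₀ (by norm_num) (by norm_num)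
    have h3 := X.ell_pos n
    nlinarith

lemma small_ell : Res.Small X.ell where
  pos := X.ell_pos
  zero := by simp [ell]
  small := by
    intro i n hin
    obtain ⟨k, rfl⟩ : ∃ k, n = k + 1 := ⟨n - 1, by omega⟩
    have h1 := X.ell_succ_le k
    have h2 := X.ell_anti k i (by omega)
    have h3 : (0:ℝ) ≤ (1 / 2) ^ (k + 2) := by positivity
    calc X.ell (k + 1) ≤ (1 / 2) ^ (k + 2) * X.ell k := h1
      _ ≤ (1 / 2) ^ (k + 1 + 1) * X.ell i := mul_le_mul_of_nonneg_left h2 h3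

lemma ell_qh {n : ℕ} (hn : 0 < n) :
    X.ell n * (1 + (X.qh (X.R.p n) n).toReal) ≤ (1 / 2) ^ (n + 1) := by
  obtain ⟨k, rfl⟩ : ∃ k, n = k + 1 := ⟨n - 1, by omega⟩
  have h2 : (0:ℝ) < 1 + (X.qh (X.R.p (k + 1)) (k + 1)).toReal := by
    have := ENNReal.toReal_nonneg (a := X.qh (X.R.p (k + 1)) (k + 1)); linarith
  simp only [ell]
  have h3 : X.ell k * ((1 / 2) ^ (k + 2) / (1 + (X.qh (X.R.p (k + 1)) (k + 1)).toReal))
      * (1 + (X.qh (X.R.p (k + 1)) (k + 1)).toReal) = X.ell k * (1 / 2) ^ (k + 2) := by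
    field_simp
  rw [h3]
  have h4 := X.small_ell.le_one k
  have h5 : (0:ℝ) ≤ (1 / 2) ^ (k + 2) := by positivity
  calc X.ell k * (1 / 2) ^ (k + 2) ≤ 1 * (1 / 2) ^ (k + 2) := mul_le_mul_of_nonneg_right h4 h5
    _ = _ := by rw [one_mul]

/-- abbreviation -/
noncomputable abbrev t (i n : ℕ) : ℝ := X.R.tt X.ell i n

lemma t0 (i n : ℕ) : 0 ≤ X.t i n := X.R.tt_nonneg _ i n
lemma t1 (i n : ℕ) : X.t i n ≤ 1 := X.R.tt_le_one X.small_ell.nonneg i n

/-- the functions `τ` -/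
noncomputable def T : F ⊕ ℕ → F ⊕ ℕ → ℝ
  | Sum.inr i, Sum.inr n => X.t i n
  | Sum.inr i, Sum.inl j => ∑' l, (X.α l j : ℝ) * X.t i l
  | Sum.inl j, x => if x = Sum.inl j then 1 else 0

variable {X}

lemma Good.sum_al (h : X.Good) (y : F ⊕ ℕ) : ∑' l, (X.al l y : ℝ≥0∞) ≤ 1 := by
  cases y with
  | inl j => exact h.asum j
  | inr m =>
    rw [tsum_eq_single m]
    · simp
    · intro l hl; simp [Ne.symm hl]

lemma Good.summable_al (h : X.Good) (y : F ⊕ ℕ) : Summable (fun l => (X.al l y : ℝ)) := by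
  have : ∑' l, (X.al l y : ℝ≥0∞) ≠ ⊤ := ne_top_of_le_ne_top ENNReal.one_ne_top (h.sum_al y)
  exact NNReal.summable_coe.2 (ENNReal.tsum_coe_ne_top_iff_summable.1 this)

lemma Good.tsum_al (h : X.Good) (y : F ⊕ ℕ) : ∑' l, (X.al l y : ℝ) ≤ 1 := by
  have h1 := h.sum_al y
  have h2 : ∑' l, (X.al l y : ℝ≥0∞) ≠ ⊤ := ne_top_of_le_ne_top ENNReal.one_ne_top h1
  have h3 := ENNReal.tsum_coe_ne_top_iff_summable.1 h2
  rw [← ENNReal.coe_tsum h3] at h1
  have h4 : ∑' l, X.al l y ≤ 1 := by exact_mod_cast h1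
  rw [← NNReal.coe_tsum]
  exact_mod_cast h4

lemma T_eq (i : ℕ) (y : F ⊕ ℕ) : X.T (Sum.inr i) y = ∑' l, (X.al l y : ℝ) * X.t i l := by
  cases y with
  | inl j => rfl
  | inr m =>
    rw [tsum_eq_single m]
    · simp [T]
    · intro l hl; simp [Ne.symm hl]

lemma Good.summable_alt (h : X.Good) (y : F ⊕ ℕ) {c : ℕ → ℝ} (hc0 : ∀ l, 0 ≤ c l)
    (hc1 : ∀ l, c l ≤ 1) : Summable (fun l => (X.al l y : ℝ) * c l) := by
  refine Summable.of_nonneg_of_le (fun l => mul_nonneg (NNReal.coe_nonneg _) (hc0 l)) (fun l => ?_)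
    (h.summable_al y)
  calc (X.al l y : ℝ) * c l ≤ X.al l y * 1 := mul_le_mul_of_nonneg_left (hc1 l) (NNReal.coe_nonneg _)
    _ = _ := mul_one _

lemma Good.T_nonneg (h : X.Good) (z x : F ⊕ ℕ) : 0 ≤ X.T z x := by
  cases z with
  | inl j => simp only [T]; split_ifs <;> norm_num
  | inr i =>
    rw [T_eq]
    exact tsum_nonneg fun l => mul_nonneg (NNReal.coe_nonneg _) (X.t0 i l)

lemma Good.T_le_one (h : X.Good) (z x : F ⊕ ℕ) : X.T z x ≤ 1 := by
  cases z with
  | inl j => simp only [T]; split_ifs <;> norm_num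
  | inr i =>
    rw [T_eq]
    refine le_trans ?_ (h.tsum_al x)
    refine (h.summable_alt x (X.t0 i) (X.t1 i)).tsum_le_tsum (fun l => ?_) (h.summable_al x)
    calc (X.al l x : ℝ) * X.t i l ≤ X.al l x * 1 :=
          mul_le_mul_of_nonneg_left (X.t1 i l) (NNReal.coe_nonneg _)
      _ = _ := mul_one _

lemma T_self (z : F ⊕ ℕ) : X.T z z = 1 := by
  cases z with
  | inl j => simp [T]
  | inr i => simp only [T]; exact X.R.tt_self _ i

/-- extended nonnegative version of `T_eq` -/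
lemma Good.ofReal_T (h : X.Good) (i : ℕ) (y : F ⊕ ℕ) :
    ENNReal.ofReal (X.T (Sum.inr i) y) = ∑' l, (X.al l y : ℝ≥0∞) * ENNReal.ofReal (X.t i l) := by
  rw [T_eq, ENNReal.ofReal_tsum_of_nonneg
    (fun l => mul_nonneg (NNReal.coe_nonneg _) (X.t0 i l)) (h.summable_alt y (X.t0 i) (X.t1 i))]
  refine tsum_congr fun l => ?_
  rw [ENNReal.ofReal_mul (NNReal.coe_nonneg _), ENNReal.ofReal_coe_nnreal]

lemma Good.ofReal_one_sub_T (h : X.Good) (i : ℕ) (y : F ⊕ ℕ) :
    ENNReal.ofReal (1 - X.T (Sum.inr i) y)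
      ≤ X.dfc y + ∑' l, (X.al l y : ℝ≥0∞) * ENNReal.ofReal (1 - X.t i l) := by
  rw [ENNReal.ofReal_sub _ (h.T_nonneg _ _), ENNReal.ofReal_one, tsub_le_iff_right, h.ofReal_T i y]
  unfold dfc
  have h1 : ∑' l, (X.al l y : ℝ≥0∞) * ENNReal.ofReal (1 - X.t i l)
      + ∑' l, (X.al l y : ℝ≥0∞) * ENNReal.ofReal (X.t i l) = ∑' l, (X.al l y : ℝ≥0∞) := by
    rw [← ENNReal.tsum_add]
    refine tsum_congr fun l => ?_
    rw [← mul_add, ← ENNReal.ofReal_add (by linarith [X.t1 i l]) (X.t0 i l)]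
    simp
  rw [add_assoc, h1]
  exact le_tsub_add

/-- triangle inequality -/
lemma Good.T_triangle (h : X.Good) (a i : ℕ) (y : F ⊕ ℕ) :
    X.t a i - (1 - X.T (Sum.inr i) y) ≤ X.T (Sum.inr a) y := by
  rw [T_eq a y, T_eq i y]
  have h1 : ∑' l, (X.al l y : ℝ) * (X.t a i - 1 + X.t i l)
      ≤ ∑' l, (X.al l y : ℝ) * X.t a l := by
    refine Summable.tsum_le_tsum (fun l => mul_le_mul_of_nonneg_left ?_ (NNReal.coe_nonneg _)) ?_
      (h.summable_alt y (X.t0 a) (X.t1 a))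
    · have := X.R.tt_triangle X.small_ell.nonneg a i l
      linarith
    · simp only [mul_add]
      exact ((h.summable_al y).mul_right _).add (h.summable_alt y (X.t0 i) (X.t1 i))
  have h2 : ∑' l, (X.al l y : ℝ) * (X.t a i - 1 + X.t i l)
      = (∑' l, (X.al l y : ℝ)) * (X.t a i - 1) + ∑' l, (X.al l y : ℝ) * X.t i l := by
    simp only [mul_add]
    rw [Summable.tsum_add ((h.summable_al y).mul_right _) (h.summable_alt y (X.t0 i) (X.t1 i)),
      tsum_mul_right]
  rw [h2] at h1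
  have h3 := h.tsum_al y
  have h4 := X.t1 a i
  nlinarith

/-- flux out of an instantaneous state -/
lemma Good.lam_ne_top (h : X.Good) (i : ℕ) :
    ∑' y, (X.q (Sum.inr i) y : ℝ≥0∞) * ENNReal.ofReal (1 - X.T (Sum.inr i) y) ≠ ⊤ := by
  have h1 : ∑' y, (X.q (Sum.inr i) y : ℝ≥0∞) * ENNReal.ofReal (1 - X.T (Sum.inr i) y)
      ≤ ∑' y, (X.q (Sum.inr i) y : ℝ≥0∞) * X.dfc y
        + ∑' l, X.qh i l * ENNReal.ofReal (1 - X.t i l) := by
    calc ∑' y, (X.q (Sum.inr i) y : ℝ≥0∞) * ENNReal.ofReal (1 - X.T (Sum.inr i) y)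
        ≤ ∑' y, (X.q (Sum.inr i) y : ℝ≥0∞) *
          (X.dfc y + ∑' l, (X.al l y : ℝ≥0∞) * ENNReal.ofReal (1 - X.t i l)) :=
          ENNReal.tsum_le_tsum fun y => mul_le_mul_right (h.ofReal_one_sub_T i y) _
      _ = ∑' y, (X.q (Sum.inr i) y : ℝ≥0∞) * X.dfc y
        + ∑' y, (X.q (Sum.inr i) y : ℝ≥0∞) *
          ∑' l, (X.al l y : ℝ≥0∞) * ENNReal.ofReal (1 - X.t i l) := by
          simp only [mul_add]; rw [ENNReal.tsum_add]
      _ = _ := by
          congr 1
          simp only [← ENNReal.tsum_mul_left]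
          rw [ENNReal.tsum_comm]
          refine tsum_congr fun l => ?_
          unfold qh
          rw [← ENNReal.tsum_mul_right]
          refine tsum_congr fun y => by rw [mul_assoc]
  refine ne_top_of_le_ne_top (ENNReal.add_ne_top.2 ⟨h.defect i, ?_⟩) h1
  have h2 : ∀ l, X.qh i l * ENNReal.ofReal (1 - X.t i l)
      ≤ (if i < l ∧ X.R.p l ≠ i then X.qh i l else 0)
        + ((if l < i then X.qh i l else 0) + (2⁻¹ : ℝ≥0∞) ^ l) := by
    intro l
    have hle1 : ENNReal.ofReal (1 - X.t i l) ≤ 1 := by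
      rw [ENNReal.ofReal_le_one]; linarith [X.t0 i l]
    have hA : X.qh i l * ENNReal.ofReal (1 - X.t i l) ≤ X.qh i l := by
      calc _ ≤ X.qh i l * 1 := mul_le_mul_right hle1 _
        _ = _ := mul_one _
    rcases lt_trichotomy l i with hl | hl | hl
    · rw [if_pos hl]
      refine hA.trans ?_
      rw [add_comm, add_assoc]
      exact le_self_add
    · rw [hl]
      have : X.t i i = 1 := X.R.tt_self _ i
      rw [this]; simp
    · by_cases hp : X.R.p l = i
      · have h3 : 1 - X.t i l ≤ X.ell l := by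
          have := X.R.tt_ge_sub (ell := X.ell) hl
          rw [hp, X.R.tt_self] at this
          have h4 : X.R.tt X.ell i l = X.t i l := rfl
          rw [h4] at this
          linarith
        have h5 : X.qh i l * ENNReal.ofReal (1 - X.t i l) ≤ (2⁻¹ : ℝ≥0∞) ^ l := by
          have h6 : X.qh i l = ENNReal.ofReal ((X.qh i l).toReal) :=
            (ENNReal.ofReal_toReal (h.fin i l (by omega))).symm
          have h7 := X.ell_qh (n := l) (by omega)
          rw [hp] at h7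
          have h8 : (0:ℝ) ≤ (X.qh i l).toReal := ENNReal.toReal_nonneg
          calc X.qh i l * ENNReal.ofReal (1 - X.t i l)
              ≤ ENNReal.ofReal ((X.qh i l).toReal) * ENNReal.ofReal (X.ell l) := by
                rw [← h6]
                exact mul_le_mul_right (ENNReal.ofReal_le_ofReal h3) _
            _ = ENNReal.ofReal ((X.qh i l).toReal * X.ell l) := by rw [ENNReal.ofReal_mul h8]
            _ ≤ ENNReal.ofReal ((1 / 2) ^ l) := by
                refine ENNReal.ofReal_le_ofReal ?_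
                have h9 : (0:ℝ) < (1 / 2) ^ l := by positivity
                have h10 : ((1:ℝ) / 2) ^ (l + 1) = (1 / 2) ^ l / 2 := by ring
                have h11 := X.ell_pos l
                nlinarith
            _ = (2⁻¹ : ℝ≥0∞) ^ l := by
                rw [ENNReal.ofReal_pow (by norm_num)]
                congr 1
                rw [one_div, ENNReal.ofReal_inv_of_pos (by norm_num)]
                simp
        refine h5.trans ?_
        rw [add_comm, add_comm (if l < i then X.qh i l else 0) ((2⁻¹ : ℝ≥0∞) ^ l), add_assoc]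
        exact le_self_add
      · rw [if_pos ⟨hl, hp⟩]
        exact hA.trans le_self_add
  refine ne_top_of_le_ne_top ?_ (ENNReal.tsum_le_tsum h2)
  rw [ENNReal.tsum_add, ENNReal.tsum_add]
  refine ENNReal.add_ne_top.2 ⟨h.tree i, ENNReal.add_ne_top.2 ⟨?_, ?_⟩⟩
  · rw [tsum_eq_sum (s := Finset.range i)]
    · refine ENNReal.sum_ne_top.2 fun l hl => ?_
      have := Finset.mem_range.1 hl
      rw [if_pos this]
      exact h.fin i l (by omega)
    · intro l hl
      rw [if_neg]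
      intro hc; exact hl (Finset.mem_range.2 hc)
  · rw [ENNReal.tsum_geometric]; simp

end XData
end Run7.h251
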