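import Pool.Agent.Run7.h251.Build1

set_option linter.unusedVariables false
set_option linter.unusedSectionVars false

open Filter Topology Set
open scoped ENNReal NNReal

namespace Run7.h251

namespace XData
variable {F : Type} [DecidableEq F] (X : XData F)

open Classical in
/-- stable states of the `n`-th chain -/
noncomputable def FF (n : ℕ) : Finset F :=
  if h : Set.Finite {j | X.enc j < n} then h.toFinset else ∅

/-- states of the `n`-th chain -/
noncomputable def SS (n : ℕ) : Finset (F ⊕ ℕ) := (X.FF n).disjSum (Finset.range (n + 1))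

lemma Good.mem_FF {X : XData F} (h : X.Good) {n : ℕ} {j : F} : j ∈ X.FF n ↔ X.enc j < n := by
  have hf : Set.Finite {j | X.enc j < n} :=
    Set.Finite.preimage h.enc_inj.injOn (Set.finite_Iio n)
  unfold FF
  rw [dif_pos hf]
  simp

lemma mem_SS_inr {n i : ℕ} : (Sum.inr i : F ⊕ ℕ) ∈ X.SS n ↔ i ≤ n := by
  simp [SS, Nat.lt_succ_iff]

lemma mem_SS_inl {n : ℕ} {j : F} : (Sum.inl j : F ⊕ ℕ) ∈ X.SS n ↔ j ∈ X.FF n := by
  simp [SS]

lemma Good.exh {X : XData F} (h : X.Good) (x : F ⊕ ℕ) : ∀ᶠ n in atTop, x ∈ X.SS n := by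
  cases x with
  | inl j =>
    filter_upwards [eventually_gt_atTop (X.enc j)] with n hn
    rw [mem_SS_inl, h.mem_FF]; exact hn
  | inr i =>
    filter_upwards [eventually_ge_atTop i] with n hn
    rw [mem_SS_inr]; exact hn

/-- every finite set is eventually contained in the state space -/
lemma Good.exh_finset {X : XData F} (h : X.Good) (B : Finset (F ⊕ ℕ)) :
    ∀ᶠ n in atTop, B ⊆ X.SS n := by
  have := (Filter.eventually_all_finset B).2 (fun x _ => h.exh x)
  filter_upwards [this] with n hn x hx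
  exact hn x hx

/-- flux -/
noncomputable def lamb (i : ℕ) : ℝ :=
  (∑' y, (X.q (Sum.inr i) y : ℝ≥0∞) * ENNReal.ofReal (1 - X.T (Sum.inr i) y)).toReal

/-- defect flux -/
noncomputable def DD (i : ℕ) : ℝ :=
  (∑' y, (X.q (Sum.inr i) y : ℝ≥0∞) * X.dfc y).toReal

/-- killing rates -/
noncomputable def kp (i : ℕ) : ℝ := 2 ^ i * (1 + X.DD i)

/-- weight of the main edge -/
noncomputable def CC (i : ℕ) : ℝ := 2 * (X.lamb i + 3 + X.kp i) / X.ell i

lemma lamb_nonneg (i : ℕ) : 0 ≤ X.lamb i := ENNReal.toReal_nonneg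
lemma DD_nonneg (i : ℕ) : 0 ≤ X.DD i := ENNReal.toReal_nonneg
lemma kp_nonneg (i : ℕ) : 0 ≤ X.kp i := by
  have := X.DD_nonneg i
  unfold kp; positivity
lemma CC_nonneg (i : ℕ) : 0 ≤ X.CC i := by
  have h1 := X.lamb_nonneg i
  have h2 := X.kp_nonneg i
  have h3 := X.ell_pos i
  unfold CC; positivity

/-- routing weights -/
noncomputable def rt (n : ℕ) (j : F) (l : ℕ) : ℝ≥0∞ :=
  ∑' y, (if y ∈ X.SS n then 0 else (X.q (Sum.inl j) y : ℝ≥0∞)) *
    ∑' l', if X.R.anc n l' = l then (X.al l' y : ℝ≥0∞) else 0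

/-- the additional rates -/
noncomputable def ex (n : ℕ) : F ⊕ ℕ → F ⊕ ℕ → ℝ
  | Sum.inr i, Sum.inr l => (if X.R.s n (i, 0) = l then X.CC i else 0)
      + ∑ m ∈ Finset.range (n + 1), if X.R.s n (i, m) = l then (m : ℝ) else 0
  | Sum.inl j, Sum.inr l => (X.rt n j l).toReal
  | _, Sum.inl _ => 0

/-- rates of the `n`-th chain -/
noncomputable def Rn (n : ℕ) (x y : F ⊕ ℕ) : ℝ := X.q x y + X.ex n x y

/-- killing rates -/
noncomputable def kap (n : ℕ) : F ⊕ ℕ → ℝ
  | Sum.inr i => X.kp i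
  | Sum.inl j => X.qd j - ∑ y ∈ X.SS n, X.Rn n (Sum.inl j) y

/-- generator of the `n`-th chain -/
noncomputable def An (n : ℕ) (x y : F ⊕ ℕ) : ℝ :=
  X.Rn n x y - if x = y then ∑ z ∈ X.SS n, X.Rn n x z + X.kap n x else 0

lemma ex_nonneg (n : ℕ) (x y : F ⊕ ℕ) : 0 ≤ X.ex n x y := by
  rcases x with j | i <;> rcases y with k | l
  · simp [ex]
  · simp [ex]
  · simp [ex]
  · simp only [ex]
    refine add_nonneg ?_ (Finset.sum_nonneg fun m _ => ?_)
    · split_ifs
      · exact X.CC_nonneg i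
      · exact le_rfl
    · split_ifs
      · positivity
      · exact le_rfl

lemma Rn_nonneg (n : ℕ) (x y : F ⊕ ℕ) : 0 ≤ X.Rn n x y :=
  add_nonneg (NNReal.coe_nonneg _) (X.ex_nonneg n x y)

lemma An_ne (n : ℕ) {x y : F ⊕ ℕ} (h : x ≠ y) : X.An n x y = X.Rn n x y := by
  simp [An, h]

lemma sum_An (n : ℕ) {x : F ⊕ ℕ} (hx : x ∈ X.SS n) (f : F ⊕ ℕ → ℝ) :
    ∑ y ∈ X.SS n, X.An n x y * f y
      = ∑ y ∈ X.SS n, X.Rn n x y * (f y - f x) - X.kap n x * f x := by
  unfold An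
  simp only [sub_mul, Finset.sum_sub_distrib, mul_sub, ite_mul, zero_mul]
  rw [Finset.sum_ite_eq, if_pos hx, ← Finset.sum_mul]
  ring

lemma sum_An_one (n : ℕ) {x : F ⊕ ℕ} (hx : x ∈ X.SS n) :
    ∑ y ∈ X.SS n, X.An n x y = - X.kap n x := by
  have := X.sum_An n hx (fun _ => 1)
  simpa using this

/-- sums against the additional rates, instantaneous case -/
lemma sum_ex_inr (n i : ℕ) (f : F ⊕ ℕ → ℝ) :
    ∑ y ∈ X.SS n, X.ex n (Sum.inr i) y * f y
      = X.CC i * f (Sum.inr (X.R.s n (i, 0)))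
        + ∑ m ∈ Finset.range (n + 1), (m : ℝ) * f (Sum.inr (X.R.s n (i, m))) := by
  unfold SS
  rw [Finset.sum_disjSum]
  simp only [ex, zero_mul, Finset.sum_const_zero, zero_add, add_mul, Finset.sum_add_distrib,
    ite_mul, Finset.sum_mul]
  rw [Finset.sum_ite_eq, if_pos (Finset.mem_range.2 (Nat.lt_succ_of_le (X.R.s_le n (i, 0)))),
    Finset.sum_comm]
  congr 1
  refine Finset.sum_congr rfl fun m _ => ?_
  rw [Finset.sum_ite_eq, if_pos (Finset.mem_range.2 (Nat.lt_succ_of_le (X.R.s_le n (i, m))))]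

/-- sums against the additional rates, stable case -/
lemma sum_ex_inl (n : ℕ) (j : F) (f : F ⊕ ℕ → ℝ) :
    ∑ y ∈ X.SS n, X.ex n (Sum.inl j) y * f y
      = ∑ l ∈ Finset.range (n + 1), (X.rt n j l).toReal * f (Sum.inr l) := by
  unfold SS
  rw [Finset.sum_disjSum]
  simp [ex]

variable {X}

/-- the tail flux of a stable state -/
noncomputable def tl (X : XData F) (n : ℕ) (j : F) : ℝ≥0∞ :=
  ∑' y, (if y ∈ X.SS n then 0 else (X.q (Sum.inl j) y : ℝ≥0∞))

lemma Good.row_ne_top (h : X.Good) (j : F) : ∑' y, (X.q (Sum.inl j) y : ℝ≥0∞) ≠ ⊤ :=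
  ne_top_of_le_ne_top ENNReal.coe_ne_top (h.row j)

lemma Good.tl_ne_top (h : X.Good) (n : ℕ) (j : F) : tl X n j ≠ ⊤ := by
  refine ne_top_of_le_ne_top (h.row_ne_top j) (ENNReal.tsum_le_tsum fun y => ?_)
  split_ifs
  · exact zero_le
  · exact le_rfl

lemma Good.tl_tendsto (h : X.Good) (j : F) {ε : ℝ≥0∞} (hε : ε ≠ 0) :
    ∀ᶠ n in atTop, tl X n j ≤ ε := by
  obtain ⟨B, hB⟩ := tail_small (h.row_ne_top j) hε
  filter_upwards [h.exh_finset B] with n hn
  exact hB _ hn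

/-- weighted sum of routing weights -/
lemma Good.sum_rt (h : X.Good) (n : ℕ) (j : F) (g : ℕ → ℝ≥0∞) :
    ∑ l ∈ Finset.range (n + 1), X.rt n j l * g l
      = ∑' y, (if y ∈ X.SS n then 0 else (X.q (Sum.inl j) y : ℝ≥0∞)) *
        ∑' l', (X.al l' y : ℝ≥0∞) * g (X.R.anc n l') := by
  unfold rt
  simp only [← ENNReal.tsum_mul_right]
  rw [← Summable.tsum_finsetSum (fun _ _ => ENNReal.summable)]
  refine tsum_congr fun y => ?_
  simp only [mul_assoc]
  rw [← Finset.mul_sum]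
  congr 1
  simp only [← ENNReal.tsum_mul_right, ite_mul, zero_mul]
  rw [← Summable.tsum_finsetSum (fun _ _ => ENNReal.summable)]
  refine tsum_congr fun l' => ?_
  rw [Finset.sum_ite_eq, if_pos (Finset.mem_range.2 (Nat.lt_succ_of_le (X.R.anc_le n l')))]

lemma Good.sum_rt_one (h : X.Good) (n : ℕ) (j : F) :
    ∑ l ∈ Finset.range (n + 1), X.rt n j l ≤ tl X n j := by
  have h1 := h.sum_rt n j (fun _ => 1)
  simp only [mul_one] at h1
  rw [h1]
  unfold tl
  refine ENNReal.tsum_le_tsum fun y => ?_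
  calc _ ≤ (if y ∈ X.SS n then 0 else (X.q (Sum.inl j) y : ℝ≥0∞)) * 1 :=
        mul_le_mul_right (h.sum_al y) _
    _ = _ := mul_one _

lemma Good.rt_ne_top (h : X.Good) {n : ℕ} (j : F) {l : ℕ} (hl : l ∈ Finset.range (n + 1)) :
    X.rt n j l ≠ ⊤ :=
  ne_top_of_le_ne_top (h.tl_ne_top n j)
    ((Finset.single_le_sum (f := fun l => X.rt n j l) (fun _ _ => zero_le) hl).trans
      (h.sum_rt_one n j))

lemma Good.sum_rt_real (h : X.Good) (n : ℕ) (j : F) :
    ∑ l ∈ Finset.range (n + 1), (X.rt n j l).toReal ≤ (tl X n j).toReal := by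
  rw [← ENNReal.toReal_sum (fun l hl => h.rt_ne_top j hl)]
  exact ENNReal.toReal_mono (h.tl_ne_top n j) (h.sum_rt_one n j)

/-- total rate out of a stable state -/
lemma Good.sum_Rn_inl (h : X.Good) (n : ℕ) (j : F) :
    ∑ y ∈ X.SS n, X.Rn n (Sum.inl j) y ≤ X.qd j := by
  unfold Rn
  rw [Finset.sum_add_distrib]
  have h1 := X.sum_ex_inl n j (fun _ => 1)
  simp only [mul_one] at h1
  rw [h1]
  have h2 := h.sum_rt_real n j
  have h3 : ∑ y ∈ X.SS n, (X.q (Sum.inl j) y : ℝ≥0∞) + tl X n j ≤ X.qd j := by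
    refine le_trans (le_of_eq ?_) (h.row j)
    unfold tl
    have h4 : ∑ y ∈ X.SS n, (X.q (Sum.inl j) y : ℝ≥0∞)
        = ∑' y, (if y ∈ X.SS n then (X.q (Sum.inl j) y : ℝ≥0∞) else 0) := by
      rw [tsum_eq_sum (s := X.SS n)]
      · refine Finset.sum_congr rfl fun y hy => by rw [if_pos hy]
      · intro y hy; rw [if_neg hy]
    rw [h4, ← ENNReal.tsum_add]
    refine tsum_congr fun y => ?_
    split_ifs <;> simp
  have h5 := ENNReal.toReal_mono ENNReal.coe_ne_top h3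
  rw [ENNReal.toReal_add (ENNReal.sum_ne_top.2 fun _ _ => ENNReal.coe_ne_top) (h.tl_ne_top n j),
    ENNReal.toReal_sum (fun _ _ => ENNReal.coe_ne_top)] at h5
  simp only [ENNReal.coe_toReal] at h5
  linarith

lemma Good.kap_nonneg (h : X.Good) (n : ℕ) (x : F ⊕ ℕ) : 0 ≤ X.kap n x := by
  cases x with
  | inl j => simp only [kap]; linarith [h.sum_Rn_inl n j]
  | inr i => exact X.kp_nonneg i

lemma Good.off (h : X.Good) (n : ℕ) (x y : F ⊕ ℕ) (hxy : x ≠ y) : 0 ≤ X.An n x y := by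
  rw [X.An_ne n hxy]; exact X.Rn_nonneg n x y

lemma Good.Arow (h : X.Good) (n : ℕ) (x : F ⊕ ℕ) (hx : x ∈ X.SS n) :
    ∑ y ∈ X.SS n, X.An n x y ≤ 0 := by
  rw [X.sum_An_one n hx]; linarith [h.kap_nonneg n x]

/-- bound for the sum of the `al`, stable case -/
lemma Good.asum_lt (h : X.Good) (j : F) :
    (1 + (X.qd j : ℝ≥0∞)) * ∑' l, (X.α l j : ℝ≥0∞) ≤ X.qd j := by
  rw [← ENNReal.tsum_mul_left]
  refine (ENNReal.tsum_le_tsum fun l => h.sub l j).trans ?_
  rw [ENNReal.tsum_comm]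
  refine le_trans (ENNReal.tsum_le_tsum fun y => ?_) (h.row j)
  rw [ENNReal.tsum_mul_left]
  calc _ ≤ (X.q (Sum.inl j) y : ℝ≥0∞) * 1 := mul_le_mul_right (h.sum_al y) _
    _ = _ := mul_one _

lemma Good.τc (h : X.Good) (y : F ⊕ ℕ) : ∃ c > 0, ∀ z, z ≠ y → X.T z y ≤ 1 - c := by
  cases y with
  | inl j =>
    refine ⟨1 / (1 + X.qd j), by positivity, fun z hz => ?_⟩
    have hq : (0:ℝ) ≤ X.qd j := NNReal.coe_nonneg _
    have hpos : (0:ℝ) < 1 + X.qd j := by positivity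
    have hr : 1 - 1 / (1 + (X.qd j : ℝ)) = X.qd j / (1 + X.qd j) := by
      field_simp; ring
    rw [hr]
    cases z with
    | inl k =>
      simp only [T]
      rw [if_neg (fun hc => hz (by rw [hc]))]
      positivity
    | inr i =>
      rw [T_eq]
      have h1 := h.asum_lt j
      have hne : ∑' l, (X.α l j : ℝ≥0∞) ≠ ⊤ := ne_top_of_le_ne_top ENNReal.one_ne_top (h.asum j)
      have h2 := ENNReal.toReal_mono ENNReal.coe_ne_top h1
      rw [ENNReal.toReal_mul, ENNReal.toReal_add ENNReal.one_ne_top ENNReal.coe_ne_top] at h2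
      simp only [ENNReal.toReal_one, ENNReal.coe_toReal] at h2
      have h3 : (∑' l, (X.α l j : ℝ≥0∞)).toReal = ∑' l, (X.α l j : ℝ) := by
        rw [ENNReal.tsum_toReal_eq (fun _ => ENNReal.coe_ne_top)]
        simp
      rw [h3] at h2
      have h4 : ∑' l, (X.al l (Sum.inl j) : ℝ) * X.t i l ≤ ∑' l, (X.α l j : ℝ) := by
        refine (h.summable_alt _ (X.t0 i) (X.t1 i)).tsum_le_tsum (fun l => ?_)
          (h.summable_al (Sum.inl j))
        calc (X.al l (Sum.inl j) : ℝ) * X.t i l ≤ X.al l (Sum.inl j) * 1 :=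
              mul_le_mul_of_nonneg_left (X.t1 i l) (NNReal.coe_nonneg _)
          _ = _ := mul_one _
      rw [le_div_iff₀ hpos]
      nlinarith
  | inr l =>
    refine ⟨X.ell l, X.ell_pos l, fun z hz => ?_⟩
    have h1 := X.small_ell.le_one l
    cases z with
    | inl k => simp only [T]; simpa using h1
    | inr i =>
      simp only [T]
      have hil : i ≠ l := fun hc => hz (by rw [hc])
      rcases lt_or_gt_of_ne hil with h2 | h2
      · exact X.R.tt_le_sub X.small_ell.nonneg X.small_ell.le_one h2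
      · have : X.t i l = 0 := X.R.tt_lt _ h2
        rw [this]; linarith

end XData
end Run7.h251
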