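import Pool.Agent.Run7.h251.Build2

set_option linter.unusedVariables false
set_option linter.unusedSectionVars false

open Filter Topology Set
open scoped ENNReal NNReal

namespace Run7.h251

/-- a summable weight: uniform smallness of truncated sums -/
lemma ui_aux {ι : Type} [DecidableEq ι] {w u : ι → ℝ} (hw : ∀ y, 0 ≤ w y) (hu : ∀ y, 0 ≤ u y)
    (hs : Summable (fun y => w y * u y)) {ε : ℝ} (hε : 0 < ε) :
    ∃ l0 : ℝ, 1 ≤ l0 ∧ ∀ l, l0 ≤ l → ∀ s : Finset ι, ∑ y ∈ s, w y * min 1 (l * u y) ≤ ε * l := by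
  have h1 := summable_iff_vanishing_norm.1 hs (ε / 2) (by positivity)
  obtain ⟨B, hB⟩ := h1
  refine ⟨max 1 ((∑ y ∈ B, w y) / (ε / 2)), le_max_left _ _, fun l hl s => ?_⟩
  have hl1 : 1 ≤ l := (le_max_left _ _).trans hl
  have hl2 : ∑ y ∈ B, w y ≤ ε / 2 * l := by
    have := (le_max_right _ _).trans hl
    rw [div_le_iff₀ (by positivity)] at this
    linarith
  have h2 : ∑ y ∈ s, w y * min 1 (l * u y) = ∑ y ∈ s ∩ B, w y * min 1 (l * u y)
      + ∑ y ∈ s \ B, w y * min 1 (l * u y) := by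
    rw [← Finset.sum_union (Finset.disjoint_left.2 fun a ha hb => by
      simp only [Finset.mem_inter, Finset.mem_sdiff] at ha hb; exact hb.2 ha.2)]
    congr 1
    ext a; simp only [Finset.mem_union, Finset.mem_inter, Finset.mem_sdiff]; tauto
  have h3 : ∑ y ∈ s ∩ B, w y * min 1 (l * u y) ≤ ∑ y ∈ B, w y := by
    calc _ ≤ ∑ y ∈ s ∩ B, w y := by
          refine Finset.sum_le_sum fun y _ => ?_
          calc _ ≤ w y * 1 := mul_le_mul_of_nonneg_left (min_le_left _ _) (hw y)
            _ = _ := mul_one _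
      _ ≤ _ := Finset.sum_le_sum_of_subset_of_nonneg Finset.inter_subset_right (fun y _ _ => hw y)
  have h4 : ∑ y ∈ s \ B, w y * min 1 (l * u y) ≤ l * (ε / 2) := by
    have h5 := hB (s \ B) Finset.sdiff_disjoint
    have h6 : ∑ y ∈ s \ B, w y * u y ≤ ε / 2 := (le_abs_self _).trans h5.le
    calc _ ≤ ∑ y ∈ s \ B, l * (w y * u y) := by
          refine Finset.sum_le_sum fun y _ => ?_
          calc _ ≤ w y * (l * u y) := mul_le_mul_of_nonneg_left (min_le_right _ _) (hw y)
            _ = _ := by ring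
      _ = l * ∑ y ∈ s \ B, w y * u y := by rw [Finset.mul_sum]
      _ ≤ _ := mul_le_mul_of_nonneg_left h6 (by linarith)
  linarith

lemma sum_pow_le (n : ℕ) : ∑ m ∈ Finset.range (n + 1), (m : ℝ) * (1 / 2) ^ m ≤ 2 := by
  have h : ∀ n : ℕ, ∑ m ∈ Finset.range (n + 1), (m : ℝ) * (1 / 2) ^ m
      ≤ 2 - (n + 2) * (1 / 2) ^ n := by
    intro n
    induction n with
    | zero => simp
    | succ n ih =>
      rw [Finset.sum_range_succ]
      have : ((1:ℝ) / 2) ^ (n + 1) = (1 / 2) ^ n / 2 := by ring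
      rw [this]
      push_cast
      have h0 : (0:ℝ) < (1 / 2) ^ n := by positivity
      nlinarith
  have h1 := h n
  have : (0:ℝ) ≤ (n + 2) * (1 / 2) ^ n := by positivity
  linarith

lemma summable_mpow : Summable (fun m : ℕ => (m : ℝ) * (1 / 2) ^ m) := by
  have := summable_pow_mul_geometric_of_norm_lt_one (R := ℝ) 1 (r := 1 / 2) (by norm_num)
  simpa using this

namespace XData
variable {F : Type} [DecidableEq F] {X : XData F}

/-- excessivity on the instantaneous states -/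
lemma Good.sub_inr (h : X.Good) {n a i : ℕ} (ha : a ≤ n) (hi : i ≤ n) (hai : i ≠ a) :
    X.t a i ≤ ∑ y ∈ X.SS n, X.An n (Sum.inr i) y * X.T (Sum.inr a) y := by
  rw [X.sum_An n (X.mem_SS_inr.2 hi)]
  have hTi : X.T (Sum.inr a) (Sum.inr i) = X.t a i := rfl
  rw [hTi]
  rcases (X.t0 a i).eq_or_lt with h0 | h0
  · rw [← h0]
    simp only [sub_zero, mul_zero]
    exact Finset.sum_nonneg fun y _ => mul_nonneg (X.Rn_nonneg n _ y) (h.T_nonneg _ y)
  have hlt : a < i := by
    rcases lt_or_gt_of_ne hai with h1 | h1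
    · have : X.t a i = 0 := X.R.tt_lt _ h1
      rw [this] at h0; exact absurd h0 (lt_irrefl _)
    · exact h1
  have hti : X.t a i = X.t a (X.R.p i) - X.ell i := X.R.tt_pos_eq hlt h0
  have hkap : X.kap n (Sum.inr i) = X.kp i := rfl
  rw [hkap]
  have hsplit : ∑ y ∈ X.SS n, X.Rn n (Sum.inr i) y * (X.T (Sum.inr a) y - X.t a i)
      = ∑ y ∈ X.SS n, (X.q (Sum.inr i) y : ℝ) * (X.T (Sum.inr a) y - X.t a i)
        + ∑ y ∈ X.SS n, X.ex n (Sum.inr i) y * (X.T (Sum.inr a) y - X.t a i) := by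
    rw [← Finset.sum_add_distrib]
    refine Finset.sum_congr rfl fun y _ => ?_
    unfold Rn; ring
  rw [hsplit, X.sum_ex_inr n i (fun y => X.T (Sum.inr a) y - X.t a i)]
  -- q part
  have hq : - X.lamb i ≤ ∑ y ∈ X.SS n, (X.q (Sum.inr i) y : ℝ) * (X.T (Sum.inr a) y - X.t a i) := by
    have h1 : ∑ y ∈ X.SS n, (X.q (Sum.inr i) y : ℝ) * (1 - X.T (Sum.inr i) y) ≤ X.lamb i := by
      unfold lamb
      have h2 : ∑ y ∈ X.SS n, (X.q (Sum.inr i) y : ℝ) * (1 - X.T (Sum.inr i) y)
          = (∑ y ∈ X.SS n, (X.q (Sum.inr i) y : ℝ≥0∞) * ENNReal.ofReal (1 - X.T (Sum.inr i) y)).toReal := by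
        rw [ENNReal.toReal_sum (fun y _ => ENNReal.mul_ne_top ENNReal.coe_ne_top ENNReal.ofReal_ne_top)]
        refine Finset.sum_congr rfl fun y _ => ?_
        rw [ENNReal.toReal_mul, ENNReal.coe_toReal,
          ENNReal.toReal_ofReal (by linarith [h.T_le_one (Sum.inr i) y])]
      rw [h2]
      exact ENNReal.toReal_mono (h.lam_ne_top i) (ENNReal.sum_le_tsum _)
    have h3 : ∑ y ∈ X.SS n, (X.q (Sum.inr i) y : ℝ) * (X.T (Sum.inr a) y - X.t a i)
        ≥ ∑ y ∈ X.SS n, - ((X.q (Sum.inr i) y : ℝ) * (1 - X.T (Sum.inr i) y)) := by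
      refine Finset.sum_le_sum fun y _ => ?_
      have := h.T_triangle a i y
      have hqn : (0:ℝ) ≤ X.q (Sum.inr i) y := NNReal.coe_nonneg _
      nlinarith
    rw [Finset.sum_neg_distrib] at h3
    linarith
  -- main edge
  have hm : X.lamb i + 3 + X.kp i
      ≤ X.CC i * (X.T (Sum.inr a) (Sum.inr (X.R.s n (i, 0))) - X.t a i) := by
    have h1 := X.R.tt_main X.small_ell (a := a) (i, 0) hlt.le n hi
    have hd : X.R.dflt (i, 0) = X.R.p i := by simp [Res.dflt]
    rw [hd] at h1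
    simp only at h1
    have hl := X.ell_pos i
    have h2 : ((1:ℝ) / 2) ^ (i + 1) ≤ 1 / 2 := by
      have := pow_le_pow_of_le_one (a := (1:ℝ) / 2) (by norm_num) (by norm_num)
        (show 1 ≤ i + 1 by omega)
      simpa using this
    have h3 : (0:ℝ) ≤ (1 / 2) ^ (n + 1) := by positivity
    have h4 : X.ell i * (1 / 2) ≤ X.T (Sum.inr a) (Sum.inr (X.R.s n (i, 0))) - X.t a i := by
      have hT : X.T (Sum.inr a) (Sum.inr (X.R.s n (i, 0))) = X.t a (X.R.s n (i, 0)) := rfl
      rw [hT, hti]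
      have h5 : X.ell i * ((1 / 2) ^ (i + 1) - (1 / 2) ^ (n + 1)) ≤ X.ell i * (1 / 2) :=
        mul_le_mul_of_nonneg_left (by linarith) hl.le
      linarith
    calc X.lamb i + 3 + X.kp i = X.CC i * (X.ell i * (1 / 2)) := by
          unfold CC; field_simp
      _ ≤ _ := mul_le_mul_of_nonneg_left h4 (X.CC_nonneg i)
  -- loops
  have hloop : -2 ≤ ∑ m ∈ Finset.range (n + 1),
      (m : ℝ) * (X.T (Sum.inr a) (Sum.inr (X.R.s n (i, m))) - X.t a i) := by
    have h1 : ∑ m ∈ Finset.range (n + 1), - ((m : ℝ) * (1 / 2) ^ m) ≤ ∑ m ∈ Finset.range (n + 1),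
      (m : ℝ) * (X.T (Sum.inr a) (Sum.inr (X.R.s n (i, m))) - X.t a i) := by
      refine Finset.sum_le_sum fun m _ => ?_
      by_cases hm0 : m = 0
      · simp [hm0]
      · have h2 := X.R.tt_loop X.small_ell (i := i) hm0 n hi
        have h3 := X.R.tt_triangle X.small_ell.nonneg a i (X.R.s n (i, m))
        have hT : X.T (Sum.inr a) (Sum.inr (X.R.s n (i, m))) = X.t a (X.R.s n (i, m)) := rfl
        rw [hT]
        have h4 : (0:ℝ) ≤ m := Nat.cast_nonneg m
        have h5 : -((1:ℝ) / 2) ^ m ≤ X.t a (X.R.s n (i, m)) - X.t a i := by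
          linarith
        calc - ((m : ℝ) * (1 / 2) ^ m) = m * (-((1:ℝ) / 2) ^ m) := by ring
          _ ≤ _ := mul_le_mul_of_nonneg_left h5 h4
    rw [Finset.sum_neg_distrib] at h1
    have := sum_pow_le n
    linarith
  have h1 := X.t1 a i
  have h2 := X.kp_nonneg i
  nlinarith

/-- excessivity on the stable states -/
lemma Good.sub_inl (h : X.Good) {n a : ℕ} {j : F} (ha : a ≤ n)
    (hj : (Sum.inl j : F ⊕ ℕ) ∈ X.SS n) :
    X.T (Sum.inr a) (Sum.inl j)
      ≤ ∑ y ∈ X.SS n, X.An n (Sum.inl j) y * X.T (Sum.inr a) y := by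
  rw [X.sum_An n hj]
  set T := X.T (Sum.inr a) with hT
  have hT0 : ∀ y, 0 ≤ T y := fun y => h.T_nonneg _ y
  have h1 : ∑ y ∈ X.SS n, X.Rn n (Sum.inl j) y * (T y - T (Sum.inl j)) - X.kap n (Sum.inl j) * T (Sum.inl j)
      = ∑ y ∈ X.SS n, X.Rn n (Sum.inl j) y * T y - X.qd j * T (Sum.inl j) := by
    simp only [mul_sub, Finset.sum_sub_distrib, ← Finset.sum_mul]
    simp only [kap]
    ring
  rw [h1]
  -- the key inequality in extended nonnegative reals
  have h2 : (1 + (X.qd j : ℝ≥0∞)) * ENNReal.ofReal (T (Sum.inl j))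
      ≤ ENNReal.ofReal (∑ y ∈ X.SS n, X.Rn n (Sum.inl j) y * T y) := by
    calc (1 + (X.qd j : ℝ≥0∞)) * ENNReal.ofReal (T (Sum.inl j))
        = ∑' l, ((1 + (X.qd j : ℝ≥0∞)) * X.α l j) * ENNReal.ofReal (X.t a l) := by
          rw [hT, h.ofReal_T a, ← ENNReal.tsum_mul_left]
          refine tsum_congr fun l => by rw [al_inl, mul_assoc]
      _ ≤ ∑' l, (∑' y, (X.q (Sum.inl j) y : ℝ≥0∞) * X.al l y) * ENNReal.ofReal (X.t a l) :=
          ENNReal.tsum_le_tsum fun l => mul_le_mul_left (h.sub l j) _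
      _ = ∑' y, (X.q (Sum.inl j) y : ℝ≥0∞) * ENNReal.ofReal (T y) := by
          simp only [← ENNReal.tsum_mul_right]
          rw [ENNReal.tsum_comm]
          refine tsum_congr fun y => ?_
          rw [hT, h.ofReal_T a y, ← ENNReal.tsum_mul_left]
          refine tsum_congr fun l => by rw [mul_assoc]
      _ = ∑' y, (if y ∈ X.SS n then (X.q (Sum.inl j) y : ℝ≥0∞) * ENNReal.ofReal (T y) else 0)
          + ∑' y, (if y ∈ X.SS n then 0 else (X.q (Sum.inl j) y : ℝ≥0∞)) * ENNReal.ofReal (T y) := by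
          rw [← ENNReal.tsum_add]
          refine tsum_congr fun y => ?_
          split_ifs <;> simp
      _ ≤ ∑ y ∈ X.SS n, (X.q (Sum.inl j) y : ℝ≥0∞) * ENNReal.ofReal (T y)
          + ∑ l ∈ Finset.range (n + 1), X.rt n j l * ENNReal.ofReal (X.t a l) := by
          refine add_le_add (le_of_eq ?_) ?_
          · rw [tsum_eq_sum (s := X.SS n)]
            · refine Finset.sum_congr rfl fun y hy => by rw [if_pos hy]
            · intro y hy; rw [if_neg hy]
          · rw [h.sum_rt n j]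
            refine ENNReal.tsum_le_tsum fun y => mul_le_mul_right ?_ _
            rw [hT, h.ofReal_T a y]
            refine ENNReal.tsum_le_tsum fun l => mul_le_mul_right ?_ _
            exact ENNReal.ofReal_le_ofReal (X.R.tt_anc X.small_ell.nonneg ha l)
      _ = ENNReal.ofReal (∑ y ∈ X.SS n, X.Rn n (Sum.inl j) y * T y) := by
          have h3 : ∑ y ∈ X.SS n, X.Rn n (Sum.inl j) y * T y
              = ∑ y ∈ X.SS n, (X.q (Sum.inl j) y : ℝ) * T y
                + ∑ l ∈ Finset.range (n + 1), (X.rt n j l).toReal * X.t a l := by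
            have h4 := X.sum_ex_inl n j T
            have h5 : ∀ l, T (Sum.inr l) = X.t a l := fun l => rfl
            simp only [h5] at h4
            rw [← h4, ← Finset.sum_add_distrib]
            refine Finset.sum_congr rfl fun y _ => ?_
            unfold Rn; ring
          rw [h3, ENNReal.ofReal_add
            (Finset.sum_nonneg fun y _ => mul_nonneg (NNReal.coe_nonneg _) (hT0 y))
            (Finset.sum_nonneg fun l _ => mul_nonneg ENNReal.toReal_nonneg (X.t0 a l)),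
            ENNReal.ofReal_sum_of_nonneg (fun y _ => mul_nonneg (NNReal.coe_nonneg _) (hT0 y)),
            ENNReal.ofReal_sum_of_nonneg (fun l _ => mul_nonneg ENNReal.toReal_nonneg (X.t0 a l))]
          congr 1
          · refine Finset.sum_congr rfl fun y _ => ?_
            rw [ENNReal.ofReal_mul (NNReal.coe_nonneg _), ENNReal.ofReal_coe_nnreal]
          · refine Finset.sum_congr rfl fun l hl => ?_
            rw [ENNReal.ofReal_mul ENNReal.toReal_nonneg, ENNReal.ofReal_toReal (h.rt_ne_top j hl)]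
  have h6 : (1 + (X.qd j : ℝ≥0∞)) * ENNReal.ofReal (T (Sum.inl j))
      = ENNReal.ofReal ((1 + X.qd j) * T (Sum.inl j)) := by
    rw [ENNReal.ofReal_mul (by positivity), ENNReal.ofReal_add zero_le_one (NNReal.coe_nonneg _),
      ENNReal.ofReal_one, ENNReal.ofReal_coe_nnreal]
  rw [h6] at h2
  have h7 := (ENNReal.ofReal_le_ofReal_iff (Finset.sum_nonneg fun y _ =>
    mul_nonneg (X.Rn_nonneg n _ y) (hT0 y))).1 h2
  linarith

lemma Good.sub' (h : X.Good) (n : ℕ) (z x : F ⊕ ℕ) (hz : z ∈ X.SS n) (hx : x ∈ X.SS n)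
    (hxz : x ≠ z) : X.T z x ≤ ∑ y ∈ X.SS n, X.An n x y * X.T z y := by
  cases z with
  | inl k =>
    have h1 : X.T (Sum.inl k) x = 0 := by simp only [T]; rw [if_neg hxz]
    rw [h1]
    have h2 : ∑ y ∈ X.SS n, X.An n x y * X.T (Sum.inl k) y = X.An n x (Sum.inl k) := by
      simp only [T, mul_ite, mul_one, mul_zero]
      rw [Finset.sum_ite_eq', if_pos hz]
    rw [h2]
    exact h.off n x _ hxz
  | inr a =>
    have ha := X.mem_SS_inr.1 hz
    cases x with
    | inl j => exact h.sub_inl ha hx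
    | inr i =>
      exact h.sub_inr ha (X.mem_SS_inr.1 hx) (fun hc => hxz (by rw [hc]))

end XData
end Run7.h251
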