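import Pool.Agent.Run7.h251.Build3

set_option linter.unusedVariables false
set_option linter.unusedSectionVars false

open Filter Topology Set
open scoped ENNReal NNReal

namespace Run7.h251

namespace XData
variable {F : Type} [DecidableEq F] {X : XData F}

lemma Good.summable_lam (h : X.Good) (i : ℕ) :
    Summable (fun y => (X.q (Sum.inr i) y : ℝ) * (1 - X.T (Sum.inr i) y)) := by
  have h1 := ENNReal.summable_toReal (h.lam_ne_top i)
  refine h1.congr fun y => ?_
  rw [ENNReal.toReal_mul, ENNReal.coe_toReal,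
    ENNReal.toReal_ofReal (by linarith [h.T_le_one (Sum.inr i) y])]

lemma Good.ui (h : X.Good) (z : F ⊕ ℕ) (ε : ℝ) (hε : 0 < ε) : ∃ l0 ≥ (1:ℝ), ∀ n, z ∈ X.SS n →
    ∀ l ≥ l0, ∑ y ∈ (X.SS n).erase z, X.An n z y * min 1 (l * (1 - X.T z y))
      - ∑ y ∈ X.SS n, X.An n z y ≤ ε * l := by
  have hred : ∀ n, z ∈ X.SS n → ∀ l : ℝ,
      ∑ y ∈ (X.SS n).erase z, X.An n z y * min 1 (l * (1 - X.T z y)) - ∑ y ∈ X.SS n, X.An n z y
      = ∑ y ∈ X.SS n, X.Rn n z y * min 1 (l * (1 - X.T z y)) + X.kap n z := by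
    intro n hz l
    rw [X.sum_An_one n hz]
    have h1 := X.sum_An n hz (fun y => min 1 (l * (1 - X.T z y)))
    have h2 : min 1 (l * (1 - X.T z z)) = 0 := by rw [T_self]; norm_num
    rw [← Finset.add_sum_erase _ _ hz] at h1
    simp only [h2, mul_zero, sub_zero, zero_add] at h1
    rw [h1]; ring
  cases z with
  | inl j =>
    refine ⟨max 1 (2 * X.qd j / ε), le_max_left _ _, fun n hz l hl => ?_⟩
    rw [hred n hz]
    have hl2 : 2 * X.qd j ≤ ε * l := by
      have := (le_max_right _ _).trans hl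
      rw [div_le_iff₀ hε] at this
      linarith
    have h1 : ∑ y ∈ X.SS n, X.Rn n (Sum.inl j) y * min 1 (l * (1 - X.T (Sum.inl j) y))
        ≤ ∑ y ∈ X.SS n, X.Rn n (Sum.inl j) y := by
      refine Finset.sum_le_sum fun y _ => ?_
      calc _ ≤ X.Rn n (Sum.inl j) y * 1 :=
            mul_le_mul_of_nonneg_left (min_le_left _ _) (X.Rn_nonneg n _ y)
        _ = _ := mul_one _
    have h2 : X.kap n (Sum.inl j) = X.qd j - ∑ y ∈ X.SS n, X.Rn n (Sum.inl j) y := rfl
    rw [h2]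
    have : (0:ℝ) ≤ X.qd j := NNReal.coe_nonneg _
    linarith
  | inr i =>
    obtain ⟨l1, hl1, hl1'⟩ := ui_aux (w := fun y => (X.q (Sum.inr i) y : ℝ))
      (u := fun y => 1 - X.T (Sum.inr i) y) (fun y => NNReal.coe_nonneg _)
      (fun y => by linarith [h.T_le_one (Sum.inr i) y]) (h.summable_lam i) (ε := ε / 3)
      (by positivity)
    obtain ⟨l2, hl2, hl2'⟩ := ui_aux (w := fun m : ℕ => (m : ℝ))
      (u := fun m : ℕ => ((1:ℝ) / 2) ^ m) (fun y => Nat.cast_nonneg y)
      (fun y => by positivity) summable_mpow (ε := ε / 3) (by positivity)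
    refine ⟨max (max l1 l2) ((X.CC i + X.kp i) / (ε / 3)),
      hl1.trans ((le_max_left _ _).trans (le_max_left _ _)), fun n hz l hl => ?_⟩
    rw [hred n hz]
    have hin := X.mem_SS_inr.1 hz
    have hll1 : l1 ≤ l := ((le_max_left _ _).trans (le_max_left _ _)).trans hl
    have hll2 : l2 ≤ l := ((le_max_right _ _).trans (le_max_left _ _)).trans hl
    have hll3 : X.CC i + X.kp i ≤ ε / 3 * l := by
      have := (le_max_right _ _).trans hl
      rw [div_le_iff₀ (by positivity)] at this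
      linarith
    have hl0 : 0 ≤ l := by linarith
    have h1 : ∑ y ∈ X.SS n, X.Rn n (Sum.inr i) y * min 1 (l * (1 - X.T (Sum.inr i) y))
        = ∑ y ∈ X.SS n, (X.q (Sum.inr i) y : ℝ) * min 1 (l * (1 - X.T (Sum.inr i) y))
          + ∑ y ∈ X.SS n, X.ex n (Sum.inr i) y * min 1 (l * (1 - X.T (Sum.inr i) y)) := by
      rw [← Finset.sum_add_distrib]
      refine Finset.sum_congr rfl fun y _ => ?_
      unfold Rn; ring
    rw [h1, X.sum_ex_inr n i (fun y => min 1 (l * (1 - X.T (Sum.inr i) y)))]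
    have h2 := hl1' l hll1 (X.SS n)
    have h3 : X.CC i * min 1 (l * (1 - X.T (Sum.inr i) (Sum.inr (X.R.s n (i, 0))))) ≤ X.CC i := by
      calc _ ≤ X.CC i * 1 := mul_le_mul_of_nonneg_left (min_le_left _ _) (X.CC_nonneg i)
        _ = _ := mul_one _
    have h4 : ∑ m ∈ Finset.range (n + 1), (m : ℝ)
        * min 1 (l * (1 - X.T (Sum.inr i) (Sum.inr (X.R.s n (i, m)))))
        ≤ ∑ m ∈ Finset.range (n + 1), (m : ℝ) * min 1 (l * (1 / 2) ^ m) := by
      refine Finset.sum_le_sum fun m _ => ?_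
      by_cases hm0 : m = 0
      · simp [hm0]
      · refine mul_le_mul_of_nonneg_left ?_ (Nat.cast_nonneg m)
        refine min_le_min le_rfl (mul_le_mul_of_nonneg_left ?_ hl0)
        exact X.R.tt_loop X.small_ell (i := i) hm0 n hin
    have h5 := hl2' l hll2 (Finset.range (n + 1))
    have h6 : X.kap n (Sum.inr i) = X.kp i := rfl
    rw [h6]
    linarith

lemma Good.conv (h : X.Good) (x y : F ⊕ ℕ) (hxy : x ≠ y) :
    Tendsto (fun n => X.An n x y) atTop (𝓝 (X.q x y : ℝ)) := by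
  have h0 : ∀ n, X.An n x y = X.q x y + X.ex n x y := fun n => by
    rw [X.An_ne n hxy]; rfl
  simp only [h0]
  suffices hs : Tendsto (fun n => X.ex n x y) atTop (𝓝 0) by
    have := hs.const_add ((X.q x y : ℝ))
    simpa using this
  rcases x with j | i <;> rcases y with k | l
  · simp only [ex]; exact tendsto_const_nhds
  · simp only [ex]
    rw [Metric.tendsto_atTop]
    intro ε hε
    have h1 := h.tl_tendsto j (ε := ENNReal.ofReal (ε / 2)) (by simpa using hε)
    obtain ⟨N, hN⟩ := eventually_atTop.1 h1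
    refine ⟨max N l, fun n hn => ?_⟩
    have h2 := hN n ((le_max_left _ _).trans hn)
    have hl : l ∈ Finset.range (n + 1) := by
      have := (le_max_right _ _).trans hn
      simp; omega
    have h3 : X.rt n j l ≤ ENNReal.ofReal (ε / 2) :=
      ((Finset.single_le_sum (f := fun l => X.rt n j l) (fun _ _ => zero_le) hl).trans
      (h.sum_rt_one n j)).trans h2
    have h4 := ENNReal.toReal_mono ENNReal.ofReal_ne_top h3
    rw [ENNReal.toReal_ofReal (by positivity)] at h4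
    rw [Real.dist_eq, sub_zero, abs_of_nonneg ENNReal.toReal_nonneg]
    linarith
  · simp only [ex]; exact tendsto_const_nhds
  · have hli : l ≠ i := fun hc => hxy (by rw [hc])
    refine tendsto_const_nhds.congr' ?_
    filter_upwards [X.R.s_ne_eventually i l hli] with n hn
    simp only [ex]
    rw [if_neg (hn 0), zero_add]
    symm
    exact Finset.sum_eq_zero fun m _ => by rw [if_neg (hn m)]

lemma Good.inst (h : X.Good) (i : ℕ) (M : ℝ) : ∃ y : F ⊕ ℕ, y ≠ Sum.inr i ∧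
    X.T y (Sum.inr i) = 0 ∧ ∀ᶠ n in atTop, M ≤ ∑ x ∈ X.SS n, X.An n (Sum.inr i) x * X.T y x := by
  obtain ⟨m, hm⟩ := exists_nat_ge (2 * M)
  obtain ⟨k, -, hk⟩ := X.R.hinf i m 0
  have hik : i < k := (X.R.he k i m hk).1
  have hT0 : X.T (Sum.inr k) (Sum.inr i) = 0 := X.R.tt_lt _ hik
  refine ⟨Sum.inr k, fun hc => ?_, hT0, ?_⟩
  · have := Sum.inr.inj hc; omega
  · filter_upwards [eventually_ge_atTop (max k (max i m))] with n hn
    have hkn : k ≤ n := (le_max_left _ _).trans hn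
    have hin : i ≤ n := ((le_max_left _ _).trans (le_max_right _ _)).trans hn
    have hmn : m ≤ n := ((le_max_right _ _).trans (le_max_right _ _)).trans hn
    rw [X.sum_An n (X.mem_SS_inr.2 hin), hT0]
    simp only [sub_zero, mul_zero]
    have h1 : ∑ y ∈ X.SS n, X.Rn n (Sum.inr i) y * X.T (Sum.inr k) y
        = ∑ y ∈ X.SS n, (X.q (Sum.inr i) y : ℝ) * X.T (Sum.inr k) y
          + ∑ y ∈ X.SS n, X.ex n (Sum.inr i) y * X.T (Sum.inr k) y := by
      rw [← Finset.sum_add_distrib]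
      refine Finset.sum_congr rfl fun y _ => ?_
      unfold Rn; ring
    rw [h1, X.sum_ex_inr n i (fun y => X.T (Sum.inr k) y)]
    have h2 : 0 ≤ ∑ y ∈ X.SS n, (X.q (Sum.inr i) y : ℝ) * X.T (Sum.inr k) y :=
      Finset.sum_nonneg fun y _ => mul_nonneg (NNReal.coe_nonneg _) (h.T_nonneg _ y)
    have h3 : 0 ≤ X.CC i * X.T (Sum.inr k) (Sum.inr (X.R.s n (i, 0))) :=
      mul_nonneg (X.CC_nonneg i) (h.T_nonneg _ _)
    have h4 : (m : ℝ) * X.T (Sum.inr k) (Sum.inr (X.R.s n (i, m)))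
        ≤ ∑ m ∈ Finset.range (n + 1), (m : ℝ) * X.T (Sum.inr k) (Sum.inr (X.R.s n (i, m))) :=
      Finset.single_le_sum (f := fun m : ℕ => (m : ℝ) * X.T (Sum.inr k) (Sum.inr (X.R.s n (i, m))))
        (fun m _ => mul_nonneg (Nat.cast_nonneg m) (h.T_nonneg _ _))
        (Finset.mem_range.2 (by omega))
    have h5 := X.R.tt_ins X.small_ell hk n hkn
    have h6 : ((1:ℝ) / 2) ^ (k + 1) ≤ 1 / 2 := by
      have := pow_le_pow_of_le_one (a := (1:ℝ) / 2) (by norm_num) (by norm_num)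
        (show 1 ≤ k + 1 by omega)
      simpa using this
    have h7 : (1:ℝ) / 2 ≤ X.T (Sum.inr k) (Sum.inr (X.R.s n (i, m))) := by
      have hT : X.T (Sum.inr k) (Sum.inr (X.R.s n (i, m))) = X.R.tt X.ell k (X.R.s n (i, m)) := rfl
      rw [hT]; linarith
    have h8 : (m : ℝ) * (1 / 2) ≤ (m : ℝ) * X.T (Sum.inr k) (Sum.inr (X.R.s n (i, m))) :=
      mul_le_mul_of_nonneg_left h7 (Nat.cast_nonneg m)
    linarith

lemma Good.stabd (h : X.Good) (j : F) :
    Tendsto (fun n => X.An n (Sum.inl j) (Sum.inl j)) atTop (𝓝 (- (X.qd j : ℝ))) := by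
  have h0 : ∀ n, X.An n (Sum.inl j) (Sum.inl j) = - (X.qd j : ℝ) := by
    intro n
    unfold An
    rw [if_pos rfl]
    simp only [kap]
    have : X.Rn n (Sum.inl j) (Sum.inl j) = 0 := by
      unfold Rn ex
      rw [h.diag]; simp
    rw [this]; ring
  simp only [h0]
  exact tendsto_const_nhds

lemma mB_le {S : Type} [DecidableEq S] {τ : S → S → ℝ} {B : Finset S} {z : S} (hz : z ∈ B) (x : S) :
    mB τ B x ≤ 1 - τ z x := by
  unfold mB
  exact Finset.fold_min_le (c := 1 - τ z x) |>.2 (Or.inr ⟨z, hz, le_rfl⟩)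

lemma mB_le_one {S : Type} [DecidableEq S] (τ : S → S → ℝ) (B : Finset S) (x : S) :
    mB τ B x ≤ 1 := by
  unfold mB
  exact Finset.fold_min_le (c := (1:ℝ)) |>.2 (Or.inl le_rfl)

lemma mB_nonneg {S : Type} [DecidableEq S] {τ : S → S → ℝ} (hτ : ∀ z x, τ z x ≤ 1)
    (B : Finset S) (x : S) : 0 ≤ mB τ B x := by
  unfold mB
  exact Finset.le_fold_min (c := (0:ℝ)) |>.2 ⟨zero_le_one, fun z _ => by linarith [hτ z x]⟩

end XData
end Run7.h251
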