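import Pool.Agent.Run7.h251.Build4

set_option linter.unusedVariables false
set_option linter.unusedSectionVars false

open Filter Topology Set
open scoped ENNReal NNReal

namespace Run7.h251

namespace XData
variable {F : Type} [DecidableEq F] {X : XData F}

/-- rates between stable states -/
def qF (X : XData F) (j k : F) : ℝ≥0 := X.q (Sum.inl j) (Sum.inl k)

lemma dfc_inr (X : XData F) (m : ℕ) : X.dfc (Sum.inr m) = 0 := by
  unfold dfc
  rw [tsum_eq_single m]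
  · simp
  · intro l hl; simp [Ne.symm hl]

/-- the defect dominates the mass of the minimal resolvent -/
lemma Good.phi_le_dfc (h : X.Good) (j : F) :
    ∑' k, phi (X.qF) X.qd j k ≤ X.dfc (Sum.inl j) := by
  have := phi_min (q := X.qF) (qd := X.qd) (c := fun _ => 1)
    (δ := fun j => X.dfc (Sum.inl j)) ?_ j
  · simpa using this
  intro j
  have hA : ∀ y, ∑' l, (X.al l y : ℝ≥0∞) + X.dfc y = 1 := fun y => by
    unfold dfc
    exact add_tsub_cancel_of_le (h.sum_al y)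
  have hAne : ∀ y, ∑' l, (X.al l y : ℝ≥0∞) ≠ ⊤ := fun y =>
    ne_top_of_le_ne_top ENNReal.one_ne_top (h.sum_al y)
  -- sum over the instantaneous states
  have h1 : (1 + (X.qd j : ℝ≥0∞)) * ∑' l, (X.al l (Sum.inl j) : ℝ≥0∞)
      ≤ ∑' y, (X.q (Sum.inl j) y : ℝ≥0∞) * ∑' l, (X.al l y : ℝ≥0∞) := by
    rw [← ENNReal.tsum_mul_left]
    refine (ENNReal.tsum_le_tsum fun l => h.sub l j).trans (le_of_eq ?_)
    rw [ENNReal.tsum_comm]
    refine tsum_congr fun y => ?_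
    rw [ENNReal.tsum_mul_left]
  have h2 : ∑' y, (X.q (Sum.inl j) y : ℝ≥0∞) * ∑' l, (X.al l y : ℝ≥0∞)
      + ∑' y, (X.q (Sum.inl j) y : ℝ≥0∞) * X.dfc y ≤ X.qd j := by
    rw [← ENNReal.tsum_add]
    refine le_trans (le_of_eq (tsum_congr fun y => ?_)) (h.row j)
    rw [← mul_add, hA, mul_one]
  have h3 : ∑' l, (X.qF j l : ℝ≥0∞) * X.dfc (Sum.inl l)
      ≤ ∑' y, (X.q (Sum.inl j) y : ℝ≥0∞) * X.dfc y := by
    have := ENNReal.tsum_comp_le_tsum_of_injective (Sum.inl_injective (α := F) (β := ℕ))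
      (fun y => (X.q (Sum.inl j) y : ℝ≥0∞) * X.dfc y)
    exact this
  have h4 : (1 + (X.qd j : ℝ≥0∞)) * ∑' l, (X.al l (Sum.inl j) : ℝ≥0∞)
      + (1 + (X.qd j : ℝ≥0∞)) * X.dfc (Sum.inl j) = 1 + X.qd j := by
    rw [← mul_add, hA, mul_one]
  have h5 : (1 + (X.qd j : ℝ≥0∞)) * ∑' l, (X.al l (Sum.inl j) : ℝ≥0∞) ≠ ⊤ :=
    ENNReal.mul_ne_top (by simp) (hAne _)
  have h6 : (1 + (X.qd j : ℝ≥0∞)) * ∑' l, (X.al l (Sum.inl j) : ℝ≥0∞)
      + (1 + ∑' l, (X.qF j l : ℝ≥0∞) * X.dfc (Sum.inl l))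
      ≤ (1 + (X.qd j : ℝ≥0∞)) * ∑' l, (X.al l (Sum.inl j) : ℝ≥0∞)
      + (1 + (X.qd j : ℝ≥0∞)) * X.dfc (Sum.inl j) := by
    rw [h4]
    calc _ = 1 + ((1 + (X.qd j : ℝ≥0∞)) * ∑' l, (X.al l (Sum.inl j) : ℝ≥0∞)
          + ∑' l, (X.qF j l : ℝ≥0∞) * X.dfc (Sum.inl l)) := by ring
      _ ≤ 1 + (∑' y, (X.q (Sum.inl j) y : ℝ≥0∞) * ∑' l, (X.al l y : ℝ≥0∞)
          + ∑' y, (X.q (Sum.inl j) y : ℝ≥0∞) * X.dfc y) := by gcongr
      _ ≤ _ := by gcongr
  exact (ENNReal.add_le_add_iff_left h5).1 h6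

/-- the potential of the complement of a finite set -/
noncomputable def psi (X : XData F) (B : Finset F) (j : F) : ℝ≥0∞ :=
  ∑' k, phi (X.qF) X.qd j k * (if k ∈ B then 0 else 1)

lemma Good.psi_le (h : X.Good) (B : Finset F) (j : F) : psi X B j ≤ X.dfc (Sum.inl j) := by
  refine le_trans (ENNReal.tsum_le_tsum fun k => ?_) (h.phi_le_dfc j)
  split_ifs <;> simp

lemma dfc_le_one (y : F ⊕ ℕ) : X.dfc y ≤ 1 := tsub_le_self

lemma Good.psi_ne_top (h : X.Good) (B : Finset F) (j : F) : psi X B j ≠ ⊤ :=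
  ne_top_of_le_ne_top ENNReal.one_ne_top ((h.psi_le B j).trans (dfc_le_one _))

lemma psi_eq (B : Finset F) (j : F) :
    (1 + (X.qd j : ℝ≥0∞)) * psi X B j
      = (if j ∈ B then 0 else 1) + ∑' l, (X.qF j l : ℝ≥0∞) * psi X B l :=
  phi_eq (q := X.qF) (qd := X.qd) (fun k => if k ∈ B then 0 else 1) j

lemma Good.psi_small (h : X.Good) (j : F) {ε : ℝ≥0∞} (hε : ε ≠ 0) :
    ∃ B : Finset F, ∀ B', B ⊆ B' → psi X B' j ≤ ε := by
  have h1 : ∑' k, phi (X.qF) X.qd j k ≠ ⊤ :=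
    ne_top_of_le_ne_top ENNReal.one_ne_top ((h.phi_le_dfc j).trans (dfc_le_one _))
  obtain ⟨B, hB⟩ := tail_small h1 hε
  refine ⟨B, fun B' hB' => ?_⟩
  refine le_trans (le_of_eq ?_) (hB B' hB')
  unfold psi
  refine tsum_congr fun k => by split_ifs <;> simp

/-- flux into `psi` -/
noncomputable def fpsi (X : XData F) (B : Finset F) (i : ℕ) : ℝ≥0∞ :=
  ∑' j, (X.q (Sum.inr i) (Sum.inl j) : ℝ≥0∞) * psi X B j

lemma Good.fpsi_le (h : X.Good) (B : Finset F) (i : ℕ) :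
    fpsi X B i ≤ ∑' y, (X.q (Sum.inr i) y : ℝ≥0∞) * X.dfc y := by
  refine le_trans (ENNReal.tsum_le_tsum fun j => mul_le_mul_right (h.psi_le B j) _) ?_
  exact ENNReal.tsum_comp_le_tsum_of_injective (Sum.inl_injective (α := F) (β := ℕ))
    (fun y => (X.q (Sum.inr i) y : ℝ≥0∞) * X.dfc y)

lemma Good.fpsi_small (h : X.Good) (i : ℕ) {ε : ℝ≥0∞} (hε : ε ≠ 0) :
    ∃ B : Finset F, ∀ B', B ⊆ B' → fpsi X B' i ≤ ε := by
  have h1 : ∑' k, ∑' j, (X.q (Sum.inr i) (Sum.inl j) : ℝ≥0∞) * phi (X.qF) X.qd j k ≠ ⊤ := by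
    rw [ENNReal.tsum_comm]
    refine ne_top_of_le_ne_top (h.defect i) ?_
    simp only [ENNReal.tsum_mul_left]
    refine le_trans (ENNReal.tsum_le_tsum fun j => mul_le_mul_right (h.phi_le_dfc j) _) ?_
    exact ENNReal.tsum_comp_le_tsum_of_injective (Sum.inl_injective (α := F) (β := ℕ))
      (fun y => (X.q (Sum.inr i) y : ℝ≥0∞) * X.dfc y)
  obtain ⟨B, hB⟩ := tail_small h1 hε
  refine ⟨B, fun B' hB' => ?_⟩
  refine le_trans (le_of_eq ?_) (hB B' hB')
  unfold fpsi psi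
  simp only [← ENNReal.tsum_mul_left]
  rw [ENNReal.tsum_comm]
  refine tsum_congr fun k => ?_
  split_ifs <;> simp

lemma Good.fpsi_ne_top (h : X.Good) (B : Finset F) (i : ℕ) : fpsi X B i ≠ ⊤ :=
  ne_top_of_le_ne_top (h.defect i) (h.fpsi_le B i)

/-- the Lyapunov function -/
noncomputable def WW (X : XData F) (B : Finset F) (c : ℝ) : F ⊕ ℕ → ℝ
  | Sum.inl j => (psi X B j).toReal + c
  | Sum.inr _ => c

lemma Good.WW_inl (h : X.Good) {B : Finset F} {c : ℝ} (hc : 0 < c) {n : ℕ} {j : F}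
    (hj : (Sum.inl j : F ⊕ ℕ) ∈ X.SS n) :
    (if j ∈ B then 0 else 1)
      ≤ WW X B c (Sum.inl j) - ∑ z ∈ X.SS n, X.An n (Sum.inl j) z * WW X B c z := by
  rw [X.sum_An n hj]
  have h1 : ∑ y ∈ X.SS n, X.Rn n (Sum.inl j) y * (WW X B c y - WW X B c (Sum.inl j))
      - X.kap n (Sum.inl j) * WW X B c (Sum.inl j)
      = ∑ y ∈ X.SS n, X.Rn n (Sum.inl j) y * WW X B c y - X.qd j * WW X B c (Sum.inl j) := by
    simp only [mul_sub, Finset.sum_sub_distrib, ← Finset.sum_mul]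
    simp only [kap]
    ring
  rw [h1]
  -- split off the constant
  have h2 : ∑ y ∈ X.SS n, X.Rn n (Sum.inl j) y * WW X B c y
      ≤ ∑' l, (X.qF j l : ℝ) * (psi X B l).toReal + X.qd j * c := by
    have h3 : ∀ y, X.Rn n (Sum.inl j) y * WW X B c y
        = X.Rn n (Sum.inl j) y * (WW X B c y - c) + X.Rn n (Sum.inl j) y * c := fun y => by ring
    simp only [h3]
    rw [Finset.sum_add_distrib, ← Finset.sum_mul]
    refine add_le_add ?_ (mul_le_mul_of_nonneg_right (h.sum_Rn_inl n j) hc.le)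
    unfold SS
    rw [Finset.sum_disjSum]
    have h4 : ∑ l ∈ Finset.range (n + 1), X.Rn n (Sum.inl j) (Sum.inr l)
        * (WW X B c (Sum.inr l) - c) = 0 :=
      Finset.sum_eq_zero fun l _ => by simp [WW]
    rw [h4, add_zero]
    have h5 : ∀ k, X.Rn n (Sum.inl j) (Sum.inl k) * (WW X B c (Sum.inl k) - c)
        = (X.qF j k : ℝ) * (psi X B k).toReal := by
      intro k
      simp [Rn, ex, WW, qF]
    simp only [h5]
    have h6 : Summable (fun l => (X.qF j l : ℝ) * (psi X B l).toReal) := by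
      have h7 : ∑' l, (X.qF j l : ℝ≥0∞) * psi X B l ≠ ⊤ := by
        have h8 := psi_eq (X := X) B j
        have h9 : (1 + (X.qd j : ℝ≥0∞)) * psi X B j ≠ ⊤ :=
          ENNReal.mul_ne_top (by simp) (h.psi_ne_top B j)
        rw [h8] at h9
        exact (ENNReal.add_ne_top.1 h9).2
      refine (ENNReal.summable_toReal h7).congr fun l => ?_
      rw [ENNReal.toReal_mul, ENNReal.coe_toReal]
    exact h6.sum_le_tsum _ (fun l _ => mul_nonneg (NNReal.coe_nonneg _) ENNReal.toReal_nonneg)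
  have h10 : (1 + X.qd j) * (psi X B j).toReal
      = (if j ∈ B then 0 else 1) + ∑' l, (X.qF j l : ℝ) * (psi X B l).toReal := by
    have h8 := psi_eq (X := X) B j
    have h7 : ∑' l, (X.qF j l : ℝ≥0∞) * psi X B l ≠ ⊤ := by
      have h9 : (1 + (X.qd j : ℝ≥0∞)) * psi X B j ≠ ⊤ :=
        ENNReal.mul_ne_top (by simp) (h.psi_ne_top B j)
      rw [h8] at h9
      exact (ENNReal.add_ne_top.1 h9).2
    have h11 := congrArg ENNReal.toReal h8
    rw [ENNReal.toReal_mul, ENNReal.toReal_add ENNReal.one_ne_top ENNReal.coe_ne_top,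
      ENNReal.toReal_add (by split_ifs <;> simp) h7, ENNReal.tsum_toReal_eq
      (fun l => ENNReal.mul_ne_top ENNReal.coe_ne_top (h.psi_ne_top B l))] at h11
    simp only [ENNReal.toReal_one, ENNReal.coe_toReal, ENNReal.toReal_mul] at h11
    rw [h11]
    congr 1
    split_ifs <;> simp
  have h11 : WW X B c (Sum.inl j) = (psi X B j).toReal + c := rfl
  rw [h11]
  linarith

lemma Good.WW_inr (h : X.Good) {B : Finset F} {c : ℝ} (hc : 0 < c) {n i : ℕ} (hi : i ≤ n) :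
    c + c * X.kp i - (fpsi X B i).toReal
      ≤ WW X B c (Sum.inr i) - ∑ z ∈ X.SS n, X.An n (Sum.inr i) z * WW X B c z := by
  rw [X.sum_An n (X.mem_SS_inr.2 hi)]
  have h0 : WW X B c (Sum.inr i) = c := rfl
  have hk : X.kap n (Sum.inr i) = X.kp i := rfl
  rw [h0, hk]
  have h1 : ∑ y ∈ X.SS n, X.Rn n (Sum.inr i) y * (WW X B c y - c) ≤ (fpsi X B i).toReal := by
    unfold SS
    rw [Finset.sum_disjSum]
    have h4 : ∑ l ∈ Finset.range (n + 1), X.Rn n (Sum.inr i) (Sum.inr l)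
        * (WW X B c (Sum.inr l) - c) = 0 :=
      Finset.sum_eq_zero fun l _ => by simp [WW]
    rw [h4, add_zero]
    have h5 : ∀ k, X.Rn n (Sum.inr i) (Sum.inl k) * (WW X B c (Sum.inl k) - c)
        = ((X.q (Sum.inr i) (Sum.inl k) : ℝ≥0∞) * psi X B k).toReal := by
      intro k
      simp [Rn, ex, WW]
    simp only [h5]
    rw [← ENNReal.toReal_sum (fun k _ => ENNReal.mul_ne_top ENNReal.coe_ne_top (h.psi_ne_top B k))]
    exact ENNReal.toReal_mono (h.fpsi_ne_top B i) (ENNReal.sum_le_tsum _)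
  linarith

lemma Good.tight (h : X.Good) (x : F ⊕ ℕ) (ε : ℝ) (hε : 0 < ε) :
    ∃ B : Finset (F ⊕ ℕ), ∃ W : F ⊕ ℕ → ℝ, (∀ y, 0 ≤ W y) ∧ W x ≤ ε ∧
    ∀ᶠ n in atTop, ∀ y ∈ X.SS n, (if y ∈ B then 0 else 1) ≤ W y - ∑ z ∈ X.SS n, X.An n y z * W z := by
  set c : ℝ := ε / 2 with hcdef
  have hc : 0 < c := by positivity
  obtain ⟨i0, hi0⟩ := exists_nat_ge (1 / c)
  have hi0' : ∀ i, i0 ≤ i → 1 ≤ c * 2 ^ i := by
    intro i hi
    have h1 : (i0 : ℝ) ≤ 2 ^ i := by
      have : i0 < 2 ^ i := lt_of_le_of_lt hi Nat.lt_two_pow_self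
      exact_mod_cast this.le
    rw [div_le_iff₀ hc] at hi0
    nlinarith
  -- choice of the finite set
  have hofc : ENNReal.ofReal c ≠ 0 := by simpa using hc
  obtain ⟨B1, hB1⟩ : ∃ B1 : Finset F, ∀ B', B1 ⊆ B' → ∀ i < i0, fpsi X B' i ≤ ENNReal.ofReal c := by
    choose B hB using fun i => h.fpsi_small i hofc
    refine ⟨(Finset.range i0).biUnion B, fun B' hB' i hi => hB i B' ?_⟩
    exact (Finset.subset_biUnion_of_mem B (Finset.mem_range.2 hi)).trans hB'
  obtain ⟨B2, hB2⟩ : ∃ B2 : Finset F, ∀ B', B2 ⊆ B' → ∀ j, x = Sum.inl j →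
      psi X B' j ≤ ENNReal.ofReal c := by
    cases x with
    | inl j =>
      obtain ⟨B, hB⟩ := h.psi_small j hofc
      exact ⟨B, fun B' hB' k hk => by rw [← Sum.inl.inj hk]; exact hB B' hB'⟩
    | inr i => exact ⟨∅, fun B' _ k hk => by simp at hk⟩
  set B0 := B1 ∪ B2 with hB0
  have hs1 := hB1 B0 Finset.subset_union_left
  have hs2 := hB2 B0 Finset.subset_union_right
  refine ⟨B0.disjSum (Finset.range i0), WW X B0 c, ?_, ?_, ?_⟩
  · intro y
    cases y with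
    | inl j => exact add_nonneg ENNReal.toReal_nonneg hc.le
    | inr i => exact hc.le
  · cases x with
    | inl j =>
      have h1 := ENNReal.toReal_mono ENNReal.ofReal_ne_top (hs2 j rfl)
      rw [ENNReal.toReal_ofReal hc.le] at h1
      show (psi X B0 j).toReal + c ≤ ε
      linarith
    | inr i => show c ≤ ε; linarith
  · refine Eventually.of_forall fun n y hy => ?_
    cases y with
    | inl j =>
      have := h.WW_inl (B := B0) hc hy
      refine le_trans (le_of_eq ?_) this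
      simp only [Finset.inl_mem_disjSum]
    | inr i =>
      have hin := X.mem_SS_inr.1 hy
      refine le_trans ?_ (h.WW_inr (B := B0) hc hin)
      simp only [Finset.inr_mem_disjSum, Finset.mem_range]
      by_cases hii : i < i0
      · rw [if_pos hii]
        have h1 := ENNReal.toReal_mono ENNReal.ofReal_ne_top (hs1 i hii)
        rw [ENNReal.toReal_ofReal hc.le] at h1
        have := X.kp_nonneg i
        have : 0 ≤ c * X.kp i := by positivity
        linarith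
      · rw [if_neg hii]
        have h1 := ENNReal.toReal_mono (h.defect i) (h.fpsi_le B0 i)
        have h2 : (∑' y, (X.q (Sum.inr i) y : ℝ≥0∞) * X.dfc y).toReal = X.DD i := rfl
        rw [h2] at h1
        have h3 := hi0' i (by omega)
        have h4 := X.DD_nonneg i
        unfold kp
        nlinarith

end XData
end Run7.h251
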