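import Pool.Agent.Run7.h251.Build5

set_option linter.unusedVariables false
set_option linter.unusedSectionVars false

open Filter Topology Set
open scoped ENNReal NNReal

namespace Run7.h251

/-- tails of summable real families -/
lemma tail_real {S : Type} [DecidableEq S] {g : S → ℝ} (hg : Summable g) {ε : ℝ}
    (hε : 0 < ε) : ∃ B : Finset S, ∀ s : Finset S, Disjoint s B → ∑ y ∈ s, g y ≤ ε := by
  obtain ⟨B, hB⟩ := summable_iff_vanishing_norm.1 hg ε hε
  exact ⟨B, fun s hs => (le_abs_self _).trans (hB s hs).le⟩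

namespace XData
variable {F : Type} [DecidableEq F] {X : XData F}

lemma Good.summable_row (h : X.Good) (j : F) : Summable (fun y => (X.q (Sum.inl j) y : ℝ)) := by
  have h1 := ENNReal.summable_toReal (h.row_ne_top j)
  refine h1.congr fun y => ?_
  rw [ENNReal.coe_toReal]

lemma Good.nojump_inl (h : X.Good) (j : F) (y : F ⊕ ℕ) (ε : ℝ) (hε : 0 < ε) :
    ∃ B : Finset (F ⊕ ℕ), y ∉ B ∧ ∀ᶠ n in atTop,
      ∑ x ∈ ((X.SS n).erase (Sum.inl j)).erase y, X.An n (Sum.inl j) x * mB X.T B x ≤ ε := by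
  obtain ⟨B0, hB0⟩ := tail_real (h.summable_row j) (ε := ε / 2) (by positivity)
  refine ⟨B0.erase y, Finset.notMem_erase _ _, ?_⟩
  filter_upwards [h.tl_tendsto j (ε := ENNReal.ofReal (ε / 2)) (by simpa using hε)] with n hn
  set B := B0.erase y with hB
  have hmB0 : ∀ x, 0 ≤ mB X.T B x := mB_nonneg (fun z x => h.T_le_one z x) B
  have h1 : ∑ x ∈ ((X.SS n).erase (Sum.inl j)).erase y, X.An n (Sum.inl j) x * mB X.T B x
      ≤ ∑ x ∈ ((X.SS n).erase (Sum.inl j)).erase y,
        ((if x ∈ B0 then 0 else (X.q (Sum.inl j) x : ℝ)) + X.ex n (Sum.inl j) x) := by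
    refine Finset.sum_le_sum fun x hx => ?_
    have hxy : x ≠ y := (Finset.mem_erase.1 hx).1
    have hxj : x ≠ Sum.inl j := (Finset.mem_erase.1 (Finset.mem_erase.1 hx).2).1
    rw [X.An_ne n (Ne.symm hxj)]
    by_cases hxB : x ∈ B0
    · have hxB' : x ∈ B := Finset.mem_erase.2 ⟨hxy, hxB⟩
      have h2 := mB_le (τ := X.T) hxB' x
      rw [T_self, sub_self] at h2
      have h3 : mB X.T B x = 0 := le_antisymm h2 (hmB0 x)
      rw [h3, mul_zero, if_pos hxB]
      have := X.ex_nonneg n (Sum.inl j) x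
      linarith
    · rw [if_neg hxB]
      calc _ ≤ X.Rn n (Sum.inl j) x * 1 :=
            mul_le_mul_of_nonneg_left (mB_le_one _ _ _) (X.Rn_nonneg n _ x)
        _ = _ := by rw [mul_one]; rfl
  refine h1.trans ?_
  rw [Finset.sum_add_distrib]
  have h4 : ∑ x ∈ ((X.SS n).erase (Sum.inl j)).erase y,
      (if x ∈ B0 then 0 else (X.q (Sum.inl j) x : ℝ)) ≤ ε / 2 := by
    have h5 := hB0 ((((X.SS n).erase (Sum.inl j)).erase y) \ B0) Finset.sdiff_disjoint
    refine le_trans (le_of_eq ?_) h5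
    rw [Finset.sum_ite, Finset.sum_const_zero, zero_add]
    refine Finset.sum_congr ?_ fun _ _ => rfl
    ext x; simp [Finset.mem_sdiff]
  have h6 : ∑ x ∈ ((X.SS n).erase (Sum.inl j)).erase y, X.ex n (Sum.inl j) x ≤ ε / 2 := by
    have h7 : ∑ x ∈ ((X.SS n).erase (Sum.inl j)).erase y, X.ex n (Sum.inl j) x
        ≤ ∑ x ∈ X.SS n, X.ex n (Sum.inl j) x :=
      Finset.sum_le_sum_of_subset_of_nonneg
        ((Finset.erase_subset _ _).trans (Finset.erase_subset _ _))
        (fun x _ _ => X.ex_nonneg n _ x)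
    have h8 := X.sum_ex_inl n j (fun _ => 1)
    simp only [mul_one] at h8
    have h9 := h.sum_rt_real n j
    have h10 := ENNReal.toReal_mono ENNReal.ofReal_ne_top hn
    rw [ENNReal.toReal_ofReal (by positivity)] at h10
    linarith
  linarith

lemma exists_k (X : XData F) (i : ℕ) (y : F ⊕ ℕ) (m : ℕ) (N : ℕ) :
    ∃ k, N ≤ k ∧ X.R.e k = some (i, m) ∧ (Sum.inr k : F ⊕ ℕ) ≠ y := by
  cases y with
  | inl j =>
    obtain ⟨k, hk1, hk2⟩ := X.R.hinf i m N
    exact ⟨k, hk1, hk2, by simp⟩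
  | inr l =>
    obtain ⟨k, hk1, hk2⟩ := X.R.hinf i m (max N (l + 1))
    refine ⟨k, (le_max_left _ _).trans hk1, hk2, fun hc => ?_⟩
    have h1 := Sum.inr.inj hc
    have h2 := (le_max_right _ _).trans hk1
    omega

lemma Good.nojump_inr (h : X.Good) (i : ℕ) (y : F ⊕ ℕ) (hy : y ≠ Sum.inr i) (ε : ℝ) (hε : 0 < ε) :
    ∃ B : Finset (F ⊕ ℕ), y ∉ B ∧ ∀ᶠ n in atTop,
      ∑ x ∈ ((X.SS n).erase (Sum.inr i)).erase y, X.An n (Sum.inr i) x * mB X.T B x ≤ ε := by
  obtain ⟨B0, hB0⟩ := tail_real (h.summable_lam i) (ε := ε / 4) (by positivity)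
  -- loops: cut off
  obtain ⟨M, hM⟩ : ∃ M : ℕ, ∀ s : Finset ℕ, (∀ m ∈ s, M ≤ m) →
      ∑ m ∈ s, (m : ℝ) * (1 / 2) ^ m ≤ ε / 4 := by
    obtain ⟨B1, hB1⟩ := tail_real summable_mpow (ε := ε / 4) (by positivity)
    refine ⟨B1.sup id + 1, fun s hs => hB1 s ?_⟩
    rw [Finset.disjoint_left]
    intro m hm hmB
    have h1 := hs m hm
    have h2 := Finset.le_sup (f := id) hmB
    simp only [id] at h2
    omega
  -- precision of the insertions
  obtain ⟨N, hN⟩ : ∃ N : ℕ, (X.CC i + (M : ℝ) * M) * (1 / 2) ^ (N + 1) ≤ ε / 4 := by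
    have h1 : 0 ≤ X.CC i + (M : ℝ) * M := by
      have := X.CC_nonneg i
      positivity
    have h2 : Tendsto (fun N : ℕ => (X.CC i + (M : ℝ) * M) * (1 / 2) ^ (N + 1)) atTop (𝓝 0) := by
      have h3 := (tendsto_pow_atTop_nhds_zero_of_lt_one (r := (1:ℝ) / 2) (by norm_num)
        (by norm_num)).comp (tendsto_add_atTop_nat 1)
      have h4 := h3.const_mul (X.CC i + (M : ℝ) * M)
      simpa using h4
    obtain ⟨N, hN⟩ := ((tendsto_order.1 h2).2 (ε / 4) (by positivity)).exists
    exact ⟨N, hN.le⟩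
  choose k hk1 hk2 hk3 using fun m => exists_k X i y m N
  set B : Finset (F ⊕ ℕ) := insert (Sum.inr i)
    ((B0.erase y) ∪ (Finset.range (M + 1)).image (fun m => (Sum.inr (k m) : F ⊕ ℕ))) with hB
  have hiB : Sum.inr i ∈ B := Finset.mem_insert_self _ _
  have hkB : ∀ m ≤ M, (Sum.inr (k m) : F ⊕ ℕ) ∈ B := fun m hm =>
    Finset.mem_insert_of_mem (Finset.mem_union_right _
      (Finset.mem_image.2 ⟨m, Finset.mem_range.2 (by omega), rfl⟩))
  refine ⟨B, ?_, ?_⟩
  · rw [hB]
    simp only [Finset.mem_insert, Finset.mem_union, Finset.mem_erase, Finset.mem_image,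
      Finset.mem_range, not_or, not_and, not_exists]
    refine ⟨hy, fun hc => absurd rfl hc, fun m _ => hk3 m⟩
  filter_upwards [eventually_ge_atTop (max i ((Finset.range (M + 1)).sup k))] with n hn
  have hin : i ≤ n := (le_max_left _ _).trans hn
  have hkn : ∀ m ≤ M, k m ≤ n := fun m hm =>
    (Finset.le_sup (f := k) (Finset.mem_range.2 (by omega))).trans ((le_max_right _ _).trans hn)
  have hmB0 : ∀ x, 0 ≤ mB X.T B x := mB_nonneg (fun z x => h.T_le_one z x) B
  have hins : ∀ m ≤ M, mB X.T B (Sum.inr (X.R.s n (i, m))) ≤ (1 / 2) ^ (N + 1) := by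
    intro m hm
    refine (mB_le (hkB m hm) _).trans ?_
    have h1 := X.R.tt_ins X.small_ell (hk2 m) n (hkn m hm)
    refine le_trans h1 ?_
    exact pow_le_pow_of_le_one (by norm_num) (by norm_num) (by have := hk1 m; omega)
  have h1 : ∑ x ∈ ((X.SS n).erase (Sum.inr i)).erase y, X.An n (Sum.inr i) x * mB X.T B x
      ≤ ∑ x ∈ ((X.SS n).erase (Sum.inr i)).erase y,
        ((if x ∈ B0 then 0 else (X.q (Sum.inr i) x : ℝ) * (1 - X.T (Sum.inr i) x))
          + X.ex n (Sum.inr i) x * mB X.T B x) := by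
    refine Finset.sum_le_sum fun x hx => ?_
    have hxy : x ≠ y := (Finset.mem_erase.1 hx).1
    have hxj : x ≠ Sum.inr i := (Finset.mem_erase.1 (Finset.mem_erase.1 hx).2).1
    rw [X.An_ne n (Ne.symm hxj)]
    unfold Rn
    rw [add_mul]
    refine add_le_add ?_ le_rfl
    by_cases hxB : x ∈ B0
    · have hxB' : x ∈ B := Finset.mem_insert_of_mem
        (Finset.mem_union_left _ (Finset.mem_erase.2 ⟨hxy, hxB⟩))
      have h2 := mB_le (τ := X.T) hxB' x
      rw [T_self, sub_self] at h2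
      have h3 : mB X.T B x = 0 := le_antisymm h2 (hmB0 x)
      rw [h3, mul_zero, if_pos hxB]
    · rw [if_neg hxB]
      exact mul_le_mul_of_nonneg_left (mB_le hiB x) (NNReal.coe_nonneg _)
  refine h1.trans ?_
  rw [Finset.sum_add_distrib]
  have h4 : ∑ x ∈ ((X.SS n).erase (Sum.inr i)).erase y,
      (if x ∈ B0 then 0 else (X.q (Sum.inr i) x : ℝ) * (1 - X.T (Sum.inr i) x)) ≤ ε / 4 := by
    have h5 := hB0 ((((X.SS n).erase (Sum.inr i)).erase y) \ B0) Finset.sdiff_disjoint
    refine le_trans (le_of_eq ?_) h5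
    rw [Finset.sum_ite, Finset.sum_const_zero, zero_add]
    refine Finset.sum_congr ?_ fun _ _ => rfl
    ext x; simp [Finset.mem_sdiff]
  have h6 : ∑ x ∈ ((X.SS n).erase (Sum.inr i)).erase y, X.ex n (Sum.inr i) x * mB X.T B x
      ≤ ∑ x ∈ X.SS n, X.ex n (Sum.inr i) x * mB X.T B x :=
    Finset.sum_le_sum_of_subset_of_nonneg
      ((Finset.erase_subset _ _).trans (Finset.erase_subset _ _))
      (fun x _ _ => mul_nonneg (X.ex_nonneg n _ x) (hmB0 x))
  rw [X.sum_ex_inr n i (fun x => mB X.T B x)] at h6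
  have h7 : X.CC i * mB X.T B (Sum.inr (X.R.s n (i, 0))) ≤ X.CC i * (1 / 2) ^ (N + 1) :=
    mul_le_mul_of_nonneg_left (hins 0 (Nat.zero_le _)) (X.CC_nonneg i)
  have h8 : ∑ m ∈ Finset.range (n + 1), (m : ℝ) * mB X.T B (Sum.inr (X.R.s n (i, m)))
      ≤ (M : ℝ) * M * (1 / 2) ^ (N + 1) + ε / 4 := by
    have h9 : ∀ m ∈ Finset.range (n + 1), (m : ℝ) * mB X.T B (Sum.inr (X.R.s n (i, m)))
        ≤ (if m < M then (M : ℝ) * (1 / 2) ^ (N + 1) else 0)
          + (if m < M then 0 else (m : ℝ) * (1 / 2) ^ m) := by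
      intro m _
      by_cases hm : m < M
      · rw [if_pos hm, if_pos hm, add_zero]
        refine mul_le_mul ?_ (hins m hm.le) (hmB0 _) (Nat.cast_nonneg M)
        exact_mod_cast hm.le
      · rw [if_neg hm, if_neg hm, zero_add]
        by_cases hm0 : m = 0
        · simp [hm0]
        · refine mul_le_mul_of_nonneg_left ?_ (Nat.cast_nonneg m)
          refine (mB_le hiB _).trans ?_
          exact X.R.tt_loop X.small_ell (i := i) hm0 n hin
    refine (Finset.sum_le_sum h9).trans ?_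
    rw [Finset.sum_add_distrib]
    refine add_le_add ?_ ?_
    · rw [← Finset.sum_filter, Finset.sum_const, nsmul_eq_mul]
      have h10 : ((Finset.filter (fun m => m < M) (Finset.range (n + 1))).card : ℝ) ≤ M := by
        have : (Finset.filter (fun m => m < M) (Finset.range (n + 1))).card
            ≤ (Finset.range M).card := Finset.card_le_card fun m hm => by
          simp only [Finset.mem_filter] at hm
          exact Finset.mem_range.2 hm.2
        rw [Finset.card_range] at this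
        exact_mod_cast this
      have h11 : (0:ℝ) ≤ (M : ℝ) * (1 / 2) ^ (N + 1) := by positivity
      calc _ ≤ (M : ℝ) * ((M : ℝ) * (1 / 2) ^ (N + 1)) := mul_le_mul_of_nonneg_right h10 h11
        _ = _ := by ring
    · have h12 := hM ((Finset.range (n + 1)).filter (fun m => ¬ m < M)) (fun m hm => by
        simp only [Finset.mem_filter, not_lt] at hm
        exact hm.2)
      refine le_trans (le_of_eq ?_) h12
      rw [Finset.sum_ite, Finset.sum_const_zero, zero_add]
  have h13 : X.CC i * (1 / 2) ^ (N + 1) + (M : ℝ) * M * (1 / 2) ^ (N + 1) ≤ ε / 4 := by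
    have := hN
    linarith
  linarith

/-- the approximating chains -/
noncomputable def approx (X : XData F) : Approx (F ⊕ ℕ) where
  Sn := X.SS
  A := X.An
  τ := X.T
  q := fun x y => X.q x y
  stab := fun x => x.isLeft
  qd := Sum.elim (fun j => (X.qd j : ℝ)) (fun _ => 0)

lemma Good.approx (h : X.Good) : (approx X).Good where
  exh := h.exh
  off := fun n x y _ _ hxy => h.off n x y hxy
  row := h.Arow
  τ0 := h.T_nonneg
  τ1 := h.T_le_one
  τz := T_self
  τc := h.τc
  sub := h.sub'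
  ui := h.ui
  tight := h.tight
  conv := h.conv
  nojump := by
    intro a y hay ε hε
    cases a with
    | inl j => exact h.nojump_inl j y ε hε
    | inr i =>
      have hy : y ≠ Sum.inr i := by
        rcases hay with h1 | h1
        · exact h1
        · simp [XData.approx] at h1
      exact h.nojump_inr i y hy ε hε
  inst := by
    intro a ha M
    cases a with
    | inl j => simp [XData.approx] at ha
    | inr i => exact h.inst i M
  stabd := by
    intro x hx
    cases x with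
    | inl j => exact h.stabd j
    | inr i => simp [XData.approx] at hx

/-- **Existence theorem** for the data of the construction. -/
theorem Good.exists_semigroup (h : X.Good) :
    ∃ p : ℝ → (F ⊕ ℕ) → (F ⊕ ℕ) → ℝ, IsStd p ∧
      (∀ x y, x ≠ y → Tendsto (fun t => p t x y / t) (𝓝[>] 0) (𝓝 (X.q x y : ℝ))) ∧
      (∀ j, Tendsto (fun t => (1 - p t (Sum.inl j) (Sum.inl j)) / t) (𝓝[>] 0) (𝓝 (X.qd j : ℝ))) ∧
      (∀ i, Tendsto (fun t => (1 - p t (Sum.inr i) (Sum.inr i)) / t) (𝓝[>] 0) atTop) := by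
  obtain ⟨p, h1, h2, h3, h4⟩ := h.approx.exists_semigroup
  refine ⟨p, h1, h2, fun j => ?_, fun i => ?_⟩
  · exact h3 (Sum.inl j) (by simp [XData.approx])
  · exact h4 (Sum.inr i) (by simp [XData.approx])

end XData
end Run7.h251
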