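import Mathlib

open Filter Topology Set
open scoped ENNReal NNReal

namespace Run7.h251

/-- standard (substochastic) Markov transition semigroups on `ℕ` -/
structure IsSemigroup (p : ℝ → ℕ → ℕ → ℝ) : Prop where
  nonneg : ∀ t, 0 ≤ t → ∀ i j, 0 ≤ p t i j
  summable : ∀ t, 0 ≤ t → ∀ i, Summable (fun j => p t i j)
  sum_le_one : ∀ t, 0 ≤ t → ∀ i, ∑' j, p t i j ≤ 1
  chapman : ∀ s t, 0 ≤ s → 0 ≤ t → ∀ i j,
    Summable (fun k => p s i k * p t k j) ∧ p (s + t) i j = ∑' k, p s i k * p t k j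
  standard : ∀ i j, Tendsto (fun t => p t i j) (𝓝[>] 0) (𝓝 (if i = j then 1 else 0))

/-- `Q` is the derivative matrix at `0` of a standard semigroup (a Q-matrix) -/
def IsQMatrix (Q : ℕ → ℕ → EReal) : Prop :=
  ∃ p, IsSemigroup p ∧ ∀ i j,
    Tendsto (fun t : ℝ => (((p t i j - if i = j then 1 else 0) / t : ℝ) : EReal)) (𝓝[>] 0)
      (𝓝 (Q i j))

/-- the matrices considered: diagonal entries in `[-∞, 0]`, the others in `[0, ∞)` -/
def Admissible (Q : ℕ → ℕ → EReal) : Prop :=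
  (∀ i, Q i i ≤ 0) ∧ ∀ i j, i ≠ j → 0 ≤ Q i j ∧ Q i j ≠ ⊤

/-- off-diagonal rates -/
noncomputable def rate (Q : ℕ → ℕ → EReal) (i j : ℕ) : ℝ≥0∞ :=
  if i = j then 0 else (Q i j).toENNReal

/-- total rate `q_i = - q_ii`, with values in `[0, ∞]` -/
noncomputable def exitRate (Q : ℕ → ℕ → EReal) (i : ℕ) : ℝ≥0∞ := (- Q i i).toENNReal

/-- the row condition (Doob, Kolmogorov) `∑_{j ≠ i} q_ij ≤ q_i` -/
def RowCond (Q : ℕ → ℕ → EReal) : Prop := ∀ i, ∑' j, rate Q i j ≤ exitRate Q i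

/-- stable states -/
def Stable (Q : ℕ → ℕ → EReal) (i : ℕ) : Prop := Q i i ≠ ⊥

/-- instantaneous states -/
def Inst (Q : ℕ → ℕ → EReal) (i : ℕ) : Prop := Q i i = ⊥

open Classical in
/-- the least nonnegative solution of
`(1 + q_j) y_j = c_j + ∑_{k stable, k ≠ j} q_jk y_k` (`j` stable) -/
noncomputable def minSol (Q : ℕ → ℕ → EReal) (c : ℕ → ℝ≥0∞) (j : ℕ) : ℝ≥0∞ :=
  ⨅ y ∈ {y : ℕ → ℝ≥0∞ | ∀ i, Stable Q i →
    c i + ∑' k, (if Stable Q k then rate Q i k * y k else 0) ≤ (1 + exitRate Q i) * y i}, y j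

/-- `x_j`, the row sums of the minimal resolvent (at `1`) of the stable part -/
noncomputable def stay (Q : ℕ → ℕ → EReal) (j : ℕ) : ℝ≥0∞ := minSol Q (fun _ => 1) j

/-- `π_jb`, discounted probability that the minimal stable process jumps to `b` -/
noncomputable def hitp (Q : ℕ → ℕ → EReal) (j b : ℕ) : ℝ≥0∞ := minSol Q (fun i => rate Q i b) j

open Classical in
/-- reduced rates between instantaneous states -/
noncomputable def redRate (Q : ℕ → ℕ → EReal) (a b : ℕ) : ℝ≥0∞ :=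
  rate Q a b + ∑' j, if Stable Q j then rate Q a j * hitp Q j b else 0

open Classical in
/-- discounted escape probabilities of the minimal stable process -/
noncomputable def esc (Q : ℕ → ℕ → EReal) (j : ℕ) : ℝ≥0∞ :=
  1 - (stay Q j + ∑' b, if Inst Q b then hitp Q j b else 0)

open Classical in
/-- Σ over the stable states of `rate * stay` -/
def CondA (Q : ℕ → ℕ → EReal) : Prop :=
  ∀ a, Inst Q a → ∑' j, (if Stable Q j then rate Q a j * stay Q j else 0) ≠ ⊤

open Classical in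
/-- the analogue of Williams' condition (N) for the reduced rates -/
def CondN (Q : ℕ → ℕ → EReal) : Prop :=
  ∀ a b, Inst Q a → Inst Q b → a ≠ b → redRate Q a b ≠ ⊤ ∧
    ∑' c, (if Inst Q c ∧ c ≠ a ∧ c ≠ b then min (redRate Q a c) (redRate Q b c) else 0) ≠ ⊤

open Classical in
/-- the analogue of Williams' condition (S) for the reduced rates -/
def CondS (Q : ℕ → ℕ → EReal) : Prop :=
  ∃ K : Set ℕ, K.Infinite ∧ (∀ k ∈ K, Inst Q k) ∧
    ∀ a, Inst Q a → ∑' k, (if k ∈ K ∧ k ≠ a then redRate Q a k else 0) ≠ ⊤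

open Classical in
/-- integrability of the escape probabilities -/
def CondE (Q : ℕ → ℕ → EReal) : Prop :=
  ∀ a, Inst Q a → ∑' j, (if Stable Q j then rate Q a j * esc Q j else 0) ≠ ⊤

open Classical in
/-- no single instantaneous state (together with the escape) absorbs almost all the mass of the
stable states -/
def CondH (Q : ℕ → ℕ → EReal) : Prop :=
  ∀ b, Inst Q b → ∃ θ : ℝ≥0∞, θ ≠ 0 ∧ ∀ j, Stable Q j →
    θ ≤ stay Q j + ∑' c, (if Inst Q c ∧ c ≠ b then hitp Q j c else 0)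

open Classical in
/-- the stable part is uniformly slow -/
def SlowStable (Q : ℕ → ℕ → EReal) : Prop :=
  ∃ c : ℝ≥0∞, c ≠ 0 ∧ ∀ j, Stable Q j → c ≤ stay Q j

open Classical in
/-- finite total rate from an instantaneous state to the stable states -/
def CondF (Q : ℕ → ℕ → EReal) : Prop :=
  ∀ a, Inst Q a → ∑' j, (if Stable Q j then rate Q a j else 0) ≠ ⊤

open Classical in
/-- condition (N) of Williams on the instantaneous states -/
def WilliamsN (Q : ℕ → ℕ → EReal) : Prop :=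
  ∀ a b, Inst Q a → Inst Q b → a ≠ b →
    ∑' c, (if Inst Q c ∧ c ≠ a ∧ c ≠ b then min (rate Q a c) (rate Q b c) else 0) ≠ ⊤

open Classical in
/-- condition (S) of Williams on the instantaneous states -/
def WilliamsS (Q : ℕ → ℕ → EReal) : Prop :=
  ∃ K : Set ℕ, K.Infinite ∧ (∀ k ∈ K, Inst Q k) ∧
    ∀ a, Inst Q a → ∑' k, (if k ∈ K ∧ k ≠ a then rate Q a k else 0) ≠ ⊤

end Run7.h251
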