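import Pool.Agent.Run7.h251.Build6

set_option linter.unusedVariables false
set_option linter.unusedSectionVars false

open Filter Topology Set
open scoped ENNReal NNReal

namespace Run7.h251

/-- Kronecker extension of the routing weights -/
def alk {F : Type} (α : ℕ → F → ℝ≥0) (l : ℕ) : F ⊕ ℕ → ℝ≥0 :=
  Sum.elim (α l) (fun m => if m = l then 1 else 0)

/-- **Existence theorem** on `F ⊕ ℕ`. -/
theorem exists_semigroup_of {F : Type} [DecidableEq F] (q : F ⊕ ℕ → F ⊕ ℕ → ℝ≥0) (qd : F → ℝ≥0)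
    (α : ℕ → F → ℝ≥0) (enc : F → ℕ) (henc : Function.Injective enc)
    (diag : ∀ x, q x x = 0)
    (row : ∀ j, ∑' y, (q (Sum.inl j) y : ℝ≥0∞) ≤ qd j)
    (sub : ∀ l j, (1 + (qd j : ℝ≥0∞)) * α l j
      ≤ ∑' y, (q (Sum.inl j) y : ℝ≥0∞) * alk α l y)
    (asum : ∀ j, ∑' l, (α l j : ℝ≥0∞) ≤ 1)
    (fin : ∀ i l, i ≠ l → ∑' y, (q (Sum.inr i) y : ℝ≥0∞) * alk α l y ≠ ⊤)
    (defect : ∀ i, ∑' y, (q (Sum.inr i) y : ℝ≥0∞) * (1 - ∑' l, (alk α l y : ℝ≥0∞)) ≠ ⊤)
    (hN : ∀ i i', i ≠ i' → ∑' n, (if n = i ∨ n = i' then 0 else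
      min (∑' y, (q (Sum.inr i) y : ℝ≥0∞) * alk α n y)
        (∑' y, (q (Sum.inr i') y : ℝ≥0∞) * alk α n y)) ≠ ⊤)
    (K : Set ℕ) (hK : K.Infinite)
    (hS : ∀ i, ∑' k, (Set.indicator K (fun k => if k = i then 0 else
      ∑' y, (q (Sum.inr i) y : ℝ≥0∞) * alk α k y) k) ≠ ⊤) :
    ∃ p : ℝ → (F ⊕ ℕ) → (F ⊕ ℕ) → ℝ, IsStd p ∧
      (∀ x y, x ≠ y → Tendsto (fun t => p t x y / t) (𝓝[>] 0) (𝓝 (q x y : ℝ))) ∧
      (∀ j, Tendsto (fun t => (1 - p t (Sum.inl j) (Sum.inl j)) / t) (𝓝[>] 0) (𝓝 (qd j : ℝ))) ∧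
      (∀ i, Tendsto (fun t => (1 - p t (Sum.inr i) (Sum.inr i)) / t) (𝓝[>] 0) atTop) := by
  classical
  obtain ⟨e, he1, he2, he3⟩ := exists_assign hK
  obtain ⟨par, hp1, hp2⟩ := exists_par (fun i n => ∑' y, (q (Sum.inr i) y : ℝ≥0∞) * alk α n y)
    (fun i n hn => fin i n (Ne.symm hn)) hN
  let R : Res := ⟨e, he1, he2, par, hp1⟩
  let X : XData F := ⟨q, qd, α, R, enc⟩
  have hal : ∀ l y, X.al l y = alk α l y := fun l y => rfl
  have hX : X.Good := by
    refine ⟨henc, diag, row, fun l j => ?_, asum, fun i l hil => ?_, fun i => ?_, fun i => ?_⟩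
    · exact sub l j
    · exact fin i l hil
    · exact defect i
    · refine ne_top_of_le_ne_top (ENNReal.add_ne_top.2 ⟨hp2 i, hS i⟩)
        (b := ∑' n, (if i < n ∧ par n ≠ i then
          ∑' y, (q (Sum.inr i) y : ℝ≥0∞) * alk α n y else 0)
          + ∑' k, (Set.indicator K (fun k => if k = i then 0 else
      ∑' y, (q (Sum.inr i) y : ℝ≥0∞) * alk α k y) k)) ?_
      rw [← ENNReal.tsum_add]
      refine ENNReal.tsum_le_tsum fun l => ?_
      by_cases h : i < l ∧ X.R.p l ≠ i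
      · rw [if_pos h]
        obtain ⟨k, rfl⟩ : ∃ k, l = k + 1 := ⟨l - 1, by omega⟩
        cases hek : e (k + 1) with
        | none =>
          have h1 : X.R.p (k + 1) = par (k + 1) := R.p_succ_none hek
          rw [h1] at h
          rw [if_pos h]
          exact le_self_add
        | some im =>
          have h2 : k + 1 ∈ K := he3 _ _ hek
          have h3 : Set.indicator K (fun k => if k = i then 0 else
            ∑' y, (q (Sum.inr i) y : ℝ≥0∞) * alk α k y) (k + 1) = X.qh i (k + 1) := by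
            rw [Set.indicator_of_mem h2, if_neg (by omega)]
            rfl
          rw [h3]
          exact le_add_self
      · rw [if_neg h]; exact zero_le
  exact hX.exists_semigroup

end Run7.h251
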