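import Mathlib

set_option linter.unusedSectionVars false

open scoped Matrix
open Filter Topology Set

namespace Run7.h251

lemma sub_le_of_hasDeriv {f f' : ℝ → ℝ} {a b C : ℝ} (hab : a ≤ b)
    (hf : ∀ x ∈ Icc a b, HasDerivAt f (f' x) x) (hle : ∀ x ∈ Icc a b, f' x ≤ C) :
    f b - f a ≤ C * (b - a) := by
  refine Convex.image_sub_le_mul_sub_of_deriv_le (convex_Icc a b) ?_ ?_ ?_ a (left_mem_Icc.2 hab)
    b (right_mem_Icc.2 hab) hab
  · exact fun x hx => (hf x hx).continuousAt.continuousWithinAt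
  · intro x hx
    rw [interior_Icc] at hx
    exact (hf x (Ioo_subset_Icc_self hx)).differentiableAt.differentiableWithinAt
  · intro x hx
    rw [interior_Icc] at hx
    rw [(hf x (Ioo_subset_Icc_self hx)).deriv]
    exact hle x (Ioo_subset_Icc_self hx)

lemma le_sub_of_hasDeriv {f f' : ℝ → ℝ} {a b C : ℝ} (hab : a ≤ b)
    (hf : ∀ x ∈ Icc a b, HasDerivAt f (f' x) x) (hle : ∀ x ∈ Icc a b, C ≤ f' x) :
    C * (b - a) ≤ f b - f a := by
  have := sub_le_of_hasDeriv (f := fun x => - f x) (f' := fun x => - f' x) (C := -C) hab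
    (fun x hx => (hf x hx).neg) (fun x hx => neg_le_neg (hle x hx))
  linarith

section Fin
variable {ι : Type} [Fintype ι] [DecidableEq ι]

attribute [local instance] Matrix.linftyOpNormedRing Matrix.linftyOpNormedAlgebra

/-- the semigroup of a finite matrix -/
noncomputable def PP (A : Matrix ι ι ℝ) (t : ℝ) : Matrix ι ι ℝ := NormedSpace.exp (t • A)

lemma PP_zero (A : Matrix ι ι ℝ) : PP A 0 = 1 := by
  simp [PP]

lemma PP_add (A : Matrix ι ι ℝ) (s t : ℝ) : PP A (s + t) = PP A s * PP A t := by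
  unfold PP
  rw [add_smul]
  exact Matrix.exp_add_of_commute _ _ ((Commute.refl A).smul_left s |>.smul_right t)

lemma PP_hasDerivAt (A : Matrix ι ι ℝ) (t : ℝ) :
    HasDerivAt (fun u => PP A u) (PP A t * A) t := by
  unfold PP
  exact hasDerivAt_exp_smul_const A t

lemma PP_hasDerivAt' (A : Matrix ι ι ℝ) (t : ℝ) :
    HasDerivAt (fun u => PP A u) (A * PP A t) t := by
  unfold PP
  exact hasDerivAt_exp_smul_const' A t

/-- entry evaluation as a continuous linear map -/
noncomputable def entryL (i j : ι) : Matrix ι ι ℝ →L[ℝ] ℝ :=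
  LinearMap.toContinuousLinearMap (Matrix.entryLinearMap ℝ ℝ i j)

lemma entryL_apply (i j : ι) (M : Matrix ι ι ℝ) : entryL i j M = M i j := rfl

lemma entry_hasDerivAt (A : Matrix ι ι ℝ) (t : ℝ) (i j : ι) :
    HasDerivAt (fun u => PP A u i j) ((PP A t * A) i j) t := by
  exact (entryL (ι := ι) i j).hasFDerivAt.comp_hasDerivAt t (PP_hasDerivAt A t)

lemma entry_hasDerivAt' (A : Matrix ι ι ℝ) (t : ℝ) (i j : ι) :
    HasDerivAt (fun u => PP A u i j) ((A * PP A t) i j) t := by
  exact (entryL (ι := ι) i j).hasFDerivAt.comp_hasDerivAt t (PP_hasDerivAt' A t)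

lemma exp_nonneg_of_nonneg (B : Matrix ι ι ℝ) (hB : ∀ i j, 0 ≤ B i j) (i j : ι) :
    0 ≤ (NormedSpace.exp B : Matrix ι ι ℝ) i j := by
  have h1 : HasSum (fun n : ℕ => ((Nat.factorial n : ℝ)⁻¹) • B ^ n) (NormedSpace.exp B) :=
    NormedSpace.exp_series_hasSum_exp' (𝕂 := ℝ) B
  have h2 := (entryL (ι := ι) i j).hasSum h1
  have hpow : ∀ n : ℕ, ∀ i j, 0 ≤ (B ^ n) i j := by
    intro n
    induction n with
    | zero =>
      intro i j
      simp only [pow_zero, Matrix.one_apply]
      split_ifs <;> norm_num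
    | succ n ih =>
      intro i j
      rw [pow_succ, Matrix.mul_apply]
      exact Finset.sum_nonneg fun k _ => mul_nonneg (ih i k) (hB k j)
  refine h2.nonneg fun n => ?_
  rw [entryL_apply, Matrix.smul_apply, smul_eq_mul]
  exact mul_nonneg (by positivity) (hpow n i j)

lemma PP_nonneg (A : Matrix ι ι ℝ) (hM : ∀ i j, i ≠ j → 0 ≤ A i j) {t : ℝ} (ht : 0 ≤ t)
    (i j : ι) : 0 ≤ PP A t i j := by
  classical
  set c : ℝ := ∑ k, |A k k| with hc
  set B : Matrix ι ι ℝ := A + c • (1 : Matrix ι ι ℝ) with hBdef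
  have hB : ∀ i j, 0 ≤ B i j := by
    intro i j
    by_cases h : i = j
    · subst h
      simp only [hBdef, Matrix.add_apply, Matrix.smul_apply, Matrix.one_apply_eq, smul_eq_mul,
        mul_one]
      have h1 : |A i i| ≤ c := Finset.single_le_sum (f := fun k => |A k k|)
        (fun k _ => abs_nonneg _) (Finset.mem_univ i)
      have h2 := neg_abs_le (A i i)
      linarith
    · simp only [hBdef, Matrix.add_apply, Matrix.smul_apply, Matrix.one_apply_ne h, smul_eq_mul,
        mul_zero, add_zero]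
      exact hM i j h
  have h1 : t • A = t • B + (-(t * c)) • (1 : Matrix ι ι ℝ) := by
    rw [hBdef, smul_add, smul_smul, add_assoc, ← add_smul]
    simp
  have h2 : Commute (t • B) ((-(t * c)) • (1 : Matrix ι ι ℝ)) := by
    exact (Commute.one_right _).smul_right _
  have h3 : PP A t = NormedSpace.exp (t • B) * NormedSpace.exp ((-(t * c)) • (1 : Matrix ι ι ℝ)) := by
    unfold PP
    rw [h1]
    exact Matrix.exp_add_of_commute _ _ h2
  have h4 : NormedSpace.exp ((-(t * c)) • (1 : Matrix ι ι ℝ))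
      = (Real.exp (-(t * c))) • (1 : Matrix ι ι ℝ) := by
    rw [← Algebra.algebraMap_eq_smul_one, ← Algebra.algebraMap_eq_smul_one,
      Real.exp_eq_exp_ℝ, NormedSpace.algebraMap_exp_comm]
    rfl
  rw [h3, h4]
  simp only [mul_smul_comm, mul_one, Matrix.smul_apply, smul_eq_mul]
  refine mul_nonneg (Real.exp_nonneg _) (exp_nonneg_of_nonneg _ ?_ i j)
  intro k l
  simp only [Matrix.smul_apply, smul_eq_mul]
  exact mul_nonneg ht (hB k l)

/-- action on functions -/
noncomputable def act (M : Matrix ι ι ℝ) (f : ι → ℝ) (x : ι) : ℝ := ∑ y, M x y * f y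

lemma act_mul (M N : Matrix ι ι ℝ) (f : ι → ℝ) (x : ι) :
    act (M * N) f x = act M (act N f) x := by
  unfold act
  simp only [Matrix.mul_apply, Finset.sum_mul, Finset.mul_sum]
  rw [Finset.sum_comm]
  refine Finset.sum_congr rfl fun y _ => Finset.sum_congr rfl fun z _ => by ring

lemma act_mono {M : Matrix ι ι ℝ} {x : ι} (hM : ∀ y, 0 ≤ M x y) {f g : ι → ℝ}
    (h : ∀ y, f y ≤ g y) : act M f x ≤ act M g x :=
  Finset.sum_le_sum fun y _ => mul_le_mul_of_nonneg_left (h y) (hM y)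

lemma act_one (f : ι → ℝ) (x : ι) : act (1 : Matrix ι ι ℝ) f x = f x := by
  simp [act, Matrix.one_apply]

lemma act_hasDerivAt (A : Matrix ι ι ℝ) (f : ι → ℝ) (x : ι) (t : ℝ) :
    HasDerivAt (fun u => act (PP A u) f x) (act (PP A t) (act A f) x) t := by
  rw [← act_mul]
  unfold act
  have : ∀ y ∈ (Finset.univ : Finset ι), HasDerivAt (fun u => PP A u x y * f y)
      ((PP A t * A) x y * f y) t := fun y _ => (entry_hasDerivAt A t x y).mul_const (f y)
  exact HasDerivAt.fun_sum this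

structure IsGen (A : Matrix ι ι ℝ) : Prop where
  off : ∀ i j, i ≠ j → 0 ≤ A i j
  row : ∀ i, ∑ j, A i j ≤ 0

variable {A : Matrix ι ι ℝ}

lemma IsGen.nonneg (hA : IsGen A) {t : ℝ} (ht : 0 ≤ t) (i j : ι) : 0 ≤ PP A t i j :=
  PP_nonneg A hA.off ht i j

lemma act_zero_time (f : ι → ℝ) (x : ι) : act (PP A 0) f x = f x := by
  rw [PP_zero, act_one]

lemma IsGen.row_le (hA : IsGen A) {t : ℝ} (ht : 0 ≤ t) (i : ι) : ∑ j, PP A t i j ≤ 1 := by
  have h := sub_le_of_hasDeriv (f := fun u => act (PP A u) (fun _ => 1) i)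
    (f' := fun u => act (PP A u) (act A (fun _ => 1)) i) (C := 0) ht
    (fun x _ => act_hasDerivAt A _ i x) (by
      intro u hu
      refine Finset.sum_nonpos fun y _ => mul_nonpos_of_nonneg_of_nonpos (hA.nonneg hu.1 _ _) ?_
      simpa [act] using hA.row y)
  have h0 : act (PP A 0) (fun _ => (1 : ℝ)) i = 1 := act_zero_time _ _
  have h1 : act (PP A t) (fun _ => (1 : ℝ)) i = ∑ j, PP A t i j := by simp [act]
  simp only [h0, h1] at h
  linarith

lemma IsGen.le_one (hA : IsGen A) {t : ℝ} (ht : 0 ≤ t) (i j : ι) : PP A t i j ≤ 1 :=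
  (Finset.single_le_sum (f := fun j => PP A t i j) (fun k _ => hA.nonneg ht i k)
    (Finset.mem_univ j)).trans (hA.row_le ht i)

end Fin
end Run7.h251
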