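import Pool.Agent.Run7.h251.Fin

set_option linter.unusedSectionVars false

open scoped Matrix
open Filter Topology Set

namespace Run7.h251

section Fin
variable {ι : Type} [Fintype ι] [DecidableEq ι] {A : Matrix ι ι ℝ}

attribute [local instance] Matrix.linftyOpNormedRing Matrix.linftyOpNormedAlgebra

lemma act_nonneg {M : Matrix ι ι ℝ} {x : ι} (hM : ∀ y, 0 ≤ M x y) {f : ι → ℝ}
    (h : ∀ y, 0 ≤ f y) : 0 ≤ act M f x :=
  Finset.sum_nonneg fun y _ => mul_nonneg (hM y) (h y)

lemma le_act {M : Matrix ι ι ℝ} {x : ι} (hM : ∀ y, 0 ≤ M x y) {f : ι → ℝ}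
    (h : ∀ y, 0 ≤ f y) (z : ι) : M x z * f z ≤ act M f x :=
  Finset.single_le_sum (f := fun y => M x y * f y) (fun y _ => mul_nonneg (hM y) (h y))
    (Finset.mem_univ z)

lemma exp_lin_hasDerivAt (l t : ℝ) :
    HasDerivAt (fun u : ℝ => Real.exp (-(l * u))) (Real.exp (-(l * t)) * (-l)) t := by
  have h : HasDerivAt (fun u : ℝ => -(l * u)) (-l) t :=
    (((hasDerivAt_id t).const_mul l).neg).congr_deriv (by simp)
  exact h.exp

/-- discounted derivative -/
lemma disc_hasDerivAt (A : Matrix ι ι ℝ) (f : ι → ℝ) (x : ι) (l t : ℝ) :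
    HasDerivAt (fun u => Real.exp (-(l * u)) * act (PP A u) f x)
      (Real.exp (-(l * t)) * act (PP A t) (fun z => act A f z - l * f z) x) t := by
  have h2 := (exp_lin_hasDerivAt l t).mul (act_hasDerivAt A f x t)
  refine h2.congr_deriv ?_
  have : act (PP A t) (fun z => act A f z - l * f z) x
      = act (PP A t) (act A f) x - l * act (PP A t) f x := by
    simp only [act, mul_sub, Finset.sum_sub_distrib, Finset.mul_sum]
    congr 1
    refine Finset.sum_congr rfl fun y _ => by ring
  rw [this]; ring

/-- upper bound by a function vanishing at `a` -/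
lemma IsGen.upper (hA : IsGen A) {a : ι} {w : ι → ℝ} {l t : ℝ} (hl : 0 ≤ l) (ht : 0 ≤ t)
    (hw : ∀ x, 0 ≤ w x) (hwa : w a = 0) (hsup : ∀ x, x ≠ a → act A w x ≤ l * w x) :
    act (PP A t) w a ≤ t * Real.exp (l * t) * act A w a := by
  have hAw : 0 ≤ act A w a := by
    refine Finset.sum_nonneg fun y _ => ?_
    by_cases h : a = y
    · subst h; rw [hwa]; simp
    · exact mul_nonneg (hA.off a y h) (hw y)
  have key := sub_le_of_hasDeriv (f := fun u => Real.exp (-(l * u)) * act (PP A u) w a)
    (f' := fun u => Real.exp (-(l * u)) * act (PP A u) (fun z => act A w z - l * w z) a)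
    (C := act A w a) ht (fun x _ => disc_hasDerivAt A w a l x) (by
      intro u hu
      have h1 : act (PP A u) (fun z => act A w z - l * w z) a ≤ PP A u a a * act A w a := by
        unfold act
        rw [← Finset.add_sum_erase _ _ (Finset.mem_univ a)]
        have : ∑ y ∈ Finset.univ.erase a, PP A u a y * ((∑ y_1, A y y_1 * w y_1) - l * w y) ≤ 0 := by
          refine Finset.sum_nonpos fun y hy => mul_nonpos_of_nonneg_of_nonpos
            (hA.nonneg hu.1 _ _) ?_
          have := hsup y (Finset.ne_of_mem_erase hy)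
          unfold act at this
          linarith
        have h0 : (∑ y_1, A a y_1 * w y_1) - l * w a = ∑ y_1, A a y_1 * w y_1 := by
          rw [hwa]; ring
        simp only [h0]
        linarith
      have h2 : PP A u a a * act A w a ≤ act A w a := by
        have := hA.le_one hu.1 a a
        nlinarith [hA.nonneg hu.1 a a]
      have h3 : Real.exp (-(l * u)) ≤ 1 := by
        rw [Real.exp_le_one_iff]
        have := mul_nonneg hl hu.1
        linarith
      calc Real.exp (-(l * u)) * act (PP A u) (fun z => act A w z - l * w z) a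
          ≤ Real.exp (-(l * u)) * act A w a :=
            mul_le_mul_of_nonneg_left (h1.trans h2) (Real.exp_nonneg _)
        _ ≤ 1 * act A w a := mul_le_mul_of_nonneg_right h3 hAw
        _ = act A w a := one_mul _)
  simp only [mul_zero, neg_zero, Real.exp_zero, act_zero_time, hwa, sub_zero] at key
  have h4 : act (PP A t) w a = Real.exp (l * t) * (Real.exp (-(l * t)) * act (PP A t) w a) := by
    rw [← mul_assoc, ← Real.exp_add]; simp
  rw [h4]
  calc Real.exp (l * t) * (Real.exp (-(l * t)) * act (PP A t) w a)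
      ≤ Real.exp (l * t) * (act A w a * t) := mul_le_mul_of_nonneg_left key (Real.exp_nonneg _)
    _ = t * Real.exp (l * t) * act A w a := by ring

/-- excessive functions -/
lemma IsGen.excessive (hA : IsGen A) {w : ι → ℝ} {l t : ℝ} (ht : 0 ≤ t)
    (hsup : ∀ x, act A w x ≤ l * w x) (x : ι) :
    act (PP A t) w x ≤ Real.exp (l * t) * w x := by
  have key := sub_le_of_hasDeriv (f := fun u => Real.exp (-(l * u)) * act (PP A u) w x)
    (f' := fun u => Real.exp (-(l * u)) * act (PP A u) (fun z => act A w z - l * w z) x)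
    (C := 0) ht (fun y _ => disc_hasDerivAt A w x l y) (by
      intro u hu
      refine mul_nonpos_of_nonneg_of_nonpos (Real.exp_nonneg _) ?_
      refine Finset.sum_nonpos fun y _ => mul_nonpos_of_nonneg_of_nonpos
            (hA.nonneg hu.1 _ _) ?_
      have := hsup y
      linarith)
  simp only [mul_zero, neg_zero, Real.exp_zero, act_zero_time, one_mul, zero_mul] at key
  have h4 : act (PP A t) w x = Real.exp (l * t) * (Real.exp (-(l * t)) * act (PP A t) w x) := by
    rw [← mul_assoc, ← Real.exp_add]; simp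
  rw [h4]
  exact mul_le_mul_of_nonneg_left (by linarith) (Real.exp_nonneg _)

/-- uniform standardness -/
lemma IsGen.standard (hA : IsGen A) {a : ι} {τ : ι → ℝ} {l L : ℝ} (hl : 0 < l) (hL : 0 ≤ L)
    (h1 : ∀ x, τ x ≤ 1) (ha : τ a = 1)
    (hsub : ∀ x, x ≠ a → l * τ x ≤ act A τ x) (hLa : - L ≤ act A τ a) :
    1 - PP A (1 / l) a a ≤ 2 * Real.exp 1 * (L / l) := by
  set t : ℝ := 1 / l with htdef
  have ht : 0 < t := by positivity
  have hlt : l * t = 1 := by rw [htdef]; field_simp
  -- the function E
  set H : ℝ → ℝ := fun u => Real.exp (-(l * u)) * act (PP A u) τ a with hH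
  set H' : ℝ → ℝ := fun u => Real.exp (-(l * u)) * act (PP A u) (fun z => act A τ z - l * τ z) a
    with hH'
  have hHd : ∀ u, HasDerivAt H (H' u) u := fun u => disc_hasDerivAt A τ a l u
  have hlL : 0 < l + L := by positivity
  have hH'low : ∀ u, 0 ≤ u → - (Real.exp (-(l * u)) * ((l + L) * PP A u a a)) ≤ H' u := by
    intro u hu
    have : - ((l + L) * PP A u a a) ≤ act (PP A u) (fun z => act A τ z - l * τ z) a := by
      unfold act
      rw [← Finset.add_sum_erase _ _ (Finset.mem_univ a)]
      have h2 : 0 ≤ ∑ y ∈ Finset.univ.erase a,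
          PP A u a y * ((∑ y_1, A y y_1 * τ y_1) - l * τ y) := by
        refine Finset.sum_nonneg fun y hy => mul_nonneg (hA.nonneg hu _ _) ?_
        have := hsub y (Finset.ne_of_mem_erase hy)
        unfold act at this
        linarith
      have h3 : -(l + L) ≤ (∑ y_1, A a y_1 * τ y_1) - l * τ a := by
        unfold act at hLa
        rw [ha]; linarith
      have h4 := mul_le_mul_of_nonneg_left h3 (hA.nonneg hu a a)
      nlinarith [h4, h2]
    have h5 := mul_le_mul_of_nonneg_left this (Real.exp_nonneg (-(l * u)))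
    simp only [hH']
    linarith
  set E : ℝ → ℝ := fun u => (1 - Real.exp (-(l * u))) - (1 - H u) * (l / (l + L)) with hE
  set E' : ℝ → ℝ := fun u => l * Real.exp (-(l * u)) + H' u * (l / (l + L)) with hE'
  have hEd : ∀ u, HasDerivAt E (E' u) u := by
    intro u
    have e2 := ((exp_lin_hasDerivAt l u).const_sub 1).sub
      (((hHd u).const_sub 1).mul_const (l / (l + L)))
    refine e2.congr_deriv ?_
    simp only [hE']
    ring
  have hE'low : ∀ u, 0 ≤ u → l * Real.exp (-(l * u)) * (1 - PP A u a a) ≤ E' u := by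
    intro u hu
    have h6 := mul_le_mul_of_nonneg_right (hH'low u hu) (by positivity : (0:ℝ) ≤ l / (l + L))
    have h7 : - (Real.exp (-(l * u)) * ((l + L) * PP A u a a)) * (l / (l + L))
        = - (l * Real.exp (-(l * u)) * PP A u a a) := by
      field_simp
    rw [h7] at h6
    simp only [hE']
    linarith
  have hE0 : E 0 = 0 := by
    simp only [hE, hH, mul_zero, neg_zero, Real.exp_zero, act_zero_time, ha]
    ring
  have hEt : E t ≤ L / (l + L) := by
    have h8 : H t ≤ Real.exp (-(l * t)) := by
      simp only [hH]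
      have : act (PP A t) τ a ≤ 1 := by
        calc act (PP A t) τ a ≤ act (PP A t) (fun _ => 1) a :=
              act_mono (fun y => hA.nonneg ht.le _ _) h1
          _ = ∑ y, PP A t a y := by simp [act]
          _ ≤ 1 := hA.row_le ht.le a
      calc Real.exp (-(l * t)) * act (PP A t) τ a ≤ Real.exp (-(l * t)) * 1 :=
            mul_le_mul_of_nonneg_left this (Real.exp_nonneg _)
        _ = _ := mul_one _
    have h9 : E t ≤ (1 - Real.exp (-(l * t))) * (L / (l + L)) := by
      simp only [hE]
      have h10 : (L / (l + L)) = 1 - l / (l + L) := by field_simp; ring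
      rw [h10]
      have h11 : (0:ℝ) ≤ l / (l + L) := by positivity
      nlinarith [mul_le_mul_of_nonneg_right h8 h11]
    have h12 : (1 - Real.exp (-(l * t))) ≤ 1 := by linarith [Real.exp_nonneg (-(l * t))]
    have h13 : (0:ℝ) ≤ L / (l + L) := by positivity
    nlinarith [mul_le_mul_of_nonneg_right h12 h13]
  -- symmetrised function
  set X : ℝ → ℝ := fun s => E s - E (t - s) with hX
  have hXd : ∀ s, HasDerivAt X (E' s + E' (t - s)) s := by
    intro s
    have e1 : HasDerivAt (fun s : ℝ => t - s) (-1) s := (hasDerivAt_id s).const_sub t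
    have e2 : HasDerivAt (fun s : ℝ => E (t - s)) (E' (t - s) * (-1)) s :=
      (hEd (t - s)).comp s e1
    exact ((hEd s).sub e2).congr_deriv (by ring)
  obtain ⟨s, hs, hs'⟩ := exists_hasDerivAt_eq_slope X (fun s => E' s + E' (t - s)) ht
    (fun s _ => (hXd s).continuousAt.continuousWithinAt) (fun s _ => hXd s)
  have hXt : X t - X 0 = 2 * E t := by
    simp only [hX, sub_self, sub_zero, hE0]; ring
  rw [hXt, sub_zero] at hs'
  have hs0 : 0 ≤ s := hs.1.le
  have hst : 0 ≤ t - s := by linarith [hs.2]
  have k1 := hE'low s hs0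
  have k2 := hE'low (t - s) hst
  have k3 : Real.exp (-1) ≤ Real.exp (-(l * s)) := by
    apply Real.exp_le_exp.2
    have : l * s ≤ l * t := mul_le_mul_of_nonneg_left hs.2.le hl.le
    linarith
  have k4 : Real.exp (-1) ≤ Real.exp (-(l * (t - s))) := by
    apply Real.exp_le_exp.2
    have : l * (t - s) ≤ l * t := mul_le_mul_of_nonneg_left (by linarith) hl.le
    linarith
  have p1 : 0 ≤ 1 - PP A s a a := by linarith [hA.le_one hs0 a a]
  have p2 : 0 ≤ 1 - PP A (t - s) a a := by linarith [hA.le_one hst a a]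
  have k5 : l * Real.exp (-1) * ((1 - PP A s a a) + (1 - PP A (t - s) a a)) ≤ 2 * E t / t := by
    rw [← hs']
    have m1 : l * Real.exp (-1) * (1 - PP A s a a) ≤ l * Real.exp (-(l * s)) * (1 - PP A s a a) :=
      mul_le_mul_of_nonneg_right (mul_le_mul_of_nonneg_left k3 hl.le) p1
    have m2 : l * Real.exp (-1) * (1 - PP A (t - s) a a)
        ≤ l * Real.exp (-(l * (t - s))) * (1 - PP A (t - s) a a) :=
      mul_le_mul_of_nonneg_right (mul_le_mul_of_nonneg_left k4 hl.le) p2
    linarith
  have k6 : (1 - PP A s a a) + (1 - PP A (t - s) a a) ≤ 2 * Real.exp 1 * E t := by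
    have q1 : 2 * E t / t = 2 * E t * l := by rw [htdef]; field_simp
    rw [q1] at k5
    have q2 : Real.exp (-1) * ((1 - PP A s a a) + (1 - PP A (t - s) a a)) ≤ 2 * E t := by
      have : l * (Real.exp (-1) * ((1 - PP A s a a) + (1 - PP A (t - s) a a))) ≤ l * (2 * E t) := by
        nlinarith [k5]
      exact le_of_mul_le_mul_left this hl
    have q3 := mul_le_mul_of_nonneg_left q2 (Real.exp_nonneg 1)
    rw [← mul_assoc, ← Real.exp_add] at q3
    simp only [add_neg_cancel, Real.exp_zero, one_mul] at q3
    linarith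
  have k7 : PP A s a a * PP A (t - s) a a ≤ PP A t a a := by
    have : PP A t = PP A s * PP A (t - s) := by rw [← PP_add]; congr 1; ring
    rw [this, Matrix.mul_apply]
    exact Finset.single_le_sum (f := fun j => PP A s a j * PP A (t - s) j a)
      (fun j _ => mul_nonneg (hA.nonneg hs0 _ _) (hA.nonneg hst _ _)) (Finset.mem_univ a)
  have k8 : 1 - PP A t a a ≤ (1 - PP A s a a) + (1 - PP A (t - s) a a) := by
    nlinarith [mul_nonneg p1 p2]
  have k9 : L / (l + L) ≤ L / l := by
    apply div_le_div_of_nonneg_left hL hl; linarith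
  calc 1 - PP A t a a ≤ 2 * Real.exp 1 * E t := k8.trans k6
    _ ≤ 2 * Real.exp 1 * (L / l) :=
      mul_le_mul_of_nonneg_left (hEt.trans k9) (by positivity)

end Fin
end Run7.h251
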