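import Pool.Agent.Run7.h251.FinLyap

set_option linter.unusedSectionVars false

open scoped Matrix
open Filter Topology Set

namespace Run7.h251

section Fin
variable {ι : Type} [Fintype ι] [DecidableEq ι] {A : Matrix ι ι ℝ}

attribute [local instance] Matrix.linftyOpNormedRing Matrix.linftyOpNormedAlgebra

lemma PP_add_apply (A : Matrix ι ι ℝ) (s t : ℝ) (x y : ι) :
    PP A (s + t) x y = ∑ z, PP A s x z * PP A t z y := by
  rw [PP_add, Matrix.mul_apply]

/-- tightness at a fixed time -/
lemma IsGen.tight (hA : IsGen A) {x : ι} {W f : ι → ℝ} {t δ ε : ℝ} (ht : 0 ≤ t) (hδ : 0 < δ)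
    (hW : ∀ y, 0 ≤ W y) (hf : ∀ y, 0 ≤ f y) (hWf : ∀ y, f y ≤ W y - act A W y)
    (hx : ∀ s ∈ Icc 0 δ, 1 / 2 ≤ PP A s x x) (hWx : W x ≤ ε) :
    act (PP A t) f x ≤ 2 * Real.exp (t + δ) / δ * ε := by
  set m := act (PP A t) f x with hm
  have hm0 : 0 ≤ m := act_nonneg (fun y => hA.nonneg ht _ _) hf
  have hlow : ∀ u ∈ Icc t (t + δ), m / 2 ≤ act (PP A u) f x := by
    intro u hu
    have h1 : PP A u = PP A (u - t) * PP A t := by rw [← PP_add]; congr 1; ring
    have h2 : act (PP A u) f x = act (PP A (u - t)) (act (PP A t) f) x := by rw [h1, act_mul]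
    rw [h2]
    have hut : 0 ≤ u - t := by linarith [hu.1]
    have h3 := le_act (M := PP A (u - t)) (x := x) (fun y => hA.nonneg hut _ _)
      (f := act (PP A t) f) (fun y => act_nonneg (fun z => hA.nonneg ht _ _) hf) x
    have h4 : 1 / 2 ≤ PP A (u - t) x x := hx _ ⟨hut, by linarith [hu.2]⟩
    have h5 := mul_le_mul_of_nonneg_right h4 hm0
    rw [← hm] at h3
    linarith
  have hmono : ∀ u, 0 ≤ u → act (PP A u) (fun z => act A W z - 1 * W z) x
      ≤ - act (PP A u) f x := by
    intro u hu
    have : act (PP A u) (fun z => act A W z - 1 * W z) x ≤ act (PP A u) (fun z => - f z) x := by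
      refine act_mono (fun y => hA.nonneg hu _ _) fun y => ?_
      have := hWf y
      linarith
    refine this.trans (le_of_eq ?_)
    simp [act, Finset.sum_neg_distrib]
  have key1 := sub_le_of_hasDeriv (f := fun u => Real.exp (-(1 * u)) * act (PP A u) W x)
    (f' := fun u => Real.exp (-(1 * u)) * act (PP A u) (fun z => act A W z - 1 * W z) x)
    (C := 0) ht (fun y _ => disc_hasDerivAt A W x 1 y) (by
      intro u hu
      refine mul_nonpos_of_nonneg_of_nonpos (Real.exp_nonneg _) ?_
      have h1 := hmono u hu.1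
      have h2 : 0 ≤ act (PP A u) f x := act_nonneg (fun y => hA.nonneg hu.1 _ _) hf
      linarith)
  have key2 := sub_le_of_hasDeriv (f := fun u => Real.exp (-(1 * u)) * act (PP A u) W x)
    (f' := fun u => Real.exp (-(1 * u)) * act (PP A u) (fun z => act A W z - 1 * W z) x)
    (C := - (Real.exp (-(t + δ)) * (m / 2))) (show t ≤ t + δ by linarith)
    (fun y _ => disc_hasDerivAt A W x 1 y) (by
      intro u hu
      have hu0 : 0 ≤ u := ht.trans hu.1
      have h1 := hmono u hu0
      have h2 := hlow u hu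
      have h3 : Real.exp (-(t + δ)) ≤ Real.exp (-(1 * u)) := by
        apply Real.exp_le_exp.2; linarith [hu.2]
      have h4 : Real.exp (-(1 * u)) * act (PP A u) (fun z => act A W z - 1 * W z) x
          ≤ Real.exp (-(1 * u)) * (-(m / 2)) :=
        mul_le_mul_of_nonneg_left (by linarith) (Real.exp_nonneg _)
      have h5 : Real.exp (-(t + δ)) * (m / 2) ≤ Real.exp (-(1 * u)) * (m / 2) :=
        mul_le_mul_of_nonneg_right h3 (by linarith)
      linarith)
  simp only [one_mul, neg_zero, Real.exp_zero, act_zero_time, zero_mul] at key1 key2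
  have hpos : 0 ≤ Real.exp (-(t + δ)) * act (PP A (t + δ)) W x :=
    mul_nonneg (Real.exp_nonneg _) (act_nonneg (fun y => hA.nonneg (by linarith) _ _) hW)
  have h6 : Real.exp (-(t + δ)) * (m / 2) * δ ≤ ε := by
    have : t + δ - t = δ := by ring
    rw [this] at key2
    linarith
  have h7 : Real.exp (t + δ) * Real.exp (-(t + δ)) = 1 := by rw [← Real.exp_add]; simp
  have h8 : Real.exp (t + δ) * (Real.exp (-(t + δ)) * (m / 2) * δ) ≤ Real.exp (t + δ) * ε :=
    mul_le_mul_of_nonneg_left h6 (Real.exp_nonneg _)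
  have h9 : Real.exp (t + δ) * (Real.exp (-(t + δ)) * (m / 2) * δ) = m / 2 * δ := by
    calc _ = (Real.exp (t + δ) * Real.exp (-(t + δ))) * (m / 2 * δ) := by ring
      _ = _ := by rw [h7, one_mul]
  rw [h9] at h8
  rw [div_mul_eq_mul_div, le_div_iff₀ hδ]
  linarith

/-- telescoping -/
lemma telescope (P B : Matrix ι ι ℝ) (n : ℕ) :
    P ^ n = B ^ n + ∑ m ∈ Finset.range n, B ^ m * (P - B) * P ^ (n - 1 - m) := by
  induction n with
  | zero => simp
  | succ n ih =>
    have h1 : P ^ (n + 1) = P ^ n * P := pow_succ P n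
    have h2 : ∀ m ∈ Finset.range n, B ^ m * (P - B) * P ^ (n - 1 - m) * P
        = B ^ m * (P - B) * P ^ (n + 1 - 1 - m) := by
      intro m hm
      have : n + 1 - 1 - m = (n - 1 - m) + 1 := by
        have := Finset.mem_range.1 hm; omega
      simp only [this, pow_succ, mul_assoc]
    rw [h1]
    nth_rewrite 1 [ih]
    rw [add_mul, Finset.sum_mul, Finset.sum_congr rfl h2, Finset.sum_range_succ]
    have : n + 1 - 1 - n = 0 := by omega
    rw [this, pow_zero, mul_one]
    have h3 : B ^ n * P = B ^ (n + 1) + B ^ n * (P - B) := by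
      rw [mul_sub, ← pow_succ]; abel
    rw [h3]; abel

/-- Chung's inequality for a finite substochastic matrix -/
lemma chung_fin (P : Matrix ι ι ℝ) (hP : ∀ i j, 0 ≤ P i j) (hrow : ∀ i, ∑ j, P i j ≤ 1)
    {a y : ι} (hay : a ≠ y) {ε : ℝ} (hε : 0 ≤ ε) (hε1 : ε ≤ 1) (n : ℕ)
    (ha : ∀ m ≤ n, 1 - ε ≤ (P ^ m) a a) (hy : ∀ m ≤ n, 1 - ε ≤ (P ^ m) y y)
    (hya : ∀ m ≤ n, (P ^ m) y a ≤ ε) :
    (1 - 3 * ε) * n * P a y ≤ (P ^ n) a y := by
  classical
  obtain ⟨B, hB⟩ : ∃ B : Matrix ι ι ℝ, ∀ i j, B i j = if j = y then 0 else P i j :=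
    ⟨fun i j => if j = y then 0 else P i j, fun _ _ => rfl⟩
  have hBn : ∀ i j, 0 ≤ B i j := by
    intro i j; simp only [hB]; split_ifs; exacts [le_rfl, hP i j]
  have hPB : ∀ i j, (P - B) i j = if j = y then P i y else 0 := by
    intro i j
    simp only [Matrix.sub_apply, hB]
    split_ifs with h
    · rw [h, sub_zero]
    · ring
  have hBpow : ∀ m i j, 0 ≤ (B ^ m) i j := by
    intro m
    induction m with
    | zero => intro i j; simp only [pow_zero, Matrix.one_apply]; split_ifs <;> norm_num
    | succ m ih =>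
      intro i j
      rw [pow_succ, Matrix.mul_apply]
      exact Finset.sum_nonneg fun k _ => mul_nonneg (ih i k) (hBn k j)
  have hPpow : ∀ m i j, 0 ≤ (P ^ m) i j := by
    intro m
    induction m with
    | zero => intro i j; simp only [pow_zero, Matrix.one_apply]; split_ifs <;> norm_num
    | succ m ih =>
      intro i j
      rw [pow_succ, Matrix.mul_apply]
      exact Finset.sum_nonneg fun k _ => mul_nonneg (ih i k) (hP k j)
  -- first entrance masses
  set f : ℕ → ι → ℝ := fun m i => ∑ k, (B ^ m) i k * P k y with hf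
  have hfn : ∀ m i, 0 ≤ f m i := fun m i =>
    Finset.sum_nonneg fun k _ => mul_nonneg (hBpow m i k) (hP k y)
  have hmid : ∀ m l i j, (B ^ m * (P - B) * P ^ l) i j = f m i * (P ^ l) y j := by
    intro m l i j
    rw [Matrix.mul_apply]
    have : ∀ k, (B ^ m * (P - B)) i k = if k = y then f m i else 0 := by
      intro k
      rw [Matrix.mul_apply]
      simp only [hPB]
      split_ifs with h
      · rfl
      · simp
    simp only [this, ite_mul, zero_mul, Finset.sum_ite_eq', Finset.mem_univ, if_true]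
  have hmass : ∀ N, (∑ j, (B ^ N) a j) + ∑ m ∈ Finset.range N, f m a ≤ 1 := by
    intro N
    induction N with
    | zero => simp [Matrix.one_apply]
    | succ N ih =>
      rw [Finset.sum_range_succ]
      have : (∑ j, (B ^ (N + 1)) a j) + f N a ≤ ∑ j, (B ^ N) a j := by
        have h1 : (∑ j, (B ^ (N + 1)) a j) = ∑ k, (B ^ N) a k * ∑ j, B k j := by
          simp only [pow_succ, Matrix.mul_apply, Finset.mul_sum]
          rw [Finset.sum_comm]
        rw [h1, hf]
        simp only
        rw [← Finset.sum_add_distrib]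
        refine Finset.sum_le_sum fun k _ => ?_
        rw [← mul_add]
        have h2 : (∑ j, B k j) + P k y = ∑ j, P k j := by
          have : ∀ j, B k j = P k j - (if j = y then P k y else 0) := by
            intro j; simp only [hB]; split_ifs with h
            · rw [h]; ring
            · ring
          simp only [this, Finset.sum_sub_distrib, Finset.sum_ite_eq', Finset.mem_univ, if_true]
          ring
        rw [h2]
        have := mul_le_mul_of_nonneg_left (hrow k) (hBpow N a k)
        linarith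
      linarith
  have hmass' : ∀ N, ∑ m ∈ Finset.range N, f m a ≤ 1 := by
    intro N
    have h1 := hmass N
    have h2 : 0 ≤ ∑ j, (B ^ N) a j := Finset.sum_nonneg fun j _ => hBpow N a j
    linarith
  have hBaa : ∀ m ≤ n, 1 - 2 * ε ≤ (B ^ m) a a := by
    intro m hm
    have h1 := congrFun (congrFun (telescope P B m) a) a
    rw [Matrix.add_apply, Matrix.sum_apply] at h1
    simp only [hmid] at h1
    have h2 : ∑ c ∈ Finset.range m, f c a * (P ^ (m - 1 - c)) y a ≤ ε := by
      calc ∑ c ∈ Finset.range m, f c a * (P ^ (m - 1 - c)) y a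
          ≤ ∑ c ∈ Finset.range m, f c a * ε := by
            refine Finset.sum_le_sum fun c _ => mul_le_mul_of_nonneg_left
              (hya _ (by omega)) (hfn c a)
        _ = (∑ c ∈ Finset.range m, f c a) * ε := by rw [Finset.sum_mul]
        _ ≤ 1 * ε := mul_le_mul_of_nonneg_right (hmass' m) hε
        _ = ε := one_mul _
    have h3 := ha m hm
    linarith
  have h1 := congrFun (congrFun (telescope P B n) a) y
  rw [Matrix.add_apply, Matrix.sum_apply] at h1
  simp only [hmid] at h1
  have h2 : (1 - 3 * ε) * n * P a y ≤ ∑ c ∈ Finset.range n, f c a * (P ^ (n - 1 - c)) y y := by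
    have h3 : ∀ c ∈ Finset.range n, (1 - 3 * ε) * P a y ≤ f c a * (P ^ (n - 1 - c)) y y := by
      intro c hc
      have hc' := Finset.mem_range.1 hc
      by_cases h3e : 1 - 3 * ε ≤ 0
      · exact (mul_nonpos_of_nonpos_of_nonneg h3e (hP a y)).trans
          (mul_nonneg (hfn c a) (hPpow _ _ _))
      have h4 : (1 - 2 * ε) * P a y ≤ f c a := by
        calc (1 - 2 * ε) * P a y ≤ (B ^ c) a a * P a y :=
              mul_le_mul_of_nonneg_right (hBaa c hc'.le) (hP a y)
          _ ≤ f c a := Finset.single_le_sum (f := fun k => (B ^ c) a k * P k y)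
            (fun k _ => mul_nonneg (hBpow c a k) (hP k y)) (Finset.mem_univ a)
      have h5 : 1 - ε ≤ (P ^ (n - 1 - c)) y y := hy _ (by omega)
      have h6 : 0 ≤ (1 - 2 * ε) * P a y := mul_nonneg (by linarith) (hP a y)
      calc (1 - 3 * ε) * P a y ≤ ((1 - 2 * ε) * P a y) * (1 - ε) := by
            nlinarith [hP a y, mul_nonneg hε hε, mul_nonneg (mul_nonneg hε hε) (hP a y)]
        _ ≤ f c a * (P ^ (n - 1 - c)) y y :=
            mul_le_mul h4 h5 (by linarith) (hfn c a)
    calc (1 - 3 * ε) * n * P a y = ∑ c ∈ Finset.range n, (1 - 3 * ε) * P a y := by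
          rw [Finset.sum_const, Finset.card_range, nsmul_eq_mul]; ring
      _ ≤ _ := Finset.sum_le_sum h3
  rw [h1]
  have := hBpow n a y
  linarith

lemma PP_pow (A : Matrix ι ι ℝ) (h : ℝ) (n : ℕ) : PP A h ^ n = PP A (n * h) := by
  induction n with
  | zero => simp [PP_zero]
  | succ n ih => rw [pow_succ, ih, ← PP_add]; congr 1; push_cast; ring

/-- Chung's inequality, continuous time -/
lemma IsGen.chung (hA : IsGen A) {a y : ι} (hay : a ≠ y) {ε t : ℝ} (hε : 0 ≤ ε) (hε1 : ε ≤ 1)
    (ht : 0 ≤ t) (ha : ∀ s ∈ Icc 0 t, 1 - ε ≤ PP A s a a) (hy : ∀ s ∈ Icc 0 t, 1 - ε ≤ PP A s y y) :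
    (1 - 3 * ε) * t * A a y ≤ PP A t a y := by
  rcases ht.eq_or_lt with h0 | htpos
  · rw [← h0]; simp only [mul_zero, zero_mul, PP_zero]
    rw [Matrix.one_apply_ne hay]
  -- use the sequence t/n
  have hseq : ∀ n : ℕ, 0 < n → (1 - 3 * ε) * n * PP A (t / n) a y ≤ PP A t a y := by
    intro n hn
    have hn' : (0:ℝ) < n := by exact_mod_cast hn
    have htn : 0 ≤ t / n := by positivity
    have hm : ∀ m ≤ n, (m : ℝ) * (t / n) ∈ Icc 0 t := by
      intro m hm
      refine ⟨by positivity, ?_⟩
      have : (m : ℝ) ≤ n := by exact_mod_cast hm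
      calc (m : ℝ) * (t / n) ≤ n * (t / n) := mul_le_mul_of_nonneg_right this htn
        _ = t := by field_simp
    have h1 := chung_fin (PP A (t / n)) (fun i j => hA.nonneg htn i j)
      (fun i => hA.row_le htn i) hay hε hε1 n
      (fun m hm' => by rw [PP_pow]; exact ha _ (hm m hm'))
      (fun m hm' => by rw [PP_pow]; exact hy _ (hm m hm'))
      (fun m hm' => by
        rw [PP_pow]
        have h2 := hy _ (hm m hm')
        have h3 := hA.row_le (hm m hm').1 y
        have h4 : PP A (m * (t / n)) y y + PP A (m * (t / n)) y a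
            ≤ ∑ j, PP A (m * (t / n)) y j := by
          rw [← Finset.add_sum_erase _ _ (Finset.mem_univ y)]
          have := Finset.single_le_sum (f := fun j => PP A (m * (t / n)) y j)
            (s := Finset.univ.erase y)
            (fun j _ => hA.nonneg (hm m hm').1 y j) (Finset.mem_erase.2 ⟨hay, Finset.mem_univ a⟩)
          linarith
        linarith)
    rw [PP_pow] at h1
    have h5 : (n : ℝ) * (t / n) = t := by field_simp
    rwa [h5] at h1
  -- limit
  have hd : HasDerivAt (fun u => PP A u a y) (A a y) 0 := by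
    have := entry_hasDerivAt A 0 a y
    rwa [PP_zero, one_mul] at this
  have hlim : Tendsto (fun n : ℕ => (1 - 3 * ε) * n * PP A (t / n) a y) atTop
      (𝓝 ((1 - 3 * ε) * t * A a y)) := by
    have h1 := hd.tendsto_slope
    have h2 : Tendsto (fun n : ℕ => t / (n : ℝ)) atTop (𝓝[≠] 0) := by
      rw [tendsto_nhdsWithin_iff]
      refine ⟨tendsto_const_div_atTop_nhds_zero_nat t, ?_⟩
      filter_upwards [eventually_gt_atTop 0] with n hn
      have hn' : (0:ℝ) < n := by exact_mod_cast hn
      have : t / n ≠ 0 := by positivity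
      exact this
    have h3 := h1.comp h2
    have h4 := h3.const_mul ((1 - 3 * ε) * t)
    refine h4.congr' ?_
    filter_upwards [eventually_gt_atTop 0] with n hn
    have hn' : (0:ℝ) < n := by exact_mod_cast hn
    simp only [Function.comp_apply, slope, sub_zero, vsub_eq_sub, smul_eq_mul]
    rw [PP_zero, Matrix.one_apply_ne hay, sub_zero]
    field_simp
  refine le_of_tendsto hlim ?_
  filter_upwards [eventually_gt_atTop 0] with n hn
  exact hseq n hn

/-- lower bound on the exit rate through a function -/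
lemma IsGen.diag_low (hA : IsGen A) {a y : ι} {τ : ι → ℝ} {L M ω t : ℝ} (ht : 0 ≤ t)
    (hay : a ≠ y) (hL : 0 ≤ L) (hM : 0 ≤ M)
    (h0 : ∀ x, 0 ≤ τ x) (h1 : ∀ x, τ x ≤ 1) (ha : τ a = 0)
    (hsub : ∀ x, x ≠ y → x ≠ a → 0 ≤ act A τ x) (hLy : - L ≤ act A τ y) (hMa : M ≤ act A τ a)
    (hω : ∀ s ∈ Icc 0 t, 1 - ω ≤ PP A s a a) :
    t * (M * (1 - ω) - L * ω) ≤ 1 - PP A t a a := by
  have key := le_sub_of_hasDeriv (f := fun u => act (PP A u) τ a)
    (f' := fun u => act (PP A u) (act A τ) a) (C := M * (1 - ω) - L * ω) ht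
    (fun x _ => act_hasDerivAt A τ a x) (by
      intro u hu
      have hp1 := hω u hu
      have hp2 : PP A u a y ≤ ω := by
        have h3 := hA.row_le hu.1 a
        have h4 : PP A u a a + PP A u a y ≤ ∑ j, PP A u a j := by
          rw [← Finset.add_sum_erase _ _ (Finset.mem_univ a)]
          have := Finset.single_le_sum (f := fun j => PP A u a j) (s := Finset.univ.erase a)
            (fun j _ => hA.nonneg hu.1 a j) (Finset.mem_erase.2 ⟨hay.symm, Finset.mem_univ y⟩)
          linarith
        linarith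
      have h5 : PP A u a a * act A τ a + PP A u a y * act A τ y
          ≤ act (PP A u) (act A τ) a := by
        have hg : ∀ g : ι → ℝ, (∀ x, x ≠ y → x ≠ a → 0 ≤ g x) →
            PP A u a a * g a + PP A u a y * g y ≤ act (PP A u) g a := by
          intro g hg
          unfold act
          rw [← Finset.add_sum_erase _ _ (Finset.mem_univ a),
            ← Finset.add_sum_erase _ _ (Finset.mem_erase.2 ⟨hay.symm, Finset.mem_univ y⟩)]
          have : 0 ≤ ∑ x ∈ (Finset.univ.erase a).erase y, PP A u a x * g x := by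
            refine Finset.sum_nonneg fun x hx => mul_nonneg (hA.nonneg hu.1 _ _) ?_
            have hx1 := Finset.ne_of_mem_erase hx
            have hx2 := Finset.ne_of_mem_erase (Finset.mem_of_mem_erase hx)
            exact hg x hx1 hx2
          linarith
        exact hg _ hsub
      have h6 : M * (1 - ω) ≤ PP A u a a * act A τ a := by
        have hpaa := hA.nonneg hu.1 a a
        nlinarith
      have h7 : - (L * ω) ≤ PP A u a y * act A τ y := by
        have hpay := hA.nonneg hu.1 a y
        nlinarith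
      linarith)
  simp only [act_zero_time, ha, sub_zero] at key
  have h8 : act (PP A t) τ a ≤ 1 - PP A t a a := by
    have h3 := hA.row_le ht a
    have : act (PP A t) τ a ≤ ∑ j ∈ Finset.univ.erase a, PP A t a j := by
      unfold act
      rw [← Finset.add_sum_erase _ _ (Finset.mem_univ a), ha, mul_zero, zero_add]
      refine Finset.sum_le_sum fun j _ => ?_
      have := mul_le_mul_of_nonneg_left (h1 j) (hA.nonneg ht a j)
      linarith
    rw [← Finset.add_sum_erase _ _ (Finset.mem_univ a)] at h3
    linarith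
  linarith

/-- stable states, lower bound -/
lemma IsGen.stable_low (hA : IsGen A) (j : ι) {t : ℝ} (ht : 0 ≤ t) :
    1 + A j j * t ≤ PP A t j j := by
  have hneg : A j j ≤ 0 := by
    have := hA.row j
    rw [← Finset.add_sum_erase _ _ (Finset.mem_univ j)] at this
    have h2 : 0 ≤ ∑ k ∈ Finset.univ.erase j, A j k :=
      Finset.sum_nonneg fun k hk => hA.off j k (Finset.ne_of_mem_erase hk).symm
    linarith
  have key := le_sub_of_hasDeriv (f := fun u => PP A u j j)
    (f' := fun u => (A * PP A u) j j) (C := A j j) ht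
    (fun x _ => entry_hasDerivAt' A x j j) (by
      intro u hu
      rw [Matrix.mul_apply, ← Finset.add_sum_erase _ _ (Finset.mem_univ j)]
      have h1 : 0 ≤ ∑ k ∈ Finset.univ.erase j, A j k * PP A u k j :=
        Finset.sum_nonneg fun k hk => mul_nonneg (hA.off j k (Finset.ne_of_mem_erase hk).symm)
          (hA.nonneg hu.1 _ _)
      have h2 := hA.le_one hu.1 j j
      nlinarith)
  simp only [PP_zero, Matrix.one_apply_eq, sub_zero] at key
  linarith

/-- stable states, upper bound -/
lemma IsGen.stable_upp (hA : IsGen A) (j : ι) {t η : ℝ} (ht : 0 ≤ t)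
    (hη : ∀ u ∈ Icc 0 t, ∑ k ∈ Finset.univ.erase j, A j k * PP A u k j ≤ η) :
    PP A t j j ≤ 1 + (A j j + (A j j) ^ 2 * t + η) * t := by
  have hneg : A j j ≤ 0 := by
    have := hA.row j
    rw [← Finset.add_sum_erase _ _ (Finset.mem_univ j)] at this
    have h2 : 0 ≤ ∑ k ∈ Finset.univ.erase j, A j k :=
      Finset.sum_nonneg fun k hk => hA.off j k (Finset.ne_of_mem_erase hk).symm
    linarith
  have key := sub_le_of_hasDeriv (f := fun u => PP A u j j)
    (f' := fun u => (A * PP A u) j j) (C := A j j + (A j j) ^ 2 * t + η) ht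
    (fun x _ => entry_hasDerivAt' A x j j) (by
      intro u hu
      rw [Matrix.mul_apply, ← Finset.add_sum_erase _ _ (Finset.mem_univ j)]
      have h1 := hη u hu
      have h2 := hA.stable_low j hu.1
      have h3 : A j j * PP A u j j ≤ A j j * (1 + A j j * u) :=
        mul_le_mul_of_nonpos_left h2 hneg
      have h4 : (A j j) ^ 2 * u ≤ (A j j) ^ 2 * t := mul_le_mul_of_nonneg_left hu.2 (sq_nonneg _)
      nlinarith)
  simp only [PP_zero, Matrix.one_apply_eq, sub_zero] at key
  linarith

end Fin
end Run7.h251
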