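import Pool.Agent.Run7.h251.NecNat

set_option linter.unusedVariables false
set_option linter.unusedSectionVars false

open Filter Topology Set
open scoped ENNReal NNReal

namespace Run7.h251

variable {Q : ℕ → ℕ → EReal}

open Classical in
/-- summability of the reduced rates against the distance -/
lemma W_min (hQ : Admissible Q) {a : ℕ} {w : ℕ → ℝ≥0∞}
    (hw : ∀ j, Stable Q j → 1 + ∑' k, rate Q j k * w k ≤ (1 + exitRate Q j) * w j) {j : ℕ}
    (hj : Stable Q j) : stay Q j + ∑' b, (if Inst Q b then w b else 0) * hitp Q j b ≤ w j := by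
  have h1 := hQ.minSol_tsum (fun b i => rate Q i b) (fun b => if Inst Q b then w b else 0) hj
  have h2 : ∑' b, (if Inst Q b then w b else 0) * hitp Q j b
      = minSol Q (fun i => ∑' b, (if Inst Q b then w b else 0) * rate Q i b) j := h1.symm
  rw [h2]
  unfold stay
  rw [← hQ.minSol_add _ _ hj]
  refine minSol_le (y := w) (fun i hi => ?_) j
  refine le_trans (le_of_eq ?_) (hw i hi)
  rw [add_assoc]
  congr 1
  rw [← ENNReal.tsum_add]
  refine tsum_congr fun k => ?_
  by_cases hk : Stable Q k
  · rw [if_pos hk, if_neg (fun h => inst_iff.1 h hk)]; simp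
  · rw [if_neg hk, if_pos (inst_iff.2 hk)]; simp [mul_comm]

open Classical in
lemma W_red (hQ : Admissible Q) {a : ℕ} {w : ℕ → ℝ≥0∞}
    (hw : ∀ j, Stable Q j → 1 + ∑' k, rate Q j k * w k ≤ (1 + exitRate Q j) * w j) :
    ∑' b, (if Inst Q b then redRate Q a b * w b else 0) ≤ ∑' y, rate Q a y * w y := by
  have h1 : ∀ b, (if Inst Q b then redRate Q a b * w b else 0)
      = (if Inst Q b then rate Q a b * w b else 0)
        + ∑' j, (if Stable Q j then rate Q a j else 0) *
          ((if Inst Q b then w b else 0) * hitp Q j b) := by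
    intro b
    by_cases hb : Inst Q b
    · simp only [if_pos hb]
      unfold redRate
      rw [add_mul]
      congr 1
      rw [← ENNReal.tsum_mul_right]
      refine tsum_congr fun j => ?_
      split_ifs
      · ring
      · simp
    · simp [if_neg hb]
  simp only [h1]
  rw [ENNReal.tsum_add, ENNReal.tsum_comm]
  simp only [ENNReal.tsum_mul_left]
  rw [← ENNReal.tsum_add]
  refine ENNReal.tsum_le_tsum fun y => ?_
  by_cases hy : Stable Q y
  · rw [if_neg (fun h => inst_iff.1 h hy), if_pos hy, zero_add]
    gcongr
    refine le_trans le_add_self (W_min hQ (a := a) hw hy)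
  · rw [if_pos (inst_iff.2 hy), if_neg hy]; simp

/-- **necessity** of the conditions (A) and (N) -/
theorem necessity (hQ : Admissible Q) (h : IsQMatrix Q) : RowCond Q ∧ CondA Q ∧ CondN Q := by
  classical
  obtain ⟨hR, W, hW1, hW0, hWpos, hWsep, hWtri, hWflux, hWsup, hWnear⟩ := h.exists_w hQ
  have hws : ∀ a, Inst Q a → ∀ j, Stable Q j →
      1 + ∑' k, rate Q j k * W a k ≤ (1 + exitRate Q j) * W a j := fun a ha j hj =>
    hWsup a j hj (fun hc => inst_iff.1 ha (hc ▸ hj))
  have hred : ∀ a, Inst Q a → ∑' b, (if Inst Q b then redRate Q a b * W a b else 0) ≠ ⊤ :=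
    fun a ha => ne_top_of_le_ne_top (hWflux a) (W_red hQ (a := a) (hws a ha))
  refine ⟨hR, fun a ha => ?_, fun a b ha hb hab => ⟨?_, ?_⟩⟩
  · refine ne_top_of_le_ne_top (hWflux a) (ENNReal.tsum_le_tsum fun j => ?_)
    split_ifs with hj
    · gcongr
      exact le_trans le_self_add (W_min hQ (a := a) (hws a ha) hj)
    · exact zero_le
  · intro hc
    have h1 := ENNReal.le_tsum (f := fun b => if Inst Q b then redRate Q a b * W a b else 0) b
    rw [if_pos hb, hc, ENNReal.top_mul (hWpos a b hab.symm)] at h1
    exact hred a ha (top_le_iff.1 h1)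
  · obtain ⟨c0, hc0, hc0'⟩ := hWsep a b hab.symm
    have h1 : c0 * ∑' c, (if Inst Q c ∧ c ≠ a ∧ c ≠ b then
        min (redRate Q a c) (redRate Q b c) else 0)
        ≤ ∑' c, (if Inst Q c then redRate Q a c * W a c else 0)
          + ∑' c, (if Inst Q c then redRate Q b c * W b c else 0) := by
      rw [← ENNReal.tsum_mul_left, ← ENNReal.tsum_add]
      refine ENNReal.tsum_le_tsum fun c => ?_
      by_cases hc : Inst Q c
      · rw [if_pos hc, if_pos hc]
        split_ifs
        · calc c0 * min (redRate Q a c) (redRate Q b c)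
              ≤ (W a c + W b c) * min (redRate Q a c) (redRate Q b c) := by
                gcongr; exact hc0' c
            _ = min (redRate Q a c) (redRate Q b c) * W a c
                + min (redRate Q a c) (redRate Q b c) * W b c := by ring
            _ ≤ _ := by
                gcongr
                · exact min_le_left _ _
                · exact min_le_right _ _
        · simp
      · rw [if_neg (fun h => hc h.1)]; simp
    have h2 := ne_top_of_le_ne_top (ENNReal.add_ne_top.2 ⟨hred a ha, hred b hb⟩) h1
    intro hc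
    rw [hc, ENNReal.mul_top hc0] at h2
    exact h2 rfl

/-- **sufficiency** -/
theorem sufficiency (hQ : Admissible Q) (hR : RowCond Q) (hA : CondA Q) (hN : CondN Q)
    (hS : CondS Q) (hE : CondE Q) : IsQMatrix Q := by
  classical
  obtain ⟨K, hK, hKG, hKs⟩ := hS
  refine exists_on_nat hQ hR (hitp Q) (fun j hj => ?_) (fun j b hj hb => ?_)
    (fun a b ha hb hab => ?_) (fun a ha => ?_) (fun a b ha hb hab => ?_) K hK hKG (fun a ha => ?_)
  · exact le_trans le_add_self (RowCond.mass_le hQ hR hj)
  · rw [RR_hitp j hb]
    unfold redRate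
    have h1 := hQ.minSol_sol (fun i => rate Q i b) hj
    exact le_of_eq h1
  · rw [RR_hitp a hb]; exact (hN a b ha hb hab).1
  · refine ne_top_of_le_ne_top (ENNReal.add_ne_top.2 ⟨hA a ha, hE a ha⟩) ?_
    rw [← ENNReal.tsum_add]
    refine ENNReal.tsum_le_tsum fun y => ?_
    by_cases hy : Stable Q y
    · rw [if_pos hy, if_pos hy, ← mul_add]
      gcongr
      have h1 : ∑' b, (if Inst Q b then AA Q (hitp Q) y b else 0)
          = ∑' b, (if Inst Q b then hitp Q y b else 0) := by
        refine tsum_congr fun b => ?_
        unfold AA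
        rw [if_pos hy]
      rw [h1]
      unfold esc
      rw [tsub_le_iff_right, add_assoc, add_comm (1 - _), ← add_assoc]
      exact le_add_tsub
    · rw [if_neg hy, if_neg hy]
      have h1 : ∑' b, (if Inst Q b then AA Q (hitp Q) y b else 0) = 1 := by
        have h2 : ∀ b, (if Inst Q b then AA Q (hitp Q) y b else 0)
            = if b = y then 1 else 0 := by
          intro b
          unfold AA
          rw [if_neg hy]
          by_cases hby : b = y
          · rw [hby, if_pos (inst_iff.2 hy), if_pos rfl]
          · rw [if_neg hby]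
            split_ifs with h3 h4
            · exact absurd h4.symm hby
            · rfl
            · rfl
        simp only [h2]
        rw [tsum_ite_eq]
      rw [h1]; simp
  · refine ne_top_of_le_ne_top (hN a b ha hb hab).2 (le_of_eq (tsum_congr fun c => ?_))
    by_cases hc : Inst Q c
    · rw [RR_hitp a hc, RR_hitp b hc]
    · rw [if_neg (fun h => hc h.1), if_neg (fun h => hc h.1)]
  · refine ne_top_of_le_ne_top (hKs a ha) (le_of_eq (tsum_congr fun k => ?_))
    by_cases hk : k ∈ K
    · rw [RR_hitp a (hKG k hk)]
    · rw [if_neg (fun h => hk h.1), if_neg (fun h => hk h.1)]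

end Run7.h251
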