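import Pool.Agent.Run7.h251.Main1

set_option linter.unusedVariables false
set_option linter.unusedSectionVars false

open Filter Topology Set
open scoped ENNReal NNReal

namespace Run7.h251

variable {Q : ℕ → ℕ → EReal}

open Classical in
/-- **necessity of (S)** when every instantaneous state has infinitely many instantaneous states
nearby -/
theorem condS_of_near (hQ : Admissible Q) {W : ℕ → ℕ → ℝ≥0∞} (hW1 : ∀ a x, W a x ≤ 1)
    (hWsep : ∀ a b, b ≠ a → ∃ c, c ≠ 0 ∧ ∀ x, c ≤ W a x + W b x)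
    (hWtri : ∀ a b x, W b x ≤ W a x + W b a)
    (hred : ∀ a, Inst Q a → ∑' b, (if Inst Q b then redRate Q a b * W a b else 0) ≠ ⊤)
    (hWpos : ∀ a b, b ≠ a → W a b ≠ 0)
    (hnear : ∀ b, Inst Q b → ∀ θ, θ ≠ 0 → {y | (Inst Q y ∧ y ≠ b) ∧ W b y < θ}.Infinite)
    (hG : ∃ b, Inst Q b) : CondS Q := by
  obtain ⟨b0, hb0⟩ := hG
  -- finiteness of the reduced rates
  have hfin : ∀ a b, Inst Q a → Inst Q b → b ≠ a → redRate Q a b ≠ ⊤ := by
    intro a b ha hb hab hc
    have h1 := ENNReal.le_tsum (f := fun b => if Inst Q b then redRate Q a b * W a b else 0) b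
    rw [if_pos hb, hc, ENNReal.top_mul (hWpos a b hab)] at h1
    exact hred a ha (top_le_iff.1 h1)
  have key : ∀ n N : ℕ, ∃ k, N < k ∧ (Inst Q k ∧ k ≠ b0) ∧ W b0 k < 2⁻¹ ^ n ∧
      redRate Q b0 k < 2⁻¹ ^ n := by
    intro n N
    have hpow : ∀ n : ℕ, (2⁻¹ : ℝ≥0∞) ^ n ≠ 0 := fun n => by simp
    obtain ⟨k', ⟨hk'1, hk'2⟩, hk'3⟩ := (hnear b0 hb0 (2⁻¹ ^ (n + 1)) (hpow _)).nonempty
    obtain ⟨c, hc0, hc⟩ := hWsep b0 k' hk'2
    have hc2 : c / 2 ≠ 0 := by simpa using hc0
    have hT := hnear k' hk'1 (min (2⁻¹ ^ (n + 1)) (c / 2))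
      (ne_of_gt (lt_min (pos_iff_ne_zero.2 (hpow _)) (pos_iff_ne_zero.2 hc2)))
    set T := {y | (Inst Q y ∧ y ≠ k') ∧ W k' y < min (2⁻¹ ^ (n + 1)) (c / 2)} with hTdef
    have hlow : ∀ y ∈ T, c / 2 ≤ W b0 y := by
      intro y hy
      by_contra hcon
      push Not at hcon
      have h1 := hc y
      have h2 : W b0 y + W k' y < c / 2 + c / 2 :=
        ENNReal.add_lt_add hcon (hy.2.trans_le (min_le_right _ _))
      rw [ENNReal.add_halves] at h2
      exact absurd h1 (not_le.2 h2)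
    have hsum : ∑' y, (if y ∈ T then redRate Q b0 y else 0) ≠ ⊤ := by
      have h1 : c / 2 * ∑' y, (if y ∈ T then redRate Q b0 y else 0)
          ≤ ∑' b, (if Inst Q b then redRate Q b0 b * W b0 b else 0) := by
        rw [← ENNReal.tsum_mul_left]
        refine ENNReal.tsum_le_tsum fun y => ?_
        by_cases hy : y ∈ T
        · rw [if_pos hy, if_pos hy.1.1, mul_comm]
          gcongr
          exact hlow y hy
        · rw [if_neg hy, mul_zero]; exact zero_le
      have h2 := ne_top_of_le_ne_top (hred b0 hb0) h1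
      intro hcon
      rw [hcon, ENNReal.mul_top hc2] at h2
      exact h2 rfl
    have hfinset : {y | 2⁻¹ ^ n ≤ (if y ∈ T then redRate Q b0 y else 0)}.Finite :=
      ENNReal.finite_const_le_of_tsum_ne_top hsum (hpow n)
    have hinf := ((hT.sdiff hfinset).sdiff (Set.finite_singleton b0)).sdiff (Set.finite_Iic N)
    obtain ⟨k, ⟨⟨hkT, hk1⟩, hk2⟩, hk3⟩ := hinf.nonempty
    refine ⟨k, not_le.1 hk3, ⟨hkT.1.1, hk2⟩, ?_, ?_⟩
    · refine (hWtri k' b0 k).trans_lt ?_
      have h3 : (2⁻¹ : ℝ≥0∞) ^ n = 2⁻¹ ^ (n + 1) + 2⁻¹ ^ (n + 1) := by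
        rw [pow_succ, ← mul_add, ENNReal.inv_two_add_inv_two, mul_one]
      rw [h3]
      exact ENNReal.add_lt_add (hkT.2.trans_le (min_le_left _ _)) hk'3
    · have h4 : ¬ (2⁻¹ ^ n ≤ (if k ∈ T then redRate Q b0 k else 0)) := hk1
      rw [if_pos hkT] at h4
      exact not_le.1 h4
  choose f hf1 hf2 hf3 hf4 using key
  obtain ⟨k, hk0, hks⟩ : ∃ k : ℕ → ℕ, k 0 = f 0 0 ∧ ∀ n, k (n + 1) = f (n + 1) (k n) :=
    ⟨fun n => Nat.rec (motive := fun _ => ℕ) (f 0 0) (fun n x => f (n + 1) x) n, rfl,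
      fun n => rfl⟩
  have hmono : StrictMono k := strictMono_nat_of_lt_succ fun n => by
    rw [hks]; exact hf1 _ _
  have hk2 : ∀ n, Inst Q (k n) ∧ k n ≠ b0 := by
    intro n
    cases n with
    | zero => rw [hk0]; exact hf2 _ _
    | succ n => rw [hks]; exact hf2 _ _
  have hk3 : ∀ n, W b0 (k n) < 2⁻¹ ^ n := by
    intro n
    cases n with
    | zero => rw [hk0]; exact hf3 _ _
    | succ n => rw [hks]; exact hf3 _ _
  have hk4 : ∀ n, redRate Q b0 (k n) < 2⁻¹ ^ n := by
    intro n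
    cases n with
    | zero => rw [hk0]; exact hf4 _ _
    | succ n => rw [hks]; exact hf4 _ _
  refine ⟨Set.range k, Set.infinite_range_of_injective hmono.injective, ?_, fun a ha => ?_⟩
  · rintro _ ⟨n, rfl⟩; exact (hk2 n).1
  have hrange : ∑' y, (if y ∈ Set.range k ∧ y ≠ a then redRate Q a y else 0)
      = ∑' n : ℕ, (if k n ≠ a then redRate Q a (k n) else 0) := by
    have h1 : ∑' y : Set.range k, (if y.1 ≠ a then redRate Q a y.1 else 0)
        = ∑' n : ℕ, (if k n ≠ a then redRate Q a (k n) else 0) :=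
      tsum_range (fun y => if y ≠ a then redRate Q a y else 0) hmono.injective
    rw [← h1]
    have h2 := tsum_subtype (Set.range k) (fun y => if y ≠ a then redRate Q a y else 0)
    refine Eq.trans (tsum_congr fun y => ?_) h2.symm
    by_cases hy : y ∈ Set.range k
    · rw [Set.indicator_of_mem hy]
      by_cases hya : y = a
      · rw [if_neg (not_not.2 hya), if_neg (fun h => h.2 hya)]
      · rw [if_pos hya, if_pos ⟨hy, hya⟩]
    · rw [Set.indicator_of_notMem hy, if_neg (fun h => hy h.1)]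
  rw [hrange]
  by_cases hab : a = b0
  · refine ne_top_of_le_ne_top ?_ (ENNReal.tsum_le_tsum (g := fun n => 2⁻¹ ^ n) fun n => ?_)
    · rw [ENNReal.tsum_geometric]; simp
    · by_cases hka : k n ≠ a
      · rw [if_pos hka, hab]; exact (hk4 n).le
      · rw [if_neg hka]; exact zero_le
  · obtain ⟨c, hc0, hc⟩ := hWsep a b0 (Ne.symm hab)
    have hc2 : c / 2 ≠ 0 := by simpa using hc0
    obtain ⟨n0, hn0⟩ : ∃ n0 : ℕ, (2⁻¹ : ℝ≥0∞) ^ n0 < c / 2 :=
      ENNReal.exists_inv_two_pow_lt hc2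
    have hlow : ∀ n, n0 ≤ n → c / 2 ≤ W a (k n) := by
      intro n hn
      by_contra hcon
      push Not at hcon
      have h1 := hc (k n)
      have h2 : W b0 (k n) < c / 2 := by
        refine (hk3 n).trans (lt_of_le_of_lt ?_ hn0)
        exact pow_le_pow_of_le_one zero_le (by simp) hn
      have h3 : W a (k n) + W b0 (k n) < c / 2 + c / 2 := ENNReal.add_lt_add hcon h2
      rw [ENNReal.add_halves] at h3
      exact absurd h1 (not_le.2 h3)
    have hct : c / 2 ≠ ⊤ := by
      have h1 := (hc 0).trans (add_le_add (hW1 a 0) (hW1 b0 0))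
      exact ne_top_of_le_ne_top (by simp) (ENNReal.half_le_self.trans h1)
    have hsplit : ∀ n, (if k n ≠ a then redRate Q a (k n) else 0)
        ≤ (if n < n0 then (if k n ≠ a then redRate Q a (k n) else 0) else 0)
          + (c / 2)⁻¹ * (redRate Q a (k n) * W a (k n)) := by
      intro n
      by_cases hn : n < n0
      · rw [if_pos hn]; exact le_self_add
      · rw [if_neg hn, zero_add]
        by_cases hka : k n ≠ a
        · rw [if_pos hka]
          have h1 := hlow n (not_lt.1 hn)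
          calc redRate Q a (k n) = ((c / 2)⁻¹ * (c / 2)) * redRate Q a (k n) := by
                rw [ENNReal.inv_mul_cancel hc2 hct, one_mul]
            _ ≤ ((c / 2)⁻¹ * W a (k n)) * redRate Q a (k n) := by gcongr
            _ = (c / 2)⁻¹ * (redRate Q a (k n) * W a (k n)) := by ring
        · rw [if_neg hka]; exact zero_le
    refine ne_top_of_le_ne_top ?_ (ENNReal.tsum_le_tsum hsplit)
    rw [ENNReal.tsum_add]
    refine ENNReal.add_ne_top.2 ⟨?_, ?_⟩
    · rw [tsum_eq_sum (s := Finset.range n0)]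
      · refine ENNReal.sum_ne_top.2 fun n hn => ?_
        rw [if_pos (Finset.mem_range.1 hn)]
        by_cases hka : k n ≠ a
        · rw [if_pos hka]; exact hfin a _ ha (hk2 n).1 hka
        · rw [if_neg hka]; simp
      · intro n hn
        rw [if_neg (fun h => hn (Finset.mem_range.2 h))]
    · rw [ENNReal.tsum_mul_left]
      refine ENNReal.mul_ne_top (ENNReal.inv_ne_top.2 hc2) ?_
      refine ne_top_of_le_ne_top (hred a ha) ?_
      have h1 := ENNReal.tsum_comp_le_tsum_of_injective hmono.injective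
        (fun b => if Inst Q b then redRate Q a b * W a b else 0)
      refine le_trans (le_of_eq (tsum_congr fun n => ?_)) h1
      rw [if_pos (hk2 n).1]

open Classical in
/-- **necessity of (S)** under (H) -/
theorem necessityS (hQ : Admissible Q) (h : IsQMatrix Q) (hH : CondH Q) (hG : ∃ b, Inst Q b) :
    CondS Q := by
  obtain ⟨hR, W, hW1, hW0, hWpos, hWsep, hWtri, hWflux, hWsup, hWnear⟩ := h.exists_w hQ
  have hws : ∀ a, Inst Q a → ∀ j, Stable Q j →
      1 + ∑' k, rate Q j k * W a k ≤ (1 + exitRate Q j) * W a j := fun a ha j hj =>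
    hWsup a j hj (fun hc => inst_iff.1 ha (hc ▸ hj))
  have hred : ∀ a, Inst Q a → ∑' b, (if Inst Q b then redRate Q a b * W a b else 0) ≠ ⊤ :=
    fun a ha => ne_top_of_le_ne_top (hWflux a) (W_red hQ (a := a) (hws a ha))
  refine condS_of_near hQ hW1 hWsep hWtri hred hWpos (fun b hb θ hθ => ?_) hG
  intro hfin
  obtain ⟨θb, hθb0, hθb⟩ := hH b hb
  -- lower bound of the distance on the instantaneous states
  obtain ⟨m, hm0, hm1, hm⟩ : ∃ m : ℝ≥0∞, m ≠ 0 ∧ m ≤ 1 ∧ ∀ c, Inst Q c → c ≠ b → m ≤ W b c := by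
    set N := hfin.toFinset with hN
    refine ⟨min (min θ 1) (N.inf (fun c => W b c)), ?_, ?_, fun c hc hcb => ?_⟩
    · refine ne_of_gt (lt_min (lt_min (pos_iff_ne_zero.2 hθ) one_pos) ?_)
      rw [Finset.lt_inf_iff (by simp)]
      intro c hc
      rw [hN, Set.Finite.mem_toFinset] at hc
      exact pos_iff_ne_zero.2 (hWpos b c hc.1.2)
    · exact (min_le_left _ _).trans (min_le_right _ _)
    · by_cases hcW : W b c < θ
      · refine (min_le_right _ _).trans (Finset.inf_le ?_)
        rw [hN, Set.Finite.mem_toFinset]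
        exact ⟨⟨hc, hcb⟩, hcW⟩
      · exact ((min_le_left _ _).trans (min_le_left _ _)).trans (not_lt.1 hcW)
  have hmθ : m * min θb 1 ≠ 0 :=
    mul_ne_zero hm0 (ne_of_gt (lt_min (pos_iff_ne_zero.2 hθb0) one_pos))
  obtain ⟨y, hyb, hyW⟩ := (hWnear b hb (m * min θb 1) hmθ).nonempty
  have hlow : m * min θb 1 ≤ W b y := by
    by_cases hy : Stable Q y
    · refine le_trans ?_ (W_min hQ (a := b) (hws b hb) hy)
      calc m * min θb 1 ≤ m * θb := by gcongr; exact min_le_left _ _
        _ ≤ m * (stay Q y + ∑' c, (if Inst Q c ∧ c ≠ b then hitp Q y c else 0)) := by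
            gcongr; exact hθb y hy
        _ = m * stay Q y + ∑' c, m * (if Inst Q c ∧ c ≠ b then hitp Q y c else 0) := by
            rw [mul_add, ENNReal.tsum_mul_left]
        _ ≤ 1 * stay Q y + ∑' c, (if Inst Q c then W b c else 0) * hitp Q y c := by
            refine add_le_add (mul_le_mul' hm1 le_rfl) (ENNReal.tsum_le_tsum fun c => ?_)
            by_cases hc : Inst Q c ∧ c ≠ b
            · rw [if_pos hc, if_pos hc.1]
              exact mul_le_mul' (hm c hc.1 hc.2) le_rfl
            · rw [if_neg hc, mul_zero]; exact zero_le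
        _ = _ := by rw [one_mul]
    · calc m * min θb 1 ≤ m * 1 := by gcongr; exact min_le_right _ _
        _ = m := mul_one m
        _ ≤ _ := hm y (inst_iff.2 hy) hyb
  exact absurd hyW (not_lt.2 hlow)

end Run7.h251
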