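import Pool.Agent.Run7.h251.Main2

set_option linter.unusedVariables false
set_option linter.unusedSectionVars false

open Filter Topology Set
open scoped ENNReal NNReal

namespace Run7.h251

variable {Q : ℕ → ℕ → EReal}

lemma rate_le_red (a b : ℕ) : rate Q a b ≤ redRate Q a b := le_self_add

open Classical in
/-- the part of the reduced rates going through the stable states -/
noncomputable def thr (Q : ℕ → ℕ → EReal) (a b : ℕ) : ℝ≥0∞ :=
  ∑' j, if Stable Q j then rate Q a j * hitp Q j b else 0

open Classical in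
lemma sum_thr (hQ : Admissible Q) (hR : RowCond Q) (a : ℕ) :
    ∑' b, (if Inst Q b then thr Q a b else 0)
      ≤ ∑' j, (if Stable Q j then rate Q a j else 0) := by
  have h1 : ∀ b, (if Inst Q b then thr Q a b else 0)
      = ∑' j, (if Stable Q j then rate Q a j else 0) * (if Inst Q b then hitp Q j b else 0) := by
    intro b
    by_cases hb : Inst Q b
    · simp only [if_pos hb]
      unfold thr
      refine tsum_congr fun j => ?_
      split_ifs <;> simp
    · simp [if_neg hb]
  simp only [h1]
  rw [ENNReal.tsum_comm]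
  refine ENNReal.tsum_le_tsum fun j => ?_
  rw [ENNReal.tsum_mul_left]
  by_cases hj : Stable Q j
  · calc _ ≤ (if Stable Q j then rate Q a j else 0) * 1 := by
          gcongr
          exact le_trans le_add_self (RowCond.mass_le hQ hR hj)
      _ = _ := mul_one _
  · rw [if_neg hj, zero_mul]

lemma min_add_le_aux (x y u v : ℝ≥0∞) : min (x + u) (y + v) ≤ min x y + (u + v) := by
  rcases le_total x y with h | h
  · rw [min_eq_left h]
    exact (min_le_left _ _).trans (by gcongr; exact le_self_add)
  · rw [min_eq_right h]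
    exact (min_le_right _ _).trans (by gcongr; exact le_add_self)

open Classical in
/-- **the uniformly slow case** -/
theorem slow_case (hQ : Admissible Q) (hG : ∃ b, Inst Q b) (hs : SlowStable Q) :
    IsQMatrix Q ↔ RowCond Q ∧ CondF Q ∧ WilliamsN Q ∧ WilliamsS Q := by
  obtain ⟨c, hc0, hc⟩ := hs
  constructor
  · intro h
    obtain ⟨hR, hA, hN⟩ := necessity hQ h
    have hH : CondH Q := fun b hb => ⟨c, hc0, fun j hj => (hc j hj).trans le_self_add⟩
    obtain ⟨K, hK, hKG, hKs⟩ := necessityS hQ h hH hG
    refine ⟨hR, fun a ha => ?_, fun a b ha hb hab => ?_, K, hK, hKG, fun a ha => ?_⟩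
    · have h1 : c * ∑' j, (if Stable Q j then rate Q a j else 0)
          ≤ ∑' j, (if Stable Q j then rate Q a j * stay Q j else 0) := by
        rw [← ENNReal.tsum_mul_left]
        refine ENNReal.tsum_le_tsum fun j => ?_
        by_cases hj : Stable Q j
        · rw [if_pos hj, if_pos hj, mul_comm]
          gcongr
          exact hc j hj
        · rw [if_neg hj, mul_zero]; exact zero_le
      have h2 := ne_top_of_le_ne_top (hA a ha) h1
      intro hcon
      rw [hcon, ENNReal.mul_top hc0] at h2
      exact h2 rfl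
    · refine ne_top_of_le_ne_top (hN a b ha hb hab).2 (ENNReal.tsum_le_tsum fun d => ?_)
      split_ifs
      · exact min_le_min (rate_le_red a d) (rate_le_red b d)
      · exact le_rfl
    · refine ne_top_of_le_ne_top (hKs a ha) (ENNReal.tsum_le_tsum fun d => ?_)
      split_ifs
      · exact rate_le_red a d
      · exact le_rfl
  · rintro ⟨hR, hF, hN, K, hK, hKG, hKs⟩
    have hthr : ∀ a, Inst Q a → ∑' b, (if Inst Q b then thr Q a b else 0) ≠ ⊤ := fun a ha =>
      ne_top_of_le_ne_top (hF a ha) (sum_thr hQ hR a)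
    have hthr1 : ∀ a b, Inst Q a → Inst Q b → thr Q a b ≠ ⊤ := by
      intro a b ha hb
      refine ne_top_of_le_ne_top (hthr a ha) ?_
      have := ENNReal.le_tsum (f := fun b => if Inst Q b then thr Q a b else 0) b
      rwa [if_pos hb] at this
    refine sufficiency hQ hR (fun a ha => ?_) (fun a b ha hb hab => ⟨?_, ?_⟩)
      ⟨K, hK, hKG, fun a ha => ?_⟩ (fun a ha => ?_)
    · refine ne_top_of_le_ne_top (hF a ha) (ENNReal.tsum_le_tsum fun j => ?_)
      split_ifs with hj
      · have h1 : stay Q j ≤ 1 := le_trans le_self_add (RowCond.mass_le hQ hR hj)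
        calc rate Q a j * stay Q j ≤ rate Q a j * 1 := by gcongr
          _ = _ := mul_one _
      · exact le_rfl
    · exact ENNReal.add_ne_top.2 ⟨hQ.rate_ne_top a b, hthr1 a b ha hb⟩
    · refine ne_top_of_le_ne_top (ENNReal.add_ne_top.2 ⟨hN a b ha hb hab,
        ENNReal.add_ne_top.2 ⟨hthr a ha, hthr b hb⟩⟩) ?_
      rw [← ENNReal.tsum_add, ← ENNReal.tsum_add]
      refine ENNReal.tsum_le_tsum fun d => ?_
      by_cases hd : Inst Q d ∧ d ≠ a ∧ d ≠ b
      · rw [if_pos hd, if_pos hd, if_pos hd.1, if_pos hd.1]
        exact min_add_le_aux _ _ _ _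
      · rw [if_neg hd]; exact zero_le
    · refine ne_top_of_le_ne_top (ENNReal.add_ne_top.2 ⟨hKs a ha, hthr a ha⟩) ?_
      rw [← ENNReal.tsum_add]
      refine ENNReal.tsum_le_tsum fun d => ?_
      by_cases hd : d ∈ K ∧ d ≠ a
      · rw [if_pos hd, if_pos hd, if_pos (hKG d hd.1)]
        exact le_rfl
      · rw [if_neg hd]; exact zero_le
    · refine ne_top_of_le_ne_top (hF a ha) (ENNReal.tsum_le_tsum fun j => ?_)
      split_ifs with hj
      · have h1 : esc Q j ≤ 1 := tsub_le_self
        calc rate Q a j * esc Q j ≤ rate Q a j * 1 := by gcongr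
          _ = _ := mul_one _
      · exact le_rfl

end Run7.h251
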