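import Pool.Agent.Run7.h251.OnNat

set_option linter.unusedVariables false
set_option linter.unusedSectionVars false

open Filter Topology Set
open scoped ENNReal NNReal

namespace Run7.h251

open Classical in
lemma tsum_stable {Q : ℕ → ℕ → EReal} (f : ℕ → ℝ≥0∞) :
    ∑' k : {i // Stable Q i}, f k.1 = ∑' k, (if Stable Q k then f k else 0) := by
  have hb := tsum_subtype {a | Stable Q a} f
  refine Eq.trans hb (tsum_congr fun b => ?_)
  by_cases hb : Stable Q b
  · rw [if_pos hb, Set.indicator_of_mem (by exact hb)]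
  · rw [if_neg hb, Set.indicator_of_notMem (by exact hb)]

/-- rates between stable states -/
noncomputable def qS (Q : ℕ → ℕ → EReal) (j k : {i // Stable Q i}) : ℝ≥0 :=
  (rate Q j.1 k.1).toNNReal
/-- total rates -/
noncomputable def qdS (Q : ℕ → ℕ → EReal) (j : {i // Stable Q i}) : ℝ≥0 :=
  (exitRate Q j.1).toNNReal

variable {Q : ℕ → ℕ → EReal}

lemma coe_qdS (j : {i // Stable Q i}) : ((qdS Q j : ℝ≥0) : ℝ≥0∞) = exitRate Q j.1 :=
  ENNReal.coe_toNNReal (exitRate_ne_top j.2)

open Classical in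
lemma Admissible.minSol_eq (hQ : Admissible Q) (c : ℕ → ℝ≥0∞) (j : {i // Stable Q i}) :
    minSol Q c j.1 = ∑' k : {i // Stable Q i}, phi (qS Q) (qdS Q) j k * c k.1 := by
  apply le_antisymm
  · set y : ℕ → ℝ≥0∞ := fun n => if h : Stable Q n then
      ∑' k : {i // Stable Q i}, phi (qS Q) (qdS Q) ⟨n, h⟩ k * c k.1 else 0 with hy
    have hyj : ∀ k : {i // Stable Q i}, y k.1 = ∑' l : {i // Stable Q i},
        phi (qS Q) (qdS Q) k l * c l.1 := fun k => by
      simp only [hy]; rw [dif_pos k.2]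
    rw [← hyj j]
    unfold minSol
    refine iInf₂_le y ?_
    intro i hi
    have h1 := phi_eq (q := qS Q) (qd := qdS Q) (fun k => c k.1) ⟨i, hi⟩
    have h2 : ∑' k, (if Stable Q k then rate Q i k * y k else 0)
        = ∑' l : {i // Stable Q i}, (qS Q ⟨i, hi⟩ l : ℝ≥0∞) *
          ∑' k : {i // Stable Q i}, phi (qS Q) (qdS Q) l k * c k.1 := by
      rw [← tsum_stable (Q := Q) (fun k => rate Q i k * y k)]
      refine tsum_congr fun l => ?_
      rw [hyj l]
      congr 1
      exact (hQ.coe_rate i l.1).symm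
    rw [h2, ← coe_qdS ⟨i, hi⟩, hyj ⟨i, hi⟩, h1]
  · unfold minSol
    refine le_iInf₂ fun y hy => ?_
    refine phi_min (q := qS Q) (qd := qdS Q) (c := fun k => c k.1)
      (δ := fun k : {i // Stable Q i} => y k.1) (fun i => ?_) j
    have h1 := hy i.1 i.2
    rw [coe_qdS]
    refine le_trans (le_of_eq ?_) h1
    congr 1
    rw [← tsum_stable (Q := Q) (fun k => rate Q i.1 k * y k)]
    refine tsum_congr fun l => ?_
    congr 1
    exact hQ.coe_rate i.1 l.1

open Classical in
/-- the least solution is a solution -/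
lemma Admissible.minSol_sol (hQ : Admissible Q) (c : ℕ → ℝ≥0∞) {i : ℕ} (hi : Stable Q i) :
    (1 + exitRate Q i) * minSol Q c i
      = c i + ∑' k, (if Stable Q k then rate Q i k * minSol Q c k else 0) := by
  have h1 := phi_eq (q := qS Q) (qd := qdS Q) (fun k => c k.1) ⟨i, hi⟩
  rw [← tsum_stable (Q := Q) (fun k => rate Q i k * minSol Q c k)]
  have h2 := hQ.minSol_eq c ⟨i, hi⟩
  simp only at h2
  rw [h2, ← coe_qdS ⟨i, hi⟩, h1]
  congr 1
  refine tsum_congr fun l => ?_
  rw [hQ.minSol_eq c l]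
  congr 1
  exact hQ.coe_rate i l.1

open Classical in
lemma minSol_le {c : ℕ → ℝ≥0∞} {y : ℕ → ℝ≥0∞} (hy : ∀ i, Stable Q i →
    c i + ∑' k, (if Stable Q k then rate Q i k * y k else 0) ≤ (1 + exitRate Q i) * y i) (j : ℕ) :
    minSol Q c j ≤ y j := iInf₂_le y hy

lemma Admissible.minSol_add (hQ : Admissible Q) (c d : ℕ → ℝ≥0∞) {j : ℕ} (hj : Stable Q j) :
    minSol Q (fun i => c i + d i) j = minSol Q c j + minSol Q d j := by
  have h1 := hQ.minSol_eq (fun i => c i + d i) ⟨j, hj⟩
  have h2 := hQ.minSol_eq c ⟨j, hj⟩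
  have h3 := hQ.minSol_eq d ⟨j, hj⟩
  simp only at h1 h2 h3
  rw [h1, h2, h3, ← ENNReal.tsum_add]
  refine tsum_congr fun k => by rw [mul_add]

lemma Admissible.minSol_tsum {ι : Type} (hQ : Admissible Q) (c : ι → ℕ → ℝ≥0∞) (w : ι → ℝ≥0∞)
    {j : ℕ} (hj : Stable Q j) :
    minSol Q (fun i => ∑' b, w b * c b i) j = ∑' b, w b * minSol Q (c b) j := by
  have h1 := hQ.minSol_eq (fun i => ∑' b, w b * c b i) ⟨j, hj⟩
  have h2 := fun b => hQ.minSol_eq (c b) ⟨j, hj⟩
  simp only at h1 h2
  rw [h1]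
  simp only [h2]
  simp only [← ENNReal.tsum_mul_left]
  rw [ENNReal.tsum_comm]
  refine tsum_congr fun b => tsum_congr fun k => by ring

open Classical in
/-- total mass: stay + hit ≤ 1 -/
lemma RowCond.mass_le (hQ : Admissible Q) (hR : RowCond Q) {j : ℕ} (hj : Stable Q j) :
    stay Q j + ∑' b, (if Inst Q b then hitp Q j b else 0) ≤ 1 := by
  have h1 : ∑' b, (if Inst Q b then hitp Q j b else 0)
      = ∑' b, (if Inst Q b then (1 : ℝ≥0∞) else 0) * hitp Q j b :=
    tsum_congr fun b => by split_ifs <;> simp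
  have h2 := hQ.minSol_tsum (fun b i => rate Q i b) (fun b => if Inst Q b then (1 : ℝ≥0∞) else 0) hj
  have h3 : ∑' b, (if Inst Q b then (1 : ℝ≥0∞) else 0) * hitp Q j b
      = minSol Q (fun i => ∑' b, (if Inst Q b then (1 : ℝ≥0∞) else 0) * rate Q i b) j := h2.symm
  rw [h1, h3]
  unfold stay
  rw [← hQ.minSol_add _ _ hj]
  refine minSol_le (y := fun _ => 1) (fun i hi => ?_) j
  rw [mul_one, add_assoc]
  gcongr
  refine le_trans (le_of_eq ?_) (hR i)
  rw [← ENNReal.tsum_add]
  refine tsum_congr fun k => ?_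
  by_cases hk : Stable Q k
  · rw [if_pos hk, if_neg (fun h => inst_iff.1 h hk)]; simp
  · rw [if_neg hk, if_pos (inst_iff.2 hk)]; simp

open Classical in
/-- the extended reduced rates for `β = hitp` -/
lemma RR_hitp (a : ℕ) {b : ℕ} (hb : Inst Q b) :
    RR Q (hitp Q) a b = redRate Q a b := by
  unfold RR redRate AA
  have h1 : ∀ y, rate Q a y * (if Stable Q y then hitp Q y b else if y = b then 1 else 0)
      = (if y = b then rate Q a y else 0) + (if Stable Q y then rate Q a y * hitp Q y b else 0) := by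
    intro y
    by_cases hy : Stable Q y
    · have hyb : ¬ y = b := fun h => inst_iff.1 hb (h ▸ hy)
      rw [if_pos hy, if_pos hy, if_neg hyb, zero_add]
    · rw [if_neg hy, if_neg hy, add_zero]
      split_ifs <;> simp
  simp only [h1]
  rw [ENNReal.tsum_add, tsum_ite_eq]

end Run7.h251
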