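import Pool.Agent.Run7.h251.Lim

set_option linter.unusedVariables false
set_option linter.unusedSectionVars false

open Filter Topology Set
open scoped ENNReal NNReal

namespace Run7.h251

lemma tsum_mul_iSup_mono {S : Type} (c : S → ℝ≥0∞) {f : ℕ → S → ℝ≥0∞} (hf : ∀ y, Monotone (fun n => f n y)) :
    ∑' y, c y * (⨆ n, f n y) = ⨆ n, ∑' y, c y * f n y := by
  apply le_antisymm
  · rw [ENNReal.tsum_eq_iSup_sum]
    refine iSup_le fun s => ?_
    have h1 : ∑ y ∈ s, c y * (⨆ n, f n y) = ⨆ n, ∑ y ∈ s, c y * f n y := by
      simp only [ENNReal.mul_iSup]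
      exact ENNReal.finsetSum_iSup_of_monotone (fun y i j hij => by
        gcongr; exact hf y hij)
    rw [h1]
    exact iSup_mono fun n => ENNReal.sum_le_tsum s
  · refine iSup_le fun n => ENNReal.tsum_le_tsum fun y => ?_
    gcongr
    exact le_iSup (fun n => f n y) n

section Hit
variable {S : Type} [DecidableEq S] (r : ℝ≥0∞) (P : S → S → ℝ≥0∞) (a : S)

/-- iteration for the hitting functional -/
noncomputable def itr : ℕ → S → ℝ≥0∞
  | 0 => fun x => if x = a then 1 else 0
  | n + 1 => fun x => if x = a then 1 else r * ∑' y, P x y * itr n y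

/-- hitting functional `E_x r^(hitting time of a)` -/
noncomputable def hit (x : S) : ℝ≥0∞ := ⨆ n, itr r P a n x

/-- kernel powers -/
noncomputable def pw : ℕ → S → S → ℝ≥0∞
  | 0 => fun x y => if x = y then 1 else 0
  | n + 1 => fun x y => ∑' z, P x z * pw n z y

variable {r P a}

lemma itr_self (n : ℕ) : itr r P a n a = 1 := by
  cases n <;> simp [itr]

lemma itr_succ_ne (n : ℕ) {x : S} (hx : x ≠ a) :
    itr r P a (n + 1) x = r * ∑' y, P x y * itr r P a n y := by
  simp [itr, hx]

lemma itr_step (n : ℕ) : ∀ x, itr r P a n x ≤ itr r P a (n + 1) x := by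
  induction n with
  | zero =>
    intro x
    by_cases hx : x = a
    · rw [hx, itr_self, itr_self]
    · simp [itr, hx]
  | succ n ih =>
    intro x
    by_cases hx : x = a
    · rw [hx, itr_self, itr_self]
    · rw [itr_succ_ne n hx, itr_succ_ne (n + 1) hx]
      gcongr
      exact ih _

lemma itr_mono (x : S) : Monotone (fun n => itr r P a n x) :=
  monotone_nat_of_le_succ fun n => itr_step n x

lemma hit_self : hit r P a a = 1 := by
  simp [hit, itr_self]

lemma hit_eq {x : S} (hx : x ≠ a) : hit r P a x = r * ∑' y, P x y * hit r P a y := by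
  unfold hit
  rw [tsum_mul_iSup_mono (P x) (f := itr r P a) (fun y => itr_mono y), ENNReal.mul_iSup]
  apply le_antisymm
  · refine iSup_le fun n => ?_
    cases n with
    | zero => simp [itr, hx]
    | succ n =>
      rw [itr_succ_ne n hx]
      exact le_iSup (fun n => r * ∑' y, P x y * itr r P a n y) n
  · refine iSup_le fun n => ?_
    rw [← itr_succ_ne n hx]
    exact le_iSup (fun n => itr r P a n x) (n + 1)

/-- minimality -/
lemma hit_min {v : S → ℝ≥0∞} (h1 : 1 ≤ v a) (h2 : ∀ x, x ≠ a → r * ∑' y, P x y * v y ≤ v x) (x : S) :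
    hit r P a x ≤ v x := by
  have key : ∀ n x, itr r P a n x ≤ v x := by
    intro n
    induction n with
    | zero =>
      intro x
      by_cases hx : x = a
      · rw [hx, itr_self]; exact h1
      · simp [itr, hx]
    | succ n ih =>
      intro x
      by_cases hx : x = a
      · rw [hx, itr_self]; exact h1
      · rw [itr_succ_ne n hx]
        refine le_trans ?_ (h2 x hx)
        gcongr
        exact ih _
  exact iSup_le fun n => key n x

lemma hit_le_one (hr : r ≤ 1) (hP : ∀ x, ∑' y, P x y ≤ 1) (x : S) : hit r P a x ≤ 1 := by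
  refine hit_min (v := fun _ => 1) le_rfl (fun x _ => ?_) x
  simp only [mul_one]
  calc r * ∑' y, P x y ≤ 1 * 1 := by gcongr; exact hP x
    _ = 1 := by simp

lemma itr_le_hit (n : ℕ) (x : S) : itr r P a n x ≤ hit r P a x := le_iSup (fun n => itr r P a n x) n

/-- triangle inequality -/
lemma hit_triangle (hr : r ≤ 1) (hP : ∀ x, ∑' y, P x y ≤ 1) (b : S) (x : S) :
    hit r P a x * hit r P b a ≤ hit r P b x := by
  have h1 : ∀ n x, itr r P a n x * hit r P b a ≤ hit r P b x := by
    intro n
    induction n with
    | zero =>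
      intro x
      by_cases hx : x = a
      · rw [hx, itr_self, one_mul]
      · simp [itr, hx]
    | succ n ih =>
      intro x
      by_cases hx : x = a
      · rw [hx, itr_self, one_mul]
      · by_cases hxb : x = b
        · have h4 : itr r P a (n + 1) x ≤ 1 := (itr_le_hit _ _).trans (hit_le_one hr hP x)
          have h5 : hit r P b a ≤ 1 := hit_le_one hr hP a
          rw [show hit r P b x = 1 by rw [hxb, hit_self]]
          calc _ ≤ (1:ℝ≥0∞) * 1 := mul_le_mul' h4 h5
            _ = 1 := one_mul 1
        · rw [itr_succ_ne n hx, hit_eq hxb, mul_assoc, ← ENNReal.tsum_mul_right]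
          refine mul_le_mul_right (ENNReal.tsum_le_tsum fun y => ?_) _
          rw [mul_assoc]
          exact mul_le_mul_right (ih y) _
  have h2 : hit r P a x * hit r P b a = ⨆ n, itr r P a n x * hit r P b a := by
    rw [hit, ENNReal.iSup_mul]
  rw [h2]
  exact iSup_le fun n => h1 n x

/-- separation -/
lemma hit_add_le (hr : r ≤ 1) (hP : ∀ x, ∑' y, P x y ≤ 1) {b : S} {M : ℝ≥0∞}
    (hM1 : 1 ≤ M) (h1 : 1 + hit r P b a ≤ M) (h2 : hit r P a b + 1 ≤ M) (x : S) :
    hit r P a x + hit r P b x ≤ M := by
  have key : ∀ n x, itr r P a n x + itr r P b n x ≤ M := by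
    intro n
    induction n with
    | zero =>
      intro x
      by_cases hx : x = a
      · rw [hx, itr_self]
        refine le_trans ?_ h1
        gcongr
        exact itr_le_hit _ _
      · refine le_trans ?_ hM1
        simp only [itr, hx, if_false, zero_add]
        split_ifs <;> simp
    | succ n ih =>
      intro x
      by_cases hx : x = a
      · rw [hx, itr_self]
        refine le_trans ?_ h1
        gcongr
        exact itr_le_hit _ _
      · by_cases hxb : x = b
        · rw [hxb, itr_self]
          refine le_trans ?_ h2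
          gcongr
          exact itr_le_hit _ _
        · rw [itr_succ_ne n hx, itr_succ_ne n hxb, ← mul_add, ← ENNReal.tsum_add]
          simp only [← mul_add]
          calc r * ∑' y, P x y * (itr r P a n y + itr r P b n y)
              ≤ 1 * ∑' y, P x y * M := by
                gcongr
                exact ih _
            _ = (∑' y, P x y) * M := by rw [one_mul, ENNReal.tsum_mul_right]
            _ ≤ 1 * M := by gcongr; exact hP x
            _ = M := one_mul M
  have h3 : hit r P a x + hit r P b x = ⨆ n, (itr r P a n x + itr r P b n x) := by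
    unfold hit
    exact ENNReal.iSup_add_iSup_of_monotone (itr_mono x) (itr_mono x)
  rw [h3]
  exact iSup_le fun n => key n x

/-- the escape weight at `a` -/
noncomputable def gam (r : ℝ≥0∞) (P : S → S → ℝ≥0∞) (a : S) : ℝ≥0∞ :=
  1 - r * ∑' y, P a y * hit r P a y

lemma ret_le_one (hr : r ≤ 1) (hP : ∀ x, ∑' y, P x y ≤ 1) :
    r * ∑' y, P a y * hit r P a y ≤ 1 := by
  calc r * ∑' y, P a y * hit r P a y ≤ 1 * ∑' y, P a y * 1 := by
        gcongr
        exact hit_le_one hr hP _
    _ = ∑' y, P a y := by simp
    _ ≤ 1 := hP a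

lemma hit_decomp (hr : r ≤ 1) (hP : ∀ x, ∑' y, P x y ≤ 1) (x : S) :
    hit r P a x = (if x = a then gam r P a else 0) + r * ∑' y, P x y * hit r P a y := by
  by_cases hx : x = a
  · rw [if_pos hx, hx, hit_self, gam, tsub_add_cancel_of_le (ret_le_one hr hP)]
  · rw [if_neg hx, zero_add, ← hit_eq hx]

lemma pw_comm (n : ℕ) (x y : S) : pw P (n + 1) x y = ∑' z, pw P n x z * P z y := by
  induction n generalizing x y with
  | zero =>
    simp only [pw]
    rw [tsum_eq_single y, tsum_eq_single x]
    · simp
    · intro z hz; simp [Ne.symm hz]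
    · intro z hz; simp [hz]
  | succ n ih =>
    have h1 : pw P (n + 1 + 1) x y = ∑' z, P x z * pw P (n + 1) z y := rfl
    rw [h1]
    simp only [ih]
    simp only [← ENNReal.tsum_mul_left]
    rw [ENNReal.tsum_comm]
    refine tsum_congr fun w => ?_
    have h2 : pw P (n + 1) x w = ∑' z, P x z * pw P n z w := rfl
    rw [← ih x w, h2, ← ENNReal.tsum_mul_right]
    refine tsum_congr fun z => ?_
    rw [mul_assoc]

lemma hit_iter (hr : r ≤ 1) (hP : ∀ x, ∑' y, P x y ≤ 1) (N : ℕ) (x : S) :
    hit r P a x = ∑ m ∈ Finset.range N, r ^ m * pw P m x a * gam r P a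
      + r ^ N * ∑' y, pw P N x y * hit r P a y := by
  induction N with
  | zero =>
    simp only [Finset.range_zero, Finset.sum_empty, zero_add, pow_zero, one_mul, pw]
    rw [tsum_eq_single x]
    · simp
    · intro y hy; simp [Ne.symm hy]
  | succ N ih =>
    rw [Finset.sum_range_succ, add_assoc]
    refine ih.trans ?_
    congr 1
    have h1 : ∀ y, pw P N x y * hit r P a y = (if y = a then pw P N x y * gam r P a else 0)
        + pw P N x y * (r * ∑' z, P y z * hit r P a z) := by
      intro y
      conv_lhs => rw [hit_decomp hr hP y, mul_add]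
      congr 1
      split_ifs <;> simp
    simp only [h1]
    rw [ENNReal.tsum_add, mul_add]
    congr 1
    · rw [tsum_eq_single a]
      · simp [mul_assoc]
      · intro y hy; simp [hy]
    · have h2 : ∑' y, pw P N x y * (r * ∑' z, P y z * hit r P a z)
          = r * ∑' z, pw P (N + 1) x z * hit r P a z := by
        simp only [pw_comm]
        rw [← ENNReal.tsum_mul_left]
        simp only [← ENNReal.tsum_mul_right, ← ENNReal.tsum_mul_left]
        rw [ENNReal.tsum_comm]
        refine tsum_congr fun z => tsum_congr fun y => ?_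
        ring
      rw [h2, pow_succ, mul_assoc]

lemma pw_sum_le (hP : ∀ x, ∑' y, P x y ≤ 1) (N : ℕ) (x : S) : ∑' y, pw P N x y ≤ 1 := by
  induction N generalizing x with
  | zero =>
    simp only [pw]
    rw [tsum_eq_single x]
    · simp
    · intro y hy; simp [Ne.symm hy]
  | succ N ih =>
    have h1 : ∑' y, pw P (N + 1) x y = ∑' z, P x z * ∑' y, pw P N z y := by
      have : ∀ y, pw P (N + 1) x y = ∑' z, P x z * pw P N z y := fun y => rfl
      simp only [this]
      rw [ENNReal.tsum_comm]
      refine tsum_congr fun z => ENNReal.tsum_mul_left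
    rw [h1]
    calc _ ≤ ∑' z, P x z * 1 := by gcongr; exact ih _
      _ = ∑' z, P x z := by simp
      _ ≤ 1 := hP x

/-- bound of the escape weight by the potential -/
lemma gam_mul_le (hr : r ≤ 1) (hP : ∀ x, ∑' y, P x y ≤ 1) (N : ℕ) :
    (∑ m ∈ Finset.range N, r ^ m * pw P m a a) * gam r P a ≤ 1 := by
  have h := hit_iter (a := a) hr hP N a
  rw [hit_self] at h
  rw [Finset.sum_mul]
  calc _ ≤ _ := le_self_add
    _ = 1 := h.symm

/-- upper bound of the hitting functional -/
lemma hit_upper (hr : r ≤ 1) (hP : ∀ x, ∑' y, P x y ≤ 1) (N : ℕ) (x : S) :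
    hit r P a x ≤ (∑ m ∈ Finset.range N, pw P m x a) * gam r P a + r ^ N := by
  rw [hit_iter hr hP N x, Finset.sum_mul]
  gcongr with m hm
  · calc r ^ m * pw P m x a ≤ 1 * pw P m x a := by
          gcongr
          exact pow_le_one₀ (zero_le) hr
      _ = _ := one_mul _
  · calc r ^ N * ∑' y, pw P N x y * hit r P a y ≤ r ^ N * ∑' y, pw P N x y * 1 := by
          gcongr
          exact hit_le_one hr hP _
      _ ≤ r ^ N * 1 := by
          simp only [mul_one]
          calc _ ≤ r ^ N * 1 := by gcongr; exact pw_sum_le hP N x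
            _ = _ := mul_one _
      _ = _ := mul_one _

/-- balance at `a`: the escape weight controls the discount, the killing and the flux -/
lemma gam_balance (hr : r ≤ 1) (hP : ∀ x, ∑' y, P x y ≤ 1) :
    gam r P a = (1 - r) + r * (1 - ∑' y, P a y) + r * ∑' y, P a y * (1 - hit r P a y) := by
  have hne : r * ∑' y, P a y * hit r P a y ≠ ⊤ :=
    ne_top_of_le_ne_top ENNReal.one_ne_top (ret_le_one hr hP)
  have h1 : gam r P a + r * ∑' y, P a y * hit r P a y = 1 :=
    tsub_add_cancel_of_le (ret_le_one hr hP)
  have h2 : (1 - r) + r * (1 - ∑' y, P a y) + r * ∑' y, P a y * (1 - hit r P a y)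
      + r * ∑' y, P a y * hit r P a y = 1 := by
    rw [add_assoc, ← mul_add, ← ENNReal.tsum_add]
    have h3 : ∀ y, P a y * (1 - hit r P a y) + P a y * hit r P a y = P a y := by
      intro y
      rw [← mul_add, tsub_add_cancel_of_le (hit_le_one hr hP y), mul_one]
    simp only [h3]
    rw [add_assoc, ← mul_add, tsub_add_cancel_of_le (hP a), mul_one, tsub_add_cancel_of_le hr]
  exact (ENNReal.add_left_inj hne).1 (h1.trans h2.symm)

end Hit
end Run7.h251
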