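import Pool.Agent.Run7.h251.Nec1

set_option linter.unusedVariables false
set_option linter.unusedSectionVars false

open Filter Topology Set
open scoped ENNReal NNReal

namespace Run7.h251

section
variable {S : Type} [DecidableEq S] {p : ℝ → S → S → ℝ}

/-- extended nonnegative version of the transition functions -/
noncomputable def PE (p : ℝ → S → S → ℝ) (t : ℝ) (x y : S) : ℝ≥0∞ := ENNReal.ofReal (p t x y)

/-- discount factor -/
noncomputable def rr (h : ℝ) : ℝ≥0∞ := ENNReal.ofReal (Real.exp (-h))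

lemma rr_le_one {h : ℝ} (hh : 0 ≤ h) : rr h ≤ 1 := by
  unfold rr
  rw [ENNReal.ofReal_le_one]
  exact Real.exp_le_one_iff.2 (by linarith)

lemma rr_pow (h : ℝ) (n : ℕ) : rr h ^ n = rr (n * h) := by
  unfold rr
  rw [← ENNReal.ofReal_pow (Real.exp_pos _).le, ← Real.exp_nat_mul]
  congr 2; ring

lemma IsStd.PE_row (hp : IsStd p) {t : ℝ} (ht : 0 ≤ t) (x : S) : ∑' y, PE p t x y ≤ 1 := by
  unfold PE
  rw [← ENNReal.ofReal_tsum_of_nonneg (fun y => hp.nonneg t ht x y) (hp.summable t ht x)]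
  rw [ENNReal.ofReal_le_one]
  exact hp.sum_le t ht x

lemma IsStd.PE_add (hp : IsStd p) {s t : ℝ} (hs : 0 ≤ s) (ht : 0 ≤ t) (x y : S) :
    PE p (s + t) x y = ∑' z, PE p s x z * PE p t z y := by
  unfold PE
  have h := hp.chapman s t hs ht x y
  rw [← h.tsum_eq, ENNReal.ofReal_tsum_of_nonneg
    (fun z => mul_nonneg (hp.nonneg s hs x z) (hp.nonneg t ht z y)) h.summable]
  refine tsum_congr fun z => ?_
  rw [ENNReal.ofReal_mul (hp.nonneg s hs x z)]

lemma IsStd.pw_PE (hp : IsStd p) {h : ℝ} (hh : 0 ≤ h) (m : ℕ) (x y : S) :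
    pw (PE p h) (m + 1) x y = PE p ((m + 1 : ℕ) * h) x y := by
  induction m generalizing x y with
  | zero =>
    have h1 : pw (PE p h) (0 + 1) x y = ∑' z, PE p h x z * (if z = y then 1 else 0) := rfl
    rw [h1, tsum_eq_single y]
    · simp
    · intro z hz; simp [hz]
  | succ m ih =>
    have h1 : pw (PE p h) (m + 1 + 1) x y = ∑' z, PE p h x z * pw (PE p h) (m + 1) z y := rfl
    rw [h1]
    simp only [ih]
    rw [← hp.PE_add hh (by positivity)]
    congr 1
    push_cast; ring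

/-- the hitting functional along the skeleton -/
noncomputable def uh (p : ℝ → S → S → ℝ) (h : ℝ) (a x : S) : ℝ≥0∞ := hit (rr h) (PE p h) a x

lemma IsStd.uh_le_one (hp : IsStd p) {h : ℝ} (hh : 0 ≤ h) (a x : S) : uh p h a x ≤ 1 :=
  hit_le_one (rr_le_one hh) (hp.PE_row hh) x

/-- monotonicity under refinement -/
lemma IsStd.uh_half (hp : IsStd p) {h : ℝ} (hh : 0 ≤ h) (a x : S) :
    uh p h a x ≤ uh p (h / 2) a x := by
  have hh2 : 0 ≤ h / 2 := by positivity
  unfold uh
  refine hit_min (v := hit (rr (h / 2)) (PE p (h / 2)) a) (by rw [hit_self]) (fun x hx => ?_) x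
  set v := hit (rr (h / 2)) (PE p (h / 2)) a with hv
  have h1 : ∀ x, rr (h / 2) * ∑' y, PE p (h / 2) x y * v y ≤ v x := by
    intro x
    by_cases hxa : x = a
    · rw [hxa, hv, hit_self]
      exact ret_le_one (rr_le_one hh2) (hp.PE_row hh2)
    · rw [hv, ← hit_eq hxa]
  have h2 : rr h * ∑' y, PE p h x y * v y
      = rr (h / 2) * ∑' z, PE p (h / 2) x z * (rr (h / 2) * ∑' y, PE p (h / 2) z y * v y) := by
    have h3 : ∀ y, PE p h x y = ∑' z, PE p (h / 2) x z * PE p (h / 2) z y := by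
      intro y
      rw [← hp.PE_add hh2 hh2]
      congr 1; ring
    have h4 : rr h = rr (h / 2) * rr (h / 2) := by
      have := rr_pow (h / 2) 2
      rw [pow_two] at this
      rw [this]; congr 1; push_cast; ring
    simp only [h3, h4]
    simp only [← ENNReal.tsum_mul_right, ← ENNReal.tsum_mul_left]
    rw [ENNReal.tsum_comm]
    refine tsum_congr fun z => tsum_congr fun y => ?_
    ring
  rw [h2]
  calc rr (h / 2) * ∑' z, PE p (h / 2) x z * (rr (h / 2) * ∑' y, PE p (h / 2) z y * v y)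
      ≤ rr (h / 2) * ∑' z, PE p (h / 2) x z * v z := by
        gcongr
        exact h1 _
    _ ≤ v x := h1 x

/-- dyadic step -/
noncomputable def hh (n : ℕ) : ℝ := (1 / 2) ^ n

lemma hh_pos (n : ℕ) : 0 < hh n := by unfold hh; positivity
lemma hh_nonneg (n : ℕ) : 0 ≤ hh n := (hh_pos n).le
lemma hh_succ (n : ℕ) : hh (n + 1) = hh n / 2 := by unfold hh; ring
lemma hh_tendsto : Tendsto hh atTop (𝓝 0) :=
  tendsto_pow_atTop_nhds_zero_of_lt_one (by norm_num) (by norm_num)
lemma hh_tendsto' : Tendsto hh atTop (𝓝[>] 0) :=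
  tendsto_nhdsWithin_iff.2 ⟨hh_tendsto, Eventually.of_forall fun n => hh_pos n⟩

lemma IsStd.uh_mono (hp : IsStd p) (a x : S) : Monotone (fun n => uh p (hh n) a x) :=
  monotone_nat_of_le_succ fun n => by
    rw [hh_succ]
    exact hp.uh_half (hh_nonneg n) a x

/-- the limiting hitting functional -/
noncomputable def uu' (p : ℝ → S → S → ℝ) (a x : S) : ℝ≥0∞ := ⨆ n, uh p (hh n) a x

/-- escape estimate -/
lemma IsStd.gam_le (hp : IsStd p) (a : S) : ∃ C : ℝ, 0 < C ∧ ∃ t0 : ℝ, 0 < t0 ∧ ∀ h, 0 < h → h ≤ t0 →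
    gam (rr h) (PE p h) a ≤ ENNReal.ofReal (C * h) := by
  have h1 := hp.standard a a
  rw [if_pos rfl] at h1
  have h2 : ∀ᶠ t in 𝓝[>] (0:ℝ), 1 / 2 ≤ p t a a := by
    filter_upwards [(tendsto_order.1 h1).1 (1 / 2) (by norm_num)] with t ht using ht.le
  rw [eventually_nhdsWithin_iff, Metric.eventually_nhds_iff] at h2
  obtain ⟨δ, hδ, hd⟩ := h2
  have hd' : ∀ t, 0 < t → t ≤ δ / 2 → 1 / 2 ≤ p t a a := by
    intro t ht htd
    refine hd (by rw [Real.dist_eq, sub_zero, abs_of_pos ht]; linarith) ht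
  set t0 := δ / 2 with ht0
  have ht0' : 0 < t0 := by positivity
  refine ⟨2 * Real.exp t0 / t0, by positivity, t0, ht0', fun h hh0 hht => ?_⟩
  set N := ⌊t0 / h⌋₊ + 1 with hN
  have hNt : t0 / h ≤ N := by
    rw [hN]; push_cast; exact (Nat.lt_floor_add_one _).le
  have h3 := gam_mul_le (a := a) (rr_le_one hh0.le) (hp.PE_row hh0.le) N
  have h4 : ENNReal.ofReal (t0 / h * (Real.exp (-t0) / 2))
      ≤ ∑ m ∈ Finset.range N, rr h ^ m * pw (PE p h) m a a := by
    have h5 : ∀ m ∈ Finset.range N, ENNReal.ofReal (Real.exp (-t0) / 2)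
        ≤ rr h ^ m * pw (PE p h) m a a := by
      intro m hm
      have hm' : (m : ℝ) * h ≤ t0 := by
        have h6 : m ≤ ⌊t0 / h⌋₊ := by have := Finset.mem_range.1 hm; omega
        have h7 : (m : ℝ) ≤ t0 / h := (Nat.cast_le.2 h6).trans (Nat.floor_le (by positivity))
        rwa [le_div_iff₀ hh0] at h7
      have h8 : ENNReal.ofReal (1 / 2) ≤ pw (PE p h) m a a := by
        cases m with
        | zero =>
          simp only [pw, if_true]
          rw [ENNReal.ofReal_le_one]; norm_num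
        | succ m =>
          rw [hp.pw_PE hh0.le]
          unfold PE
          exact ENNReal.ofReal_le_ofReal (hd' _ (by positivity) hm')
      have h9 : ENNReal.ofReal (Real.exp (-t0)) ≤ rr h ^ m := by
        rw [rr_pow]
        unfold rr
        exact ENNReal.ofReal_le_ofReal (Real.exp_le_exp.2 (by linarith))
      calc ENNReal.ofReal (Real.exp (-t0) / 2)
          = ENNReal.ofReal (Real.exp (-t0)) * ENNReal.ofReal (1 / 2) := by
            rw [← ENNReal.ofReal_mul (Real.exp_pos _).le]; congr 1; ring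
        _ ≤ _ := mul_le_mul' h9 h8
    calc ENNReal.ofReal (t0 / h * (Real.exp (-t0) / 2))
        ≤ ENNReal.ofReal (N * (Real.exp (-t0) / 2)) :=
          ENNReal.ofReal_le_ofReal (mul_le_mul_of_nonneg_right hNt (by positivity))
      _ = ∑ m ∈ Finset.range N, ENNReal.ofReal (Real.exp (-t0) / 2) := by
          rw [Finset.sum_const, Finset.card_range, ENNReal.ofReal_mul (by positivity),
            ENNReal.ofReal_natCast, nsmul_eq_mul]
      _ ≤ _ := Finset.sum_le_sum h5
  have h10 : ENNReal.ofReal (t0 / h * (Real.exp (-t0) / 2)) * gam (rr h) (PE p h) a ≤ 1 :=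
    (mul_le_mul' h4 le_rfl).trans h3
  have hpos : 0 < t0 / h * (Real.exp (-t0) / 2) := by positivity
  have h11 : gam (rr h) (PE p h) a ≤ (ENNReal.ofReal (t0 / h * (Real.exp (-t0) / 2)))⁻¹ := by
    rw [ENNReal.le_inv_iff_mul_le, mul_comm]
    exact h10
  refine h11.trans (le_of_eq ?_)
  rw [← ENNReal.ofReal_inv_of_pos hpos]
  congr 1
  rw [Real.exp_neg]
  field_simp

end
end Run7.h251
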