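import Pool.Agent.Run7.h251.Nec2

set_option linter.unusedVariables false
set_option linter.unusedSectionVars false

open Filter Topology Set
open scoped ENNReal NNReal

namespace Run7.h251

section
variable {S : Type} [DecidableEq S] {p : ℝ → S → S → ℝ}

/-- real version -/
noncomputable def uR (p : ℝ → S → S → ℝ) (n : ℕ) (a x : S) : ℝ := (uh p (hh n) a x).toReal
/-- limit -/
noncomputable def UR (p : ℝ → S → S → ℝ) (a x : S) : ℝ := (uu' p a x).toReal

lemma IsStd.uu'_le_one (hp : IsStd p) (a x : S) : uu' p a x ≤ 1 :=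
  iSup_le fun n => hp.uh_le_one (hh_nonneg n) a x

lemma IsStd.uh_ne_top (hp : IsStd p) (n : ℕ) (a x : S) : uh p (hh n) a x ≠ ⊤ :=
  ne_top_of_le_ne_top ENNReal.one_ne_top (hp.uh_le_one (hh_nonneg n) a x)

lemma IsStd.uu'_ne_top (hp : IsStd p) (a x : S) : uu' p a x ≠ ⊤ :=
  ne_top_of_le_ne_top ENNReal.one_ne_top (hp.uu'_le_one a x)

lemma IsStd.uR_le (hp : IsStd p) (n : ℕ) (a x : S) : uR p n a x ≤ UR p a x :=
  ENNReal.toReal_mono (hp.uu'_ne_top a x) (le_iSup (fun n => uh p (hh n) a x) n)

lemma IsStd.uR_tendsto (hp : IsStd p) (a x : S) :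
    Tendsto (fun n => uR p n a x) atTop (𝓝 (UR p a x)) :=
  (ENNReal.tendsto_toReal (hp.uu'_ne_top a x)).comp (tendsto_atTop_iSup (hp.uh_mono a x))

lemma UR_nonneg (a x : S) : 0 ≤ UR p a x := ENNReal.toReal_nonneg
lemma uR_nonneg (n : ℕ) (a x : S) : 0 ≤ uR p n a x := ENNReal.toReal_nonneg

lemma IsStd.UR_le_one (hp : IsStd p) (a x : S) : UR p a x ≤ 1 := by
  have := ENNReal.toReal_mono ENNReal.one_ne_top (hp.uu'_le_one a x)
  rw [ENNReal.toReal_one] at this
  exact this

lemma IsStd.uR_le_one (hp : IsStd p) (n : ℕ) (a x : S) : uR p n a x ≤ 1 :=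
  (hp.uR_le n a x).trans (hp.UR_le_one a x)

lemma uR_self (n : ℕ) (a : S) : uR p n a a = 1 := by
  unfold uR uh; rw [hit_self]; simp

lemma IsStd.UR_self (hp : IsStd p) (a : S) : UR p a a = 1 := by
  have h1 := hp.uR_tendsto a a
  simp only [uR_self] at h1
  exact tendsto_nhds_unique h1 tendsto_const_nhds

lemma IsStd.ofReal_uR (hp : IsStd p) (n : ℕ) (a x : S) :
    ENNReal.ofReal (uR p n a x) = uh p (hh n) a x := ENNReal.ofReal_toReal (hp.uh_ne_top n a x)

/-- the sup of a standard transition function off the diagonal is small at small times -/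
lemma IsStd.small (hp : IsStd p) {b a : S} (hba : b ≠ a) {ε : ℝ} (hε : 0 < ε) :
    ∃ δ > 0, ∀ s, 0 < s → s ≤ δ → p s b a ≤ ε := by
  have h1 := hp.standard b a
  rw [if_neg hba] at h1
  have h2 : ∀ᶠ t in 𝓝[>] (0:ℝ), p t b a ≤ ε := by
    filter_upwards [(tendsto_order.1 h1).2 ε hε] with t ht using ht.le
  rw [eventually_nhdsWithin_iff, Metric.eventually_nhds_iff] at h2
  obtain ⟨δ, hδ, hd⟩ := h2
  refine ⟨δ / 2, by positivity, fun s hs hsd => ?_⟩
  exact hd (by rw [Real.dist_eq, sub_zero, abs_of_pos hs]; linarith) hs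

/-- strict inequality -/
lemma IsStd.UR_lt_one (hp : IsStd p) {a b : S} (hab : b ≠ a) : UR p a b < 1 := by
  obtain ⟨C, hC, t0, ht0, hg⟩ := hp.gam_le a
  obtain ⟨δ, hδ, hd⟩ := hp.small hab (ε := 1 / (4 * C)) (by positivity)
  obtain ⟨n0, hn0⟩ : ∃ n0, hh n0 ≤ min t0 (min δ 1) := by
    have hpos : 0 < min t0 (min δ 1) := lt_min ht0 (lt_min hδ one_pos)
    obtain ⟨n, hn⟩ := ((tendsto_order.1 hh_tendsto).2 _ hpos).exists
    exact ⟨n, hn.le⟩
  set t := hh n0 with ht
  have htpos : 0 < t := hh_pos n0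
  have htt0 : t ≤ t0 := hn0.trans (min_le_left _ _)
  have htδ : t ≤ δ := hn0.trans ((min_le_right _ _).trans (min_le_left _ _))
  have ht1 : t ≤ 1 := hn0.trans ((min_le_right _ _).trans (min_le_right _ _))
  have key : ∀ n, n0 ≤ n → uR p n a b ≤ 1 - t / 4 := by
    intro n hn
    obtain ⟨k, rfl⟩ := Nat.exists_eq_add_of_le hn
    set h := hh (n0 + k) with hh'
    have hpos : 0 < h := hh_pos _
    have hNh : ((2 ^ k : ℕ) : ℝ) * h = t := by
      rw [hh', ht]; unfold hh; push_cast
      rw [pow_add]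
      have : (2:ℝ) ^ k * (1 / 2) ^ k = 1 := by rw [← mul_pow]; norm_num
      linear_combination (1 / 2 : ℝ) ^ n0 * this
    have hht : h ≤ t := by
      rw [hh', ht]; unfold hh
      exact pow_le_pow_of_le_one (by norm_num) (by norm_num) (by omega)
    have h1 := hit_upper (a := a) (rr_le_one hpos.le) (hp.PE_row hpos.le) (2 ^ k) b
    have h2 : ∑ m ∈ Finset.range (2 ^ k), pw (PE p h) m b a
        ≤ ENNReal.ofReal ((2 ^ k : ℕ) * (1 / (4 * C))) := by
      calc _ ≤ ∑ m ∈ Finset.range (2 ^ k), ENNReal.ofReal (1 / (4 * C)) := by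
            refine Finset.sum_le_sum fun m hm => ?_
            cases m with
            | zero => simp [pw, hab]
            | succ m =>
              rw [hp.pw_PE hpos.le]
              unfold PE
              refine ENNReal.ofReal_le_ofReal (hd _ (by positivity) ?_)
              have h3 : ((m + 1 : ℕ) : ℝ) ≤ (2 ^ k : ℕ) := by
                have := Finset.mem_range.1 hm
                exact_mod_cast this.le
              calc ((m + 1 : ℕ) : ℝ) * h ≤ (2 ^ k : ℕ) * h := mul_le_mul_of_nonneg_right h3 hpos.le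
                _ = t := hNh
                _ ≤ δ := htδ
        _ = _ := by
            rw [Finset.sum_const, Finset.card_range, ENNReal.ofReal_mul (by positivity),
              ENNReal.ofReal_natCast, nsmul_eq_mul]
    have h3 : uh p h a b ≤ ENNReal.ofReal (1 - t / 4) := by
      calc uh p h a b ≤ _ := h1
        _ ≤ ENNReal.ofReal ((2 ^ k : ℕ) * (1 / (4 * C))) * ENNReal.ofReal (C * h)
            + ENNReal.ofReal (Real.exp (-t)) := by
            refine add_le_add (mul_le_mul' h2 (hg h hpos (hht.trans htt0))) ?_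
            rw [rr_pow, hNh]; exact le_rfl
        _ = ENNReal.ofReal ((2 ^ k : ℕ) * (1 / (4 * C)) * (C * h) + Real.exp (-t)) := by
            rw [← ENNReal.ofReal_mul (by positivity), ← ENNReal.ofReal_add (by positivity)
              (Real.exp_pos _).le]
        _ ≤ _ := by
            refine ENNReal.ofReal_le_ofReal ?_
            have h4 : ((2 ^ k : ℕ) : ℝ) * (1 / (4 * C)) * (C * h) = t / 4 := by
              rw [← hNh]; field_simp
            have h5 : Real.exp (-t) ≤ 1 - t / 2 := by
              have h6 := Real.one_sub_div_pow_le_exp_neg (n := 1) (t := t)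
              have h7 : Real.exp (-t) * Real.exp t = 1 := by
                rw [← Real.exp_add]; simp
              have h8 := Real.add_one_le_exp t
              have h9 := Real.quadratic_le_exp_of_nonneg htpos.le
              have h10 : 0 < Real.exp (-t) := Real.exp_pos _
              have h11 : Real.exp (-t) * (1 + t + t ^ 2 / 2) ≤ 1 := by
                calc _ ≤ Real.exp (-t) * Real.exp t := mul_le_mul_of_nonneg_left h9 h10.le
                  _ = 1 := h7
              have h12 : (1 - t / 2) * (1 + t + t ^ 2 / 2) ≥ 1 := by nlinarith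
              have h13 : 0 < 1 + t + t ^ 2 / 2 := by positivity
              nlinarith
            linarith
    have h4 := ENNReal.toReal_mono ENNReal.ofReal_ne_top h3
    rw [ENNReal.toReal_ofReal (by linarith)] at h4
    exact h4
  have h1 : UR p a b ≤ 1 - t / 4 := le_of_tendsto (hp.uR_tendsto a b)
    (eventually_atTop.2 ⟨n0, key⟩)
  linarith

/-- triangle inequality -/
lemma IsStd.UR_triangle (hp : IsStd p) (a b x : S) : UR p a x * UR p b a ≤ UR p b x := by
  refine le_of_tendsto_of_tendsto' ((hp.uR_tendsto a x).mul (hp.uR_tendsto b a))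
    (hp.uR_tendsto b x) fun n => ?_
  have h1 := hit_triangle (a := a) (rr_le_one (hh_nonneg n)) (hp.PE_row (hh_nonneg n)) b x
  have h2 := ENNReal.toReal_mono (hp.uh_ne_top n b x) h1
  rw [ENNReal.toReal_mul] at h2
  exact h2

/-- separation -/
lemma IsStd.UR_sep (hp : IsStd p) (a b x : S) :
    UR p a x + UR p b x ≤ 1 + max (UR p b a) (UR p a b) := by
  refine le_of_tendsto ((hp.uR_tendsto a x).add (hp.uR_tendsto b x))
    (Eventually.of_forall fun n => ?_)
  set M : ℝ := 1 + max (UR p b a) (UR p a b) with hM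
  have hM0 : 1 ≤ M := by
    have := UR_nonneg (p := p) b a
    have h2 := le_max_left (UR p b a) (UR p a b)
    linarith
  have h1 := hit_add_le (a := a) (b := b) (rr_le_one (hh_nonneg n)) (hp.PE_row (hh_nonneg n))
    (M := ENNReal.ofReal M) ?_ ?_ ?_ x
  · have h1' : uh p (hh n) a x + uh p (hh n) b x ≤ ENNReal.ofReal M := h1
    have h2 := ENNReal.toReal_mono ENNReal.ofReal_ne_top h1'
    rw [ENNReal.toReal_ofReal (by linarith), ENNReal.toReal_add (hp.uh_ne_top n a x)
      (hp.uh_ne_top n b x)] at h2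
    exact h2
  · rw [← ENNReal.ofReal_one]; exact ENNReal.ofReal_le_ofReal hM0
  · have h3 : hit (rr (hh n)) (PE p (hh n)) b a = ENNReal.ofReal (uR p n b a) :=
      (hp.ofReal_uR n b a).symm
    rw [h3, ← ENNReal.ofReal_one, ← ENNReal.ofReal_add zero_le_one (uR_nonneg n b a)]
    refine ENNReal.ofReal_le_ofReal ?_
    have := hp.uR_le n b a
    have h2 := le_max_left (UR p b a) (UR p a b)
    linarith
  · have h3 : hit (rr (hh n)) (PE p (hh n)) a b = ENNReal.ofReal (uR p n a b) :=
      (hp.ofReal_uR n a b).symm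
    rw [h3, ← ENNReal.ofReal_one, ← ENNReal.ofReal_add (uR_nonneg n a b) zero_le_one]
    refine ENNReal.ofReal_le_ofReal ?_
    have := hp.uR_le n a b
    have h2 := le_max_right (UR p b a) (UR p a b)
    linarith

/-- flux estimate along the skeletons -/
lemma IsStd.flux (hp : IsStd p) (a : S) : ∃ C : ℝ, 0 < C ∧ ∀ᶠ n in atTop, ∀ B : Finset S,
    ∑ y ∈ B, p (hh n) a y * (1 - UR p a y) ≤ C * hh n := by
  obtain ⟨C, hC, t0, ht0, hg⟩ := hp.gam_le a
  refine ⟨C * Real.exp 1, by positivity, ?_⟩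
  have hpos : 0 < min t0 1 := lt_min ht0 one_pos
  filter_upwards [(tendsto_order.1 hh_tendsto).2 _ hpos] with n hn B
  have hn1 : hh n ≤ t0 := hn.le.trans (min_le_left _ _)
  have hn2 : hh n ≤ 1 := hn.le.trans (min_le_right _ _)
  have h0 := hh_pos n
  have h1 := gam_balance (a := a) (rr_le_one h0.le) (hp.PE_row h0.le)
  have h2 : rr (hh n) * ∑' y, PE p (hh n) a y * (1 - hit (rr (hh n)) (PE p (hh n)) a y)
      ≤ ENNReal.ofReal (C * hh n) := by
    refine le_trans ?_ (hg _ h0 hn1)
    rw [h1]; exact le_add_self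
  have h3 : ENNReal.ofReal (Real.exp (-(hh n)) * ∑ y ∈ B, p (hh n) a y * (1 - UR p a y))
      ≤ ENNReal.ofReal (C * hh n) := by
    refine le_trans ?_ h2
    rw [ENNReal.ofReal_mul (Real.exp_pos _).le]
    refine mul_le_mul_right ?_ _
    have h4 : ∀ y ∈ B, 0 ≤ p (hh n) a y * (1 - UR p a y) := fun y _ =>
      mul_nonneg (hp.nonneg _ h0.le a y) (by linarith [hp.UR_le_one a y])
    rw [ENNReal.ofReal_sum_of_nonneg h4]
    refine le_trans ?_ (ENNReal.sum_le_tsum B)
    refine Finset.sum_le_sum fun y _ => ?_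
    rw [ENNReal.ofReal_mul (hp.nonneg _ h0.le a y)]
    refine mul_le_mul_right ?_ _
    have h5 : hit (rr (hh n)) (PE p (hh n)) a y = ENNReal.ofReal (uR p n a y) :=
      (hp.ofReal_uR n a y).symm
    rw [h5, ← ENNReal.ofReal_one, ← ENNReal.ofReal_sub _ (uR_nonneg n a y)]
    refine ENNReal.ofReal_le_ofReal ?_
    linarith [hp.uR_le n a y]
  rw [ENNReal.ofReal_le_ofReal_iff (by positivity)] at h3
  have h4 : Real.exp (hh n) * Real.exp (-(hh n)) = 1 := by rw [← Real.exp_add]; simp
  have h5 : Real.exp (hh n) ≤ Real.exp 1 := Real.exp_le_exp.2 hn2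
  have h6 : 0 < Real.exp (hh n) := Real.exp_pos _
  calc ∑ y ∈ B, p (hh n) a y * (1 - UR p a y)
      = Real.exp (hh n) * (Real.exp (-(hh n)) * ∑ y ∈ B, p (hh n) a y * (1 - UR p a y)) := by
        rw [← mul_assoc, h4, one_mul]
    _ ≤ Real.exp (hh n) * (C * hh n) := mul_le_mul_of_nonneg_left h3 h6.le
    _ ≤ Real.exp 1 * (C * hh n) := mul_le_mul_of_nonneg_right h5 (by positivity)
    _ = _ := by ring

/-- superharmonicity at a stable state -/
lemma IsStd.super (hp : IsStd p) {a j : S} (hja : j ≠ a) {qd : ℝ} {q : S → ℝ}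
    (hqd : Tendsto (fun t => (1 - p t j j) / t) (𝓝[>] 0) (𝓝 qd))
    (hq : ∀ y, y ≠ j → Tendsto (fun t => p t j y / t) (𝓝[>] 0) (𝓝 (q y)))
    (B : Finset S) (hB : j ∉ B) :
    1 + ∑ y ∈ B, q y * (1 - UR p a y) ≤ (1 + qd) * (1 - UR p a j) := by
  have hstep : ∀ n, (1 - Real.exp (-(hh n)))
      + Real.exp (-(hh n)) * ∑ y ∈ B, p (hh n) j y * (1 - UR p a y)
      ≤ (1 - uR p n a j) * (1 - Real.exp (-(hh n)) * p (hh n) j j) := by
    intro n
    have h0 := hh_pos n
    set r := rr (hh n) with hr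
    set P := PE p (hh n) with hP
    have h1 : hit r P a j = r * ∑' y, P j y * hit r P a y := hit_eq hja
    have h2 : r * ∑' y, P j y * hit r P a y
        + r * ∑ y ∈ insert j B, P j y * (1 - hit r P a y) ≤ r := by
      rw [← mul_add]
      calc _ ≤ r * (∑' y, P j y * hit r P a y + ∑' y, P j y * (1 - hit r P a y)) := by
            gcongr
            exact ENNReal.sum_le_tsum _
        _ = r * ∑' y, P j y := by
            rw [← ENNReal.tsum_add]
            congr 1
            refine tsum_congr fun y => ?_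
            rw [← mul_add, add_tsub_cancel_of_le
              (hit_le_one (rr_le_one h0.le) (hp.PE_row h0.le) y), mul_one]
        _ ≤ r * 1 := by gcongr; exact hp.PE_row h0.le j
        _ = r := mul_one r
    rw [← h1] at h2
    have h3 : ∀ y, hit r P a y = ENNReal.ofReal (uR p n a y) := fun y => (hp.ofReal_uR n a y).symm
    have h4 : ∀ y, P j y * (1 - hit r P a y) = ENNReal.ofReal (p (hh n) j y * (1 - uR p n a y)) := by
      intro y
      rw [h3, hP, ENNReal.ofReal_mul (hp.nonneg _ h0.le j y), ENNReal.ofReal_sub _ (uR_nonneg n a y),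
        ENNReal.ofReal_one]
      rfl
    simp only [h4] at h2
    have h5 : ∀ y, 0 ≤ p (hh n) j y * (1 - uR p n a y) := fun y =>
      mul_nonneg (hp.nonneg _ h0.le j y) (by linarith [hp.uR_le_one n a y])
    rw [h3, ← ENNReal.ofReal_sum_of_nonneg (fun y _ => h5 y), hr, rr,
      ← ENNReal.ofReal_mul (Real.exp_pos _).le, ← ENNReal.ofReal_add (uR_nonneg n a j)
      (mul_nonneg (Real.exp_pos _).le (Finset.sum_nonneg fun y _ => h5 y)),
      ENNReal.ofReal_le_ofReal_iff (Real.exp_pos _).le, Finset.sum_insert hB] at h2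
    have h6 : ∑ y ∈ B, p (hh n) j y * (1 - UR p a y) ≤ ∑ y ∈ B, p (hh n) j y * (1 - uR p n a y) :=
      Finset.sum_le_sum fun y _ => mul_le_mul_of_nonneg_left
        (by linarith [hp.uR_le n a y]) (hp.nonneg _ h0.le j y)
    have h7 := mul_le_mul_of_nonneg_left h6 (Real.exp_pos (-(hh n))).le
    nlinarith
  -- divide and pass to the limit
  have hexp : Tendsto (fun n => Real.exp (-(hh n))) atTop (𝓝 1) := by
    have := (Real.continuous_exp.tendsto 0).comp (hh_tendsto.neg.trans (by simp))
    simpa [Function.comp_def] using this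
  have hexp' : Tendsto (fun n => (1 - Real.exp (-(hh n))) / hh n) atTop (𝓝 1) := by
    have h1 : HasDerivAt (fun t : ℝ => 1 - Real.exp (-t)) 1 0 := by
      have h2 := ((hasDerivAt_id (0:ℝ)).neg.exp).const_sub 1
      refine h2.congr_deriv ?_
      simp
    have h3 := h1.tendsto_slope_zero_right
    have h4 := h3.comp hh_tendsto'
    refine h4.congr fun n => ?_
    simp [div_eq_inv_mul]
  have hqd' := hqd.comp hh_tendsto'
  have hl : Tendsto (fun n => (1 - Real.exp (-(hh n))) / hh n
      + Real.exp (-(hh n)) * ∑ y ∈ B, (p (hh n) j y / hh n) * (1 - UR p a y)) atTop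
      (𝓝 (1 + 1 * ∑ y ∈ B, q y * (1 - UR p a y))) := by
    refine hexp'.add (hexp.mul ?_)
    refine tendsto_finsetSum _ fun y hy => ?_
    have hyj : y ≠ j := fun hc => hB (hc ▸ hy)
    exact ((hq y hyj).comp hh_tendsto').mul_const _
  have hr : Tendsto (fun n => (1 - uR p n a j) * ((1 - Real.exp (-(hh n))) / hh n
      + Real.exp (-(hh n)) * ((1 - p (hh n) j j) / hh n))) atTop
      (𝓝 ((1 - UR p a j) * (1 + 1 * qd))) :=
    ((hp.uR_tendsto a j).const_sub 1).mul (hexp'.add (hexp.mul hqd'))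
  have hle := le_of_tendsto_of_tendsto' hl hr fun n => by
    have h0 := hh_pos n
    have h1 := hstep n
    have h2 := div_le_div_of_nonneg_right h1 h0.le
    refine le_trans (le_of_eq ?_) (h2.trans (le_of_eq ?_))
    · rw [add_div, mul_div_assoc, Finset.sum_div]
      congr 2
      refine Finset.sum_congr rfl fun y _ => by ring
    · field_simp
      ring
  linarith

end
end Run7.h251
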