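import Pool.Agent.Run7.h251.Nec3

set_option linter.unusedVariables false
set_option linter.unusedSectionVars false

open Filter Topology Set
open scoped ENNReal NNReal

namespace Run7.h251

section
variable {S : Type} [DecidableEq S] {p : ℝ → S → S → ℝ}

/-- killing estimate along the skeletons -/
lemma IsStd.kill (hp : IsStd p) (a : S) : ∃ C : ℝ, 0 < C ∧ ∀ᶠ n in atTop,
    1 - ∑' y, p (hh n) a y ≤ C * hh n := by
  obtain ⟨C, hC, t0, ht0, hg⟩ := hp.gam_le a
  refine ⟨C * Real.exp 1, by positivity, ?_⟩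
  have hpos : 0 < min t0 1 := lt_min ht0 one_pos
  filter_upwards [(tendsto_order.1 hh_tendsto).2 _ hpos] with n hn
  have hn1 : hh n ≤ t0 := hn.le.trans (min_le_left _ _)
  have hn2 : hh n ≤ 1 := hn.le.trans (min_le_right _ _)
  have h0 := hh_pos n
  have h1 := gam_balance (a := a) (rr_le_one h0.le) (hp.PE_row h0.le)
  have h2 : rr (hh n) * (1 - ∑' y, PE p (hh n) a y) ≤ ENNReal.ofReal (C * hh n) := by
    refine le_trans ?_ (hg _ h0 hn1)
    rw [h1, add_assoc, add_comm (1 - rr (hh n)), add_assoc]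
    exact le_self_add
  have h3 : 1 - ∑' y, PE p (hh n) a y = ENNReal.ofReal (1 - ∑' y, p (hh n) a y) := by
    unfold PE
    rw [← ENNReal.ofReal_tsum_of_nonneg (fun y => hp.nonneg _ h0.le a y) (hp.summable _ h0.le a),
      ENNReal.ofReal_sub _ (tsum_nonneg fun y => hp.nonneg _ h0.le a y), ENNReal.ofReal_one]
  rw [h3, rr, ← ENNReal.ofReal_mul (Real.exp_pos _).le,
    ENNReal.ofReal_le_ofReal_iff (by positivity)] at h2
  have h4 : Real.exp (hh n) * Real.exp (-(hh n)) = 1 := by rw [← Real.exp_add]; simp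
  have h5 : Real.exp (hh n) ≤ Real.exp 1 := Real.exp_le_exp.2 hn2
  have h6 : 0 < Real.exp (hh n) := Real.exp_pos _
  calc 1 - ∑' y, p (hh n) a y
      = Real.exp (hh n) * (Real.exp (-(hh n)) * (1 - ∑' y, p (hh n) a y)) := by
        rw [← mul_assoc, h4, one_mul]
    _ ≤ Real.exp (hh n) * (C * hh n) := mul_le_mul_of_nonneg_left h2 h6.le
    _ ≤ Real.exp 1 * (C * hh n) := mul_le_mul_of_nonneg_right h5 (by positivity)
    _ = _ := by ring

/-- near an instantaneous state there are infinitely many states -/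
lemma IsStd.near (hp : IsStd p) {b : S}
    (hinst : Tendsto (fun t => (1 - p t b b) / t) (𝓝[>] 0) atTop) {q : S → ℝ}
    (hq : ∀ y, y ≠ b → Tendsto (fun t => p t b y / t) (𝓝[>] 0) (𝓝 (q y)))
    {θ : ℝ} (hθ : 0 < θ) : {y | y ≠ b ∧ 1 - UR p b y < θ}.Infinite := by
  intro hfin
  obtain ⟨C1, hC1, h1⟩ := hp.kill b
  obtain ⟨C2, hC2, h2⟩ := hp.flux b
  set N := hfin.toFinset with hN
  have hmem : ∀ y, y ∈ N ↔ (y ≠ b ∧ 1 - UR p b y < θ) := fun y => by
    rw [hN, Set.Finite.mem_toFinset]; exact Iff.rfl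
  have h3 : Tendsto (fun n => ∑ y ∈ N, p (hh n) b y / hh n) atTop (𝓝 (∑ y ∈ N, q y)) :=
    tendsto_finsetSum _ fun y hy => (hq y ((hmem y).1 hy).1).comp hh_tendsto'
  have h4 : ∀ᶠ n in atTop, ∑ y ∈ N, p (hh n) b y / hh n ≤ ∑ y ∈ N, q y + 1 := by
    filter_upwards [(tendsto_order.1 h3).2 _ (lt_add_one _)] with n hn using hn.le
  have h5 := (hinst.comp hh_tendsto').eventually (eventually_ge_atTop
    (C1 + (∑ y ∈ N, q y + 1) + C2 / θ + 1))
  obtain ⟨n, hn1, hn2, hn4, hn5⟩ := (h1.and (h2.and (h4.and h5))).exists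
  have h0 := hh_pos n
  simp only [Function.comp] at hn5
  -- decomposition of the row
  have hs := hp.summable _ h0.le b
  have h6 : ∑' y, p (hh n) b y ≤ p (hh n) b b + ∑ y ∈ N, p (hh n) b y + C2 * hh n / θ := by
    have h7 : ∀ B : Finset S, ∑ y ∈ B, p (hh n) b y
        ≤ p (hh n) b b + ∑ y ∈ N, p (hh n) b y + C2 * hh n / θ := by
      intro B
      have h8 : ∀ y ∈ B, p (hh n) b y ≤ (if y = b then p (hh n) b b else 0)
          + (if y ∈ N then p (hh n) b y else 0) + p (hh n) b y * (1 - UR p b y) / θ := by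
        intro y _
        have hpy := hp.nonneg _ h0.le b y
        have hur : 0 ≤ 1 - UR p b y := by linarith [hp.UR_le_one b y]
        have hterm : 0 ≤ p (hh n) b y * (1 - UR p b y) / θ := by positivity
        by_cases hyb : y = b
        · rw [if_pos hyb, hyb]
          have : 0 ≤ (if b ∈ N then p (hh n) b b else 0) := by
            split_ifs
            · exact hp.nonneg _ h0.le b b
            · exact le_rfl
          rw [hyb] at hterm
          linarith
        · by_cases hyN : y ∈ N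
          · rw [if_neg hyb, if_pos hyN]; linarith
          · rw [if_neg hyb, if_neg hyN]
            have h9 : θ ≤ 1 - UR p b y := by
              by_contra hc
              push Not at hc
              exact hyN ((hmem y).2 ⟨hyb, hc⟩)
            have h10 : p (hh n) b y ≤ p (hh n) b y * (1 - UR p b y) / θ := by
              rw [le_div_iff₀ hθ]
              exact mul_le_mul_of_nonneg_left h9 hpy
            linarith
      refine (Finset.sum_le_sum h8).trans ?_
      rw [Finset.sum_add_distrib, Finset.sum_add_distrib]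
      refine add_le_add (add_le_add ?_ ?_) ?_
      · rw [Finset.sum_ite_eq']
        split_ifs
        · exact le_rfl
        · exact hp.nonneg _ h0.le b b
      · rw [← Finset.sum_filter]
        exact Finset.sum_le_sum_of_subset_of_nonneg (fun y hy => (Finset.mem_filter.1 hy).2)
          (fun y _ _ => hp.nonneg _ h0.le b y)
      · rw [← Finset.sum_div]
        exact div_le_div_of_nonneg_right (hn2 B) hθ.le
    exact hs.tsum_le_of_sum_le h7
  have h11 : 1 - p (hh n) b b ≤ C1 * hh n + ∑ y ∈ N, p (hh n) b y + C2 * hh n / θ := by linarith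
  have h12 := div_le_div_of_nonneg_right h11 h0.le
  have h13 : (C1 * hh n + ∑ y ∈ N, p (hh n) b y + C2 * hh n / θ) / hh n
      = C1 + ∑ y ∈ N, p (hh n) b y / hh n + C2 / θ := by
    rw [← Finset.sum_div]
    field_simp
  rw [h13] at h12
  linarith

/-- row condition -/
lemma IsStd.row_cond (hp : IsStd p) {j : S} {qd : ℝ} {q : S → ℝ}
    (hqd : Tendsto (fun t => (1 - p t j j) / t) (𝓝[>] 0) (𝓝 qd))
    (hq : ∀ y, y ≠ j → Tendsto (fun t => p t j y / t) (𝓝[>] 0) (𝓝 (q y)))
    (B : Finset S) (hB : j ∉ B) : ∑ y ∈ B, q y ≤ qd := by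
  have h1 : Tendsto (fun n => ∑ y ∈ B, p (hh n) j y / hh n) atTop (𝓝 (∑ y ∈ B, q y)) :=
    tendsto_finsetSum _ fun y hy => (hq y (fun hc => hB (hc ▸ hy))).comp hh_tendsto'
  refine le_of_tendsto_of_tendsto' h1 (hqd.comp hh_tendsto') fun n => ?_
  have h0 := hh_pos n
  simp only [Function.comp]
  rw [← Finset.sum_div]
  refine div_le_div_of_nonneg_right ?_ h0.le
  have h2 : ∑ y ∈ insert j B, p (hh n) j y ≤ 1 :=
    ((hp.summable _ h0.le j).sum_le_tsum _ (fun y _ => hp.nonneg _ h0.le j y)).trans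
      (hp.sum_le _ h0.le j)
  rw [Finset.sum_insert hB] at h2
  linarith

lemma IsStd.q_nonneg (hp : IsStd p) {j y : S} {q : ℝ}
    (hq : Tendsto (fun t => p t j y / t) (𝓝[>] 0) (𝓝 q)) : 0 ≤ q := by
  refine ge_of_tendsto' (hq.comp hh_tendsto') fun n => ?_
  exact div_nonneg (hp.nonneg _ (hh_nonneg n) j y) (hh_nonneg n)

/-- flux in the limit -/
lemma IsStd.flux_lim (hp : IsStd p) (a : S) {q : S → ℝ}
    (hq : ∀ y, y ≠ a → Tendsto (fun t => p t a y / t) (𝓝[>] 0) (𝓝 (q y))) :
    ∃ C : ℝ, 0 < C ∧ ∀ B : Finset S, a ∉ B → ∑ y ∈ B, q y * (1 - UR p a y) ≤ C := by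
  obtain ⟨C, hC, h⟩ := hp.flux a
  refine ⟨C, hC, fun B hB => ?_⟩
  have h1 : Tendsto (fun n => ∑ y ∈ B, p (hh n) a y / hh n * (1 - UR p a y)) atTop
      (𝓝 (∑ y ∈ B, q y * (1 - UR p a y))) :=
    tendsto_finsetSum _ fun y hy =>
      ((hq y (fun hc => hB (hc ▸ hy))).comp hh_tendsto').mul_const _
  refine le_of_tendsto h1 ?_
  filter_upwards [h] with n hn
  have h0 := hh_pos n
  have h2 := div_le_div_of_nonneg_right (hn B) h0.le
  rw [mul_div_cancel_right₀ _ h0.ne', Finset.sum_div] at h2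
  refine le_trans (le_of_eq (Finset.sum_congr rfl fun y _ => by ring)) h2

end
end Run7.h251
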