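import Pool.Agent.Run7.h251.MinSol
import Pool.Agent.Run7.h251.Nec4

set_option linter.unusedVariables false
set_option linter.unusedSectionVars false

open Filter Topology Set
open scoped ENNReal NNReal

namespace Run7.h251

lemma IsSemigroup.isStd {p : ℝ → ℕ → ℕ → ℝ} (h : IsSemigroup p) : IsStd p where
  nonneg := h.nonneg
  summable := h.summable
  sum_le := h.sum_le_one
  chapman := fun s t hs ht x y => by
    have := h.chapman s t hs ht x y
    rw [this.2]
    exact this.1.hasSum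
  standard := h.standard

variable {Q : ℕ → ℕ → EReal}

lemma lim_off (hQ : Admissible Q) {i j : ℕ} (hij : j ≠ i) {f : ℝ → ℝ}
    (hf : Tendsto (fun t : ℝ => (((f t - if i = j then 1 else 0) / t : ℝ) : EReal)) (𝓝[>] 0)
      (𝓝 (Q i j))) : Tendsto (fun t => f t / t) (𝓝[>] 0) (𝓝 (rate Q i j).toReal) := by
  have h2 := (hQ.2 i j hij.symm)
  have h1 : Q i j = ((rate Q i j).toReal : EReal) := by
    unfold rate
    rw [if_neg hij.symm, EReal.toReal_toENNReal h2.1, EReal.coe_toReal h2.2]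
    intro hc
    rw [hc] at h2
    exact absurd h2.1 (by simp)
  rw [h1, EReal.tendsto_coe] at hf
  refine hf.congr fun t => ?_
  rw [if_neg hij.symm, sub_zero]

lemma lim_diag (hQ : Admissible Q) {i : ℕ} (hi : Stable Q i) {f : ℝ → ℝ}
    (hf : Tendsto (fun t : ℝ => (((f t - if i = i then 1 else 0) / t : ℝ) : EReal)) (𝓝[>] 0)
      (𝓝 (Q i i))) : Tendsto (fun t => (1 - f t) / t) (𝓝[>] 0) (𝓝 (exitRate Q i).toReal) := by
  have h0 : (0 : EReal) ≤ - Q i i := EReal.neg_nonneg.2 (hQ.1 i)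
  have h1 : Q i i = ((-(exitRate Q i).toReal : ℝ) : EReal) := by
    unfold exitRate
    rw [EReal.toReal_toENNReal h0, EReal.toReal_neg_eq, neg_neg, EReal.coe_toReal]
    · intro hc
      have := hQ.1 i
      rw [hc] at this
      exact absurd this (by simp)
    · exact hi
  rw [h1, EReal.tendsto_coe] at hf
  have := hf.neg
  rw [neg_neg] at this
  refine this.congr fun t => ?_
  simp only [if_true]
  ring

lemma lim_inst {i : ℕ} (hi : Inst Q i) {f : ℝ → ℝ}
    (hf : Tendsto (fun t : ℝ => (((f t - if i = i then 1 else 0) / t : ℝ) : EReal)) (𝓝[>] 0)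
      (𝓝 (Q i i))) : Tendsto (fun t => (1 - f t) / t) (𝓝[>] 0) atTop := by
  have h1 : Q i i = ⊥ := hi
  rw [h1, EReal.tendsto_coe_nhds_bot_iff] at hf
  refine (tendsto_neg_atBot_atTop.comp hf).congr fun t => ?_
  simp only [Function.comp, if_true]
  ring

/-- finite sums control infinite ones -/
lemma tsum_le_of_sum_real {f : ℕ → ℝ} (a : ℕ) (hf : ∀ y, y ≠ a → 0 ≤ f y) {C : ℝ}
    (h : ∀ B : Finset ℕ, a ∉ B → ∑ y ∈ B, f y ≤ C) {F : ℕ → ℝ≥0∞}
    (hF : ∀ y, y ≠ a → F y = ENNReal.ofReal (f y)) (hFa : F a = 0) :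
    ∑' y, F y ≤ ENNReal.ofReal C := by
  rw [ENNReal.tsum_eq_iSup_sum]
  refine iSup_le fun B => ?_
  have h1 : ∑ y ∈ B, F y = ∑ y ∈ B.erase a, F y := by
    by_cases ha : a ∈ B
    · rw [← Finset.add_sum_erase _ _ ha, hFa, zero_add]
    · rw [Finset.erase_eq_of_notMem ha]
  rw [h1]
  have h2 : ∑ y ∈ B.erase a, F y = ENNReal.ofReal (∑ y ∈ B.erase a, f y) := by
    rw [ENNReal.ofReal_sum_of_nonneg (fun y hy => hf y (Finset.ne_of_mem_erase hy))]
    exact Finset.sum_congr rfl fun y hy => hF y (Finset.ne_of_mem_erase hy)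
  rw [h2]
  exact ENNReal.ofReal_le_ofReal (h _ (Finset.notMem_erase _ _))

/-- the hitting distances of a semigroup with derivative matrix `Q` -/
theorem IsQMatrix.exists_w (hQ : Admissible Q) (h : IsQMatrix Q) : RowCond Q ∧
    ∃ W : ℕ → ℕ → ℝ≥0∞, (∀ a x, W a x ≤ 1) ∧ (∀ a, W a a = 0) ∧ (∀ a b, b ≠ a → W a b ≠ 0) ∧
      (∀ a b, b ≠ a → ∃ c, c ≠ 0 ∧ ∀ x, c ≤ W a x + W b x) ∧
      (∀ a b x, W b x ≤ W a x + W b a) ∧
      (∀ a, ∑' y, rate Q a y * W a y ≠ ⊤) ∧
      (∀ a j, Stable Q j → j ≠ a →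
        1 + ∑' k, rate Q j k * W a k ≤ (1 + exitRate Q j) * W a j) ∧
      (∀ b, Inst Q b → ∀ θ, θ ≠ 0 → {y | y ≠ b ∧ W b y < θ}.Infinite) := by
  obtain ⟨p, hp, hlim⟩ := h
  have hs := hp.isStd
  have hoff : ∀ i j, j ≠ i → Tendsto (fun t => p t i j / t) (𝓝[>] 0) (𝓝 (rate Q i j).toReal) :=
    fun i j hij => lim_off hQ hij (hlim i j)
  have hdiag : ∀ i, Stable Q i →
      Tendsto (fun t => (1 - p t i i) / t) (𝓝[>] 0) (𝓝 (exitRate Q i).toReal) :=
    fun i hi => lim_diag hQ hi (hlim i i)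
  have hrate : ∀ i j, rate Q i j = ENNReal.ofReal (rate Q i j).toReal := fun i j =>
    (ENNReal.ofReal_toReal (hQ.rate_ne_top i j)).symm
  have hW0 : ∀ a x, 0 ≤ 1 - UR p a x := fun a x => by linarith [hs.UR_le_one a x]
  refine ⟨fun i => ?_, fun a x => ENNReal.ofReal (1 - UR p a x), fun a x => ?_, fun a => ?_,
    fun a b hab => ?_, fun a b hab => ?_, fun a b x => ?_, fun a => ?_, fun a j hj hja => ?_,
    fun b hb θ hθ => ?_⟩
  · by_cases hi : Stable Q i
    · have h1 := tsum_le_of_sum_real (f := fun y => (rate Q i y).toReal) i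
        (fun y _ => ENNReal.toReal_nonneg)
        (fun B hB => hs.row_cond (hdiag i hi) (hoff i) B hB) (F := rate Q i)
        (fun y _ => hrate i y) (rate_self Q i)
      rwa [ENNReal.ofReal_toReal (exitRate_ne_top hi)] at h1
    · have : exitRate Q i = ⊤ := by
        unfold exitRate
        rw [show Q i i = ⊥ from inst_iff.2 hi]; simp
      rw [this]; exact le_top
  · rw [ENNReal.ofReal_le_one]; linarith [UR_nonneg (p := p) a x]
  · simp only [hs.UR_self a]; simp
  · have := hs.UR_lt_one hab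
    simpa using this
  · have h1 := hs.UR_lt_one (a := a) (b := b) hab
    have h2 := hs.UR_lt_one (a := b) (b := a) hab.symm
    refine ⟨ENNReal.ofReal (1 - max (UR p b a) (UR p a b)), ?_, fun x => ?_⟩
    · have : max (UR p b a) (UR p a b) < 1 := max_lt h2 h1
      simpa using this
    · rw [← ENNReal.ofReal_add (hW0 a x) (hW0 b x)]
      refine ENNReal.ofReal_le_ofReal ?_
      have := hs.UR_sep a b x
      linarith
  · rw [← ENNReal.ofReal_add (hW0 a x) (hW0 b a)]
    refine ENNReal.ofReal_le_ofReal ?_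
    have h1 := hs.UR_triangle a b x
    have h2 := hs.UR_le_one a x
    have h3 := hs.UR_le_one b a
    nlinarith [UR_nonneg (p := p) a x, UR_nonneg (p := p) b a]
  · obtain ⟨C, hC, h1⟩ := hs.flux_lim a (hoff a)
    refine ne_top_of_le_ne_top ENNReal.ofReal_ne_top (tsum_le_of_sum_real
      (f := fun y => (rate Q a y).toReal * (1 - UR p a y)) a
      (fun y _ => mul_nonneg ENNReal.toReal_nonneg (hW0 a y)) h1 (fun y _ => ?_) ?_)
    · rw [ENNReal.ofReal_mul ENNReal.toReal_nonneg, ← hrate]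
    · rw [rate_self, zero_mul]
  · have h1 : ∀ B : Finset ℕ, j ∉ B → ∑ y ∈ B, (rate Q j y).toReal * (1 - UR p a y)
        ≤ (1 + (exitRate Q j).toReal) * (1 - UR p a j) - 1 := fun B hB => by
      have := hs.super hja (hdiag j hj) (hoff j) B hB
      linarith
    have h2 := tsum_le_of_sum_real (f := fun y => (rate Q j y).toReal * (1 - UR p a y)) j
      (fun y _ => mul_nonneg ENNReal.toReal_nonneg (hW0 a y)) h1
      (F := fun k => rate Q j k * ENNReal.ofReal (1 - UR p a k)) (fun y _ => by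
        rw [ENNReal.ofReal_mul ENNReal.toReal_nonneg, ← hrate]) (by simp only [rate_self, zero_mul])
    have h3 : (0:ℝ) ≤ (1 + (exitRate Q j).toReal) * (1 - UR p a j) - 1 := by
      simpa using h1 ∅ (by simp)
    calc 1 + ∑' k, rate Q j k * ENNReal.ofReal (1 - UR p a k)
        ≤ 1 + ENNReal.ofReal ((1 + (exitRate Q j).toReal) * (1 - UR p a j) - 1) := by gcongr
      _ = ENNReal.ofReal ((1 + (exitRate Q j).toReal) * (1 - UR p a j)) := by
          rw [← ENNReal.ofReal_one, ← ENNReal.ofReal_add zero_le_one h3]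
          congr 1; ring
      _ = (1 + exitRate Q j) * ENNReal.ofReal (1 - UR p a j) := by
          rw [ENNReal.ofReal_mul (by positivity), ENNReal.ofReal_add zero_le_one
            ENNReal.toReal_nonneg, ENNReal.ofReal_one, ENNReal.ofReal_toReal (exitRate_ne_top hj)]
  · rcases eq_or_ne θ ⊤ with ht | ht
    · refine (hs.near (lim_inst hb (hlim b b)) (hoff b) one_pos).mono fun y hy => ?_
      exact ⟨hy.1, by rw [ht]; exact ENNReal.ofReal_lt_top⟩
    · have hpos : 0 < θ.toReal := ENNReal.toReal_pos hθ ht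
      refine (hs.near (lim_inst hb (hlim b b)) (hoff b) hpos).mono fun y hy => ?_
      refine ⟨hy.1, ?_⟩
      show ENNReal.ofReal (1 - UR p b y) < θ
      rw [ENNReal.ofReal_lt_iff_lt_toReal (hW0 b y) ht]
      exact hy.2

end Run7.h251
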