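import Pool.Agent.Run7.h251.Defs
import Pool.Agent.Run7.h251.Exist

set_option linter.unusedVariables false
set_option linter.unusedSectionVars false

open Filter Topology Set
open scoped ENNReal NNReal

namespace Run7.h251

lemma Admissible.rate_ne_top {Q : ℕ → ℕ → EReal} (h : Admissible Q) (i j : ℕ) :
    rate Q i j ≠ ⊤ := by
  unfold rate
  split_ifs with hij
  · simp
  · rw [EReal.toENNReal_ne_top_iff]; exact (h.2 i j hij).2

lemma Admissible.coe_rate {Q : ℕ → ℕ → EReal} (h : Admissible Q) (i j : ℕ) :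
    (((rate Q i j).toNNReal : ℝ≥0) : ℝ≥0∞) = rate Q i j := ENNReal.coe_toNNReal (h.rate_ne_top i j)

lemma exitRate_ne_top {Q : ℕ → ℕ → EReal} {i : ℕ} (h : Stable Q i) : exitRate Q i ≠ ⊤ := by
  unfold exitRate
  rw [EReal.toENNReal_ne_top_iff]
  intro hc
  apply h
  rw [EReal.neg_eq_top_iff] at hc
  exact hc

lemma rate_self (Q : ℕ → ℕ → EReal) (i : ℕ) : rate Q i i = 0 := by simp [rate]

lemma inst_iff {Q : ℕ → ℕ → EReal} {i : ℕ} : Inst Q i ↔ ¬ Stable Q i := by
  unfold Inst Stable; exact not_not.symm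

open Classical in
/-- extension of routing weights by the Kronecker symbol -/
noncomputable def AA (Q : ℕ → ℕ → EReal) (β : ℕ → ℕ → ℝ≥0∞) (y b : ℕ) : ℝ≥0∞ :=
  if Stable Q y then β y b else (if y = b then 1 else 0)

open Classical in
/-- extended reduced rates -/
noncomputable def RR (Q : ℕ → ℕ → EReal) (β : ℕ → ℕ → ℝ≥0∞) (a b : ℕ) : ℝ≥0∞ :=
  ∑' y, rate Q a y * AA Q β y b

/-- the off-diagonal and diagonal limits in the extended reals -/
lemma tendsto_off {Q : ℕ → ℕ → EReal} (hQ : Admissible Q) {i j : ℕ} (hij : i ≠ j) {f : ℝ → ℝ}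
    (hf : Tendsto (fun t => f t / t) (𝓝[>] 0) (𝓝 (((rate Q i j).toNNReal : ℝ≥0) : ℝ))) :
    Tendsto (fun t : ℝ => (((f t - if i = j then 1 else 0) / t : ℝ) : EReal)) (𝓝[>] 0)
      (𝓝 (Q i j)) := by
  have h1 : Q i j = ((((rate Q i j).toNNReal : ℝ≥0) : ℝ) : EReal) := by
    have h2 := (hQ.2 i j hij)
    unfold rate
    rw [if_neg hij]
    show Q i j = (((Q i j).toENNReal.toReal : ℝ) : EReal)
    rw [EReal.toReal_toENNReal h2.1, EReal.coe_toReal h2.2]
    intro hc
    rw [hc] at h2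
    exact absurd h2.1 (by simp)
  rw [h1, EReal.tendsto_coe]
  refine hf.congr fun t => ?_
  rw [if_neg hij, sub_zero]

lemma tendsto_diag {Q : ℕ → ℕ → EReal} (hQ : Admissible Q) {i : ℕ} (hi : Stable Q i) {f : ℝ → ℝ}
    (hf : Tendsto (fun t => (1 - f t) / t) (𝓝[>] 0) (𝓝 (((exitRate Q i).toNNReal : ℝ≥0) : ℝ))) :
    Tendsto (fun t : ℝ => (((f t - if i = i then 1 else 0) / t : ℝ) : EReal)) (𝓝[>] 0)
      (𝓝 (Q i i)) := by
  have h0 : (0 : EReal) ≤ - Q i i := by
    have := hQ.1 i
    exact EReal.neg_nonneg.2 this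
  have h1 : Q i i = ((-(((exitRate Q i).toNNReal : ℝ≥0) : ℝ) : ℝ) : EReal) := by
    unfold exitRate
    show Q i i = ((-(((- Q i i).toENNReal.toReal : ℝ)) : ℝ) : EReal)
    rw [EReal.toReal_toENNReal h0, EReal.toReal_neg_eq, neg_neg, EReal.coe_toReal]
    · intro hc
      have := hQ.1 i
      rw [hc] at this
      exact absurd this (by simp)
    · exact hi
  rw [h1, EReal.tendsto_coe]
  refine hf.neg.congr fun t => ?_
  simp only [if_true]
  ring

lemma tendsto_inst {Q : ℕ → ℕ → EReal} {i : ℕ} (hi : Inst Q i) {f : ℝ → ℝ}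
    (hf : Tendsto (fun t => (1 - f t) / t) (𝓝[>] 0) atTop) :
    Tendsto (fun t : ℝ => (((f t - if i = i then 1 else 0) / t : ℝ) : EReal)) (𝓝[>] 0)
      (𝓝 (Q i i)) := by
  have h1 : Q i i = ⊥ := hi
  rw [h1, EReal.tendsto_coe_nhds_bot_iff]
  refine (tendsto_neg_atTop_atBot.comp hf).congr fun t => ?_
  simp only [Function.comp, if_true]
  ring

open Classical in
/-- **Existence theorem** on `ℕ` -/
theorem exists_on_nat {Q : ℕ → ℕ → EReal} (hQ : Admissible Q) (hDK : RowCond Q)
    (β : ℕ → ℕ → ℝ≥0∞)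
    (h1 : ∀ j, Stable Q j → ∑' b, (if Inst Q b then β j b else 0) ≤ 1)
    (h2 : ∀ j b, Stable Q j → Inst Q b → (1 + exitRate Q j) * β j b ≤ RR Q β j b)
    (h3 : ∀ a b, Inst Q a → Inst Q b → a ≠ b → RR Q β a b ≠ ⊤)
    (h4 : ∀ a, Inst Q a →
      ∑' y, rate Q a y * (1 - ∑' b, (if Inst Q b then AA Q β y b else 0)) ≠ ⊤)
    (h5 : ∀ a b, Inst Q a → Inst Q b → a ≠ b →
      ∑' c, (if Inst Q c ∧ c ≠ a ∧ c ≠ b then min (RR Q β a c) (RR Q β b c) else 0) ≠ ⊤)
    (K : Set ℕ) (hK : K.Infinite) (hKG : ∀ k ∈ K, Inst Q k)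
    (h6 : ∀ a, Inst Q a → ∑' k, (if k ∈ K ∧ k ≠ a then RR Q β a k else 0) ≠ ⊤) :
    IsQMatrix Q := by
  -- enumeration
  have hGinf : Infinite {a // Inst Q a} := by
    refine Set.infinite_coe_iff.2 (hK.mono fun k hk => ?_)
    exact hKG k hk
  obtain ⟨g⟩ : Nonempty (ℕ ≃ {a // Inst Q a}) := nonempty_equiv_of_countable
  let F := {a // ¬ Inst Q a}
  let σ : F ⊕ ℕ ≃ ℕ := (Equiv.sumComm F ℕ).trans
    ((Equiv.sumCongr g (Equiv.refl F)).trans (Equiv.sumCompl (fun a => Inst Q a)))
  have hσl : ∀ j : F, σ (Sum.inl j) = j.1 := fun j => rfl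
  have hσr : ∀ n : ℕ, σ (Sum.inr n) = (g n).1 := fun n => rfl
  have hst : ∀ j : F, Stable Q j.1 := fun j => by
    have := j.2; rwa [inst_iff, not_not] at this
  -- sums
  have hsumF : ∀ f : ℕ → ℝ≥0∞, ∑' y : F ⊕ ℕ, f (σ y) = ∑' y, f y := fun f => σ.tsum_eq f
  have hsumG : ∀ f : ℕ → ℝ≥0∞, ∑' n : ℕ, f (g n).1 = ∑' b, (if Inst Q b then f b else 0) := by
    intro f
    have ha : ∑' n : ℕ, f (g n).1 = ∑' b : {a // Inst Q a}, f b.1 :=
      g.tsum_eq (fun b : {a // Inst Q a} => f b.1)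
    rw [ha]
    have hb := tsum_subtype {a | Inst Q a} f
    refine Eq.trans hb (tsum_congr fun b => ?_)
    by_cases hb : Inst Q b
    · rw [if_pos hb, Set.indicator_of_mem (by exact hb)]
    · rw [if_neg hb, Set.indicator_of_notMem (by exact hb)]
  -- the data
  have hβle : ∀ j : F, ∀ l : ℕ, β j.1 (g l).1 ≠ ⊤ := by
    intro j l
    refine ne_top_of_le_ne_top ENNReal.one_ne_top (le_trans ?_ (h1 j.1 (hst j)))
    rw [← hsumG (fun b => β j.1 b)]
    exact ENNReal.le_tsum l
  let q : F ⊕ ℕ → F ⊕ ℕ → ℝ≥0 := fun x y => (rate Q (σ x) (σ y)).toNNReal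
  let qd : F → ℝ≥0 := fun j => (exitRate Q j.1).toNNReal
  let α : ℕ → F → ℝ≥0 := fun l j => (β j.1 (g l).1).toNNReal
  have hq : ∀ x y, (q x y : ℝ≥0∞) = rate Q (σ x) (σ y) := fun x y => hQ.coe_rate _ _
  have hqd : ∀ j : F, (qd j : ℝ≥0∞) = exitRate Q j.1 := fun j =>
    ENNReal.coe_toNNReal (exitRate_ne_top (hst j))
  have halk : ∀ l y, (alk α l y : ℝ≥0∞) = AA Q β (σ y) (g l).1 := by
    intro l y
    cases y with
    | inl j =>
      show ((β j.1 (g l).1).toNNReal : ℝ≥0∞) = AA Q β j.1 (g l).1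
      unfold AA
      rw [if_pos (hst j), ENNReal.coe_toNNReal (hβle j l)]
    | inr n =>
      show (((if n = l then 1 else 0 : ℝ≥0)) : ℝ≥0∞) = AA Q β (g n).1 (g l).1
      unfold AA
      rw [if_neg (inst_iff.1 (g n).2)]
      by_cases hnl : n = l
      · rw [if_pos hnl, hnl, if_pos rfl]; simp
      · rw [if_neg hnl, if_neg]
        · simp
        · intro hc
          exact hnl (g.injective (Subtype.ext hc))
  have hRR : ∀ x l, ∑' y, (q x y : ℝ≥0∞) * alk α l y = RR Q β (σ x) (g l).1 := by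
    intro x l
    simp only [hq, halk]
    exact hsumF (fun y => rate Q (σ x) y * AA Q β y (g l).1)
  have hsumal : ∀ y, ∑' l, (alk α l y : ℝ≥0∞)
      = ∑' b, (if Inst Q b then AA Q β (σ y) b else 0) := by
    intro y
    simp only [halk]
    exact hsumG (fun b => AA Q β (σ y) b)
  set K' : Set ℕ := {n | (g n).1 ∈ K} with hK'
  have hK'inf : K'.Infinite := by
    intro hfin
    apply hK
    have : K ⊆ (fun n => (g n).1) '' K' := by
      intro k hk
      refine ⟨g.symm ⟨k, hKG k hk⟩, ?_, ?_⟩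
      · simp only [hK', Set.mem_setOf_eq, Equiv.apply_symm_apply]; exact hk
      · simp
    exact (hfin.image _).subset this
  obtain ⟨p, hp, hp1, hp2, hp3⟩ := exists_semigroup_of q qd α (fun j => j.1)
    (fun i j hij => Subtype.ext hij)
    (fun x => by show (rate Q (σ x) (σ x)).toNNReal = 0; rw [rate_self]; rfl)
    (fun j => by
      simp only [hq]
      rw [hsumF (fun y => rate Q (σ (Sum.inl j)) y), hqd, hσl]
      exact hDK j.1)
    (fun l j => by
      rw [hRR, hqd, hσl]
      have : (α l j : ℝ≥0∞) = β j.1 (g l).1 := ENNReal.coe_toNNReal (hβle j l)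
      rw [this]
      exact h2 j.1 _ (hst j) (g l).2)
    (fun j => by
      have : ∀ l, (α l j : ℝ≥0∞) = β j.1 (g l).1 := fun l => ENNReal.coe_toNNReal (hβle j l)
      simp only [this]
      rw [hsumG (fun b => β j.1 b)]
      exact h1 j.1 (hst j))
    (fun i l hil => by
      rw [hRR]
      exact h3 _ _ (g i).2 (g l).2 (fun hc => hil (g.injective (Subtype.ext hc))))
    (fun i => by
      simp only [hq, hsumal]
      rw [hsumF (fun y => rate Q (σ (Sum.inr i)) y *
        (1 - ∑' b, (if Inst Q b then AA Q β y b else 0)))]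
      exact h4 _ (g i).2)
    (fun i i' hii => by
      simp only [hRR]
      have hne : (g i).1 ≠ (g i').1 := fun hc => hii (g.injective (Subtype.ext hc))
      refine ne_top_of_le_ne_top (h5 _ _ (g i).2 (g i').2 hne) (le_of_eq ?_)
      have h7 : ∀ n : ℕ, (if n = i ∨ n = i' then 0 else
          min (RR Q β (σ (Sum.inr i)) (g n).1) (RR Q β (σ (Sum.inr i')) (g n).1))
          = (fun c : ℕ => if c ≠ (g i).1 ∧ c ≠ (g i').1 then
              min (RR Q β (g i).1 c) (RR Q β (g i').1 c) else 0) (g n).1 := by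
        intro n
        simp only [hσr]
        by_cases hn : n = i ∨ n = i'
        · rw [if_pos hn, if_neg]
          rintro ⟨h8, h9⟩
          rcases hn with hn | hn
          · exact h8 (by rw [hn])
          · exact h9 (by rw [hn])
        · rw [if_neg hn, if_pos]
          push Not at hn
          exact ⟨fun hc => hn.1 (g.injective (Subtype.ext hc)),
            fun hc => hn.2 (g.injective (Subtype.ext hc))⟩
      simp only [h7]
      rw [hsumG (fun c : ℕ => if c ≠ (g i).1 ∧ c ≠ (g i').1 then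
              min (RR Q β (g i).1 c) (RR Q β (g i').1 c) else 0)]
      refine tsum_congr fun c => ?_
      by_cases hc : Inst Q c
      · rw [if_pos hc]
        by_cases hc2 : c ≠ (g i).1 ∧ c ≠ (g i').1
        · rw [if_pos hc2, if_pos ⟨hc, hc2⟩]
        · rw [if_neg hc2, if_neg (fun h => hc2 h.2)]
      · rw [if_neg hc, if_neg (fun h => hc h.1)])
    K' hK'inf
    (fun i => by
      simp only [hRR]
      refine ne_top_of_le_ne_top (h6 _ (g i).2) (le_of_eq ?_)
      have h7 : ∀ n : ℕ, Set.indicator K' (fun k => if k = i then 0 else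
          RR Q β (σ (Sum.inr i)) (g k).1) n
          = (fun c : ℕ => if c ∈ K ∧ c ≠ (g i).1 then RR Q β (g i).1 c else 0) (g n).1 := by
        intro n
        simp only [hσr]
        by_cases hn : (g n).1 ∈ K
        · rw [Set.indicator_of_mem (show n ∈ K' from hn)]
          by_cases hni : n = i
          · rw [if_pos hni, if_neg (fun h => h.2 (by rw [hni]))]
          · rw [if_neg hni, if_pos ⟨hn, fun hc => hni (g.injective (Subtype.ext hc))⟩]
        · rw [Set.indicator_of_notMem (show n ∉ K' from hn), if_neg (fun h => hn h.1)]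
      simp only [h7]
      rw [hsumG (fun c : ℕ => if c ∈ K ∧ c ≠ (g i).1 then RR Q β (g i).1 c else 0)]
      refine tsum_congr fun c => ?_
      by_cases hc : Inst Q c
      · rw [if_pos hc]
      · rw [if_neg hc, if_neg (fun h => hc (hKG c h.1))])
  refine ⟨fun t i j => p t (σ.symm i) (σ.symm j), ⟨?_, ?_, ?_, ?_, ?_⟩, ?_⟩
  · intro t ht i j; exact hp.nonneg t ht _ _
  · intro t ht i
    exact (σ.symm.summable_iff (f := fun y => p t (σ.symm i) y)).2 (hp.summable t ht _)
  · intro t ht i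
    have := σ.symm.tsum_eq (fun y => p t (σ.symm i) y)
    rw [this]
    exact hp.sum_le t ht _
  · intro s t hs ht i j
    have h8 := hp.chapman s t hs ht (σ.symm i) (σ.symm j)
    have h9 := (σ.symm.hasSum_iff (f := fun z => p s (σ.symm i) z * p t z (σ.symm j))).2 h8
    exact ⟨h9.summable, h9.tsum_eq.symm⟩
  · intro i j
    have h8 := hp.standard (σ.symm i) (σ.symm j)
    simpa using h8
  · intro i j
    by_cases hij : i = j
    · subst hij
      obtain ⟨x, rfl⟩ := σ.surjective i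
      cases x with
      | inl k =>
        have h8 := hp2 k
        refine tendsto_diag hQ (hst k) ?_
        simpa using h8
      | inr n =>
        have h8 := hp3 n
        refine tendsto_inst (g n).2 ?_
        simpa using h8
    · refine tendsto_off hQ hij ?_
      have h8 := hp1 (σ.symm i) (σ.symm j) (fun hc => hij (σ.symm.injective hc))
      have h9 : q (σ.symm i) (σ.symm j) = (rate Q i j).toNNReal := by
        show (rate Q (σ (σ.symm i)) (σ (σ.symm j))).toNNReal = _
        rw [σ.apply_symm_apply, σ.apply_symm_apply]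
      rw [h9] at h8
      exact h8

end Run7.h251
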