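import Mathlib

set_option linter.unusedVariables false

open Filter Topology Set

namespace Run7.h251

/-- resource assignment: `e k = some (i, m)` means that the state `k` is inserted into the special
edge `(i, m)`; `par` is the parent function for the other states -/
structure Res where
  e : ℕ → Option (ℕ × ℕ)
  he : ∀ k i m, e k = some (i, m) → i < k ∧ m ≤ k
  hinf : ∀ i m N, ∃ k, N ≤ k ∧ e k = some (i, m)
  par : ℕ → ℕ
  hpar : ∀ n, 0 < n → par n < n

namespace Res
variable (R : Res)

/-- current target of the special edge at stage `n` -/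
def s : ℕ → ℕ × ℕ → ℕ
  | 0 => fun _ => 0
  | n + 1 => fun im =>
      if R.e (n + 1) = some im then n + 1
      else if im.1 = n + 1 then
        (if im.2 = 0 then
          (match R.e (n + 1) with
            | some im' => s n im'
            | none => R.par (n + 1))
        else n + 1)
      else s n im

/-- the parent function -/
def p : ℕ → ℕ
  | 0 => 0
  | n + 1 => match R.e (n + 1) with
    | some im => R.s n im
    | none => R.par (n + 1)

lemma p_zero : R.p 0 = 0 := rfl

lemma p_succ_some {n : ℕ} {im : ℕ × ℕ} (h : R.e (n + 1) = some im) : R.p (n + 1) = R.s n im := by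
  simp only [p, h]

lemma p_succ_none {n : ℕ} (h : R.e (n + 1) = none) : R.p (n + 1) = R.par (n + 1) := by
  simp only [p, h]

lemma s_succ (n : ℕ) (im : ℕ × ℕ) : R.s (n + 1) im =
    if R.e (n + 1) = some im then n + 1
      else if im.1 = n + 1 then (if im.2 = 0 then R.p (n + 1) else n + 1)
      else R.s n im := by
  simp only [s, p]

lemma s_le : ∀ n im, R.s n im ≤ n := by
  intro n
  induction n with
  | zero => intro im; simp [s]
  | succ n ih =>
    intro im
    rw [s_succ]
    split_ifs with h1 h2 h3
    · exact le_rfl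
    · cases he : R.e (n + 1) with
      | none => rw [p_succ_none R he]; exact (R.hpar (n + 1) (Nat.succ_pos n)).le
      | some im' => rw [p_succ_some R he]; exact (ih im').trans (Nat.le_succ n)
    · exact le_rfl
    · exact (ih im).trans (Nat.le_succ n)

lemma p_lt {n : ℕ} (hn : 0 < n) : R.p n < n := by
  obtain ⟨k, rfl⟩ : ∃ k, n = k + 1 := ⟨n - 1, by omega⟩
  cases he : R.e (k + 1) with
  | none => rw [p_succ_none R he]; exact R.hpar (k + 1) (Nat.succ_pos k)
  | some im' => rw [p_succ_some R he]; exact Nat.lt_succ_of_le (R.s_le k im')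

/-- default target -/
def dflt (im : ℕ × ℕ) : ℕ := if im.2 = 0 then R.p im.1 else im.1

lemma s_self (im : ℕ × ℕ) : R.s im.1 im = R.dflt im := by
  rcases im with ⟨i, m⟩
  cases i with
  | zero =>
    simp only [dflt, s]
    split_ifs <;> rfl
  | succ i =>
    rw [s_succ]
    have : ¬ R.e (i + 1) = some (i + 1, m) := by
      intro h
      exact lt_irrefl _ (R.he _ _ _ h).1
    simp only [this, if_false, if_true, dflt]

lemma s_step {n : ℕ} {im : ℕ × ℕ} (h : im.1 ≤ n) :
    R.s (n + 1) im = if R.e (n + 1) = some im then n + 1 else R.s n im := by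
  rw [s_succ]
  have : im.1 ≠ n + 1 := by omega
  simp only [this, if_false]

/-- after an insertion the target stays at or above the inserted state -/
lemma s_ge {k : ℕ} {im : ℕ × ℕ} (hk : R.e k = some im) : ∀ n, k ≤ n → k ≤ R.s n im := by
  intro n hn
  have him : im.1 < k := (R.he k im.1 im.2 hk).1
  induction n, hn using Nat.le_induction with
  | base =>
    obtain ⟨k', rfl⟩ : ∃ k', k = k' + 1 := ⟨k - 1, by omega⟩
    rw [R.s_step (by omega), if_pos hk]
  | succ n hn ih =>
    rw [R.s_step (by omega)]
    split_ifs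
    · omega
    · exact ih

/-- the possible values of the target -/
lemma s_cases (im : ℕ × ℕ) : ∀ n, im.1 ≤ n → R.s n im = R.dflt im ∨ R.e (R.s n im) = some im := by
  intro n hn
  induction n, hn using Nat.le_induction with
  | base => left; exact R.s_self im
  | succ n hn ih =>
    rw [R.s_step hn]
    split_ifs with h
    · right; exact h
    · exact ih

/-- eventually the target is different from a given state -/
lemma s_ne_eventually (i l : ℕ) (hl : l ≠ i) : ∀ᶠ n in atTop, ∀ m, R.s n (i, m) ≠ l := by
  -- index of the edge of `l`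
  have h0 : ∃ N, ∀ n ≥ N, R.s n (i, 0) ≠ l := by
    obtain ⟨k, hk1, hk2⟩ := R.hinf i 0 (l + 1)
    exact ⟨k, fun n hn => by have := R.s_ge hk2 n hn; omega⟩
  obtain ⟨N0, hN0⟩ := h0
  have h1 : ∃ N, ∀ n ≥ N, ∀ m, m ≠ 0 → R.s n (i, m) ≠ l := by
    by_cases he : ∃ m, R.e l = some (i, m)
    · obtain ⟨m0, hm0⟩ := he
      obtain ⟨k, hk1, hk2⟩ := R.hinf i m0 (l + 1)
      refine ⟨max k i, fun n hn m hm hc => ?_⟩
      rcases R.s_cases (i, m) n ((le_max_right _ _).trans hn) with h | h
      · rw [hc] at h
        simp only [dflt, hm, if_false] at h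
        exact hl h
      · rw [hc, hm0] at h
        have hmm : m0 = m := by
          have := Option.some.inj h
          exact (Prod.mk.inj this).2
        have := R.s_ge hk2 n ((le_max_left _ _).trans hn)
        rw [hmm, hc] at this
        omega
    · refine ⟨i, fun n hn m hm hc => ?_⟩
      rcases R.s_cases (i, m) n hn with h | h
      · rw [hc] at h
        simp only [dflt, hm, if_false] at h
        exact hl h
      · rw [hc] at h
        exact he ⟨m, h⟩
  obtain ⟨N1, hN1⟩ := h1
  filter_upwards [eventually_ge_atTop (max N0 N1)] with n hn m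
  by_cases hm : m = 0
  · rw [hm]; exact hN0 n ((le_max_left _ _).trans hn)
  · exact hN1 n ((le_max_right _ _).trans hn) m hm

/-- nearest ancestor among `0..N` -/
def anc (N : ℕ) : ℕ → ℕ
  | 0 => 0
  | n + 1 => if n + 1 ≤ N then n + 1 else
      have : R.p (n + 1) < n + 1 := R.p_lt (Nat.succ_pos n)
      anc N (R.p (n + 1))

lemma anc_le (N : ℕ) : ∀ n, R.anc N n ≤ N := by
  intro n
  induction n using Nat.strong_induction_on with
  | _ n ih =>
    cases n with
    | zero => unfold anc; exact Nat.zero_le _
    | succ n =>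
      unfold anc
      split_ifs with h
      · exact h
      · exact ih _ (R.p_lt (Nat.succ_pos n))

lemma anc_of_le {N n : ℕ} (h : n ≤ N) : R.anc N n = n := by
  cases n with
  | zero => unfold anc; rfl
  | succ n => unfold anc; rw [if_pos h]

lemma anc_of_gt {N n : ℕ} (h : N < n) : R.anc N n = R.anc N (R.p n) := by
  cases n with
  | zero => omega
  | succ n =>
    conv => lhs; unfold anc
    rw [if_neg (by omega)]

variable (ell : ℕ → ℝ)

/-- `tt i n = 1 - (distance from n up to i)`, and `0` if `n` is not a descendant of `i` -/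
noncomputable def tt (i : ℕ) : ℕ → ℝ
  | 0 => if i = 0 then 1 else 0
  | n + 1 => if n + 1 < i then 0 else if n + 1 = i then 1 else
      have : R.p (n + 1) < n + 1 := R.p_lt (Nat.succ_pos n)
      max 0 (tt i (R.p (n + 1)) - ell (n + 1))

lemma tt_self (i : ℕ) : R.tt ell i i = 1 := by
  cases i with
  | zero => unfold tt; simp
  | succ i => unfold tt; simp

lemma tt_lt {i n : ℕ} (h : n < i) : R.tt ell i n = 0 := by
  cases n with
  | zero => unfold tt; rw [if_neg (by omega)]
  | succ n => unfold tt; rw [if_pos h]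

lemma tt_gt {i n : ℕ} (h : i < n) : R.tt ell i n = max 0 (R.tt ell i (R.p n) - ell n) := by
  cases n with
  | zero => omega
  | succ n =>
    conv => lhs; unfold tt
    rw [if_neg (by omega), if_neg (by omega)]

lemma tt_nonneg (i n : ℕ) : 0 ≤ R.tt ell i n := by
  rcases lt_trichotomy n i with h | h | h
  · rw [R.tt_lt ell h]
  · rw [h, R.tt_self]; exact zero_le_one
  · rw [R.tt_gt ell h]; exact le_max_left _ _

variable {ell}

lemma tt_le_one (hell : ∀ n, 0 ≤ ell n) (i n : ℕ) : R.tt ell i n ≤ 1 := by
  induction n using Nat.strong_induction_on with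
  | _ n ih =>
    rcases lt_trichotomy n i with h | h | h
    · rw [R.tt_lt ell h]; exact zero_le_one
    · rw [h, R.tt_self]
    · rw [R.tt_gt ell h]
      refine max_le zero_le_one ?_
      have := ih _ (R.p_lt (by omega : 0 < n))
      have := hell n
      linarith

lemma tt_le_sub (hell : ∀ n, 0 ≤ ell n) (hell1 : ∀ n, ell n ≤ 1) {i n : ℕ} (h : i < n) :
    R.tt ell i n ≤ 1 - ell n := by
  rw [R.tt_gt ell h]
  refine max_le (by have := hell1 n; linarith) ?_
  have := R.tt_le_one hell i (R.p n)
  linarith

lemma tt_ge_sub {i n : ℕ} (h : i < n) : R.tt ell i (R.p n) - ell n ≤ R.tt ell i n := by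
  rw [R.tt_gt ell h]; exact le_max_right _ _

lemma tt_le_p (hell : ∀ n, 0 ≤ ell n) {i n : ℕ} (h : i < n) :
    R.tt ell i n ≤ R.tt ell i (R.p n) := by
  rw [R.tt_gt ell h]
  refine max_le (R.tt_nonneg ell _ _) ?_
  have := hell n
  linarith

lemma tt_pos_eq {i n : ℕ} (h : i < n) (hpos : 0 < R.tt ell i n) :
    R.tt ell i n = R.tt ell i (R.p n) - ell n := by
  rw [R.tt_gt ell h] at hpos ⊢
  rcases lt_max_iff.1 hpos with h1 | h1
  · exact absurd h1 (lt_irrefl _)
  · exact max_eq_right h1.le

/-- triangle inequality -/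
lemma tt_triangle (hell : ∀ n, 0 ≤ ell n) (a i n : ℕ) :
    R.tt ell a i - (1 - R.tt ell i n) ≤ R.tt ell a n := by
  induction n using Nat.strong_induction_on with
  | _ n ih =>
    have h0 := R.tt_nonneg ell a n
    have h1 := R.tt_le_one hell a i
    rcases lt_trichotomy n i with h | h | h
    · rw [R.tt_lt ell h]; linarith
    · rw [h, R.tt_self]; linarith
    · rcases (R.tt_nonneg ell i n).eq_or_lt with h2 | h2
      · rw [← h2]; linarith
      · rw [R.tt_pos_eq h h2]
        have h3 := ih _ (R.p_lt (by omega : 0 < n))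
        rcases lt_trichotomy a n with h4 | h4 | h4
        · have := R.tt_ge_sub (ell := ell) h4
          linarith
        · rw [h4, R.tt_self]
          have := R.tt_le_one hell i (R.p n)
          have := hell n
          have h5 : R.tt ell n i = 0 := R.tt_lt ell h
          linarith
        · have h5 : R.tt ell a i = 0 := R.tt_lt ell (by omega)
          have := R.tt_le_one hell i (R.p n)
          have := hell n
          linarith

lemma tt_anc (hell : ∀ n, 0 ≤ ell n) {a N : ℕ} (ha : a ≤ N) (n : ℕ) :
    R.tt ell a n ≤ R.tt ell a (R.anc N n) := by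
  induction n using Nat.strong_induction_on with
  | _ n ih =>
    rcases le_or_gt n N with h | h
    · rw [R.anc_of_le h]
    · rw [R.anc_of_gt h]
      exact (R.tt_le_p hell (by omega)).trans (ih _ (R.p_lt (by omega)))

/-- size conditions on the edge lengths -/
structure Small (ell : ℕ → ℝ) : Prop where
  pos : ∀ n, 0 < ell n
  zero : ell 0 ≤ 1
  small : ∀ i n, i < n → ell n ≤ (1 / 2) ^ (n + 1) * ell i

lemma Small.nonneg {ell : ℕ → ℝ} (h : Small ell) (n : ℕ) : 0 ≤ ell n := (h.pos n).le

lemma Small.le_one {ell : ℕ → ℝ} (h : Small ell) (n : ℕ) : ell n ≤ 1 := by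
  cases n with
  | zero => exact h.zero
  | succ n =>
    have h1 := h.small 0 (n + 1) (Nat.succ_pos n)
    have h2 : ((1:ℝ) / 2) ^ (n + 1 + 1) ≤ 1 := pow_le_one₀ (by norm_num) (by norm_num)
    have h3 := h.zero
    have h4 := h.pos 0
    nlinarith

lemma Small.le_pow {ell : ℕ → ℝ} (h : Small ell) {n : ℕ} (hn : 0 < n) :
    ell n ≤ (1 / 2) ^ (n + 1) := by
  have h1 := h.small 0 n hn
  have h3 := h.zero
  have h5 : (0:ℝ) ≤ (1 / 2) ^ (n + 1) := by positivity
  calc ell n ≤ (1 / 2) ^ (n + 1) * ell 0 := h1
    _ ≤ (1 / 2) ^ (n + 1) * 1 := mul_le_mul_of_nonneg_left h3 h5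
    _ = _ := mul_one _

/-- along the main edge -/
lemma tt_main (h : Small ell) {a : ℕ} (im : ℕ × ℕ) (ha : a ≤ im.1) : ∀ n, im.1 ≤ n →
    R.tt ell a (R.dflt im) - ell im.1 * ((1 / 2) ^ (im.1 + 1) - (1 / 2) ^ (n + 1))
      ≤ R.tt ell a (R.s n im) := by
  intro n hn
  induction n, hn using Nat.le_induction with
  | base => rw [R.s_self]; simp
  | succ n hn ih =>
    rw [R.s_step hn]
    have hpi := h.pos im.1
    have hpow : ((1:ℝ) / 2) ^ (n + 1 + 1) = (1 / 2) ^ (n + 1) / 2 := by ring
    have hp0 : (0:ℝ) < (1 / 2) ^ (n + 1) := by positivity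
    split_ifs with he
    · have h1 := R.tt_ge_sub (ell := ell) (i := a) (n := n + 1) (by omega)
      rw [R.p_succ_some he] at h1
      have h2 := h.small im.1 (n + 1) (by omega)
      rw [hpow] at h2 ⊢
      nlinarith
    · refine le_trans ?_ ih
      have : ell im.1 * ((1 / 2) ^ (im.1 + 1) - (1 / 2) ^ (n + 1))
          ≤ ell im.1 * ((1 / 2) ^ (im.1 + 1) - (1 / 2) ^ (n + 1 + 1)) := by
        refine mul_le_mul_of_nonneg_left ?_ hpi.le
        rw [hpow]; linarith
      linarith

/-- loops: smallness uniformly in `n` -/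
lemma tt_loop (h : Small ell) {i m : ℕ} (hm : m ≠ 0) : ∀ n, i ≤ n →
    1 - R.tt ell i (R.s n (i, m)) ≤ (1 / 2) ^ m := by
  have key : ∀ n, i ≤ n → 1 - R.tt ell i (R.s n (i, m)) ≤
      (if n < m then 0 else (1 / 2) ^ m - (1 / 2) ^ (n + 1)) := by
    intro n hn
    induction n, hn using Nat.le_induction with
    | base =>
      have := R.s_self (i, m)
      simp only at this
      rw [this]
      simp only [dflt, hm, if_false, tt_self]
      split_ifs with h1
      · simp
      · have : ((1:ℝ) / 2) ^ (i + 1) ≤ (1 / 2) ^ m :=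
          pow_le_pow_of_le_one (by norm_num) (by norm_num) (by omega)
        linarith
    | succ n hn ih =>
      rw [R.s_step hn]
      have hpow : ((1:ℝ) / 2) ^ (n + 1 + 1) = (1 / 2) ^ (n + 1) / 2 := by ring
      have hp0 : (0:ℝ) < (1 / 2) ^ (n + 1) := by positivity
      split_ifs with he h1 h1
      · have := (R.he _ _ _ he).2
        omega
      · have h2 := R.tt_ge_sub (ell := ell) (i := i) (n := n + 1) (by omega)
        rw [R.p_succ_some he] at h2
        have h3 := h.le_pow (n := n + 1) (Nat.succ_pos n)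
        rw [hpow] at h3 ⊢
        have h4 : (if n < m then (0:ℝ) else (1 / 2) ^ m - (1 / 2) ^ (n + 1))
            ≤ (1 / 2) ^ m - (1 / 2) ^ (n + 1) := by
          split_ifs with h5
          · have h6 : m = n + 1 := by omega
            rw [h6]; simp
          · exact le_rfl
        linarith
      · rw [if_pos (by omega)] at ih
        exact ih
      · refine ih.trans ?_
        split_ifs with h5
        · have : ((1:ℝ) / 2) ^ (n + 1 + 1) ≤ (1 / 2) ^ m :=
            pow_le_pow_of_le_one (by norm_num) (by norm_num) (by omega)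
          linarith
        · rw [hpow]; linarith
  intro n hn
  refine (key n hn).trans ?_
  split_ifs
  · positivity
  · have : (0:ℝ) < (1 / 2) ^ (n + 1) := by positivity
    linarith

/-- closeness to an inserted state -/
lemma tt_ins (h : Small ell) {k : ℕ} {im : ℕ × ℕ} (hk : R.e k = some im) : ∀ n, k ≤ n →
    1 - R.tt ell k (R.s n im) ≤ (1 / 2) ^ (k + 1) := by
  have him : im.1 < k := (R.he k im.1 im.2 hk).1
  have key : ∀ n, k ≤ n → 1 - R.tt ell k (R.s n im) ≤ (1 / 2) ^ (k + 1) - (1 / 2) ^ (n + 1) := by
    intro n hn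
    induction n, hn using Nat.le_induction with
    | base =>
      obtain ⟨k', rfl⟩ : ∃ k', k = k' + 1 := ⟨k - 1, by omega⟩
      rw [R.s_step (by omega), if_pos hk, tt_self]
      simp
    | succ n hn ih =>
      rw [R.s_step (by omega)]
      have hpow : ((1:ℝ) / 2) ^ (n + 1 + 1) = (1 / 2) ^ (n + 1) / 2 := by ring
      have hp0 : (0:ℝ) < (1 / 2) ^ (n + 1) := by positivity
      split_ifs with he
      · have h2 := R.tt_ge_sub (ell := ell) (i := k) (n := n + 1) (by omega)
        rw [R.p_succ_some he] at h2
        have h3 := h.le_pow (n := n + 1) (Nat.succ_pos n)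
        rw [hpow] at h3 ⊢
        linarith
      · rw [hpow]; linarith
  intro n hn
  have := key n hn
  have hp0 : (0:ℝ) < (1 / 2) ^ (n + 1) := by positivity
  linarith

end Res

end Run7.h251
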